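import Pool.Agent.Work.MP_5e120e_nt.Frames

/-! # Finitely many classes of bounded determinant; cubic fields -/

namespace Pool.Agent.L3

/-- Hermite form -/
theorem hermite {a b c d : ℤ} (hd : a * d - b * c ≠ 0) : ∃ A B C D h₁ h₂ h₃ : ℤ,
    A * D - B * C = 1 ∧ a = A * h₁ ∧ c = C * h₁ ∧ b = A * h₂ + B * h₃ ∧ d = C * h₂ + D * h₃ ∧
      h₁ * h₃ = a * d - b * c ∧ 0 ≤ h₂ ∧ h₂ < |h₃| := by
  -- the first column
  have hg0' : ((Int.gcd a c : ℕ) : ℤ) ≠ 0 := by
    intro h0
    have h1 : Int.gcd a c = 0 := by exact_mod_cast h0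
    rw [Int.gcd_eq_zero_iff] at h1
    apply hd
    rw [h1.1, h1.2]
    ring
  set g : ℤ := (Int.gcd a c : ℤ) with hg
  have hg0 : g ≠ 0 := hg0'
  obtain ⟨a', ha'⟩ : g ∣ a := Int.gcd_dvd_left ..
  obtain ⟨c', hc'⟩ : g ∣ c := Int.gcd_dvd_right ..
  have hbz : g = a * Int.gcdA a c + c * Int.gcdB a c := Int.gcd_eq_gcd_ab a c
  set u := Int.gcdA a c
  set v := Int.gcdB a c
  have huv : a' * u + c' * v = 1 := by
    apply mul_left_cancel₀ hg0
    linear_combination (-1 : ℤ) * hbz - u * ha' - v * hc'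
  set s := u * b + v * d with hs
  set t := a' * d - c' * b with ht
  have hgt : g * t = a * d - b * c := by
    rw [ht]
    linear_combination (-d) * ha' + b * hc'
  have ht0 : t ≠ 0 := by
    intro h0
    apply hd
    rw [← hgt, h0, mul_zero]
  have hb : b = a' * s - v * t := by
    rw [hs, ht]
    linear_combination (-b) * huv
  have hdd : d = c' * s + u * t := by
    rw [hs, ht]
    linear_combination (-d) * huv
  have e := Int.emod_add_mul_ediv s t
  refine ⟨a', a' * (s / t) - v, c', c' * (s / t) + u, g, s % t, t, ?_, ?_, ?_, ?_, ?_, hgt, ?_, ?_⟩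
  · linear_combination huv
  · rw [ha']; ring
  · rw [hc']; ring
  · linear_combination hb - a' * e
  · linear_combination hdd - c' * e
  · exact Int.emod_nonneg _ ht0
  · exact Int.emod_lt_abs _ ht0

/-- **finitely many classes** -/
theorem finite_classes (x : ℝ) (N : ℕ) : ∃ F : Finset ℝ, ∀ a b c d : ℤ, a * d - b * c ≠ 0 →
    |a * d - b * c| ≤ N → ∃ z ∈ F, ∃ A B C D : ℤ, A * D - B * C = 1 ∧
      (a * x + b) / (c * x + d) = (A * z + B) / (C * z + D) := by
  classical
  refine ⟨((Finset.Icc (-(N : ℤ)) N ×ˢ (Finset.Icc (-(N : ℤ)) N ×ˢ Finset.Icc (-(N : ℤ)) N))).image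
    (fun h => ((h.1 : ℝ) * x + h.2.1) / h.2.2), ?_⟩
  intro a b c d hd hN
  obtain ⟨A, B, C, D, h₁, h₂, h₃, hU, ea, ec, eb, ed, hdet, b1, b2⟩ := hermite hd
  have h1 : h₁ ≠ 0 := by
    intro h0
    rw [h0, zero_mul] at hdet
    exact hd hdet.symm
  have h3 : h₃ ≠ 0 := by
    intro h0
    rw [h0, mul_zero] at hdet
    exact hd hdet.symm
  have k1 : (1 : ℤ) ≤ |h₁| := Int.one_le_abs h1
  have k3 : (1 : ℤ) ≤ |h₃| := Int.one_le_abs h3
  rw [← hdet, abs_mul] at hN
  have m1 : |h₁| ≤ N := by nlinarith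
  have m3 : |h₃| ≤ N := by nlinarith
  refine ⟨((h₁ : ℝ) * x + h₂) / h₃, ?_, A, B, C, D, hU, ?_⟩
  · rw [Finset.mem_image]
    refine ⟨(h₁, h₂, h₃), ?_, rfl⟩
    simp only [Finset.mem_product, Finset.mem_Icc]
    refine ⟨abs_le.1 m1, ⟨by linarith, by linarith⟩, abs_le.1 m3⟩
  · have h3r : (h₃ : ℝ) ≠ 0 := by exact_mod_cast h3
    have ea' : (a : ℝ) = A * h₁ := by exact_mod_cast ea
    have eb' : (b : ℝ) = A * h₂ + B * h₃ := by exact_mod_cast eb
    have ec' : (c : ℝ) = C * h₁ := by exact_mod_cast ec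
    have ed' : (d : ℝ) = C * h₂ + D * h₃ := by exact_mod_cast ed
    have n1 : (A : ℝ) * (((h₁ : ℝ) * x + h₂) / h₃) + B = (a * x + b) / h₃ := by
      rw [ea', eb']
      field_simp
      ring
    have n2 : (C : ℝ) * (((h₁ : ℝ) * x + h₂) / h₃) + D = (c * x + d) / h₃ := by
      rw [ec', ed']
      field_simp
      ring
    rw [n1, n2, div_div_div_cancel_right₀ h3r]

/-- integers with a common factor removed -/
theorem content_one (v : Fin 4 → ℚ) (hv : ∃ i, v i ≠ 0) : ∃ (r : ℚ) (w : Fin 4 → ℤ), r ≠ 0 ∧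
    (∀ i, v i = r * w i) ∧ ∀ m : ℤ, (∀ i, m ∣ w i) → IsUnit m := by
  classical
  -- clear the denominators
  set D : ℕ := ∏ i, (v i).den with hD
  have hDpos : 0 < D := Finset.prod_pos fun i _ => (v i).den_pos
  have hint : ∀ i, ∃ z : ℤ, (z : ℚ) = v i * D := by
    intro i
    refine ⟨(v i).num * ∏ j ∈ Finset.univ.erase i, ((v j).den : ℤ), ?_⟩
    have e1 : D = (v i).den * ∏ j ∈ Finset.univ.erase i, (v j).den := by
      rw [hD, Finset.mul_prod_erase Finset.univ (fun j => (v j).den) (Finset.mem_univ i)]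
    have e2 : v i * (v i).den = (v i).num := Rat.mul_den_eq_num _
    rw [e1]
    push_cast
    rw [← mul_assoc, e2]
  choose z hz using hint
  set g : ℤ := Finset.univ.gcd z with hg
  have hg0 : g ≠ 0 := by
    intro h0
    rw [hg, Finset.gcd_eq_zero_iff] at h0
    obtain ⟨i, hi⟩ := hv
    have h1 := h0 i (Finset.mem_univ i)
    have h2 := hz i
    rw [h1] at h2
    have hD' : (D : ℚ) ≠ 0 := by exact_mod_cast hDpos.ne'
    rw [Int.cast_zero] at h2
    rcases mul_eq_zero.1 h2.symm with h3 | h3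
    · exact hi h3
    · exact hD' h3
  have hdv : ∀ i, ∃ w, z i = g * w := fun i => Finset.gcd_dvd (Finset.mem_univ i)
  choose w hw using hdv
  have hD' : (D : ℚ) ≠ 0 := by exact_mod_cast hDpos.ne'
  have hg' : (g : ℚ) ≠ 0 := by exact_mod_cast hg0
  refine ⟨g / D, w, div_ne_zero hg' hD', fun i => ?_, fun m hm => ?_⟩
  · have e1 := hz i
    rw [hw i] at e1
    push_cast at e1
    field_simp
    linarith
  · have h1 : g * m ∣ g := by
      conv_rhs => rw [hg]
      apply Finset.dvd_gcd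
      intro i _
      rw [hw i]
      exact mul_dvd_mul_left g (hm i)
    have h2 : m ∣ 1 := by
      have : g * m ∣ g * 1 := by rw [mul_one]; exact h1
      exact (mul_dvd_mul_iff_left hg0).1 this
    exact isUnit_of_dvd_one h2

/-- **cubic fields**: two irrational elements are related by an integral matrix of content one -/
theorem cubic_rel (K : IntermediateField ℚ ℝ) (hK : Module.finrank ℚ K = 3) {α β : ℝ}
    (hα : α ∈ K) (hβ : β ∈ K) (iα : Irrational α) (iβ : Irrational β) :
    ∃ a b c d : ℤ, a * d - b * c ≠ 0 ∧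
      (∀ m : ℤ, m ∣ a → m ∣ b → m ∣ c → m ∣ d → IsUnit m) ∧ β = (a * α + b) / (c * α + d) := by
  have : FiniteDimensional ℚ K := Module.finite_of_finrank_pos (by rw [hK]; norm_num)
  set α' : K := ⟨α, hα⟩ with hα'
  set β' : K := ⟨β, hβ⟩ with hβ'
  have hdep : ¬ LinearIndependent ℚ (![1, α', β', α' * β'] : Fin 4 → K) := by
    intro h
    have := h.fintype_card_le_finrank
    rw [hK] at this
    simp at this
  rw [Fintype.not_linearIndependent_iff] at hdep
  obtain ⟨g, hg, hne⟩ := hdep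
  obtain ⟨r, w, hr, hw, hcont⟩ := content_one g hne
  have hrel : (w 0 : ℝ) + w 1 * α + w 2 * β + w 3 * (α * β) = 0 := by
    have h1 := congrArg (algebraMap K ℝ) hg
    rw [map_sum, map_zero] at h1
    simp only [Fin.sum_univ_four, hw, Algebra.smul_def, map_mul] at h1
    have hr' : (r : ℝ) ≠ 0 := by exact_mod_cast hr
    apply mul_left_cancel₀ hr'
    rw [mul_zero]
    have e1 : algebraMap K ℝ α' = α := rfl
    have e2 : algebraMap K ℝ β' = β := rfl
    have e3 : ∀ q : ℚ, algebraMap K ℝ (algebraMap ℚ K q) = (q : ℝ) := fun q => by simp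
    simp only [Matrix.cons_val_zero, Matrix.cons_val_one, Matrix.cons_val, map_one, map_mul, e1, e2,
      e3, map_intCast, mul_one] at h1
    linear_combination h1
  have hcd : ((w 3 : ℤ) : ℝ) * α + (w 2 : ℤ) ≠ 0 := by
    intro h0
    have h1 : ¬ (((w 2 : ℤ)) ≠ 0 ∨ (w 3 : ℤ) ≠ 0) := by
      intro hc
      refine no_root_of_irr iα (p := w 2) (q := -w 3) ?_ ?_
      · rintro ⟨e1, e2⟩
        rcases hc with h | h
        · exact h e1
        · exact h (by omega)
      · push_cast
        linarith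
    push Not at h1
    obtain ⟨z2, z3⟩ := h1
    rw [z2, z3] at hrel
    have h2 : ((w 1 : ℤ) : ℝ) * α + (w 0 : ℤ) = 0 := by
      push_cast at hrel
      linarith
    have h3 : ¬ (((w 0 : ℤ)) ≠ 0 ∨ (w 1 : ℤ) ≠ 0) := by
      intro hc
      refine no_root_of_irr iα (p := w 0) (q := -w 1) ?_ ?_
      · rintro ⟨e1, e2⟩
        rcases hc with h | h
        · exact h e1
        · exact h (by omega)
      · push_cast
        linarith
    push Not at h3
    have := hcont 0 (by
      intro i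
      fin_cases i
      · exact ⟨0, by simpa using h3.1⟩
      · exact ⟨0, by simpa using h3.2⟩
      · exact ⟨0, by simpa using z2⟩
      · exact ⟨0, by simpa using z3⟩)
    exact not_isUnit_zero this
  have hβeq : β = (((-w 1 : ℤ) : ℝ) * α + ((-w 0 : ℤ) : ℝ)) / (((w 3 : ℤ) : ℝ) * α + (w 2 : ℤ)) := by
    rw [eq_div_iff hcd]
    push_cast
    linarith
  refine ⟨-w 1, -w 0, w 3, w 2, ?_, ?_, hβeq⟩
  · intro h0
    have h1 : -((w 1 : ℤ) : ℝ) * (w 2 : ℤ) = -((w 0 : ℤ) : ℝ) * (w 3 : ℤ) := by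
      have : -w 1 * w 2 = -w 0 * w 3 := by linarith
      exact_mod_cast this
    have hb : β * (((w 3 : ℤ) : ℝ) * α + (w 2 : ℤ)) = -(w 1 : ℤ) * α - (w 0 : ℤ) := by
      linarith
    by_cases h2 : w 2 = 0
    · have h3 : w 3 ≠ 0 := by
        intro h3
        apply hcd
        rw [h2, h3]
        simp
      refine no_root_of_irr iβ (p := -w 1) (q := w 3) (fun h => h3 h.2) ?_
      have h4 : (((-w 1 : ℤ) : ℝ) - β * (w 3 : ℤ)) * (((w 3 : ℤ) : ℝ) * α + (w 2 : ℤ)) = 0 := by
        push_cast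
        linear_combination h1 - (w 3 : ℝ) * hb
      exact (mul_eq_zero.1 h4).resolve_right hcd
    · refine no_root_of_irr iβ (p := -w 0) (q := w 2) (fun h => h2 h.2) ?_
      have h4 : (((-w 0 : ℤ) : ℝ) - β * (w 2 : ℤ)) * (((w 3 : ℤ) : ℝ) * α + (w 2 : ℤ)) = 0 := by
        push_cast
        linear_combination (-α) * h1 - (w 2 : ℝ) * hb
      exact (mul_eq_zero.1 h4).resolve_right hcd
  · intro m h1 h2 h3 h4
    apply hcont
    intro i
    fin_cases i
    · exact (dvd_neg).1 h2
    · exact (dvd_neg).1 h1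
    · exact h4
    · exact h3

/-- irrational elements of a cubic field are not quadratic -/
theorem cubic_not_quad (K : IntermediateField ℚ ℝ) (hK : Module.finrank ℚ K = 3) {α : ℝ}
    (hα : α ∈ K) (iα : Irrational α) : ¬ Quad α := by
  rintro ⟨A, B, C, hA, h⟩
  have : FiniteDimensional ℚ K := Module.finite_of_finrank_pos (by rw [hK]; norm_num)
  set α' : K := ⟨α, hα⟩ with hα'
  -- the basis `1, α` and multiplication
  have hdep : ¬ LinearIndependent ℚ (![1, α', α' ^ 2] : Fin 3 → K) := by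
    rw [Fintype.not_linearIndependent_iff]
    refine ⟨![(C : ℚ), B, A], ?_, 2, by simpa using hA⟩
    apply (algebraMap K ℝ).injective
    rw [map_sum, map_zero]
    simp only [Fin.sum_univ_three, Algebra.smul_def, map_mul, Matrix.cons_val_zero,
      Matrix.cons_val_one, Matrix.cons_val, map_one, map_pow, map_intCast]
    have e1 : algebraMap K ℝ α' = α := rfl
    rw [e1]
    linear_combination h
  have hdeg : (minpoly ℚ α').natDegree ≤ 2 := by
    by_contra hc
    push Not at hc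
    apply hdep
    have hli := linearIndependent_pow (K := ℚ) α'
    have hli2 := hli.comp (fun i : Fin 3 => (⟨i, by omega⟩ : Fin (minpoly ℚ α').natDegree))
      (fun i j hij => by
        simp only [Fin.mk.injEq] at hij
        exact Fin.ext hij)
    have e : (![1, α', α' ^ 2] : Fin 3 → K) = (fun i : Fin (minpoly ℚ α').natDegree => α' ^ (i : ℕ)) ∘
        (fun i : Fin 3 => (⟨i, by omega⟩ : Fin (minpoly ℚ α').natDegree)) := by
      funext i
      fin_cases i <;> simp
    rw [e]
    exact hli2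
  have hint : IsIntegral ℚ α' := Algebra.IsIntegral.isIntegral α'
  have hdvd : (minpoly ℚ α').natDegree ∣ 3 := by
    rw [← hK]
    exact minpoly.degree_dvd hint
  have h1 : (minpoly ℚ α').natDegree = 1 := by
    have hpos := minpoly.natDegree_pos hint
    rcases (Nat.dvd_prime (by norm_num)).1 hdvd with h2 | h2
    · exact h2
    · omega
  obtain ⟨q, hq⟩ := minpoly.natDegree_eq_one_iff.1 h1
  apply iα
  refine ⟨q, ?_⟩
  have h2 := congrArg (algebraMap K ℝ) hq
  have e1 : algebraMap K ℝ α' = α := rfl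
  rw [e1] at h2
  rw [← h2]
  simp

end Pool.Agent.L3
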