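import Pool.Agent.Work.MP_5e120e_nt.Digits

/-! # Two chains with a common left part -/

namespace Pool.Agent.L3

theorem dt_comm (v w : ℤ × ℤ) : dt v w = -dt w v := by
  unfold dt
  ring

section
variable {x y : ℤ → ℝ} {a : ℤ → ℤ} {x' y' : ℤ → ℝ} {a' : ℤ → ℤ}

theorem digit_unique {a b : ℤ} {s t : ℝ} (hs : 0 < s ∧ s < 1) (ht : 0 < t ∧ t < 1)
    (h : (a : ℝ) + s = b + t) : a = b := by
  have h1 : (a : ℝ) < b + 1 := by linarith [hs.1, ht.2]
  have h2 : (b : ℝ) < a + 1 := by linarith [hs.2, ht.1]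
  have h3 : a < b + 1 := by exact_mod_cast h1
  have h4 : b < a + 1 := by exact_mod_cast h2
  omega

/-- common left value, common left digits -/
theorem left_agree (h : Ch x y a) (h' : Ch x' y' a') (hy : y 0 = y' 0) (k : ℤ) (hk : k < 0) :
    a k = a' k := by
  have key : ∀ n : ℕ, y (-n) = y' (-n) ∧ a (-n - 1) = a' (-n - 1) := by
    intro n
    induction n with
    | zero =>
      have e1 := h.hy (-1)
      have e2 := h'.hy (-1)
      norm_num at e1 e2
      refine ⟨by simpa using hy, ?_⟩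
      have hh : (a (-1) : ℝ) + (y (-1))⁻¹ = a' (-1) + (y' (-1))⁻¹ := by rw [← e1, ← e2, hy]
      have i1 := h.inv_y (-1)
      have i2 := h'.inv_y (-1)
      rw [one_div] at i1 i2
      simpa using digit_unique i1 i2 hh
    | succ n ih =>
      have e1 := h.hy (-n - 1)
      have e2 := h'.hy (-n - 1)
      rw [sub_add_cancel] at e1 e2
      have hyn : y (-n - 1) = y' (-n - 1) := by
        have h3 : 1 / y (-n - 1) = 1 / y' (-n - 1) := by
          rw [ih.1, e2, ih.2] at e1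
          linarith
        have p1 := h.hy1 (-n - 1)
        have p2 := h'.hy1 (-n - 1)
        rw [one_div, one_div] at h3
        exact inv_injective h3
      have e3 := h.hy (-n - 1 - 1)
      have e4 := h'.hy (-n - 1 - 1)
      rw [sub_add_cancel] at e3 e4
      have h5 := digit_unique (h.inv_y (-n - 1 - 1)) (h'.inv_y (-n - 1 - 1))
        (by rw [← e3, ← e4, hyn])
      refine ⟨?_, ?_⟩
      · push_cast
        rw [show -((n : ℤ) + 1) = -n - 1 by ring]
        exact hyn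
      · push_cast
        rw [show -((n : ℤ) + 1) - 1 = -n - 1 - 1 by ring]
        exact h5
  obtain ⟨n, hn⟩ := Int.eq_ofNat_of_zero_le (show 0 ≤ -k - 1 by omega)
  have := (key n).2
  rw [show -(n : ℤ) - 1 = k by omega] at this
  exact this

/-- the periodic / skew alternative for a nonperiodic chain of rational slope -/
theorem skew_case (h : Ch x y a) (hl : ∀ k, x k + 1 / y k ≤ 3) {k₀ : ℤ}
    (hk₀ : a (k₀ - 1) ≠ a k₀) (hnp : ¬ Per (x 0) (-1 / y 0)) {S : ℤ → ℤ}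
    (hS : IsH S (wd a k₀)) {α : ℝ} (hα : Slope S α) (hrat : ¬ Irrational α) :
    ∃ v w : ℤ × ℤ, dt v w ≠ 0 ∧ |Qf (x 0) (y 0) v| = 1 / 3 ∧ |Qf (x 0) (y 0) w| = 1 / 3 := by
  obtain ⟨e, hf⟩ := exists_frames a
  have hB := bal_of_mp (h.wd_isW hl k₀) hS (h.wd_mp hl hk₀) (h.wd_mp' hl hk₀)
  have hper : ¬ ∃ q : ℕ, 0 < q ∧ ∀ n, wd a k₀ (n + q) = wd a k₀ n := by
    rintro ⟨q, hq, hq2⟩
    apply hnp
    refine h.per (r := 2 * q) (by omega) (fun k => ?_)
    have e1 := h.wd_digit hl hk₀ (k - k₀)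
    have e2 := h.wd_digit hl hk₀ (k - k₀ + 2 * q)
    rw [show k₀ + (k - k₀) = k by ring] at e1
    rw [show k₀ + (k - k₀ + 2 * (q : ℤ)) = k + ((2 * q : ℕ) : ℤ) by push_cast; ring,
      show (k - k₀ + 2 * (q : ℤ)) / 2 = (k - k₀) / 2 + q by omega, hq2] at e2
    rw [e1, e2]
  obtain ⟨N, N', hNN, hN, hN'⟩ := skew hS hB hα hrat hper
  have hval : ∀ k, x k + 1 / y k = 3 → |Qf (x 0) (y 0) (e k)| = 1 / 3 := by
    intro k hk
    have h1 := h.Qe hf k
    rw [hk] at h1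
    have h2 : Qf (x 0) (y 0) (e k) = dt (e k) (e (k - 1)) / 3 := by
      field_simp
      linarith
    rw [h2]
    rcases hf.det_abs k with h3 | h3 <;> rw [h3] <;> norm_num
  have hidx : ∀ N, EqAt (wd a k₀) N → ∃ m, (m = k₀ + 2 * N ∨ m = k₀ + 2 * N - 1) ∧
      x m + 1 / y m = 3 := by
    intro N hN
    have h1 := h.eqAt hl hk₀ hN
    rcases h.wd_isW hl k₀ N with h2 | h2
    · exact ⟨_, Or.inr rfl, h1.2 h2⟩
    · exact ⟨_, Or.inl rfl, h1.1 h2⟩
  obtain ⟨m, hm1, hm2⟩ := hidx N hN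
  obtain ⟨m', hm1', hm2'⟩ := hidx N' hN'
  have hne : m ≠ m' := by omega
  refine ⟨e m, e m', ?_, hval m hm2, hval m' hm2'⟩
  rcases lt_or_gt_of_ne hne with h1 | h1
  · exact h.det_ne hf h1
  · rw [dt_comm]
    exact neg_ne_zero.2 (h.det_ne hf h1)

/-- the irrational case -/
theorem core_irr (h : Ch x y a) (hl : ∀ k, x k + 1 / y k ≤ 3) (h' : Ch x' y' a')
    (hl' : ∀ k, x' k + 1 / y' k ≤ 3) {k₀ k₁ K : ℤ} (hk₀ : a (k₀ - 1) ≠ a k₀)
    (hk₀' : a' (k₀ - 1) ≠ a' k₀) (hK : k₁ = k₀ + 2 * K) (hcom : ∀ k, k < k₁ → a k = a' k)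
    {e e' : ℤ → ℤ × ℤ} (hf : Fr a e) (hf' : Fr a' e') (he : e k₁ = e' k₁)
    (he1 : e (k₁ - 1) = e' (k₁ - 1)) {S S' : ℤ → ℤ} (hS : IsH S (wd a k₀))
    (hS' : IsH S' (wd a' k₀)) {α : ℝ} (hα : Slope S α) (hα' : Slope S' α)
    (hirr : Irrational α) (h0 : wd a k₀ K = 0) (h1 : wd a' k₀ K = 1) :
    ∃ (v : ℤ × ℤ) (D : ℝ), |D| = 1 ∧ Qf (x 0) (y 0) v * 3 = D ∧ Qf (x' 0) (y' 0) v * 3 = -D := by
  have hw : ∀ n, n < K → wd a k₀ n = wd a' k₀ n := by
    intro n hn
    unfold wd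
    rw [hcom _ (by omega)]
  obtain ⟨E1, E2, o1, o2⟩ := pair_irr hS hS' hα hα' hirr K hw h0 h1
  have v1 := (h.eqAt hl hk₀ E1).1 o1
  have v2 := (h'.eqAt hl' hk₀' E2).2 o2
  rw [show k₀ + 2 * (K + 1) = k₁ + 2 by rw [hK]; ring] at v1
  rw [show k₀ + 2 * (K + 1) - 1 = k₁ + 1 by rw [hK]; ring] at v2
  have a1 : a k₁ = 1 := by
    unfold wd at h0
    rw [hK]
    omega
  have a2 : a (k₁ + 1) = 1 := by
    rw [hK, h.align hl hk₀ K, ← hK]
    exact a1
  have a3 : a' k₁ = 2 := by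
    unfold wd at h1
    rw [hK]
    omega
  have f1 := hf.hs k₁
  have f2 := hf.hs (k₁ + 1)
  have f3 := hf'.hs k₁
  rw [a1] at f1
  rw [add_sub_cancel_right, a2, show k₁ + 1 + 1 = k₁ + 2 by ring] at f2
  rw [a3] at f3
  have hv : e (k₁ + 2) = e' (k₁ + 1) := by
    rw [f2, f1, f3, ← he, ← he1]
    ext <;> simp <;> ring
  have Q1 := h.Qe hf (k₁ + 2)
  have Q2 := h'.Qe hf' (k₁ + 1)
  rw [v1] at Q1
  rw [v2] at Q2
  have d1 := hf.det (k₁ + 1)
  have d2 := hf.det k₁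
  have d3 := hf'.det k₁
  rw [show k₁ + 1 + 1 = k₁ + 2 by ring, add_sub_cancel_right] at d1
  rw [show k₁ + 2 - 1 = k₁ + 1 by ring, d1, d2] at Q1
  rw [add_sub_cancel_right, d3, ← he, ← he1, ← hv] at Q2
  refine ⟨e (k₁ + 2), (dt (e k₁) (e (k₁ - 1)) : ℤ), ?_, ?_, ?_⟩
  · rcases hf.det_abs k₁ with h3 | h3 <;> rw [h3] <;> norm_num
  · rw [Q1]
    simp
  · rw [Q2]
    push_cast
    rfl

/-- **Theorem M**, reduced form -/
theorem pair_red (h : Ch x y a) (hl : ∀ k, x k + 1 / y k ≤ 3) (h' : Ch x' y' a')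
    (hl' : ∀ k, x' k + 1 / y' k ≤ 3) (hy : y 0 = y' 0) (hx : x 0 ≠ x' 0)
    (hnp : ¬ Per (x 0) (-1 / y 0)) :
    (∃ v : ℤ × ℤ, |Qf (x 0) (y 0) v| = 1 / 3 ∧ Qf (x' 0) (y' 0) v = -Qf (x 0) (y 0) v) ∨
    ∃ v w : ℤ × ℤ, dt v w ≠ 0 ∧ |Qf (x 0) (y 0) v| = 1 / 3 ∧ |Qf (x 0) (y 0) w| = 1 / 3 := by
  classical
  have hleft := left_agree h h' hy
  -- the first difference
  have hex : ∃ n : ℕ, a n ≠ a' n := by
    by_contra hcon
    push Not at hcon
    apply hx
    have h1 := h.right 0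
    have h2 := h'.right 0
    have := cf_eq h1.1 h2.1 h1.2 h2.2 (by
      intro i
      rw [zero_add]
      exact hcon i)
    simpa using this
  set n₁ := Nat.find hex with hn₁
  have hdiff : a n₁ ≠ a' n₁ := Nat.find_spec hex
  have hcom : ∀ k : ℤ, k < n₁ → a k = a' k := by
    intro k hk
    rcases lt_or_ge k 0 with h1 | h1
    · exact hleft k h1
    · obtain ⟨i, rfl⟩ := Int.eq_ofNat_of_zero_le h1
      by_contra hc
      exact Nat.find_min hex (m := i) (by omega) hc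
  obtain ⟨e, hf⟩ := exists_frames a
  obtain ⟨e', hf'⟩ := exists_frames a'
  have hee : ∀ n : ℕ, n ≤ n₁ → e n = e' n ∧ e ((n : ℤ) - 1) = e' ((n : ℤ) - 1) := by
    intro n
    induction n with
    | zero =>
      intro _
      simp only [Nat.cast_zero, zero_sub]
      exact ⟨hf.h0.trans hf'.h0.symm, hf.h1.trans hf'.h1.symm⟩
    | succ n ih =>
      intro hn
      obtain ⟨i1, i2⟩ := ih (by omega)
      push_cast
      rw [hf.hs n, hf'.hs n, hcom n (by omega), i1, i2, add_sub_cancel_right]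
      exact ⟨rfl, i1⟩
  obtain ⟨he, he1⟩ := hee n₁ le_rfl
  have hbd : ∃ k₀, a (k₀ - 1) ≠ a k₀ := by
    by_contra hcon
    push Not at hcon
    apply hnp
    refine h.per (r := 1) one_pos (fun k => ?_)
    have := hcon (k + 1)
    rw [add_sub_cancel_right] at this
    push_cast
    exact this.symm
  by_cases hc : ∃ k₀ : ℤ, k₀ < n₁ ∧ a (k₀ - 1) ≠ a k₀
  · obtain ⟨k₀, hk₀lt, hk₀⟩ := hc
    have hk₀' : a' (k₀ - 1) ≠ a' k₀ := by
      rw [← hcom (k₀ - 1) (by omega), ← hcom k₀ hk₀lt]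
      exact hk₀
    obtain ⟨S, hS, -⟩ := exists_height (wd a k₀)
    obtain ⟨S', hS', -⟩ := exists_height (wd a' k₀)
    have hB := bal_of_mp (h.wd_isW hl k₀) hS (h.wd_mp hl hk₀) (h.wd_mp' hl hk₀)
    have hB' := bal_of_mp (h'.wd_isW hl' k₀) hS' (h'.wd_mp hl' hk₀') (h'.wd_mp' hl' hk₀')
    obtain ⟨α, hα⟩ := exists_slope hB
    obtain ⟨α', hα'⟩ := exists_slope hB'
    by_cases hirr : Irrational α
    · left
      -- parity of the first difference
      obtain ⟨K, hK⟩ : ∃ K : ℤ, (n₁ : ℤ) = k₀ + 2 * K := by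
        rcases Int.even_or_odd' ((n₁ : ℤ) - k₀) with ⟨i, hi | hi⟩
        · exact ⟨i, by omega⟩
        · exfalso
          apply hdiff
          have e1 : (n₁ : ℤ) = k₀ + 2 * i + 1 := by omega
          rw [e1, h.align hl hk₀ i, h'.align hl' hk₀' i]
          exact hcom _ (by omega)
      have hw : ∀ n, n < K → wd a k₀ n = wd a' k₀ n := by
        intro n hn
        unfold wd
        rw [hcom _ (by omega)]
      have hαα : α = α' := slope_unique hS hS' hα hα' hw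
      subst hαα
      have hneK : wd a k₀ K ≠ wd a' k₀ K := by
        unfold wd
        rw [← hK]
        intro hc
        exact hdiff (by omega)
      rcases h.wd_isW hl k₀ K with w1 | w1 <;> rcases h'.wd_isW hl' k₀ K with w2 | w2
      · exact absurd (w1.trans w2.symm) hneK
      · obtain ⟨v, D, hD, q1, q2⟩ := core_irr h hl h' hl' hk₀ hk₀' hK hcom hf hf' he he1 hS hS'
          hα hα' hirr w1 w2
        refine ⟨v, ?_, by linarith⟩
        have : Qf (x 0) (y 0) v = D / 3 := by linarith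
        rw [this, abs_div, hD]
        norm_num
      · obtain ⟨v, D, hD, q1, q2⟩ := core_irr h' hl' h hl hk₀' hk₀ hK
          (fun k hk => (hcom k hk).symm) hf' hf he.symm he1.symm hS' hS hα' hα hirr w2 w1
        refine ⟨v, ?_, by linarith⟩
        have : Qf (x 0) (y 0) v = -D / 3 := by linarith
        rw [this, abs_div, abs_neg, hD]
        norm_num
      · exact absurd (w1.trans w2.symm) hneK
    · right
      exact skew_case h hl hk₀ hnp hS hα hirr
  · right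
    push Not at hc
    obtain ⟨k₀, hk₀⟩ := hbd
    obtain ⟨S, hS, -⟩ := exists_height (wd a k₀)
    have hB := bal_of_mp (h.wd_isW hl k₀) hS (h.wd_mp hl hk₀) (h.wd_mp' hl hk₀)
    obtain ⟨α, hα⟩ := exists_slope hB
    -- the left part is constant
    have hconst : ∀ j : ℕ, a ((n₁ : ℤ) - 1 - j) = a ((n₁ : ℤ) - 1) := by
      intro j
      induction j with
      | zero => simp
      | succ j ih =>
        have := hc ((n₁ : ℤ) - 1 - j) (by omega)
        push_cast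
        rw [show (n₁ : ℤ) - 1 - (j + 1) = (n₁ : ℤ) - 1 - j - 1 by ring, this]
        exact ih
    have hrat : α = ((a ((n₁ : ℤ) - 1) - 1 : ℤ) : ℝ) := by
      refine slope_const hS hα (n₀ := ((n₁ : ℤ) - k₀) / 2) ?_
      intro n hn
      unfold wd
      obtain ⟨j, hj⟩ := Int.eq_ofNat_of_zero_le (show 0 ≤ (n₁ : ℤ) - 1 - (k₀ + 2 * n) by omega)
      have := hconst j
      rw [show (n₁ : ℤ) - 1 - (j : ℤ) = k₀ + 2 * n by omega] at this
      rw [this]
    refine skew_case h hl hk₀ hnp hS hα ?_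
    rw [hrat]
    intro hirr
    exact hirr.ne_int _ rfl

end

end Pool.Agent.L3
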