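import Pool.Agent.Work.MP_5e120e_nt.States
import Pool.Agent.Work.MP_5e120e_nt.Pairs

/-! # The two minimal vectors of a skew word span a lattice whose index is a Markov number -/

namespace Pool.Agent.L3

/-- Markov numbers -/
def IsMarkov (m : ℤ) : Prop := ∃ a b : ℤ, 0 < a ∧ 0 < b ∧ 0 < m ∧ a ^ 2 + b ^ 2 + m ^ 2 = 3 * a * b * m

/-- Markov numbers with the square root of `-1` -/
def IsMk (m : ℤ) : Prop := IsMarkov m ∧ ∃ t : ℤ, m ∣ t ^ 2 + 1

/-- Christoffel words -/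
def cw (p q i : ℤ) : ℤ := (i + 1) * p / q - i * p / q

theorem cw_fac1 {q₁ q₂ p₁ p₂ : ℤ} (h1 : 1 ≤ q₁) (h2 : 1 ≤ q₂) (hd : p₂ * q₁ - p₁ * q₂ = 1) {i : ℤ}
    (hi0 : 0 ≤ i) (hi : i ≤ q₁) : i * (p₁ + p₂) / (q₁ + q₂) = i * p₁ / q₁ := by
  have e1 := Int.emod_add_mul_ediv (i * p₁) q₁
  have r0 := Int.emod_nonneg (i * p₁) (show q₁ ≠ 0 by omega)
  have r1 := Int.emod_lt_of_pos (i * p₁) (show 0 < q₁ by omega)
  set c := i * p₁ / q₁
  set r := i * p₁ % q₁
  rw [Int.ediv_eq_iff_of_pos (by omega)]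
  have key : q₁ * (i * (p₁ + p₂) - c * (q₁ + q₂)) = r * (q₁ + q₂) + i := by
    linear_combination (-(q₁ + q₂)) * e1 + i * hd
  constructor
  · by_contra hc
    push Not at hc
    nlinarith
  · by_contra hc
    push Not at hc
    nlinarith

theorem cw_fac2 {q₁ q₂ p₁ p₂ : ℤ} (h1 : 1 ≤ q₁) (h2 : 1 ≤ q₂) (hd : p₂ * q₁ - p₁ * q₂ = 1) {j : ℤ}
    (hj0 : 0 ≤ j) (hj : j ≤ q₂) :
    (q₁ + j) * (p₁ + p₂) / (q₁ + q₂) = p₁ + j * p₂ / q₂ := by
  have e1 := Int.emod_add_mul_ediv (j * p₂) q₂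
  have r0 := Int.emod_nonneg (j * p₂) (show q₂ ≠ 0 by omega)
  have r1 := Int.emod_lt_of_pos (j * p₂) (show 0 < q₂ by omega)
  set c := j * p₂ / q₂
  set r := j * p₂ % q₂
  rw [Int.ediv_eq_iff_of_pos (by omega)]
  have key : q₂ * ((q₁ + j) * (p₁ + p₂) - (p₁ + c) * (q₁ + q₂)) =
      (q₁ + q₂) * (1 + r) - (q₁ + j) := by
    linear_combination (-(q₁ + q₂)) * e1 - (q₁ + j) * hd + (q₁ + q₂) * hd
  constructor
  · by_contra hc
    push Not at hc
    nlinarith
  · by_contra hc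
    push Not at hc
    nlinarith

theorem Pr_fac {q₁ q₂ : ℕ} {p₁ p₂ : ℤ} (h1 : 1 ≤ q₁) (h2 : 1 ≤ q₂)
    (hd : p₂ * q₁ - p₁ * q₂ = 1) :
    Pr (cw (p₁ + p₂) ((q₁ + q₂ : ℕ) : ℤ)) 0 (q₁ + q₂) = Pr (cw p₁ q₁) 0 q₁ * Pr (cw p₂ q₂) 0 q₂ := by
  have g1 : (1 : ℤ) ≤ q₁ := by exact_mod_cast h1
  have g2 : (1 : ℤ) ≤ q₂ := by exact_mod_cast h2
  rw [Pr_add]
  congr 1
  · apply Pr_congr
    intro i hi
    have hi' : (i : ℤ) < q₁ := by exact_mod_cast hi
    unfold cw
    push_cast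
    rw [cw_fac1 g1 g2 hd (by omega) (by omega), cw_fac1 g1 g2 hd (by omega) (by omega)]
  · apply Pr_congr
    intro i hi
    have hi' : (i : ℤ) < q₂ := by exact_mod_cast hi
    unfold cw
    push_cast
    have e1 := cw_fac2 g1 g2 hd (j := (i : ℤ) + 1) (by omega) (by omega)
    have e2 := cw_fac2 g1 g2 hd (j := (i : ℤ)) (by omega) (by omega)
    rw [zero_add, zero_add, add_assoc, e1, e2]
    ring

/-- the invariants of a pair of Christoffel words -/
structure MInv (X Y : Matrix (Fin 2) (Fin 2) ℤ) : Prop where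
  dX : X.det = 1
  dY : Y.det = 1
  pX : ∀ i j, 0 < X i j
  pY : ∀ i j, 0 < Y i j
  tX : X 0 0 + X 1 1 = 3 * X 0 1
  tY : Y 0 0 + Y 1 1 = 3 * Y 0 1
  tXY : (X * Y) 0 0 + (X * Y) 1 1 = 3 * (X * Y) 0 1
  mrk : X 0 1 ^ 2 + Y 0 1 ^ 2 + (X * Y) 0 1 ^ 2 = 3 * X 0 1 * Y 0 1 * (X * Y) 0 1

theorem pos_mul {X Y : Matrix (Fin 2) (Fin 2) ℤ} (hX : ∀ i j, 0 < X i j) (hY : ∀ i j, 0 < Y i j) :
    ∀ i j, 0 < (X * Y) i j := by
  intro i j
  rw [Matrix.mul_apply, Fin.sum_univ_two]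
  have h1 := mul_pos (hX i 0) (hY 0 j)
  have h2 := mul_pos (hX i 1) (hY 1 j)
  linarith

theorem MInv.right {X Y : Matrix (Fin 2) (Fin 2) ℤ} (h : MInv X Y) : MInv X (X * Y) := by
  obtain ⟨dX, dY, pX, pY, tX, tY, tXY, mk⟩ := h
  have e01 : (X * (X * Y)) 0 1 = 3 * X 0 1 * (X * Y) 0 1 - Y 0 1 := by
    rw [Matrix.det_fin_two] at dX
    simp only [Matrix.mul_apply, Fin.sum_univ_two]
    linear_combination (X 0 0 * Y 0 1 + X 0 1 * Y 1 1) * tX - Y 0 1 * dX
  have etr : (X * (X * Y)) 0 0 + (X * (X * Y)) 1 1 =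
      3 * X 0 1 * ((X * Y) 0 0 + (X * Y) 1 1) - (Y 0 0 + Y 1 1) := by
    rw [Matrix.det_fin_two] at dX
    simp only [Matrix.mul_apply, Fin.sum_univ_two]
    linear_combination (X 0 0 * Y 0 0 + X 0 1 * Y 1 0 + X 1 0 * Y 0 1 + X 1 1 * Y 1 1) * tX -
      (Y 0 0 + Y 1 1) * dX
  refine ⟨dX, ?_, pX, pos_mul pX pY, tX, tXY, ?_, ?_⟩
  · rw [Matrix.det_mul, dX, dY, one_mul]
  · rw [etr, e01, tXY, tY]
    ring
  · rw [e01]
    linear_combination mk

theorem MInv.left {X Y : Matrix (Fin 2) (Fin 2) ℤ} (h : MInv X Y) : MInv (X * Y) Y := by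
  obtain ⟨dX, dY, pX, pY, tX, tY, tXY, mk⟩ := h
  have e01 : (X * Y * Y) 0 1 = 3 * Y 0 1 * (X * Y) 0 1 - X 0 1 := by
    rw [Matrix.det_fin_two] at dY
    simp only [Matrix.mul_apply, Fin.sum_univ_two]
    linear_combination (X 0 0 * Y 0 1 + X 0 1 * Y 1 1) * tY - X 0 1 * dY
  have etr : (X * Y * Y) 0 0 + (X * Y * Y) 1 1 =
      3 * Y 0 1 * ((X * Y) 0 0 + (X * Y) 1 1) - (X 0 0 + X 1 1) := by
    rw [Matrix.det_fin_two] at dY
    simp only [Matrix.mul_apply, Fin.sum_univ_two]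
    linear_combination (X 0 0 * Y 0 0 + X 0 1 * Y 1 0 + X 1 0 * Y 0 1 + X 1 1 * Y 1 1) * tY -
      (X 0 0 + X 1 1) * dY
  refine ⟨?_, dY, pos_mul pX pY, pY, tXY, tY, ?_, ?_⟩
  · rw [Matrix.det_mul, dX, dY, one_mul]
  · rw [etr, e01, tXY, tX]
    ring
  · rw [e01]
    linear_combination mk

theorem inv_base : MInv (Blk 0) (Blk 1) := by
  constructor
  · exact det_Blk 0
  · exact det_Blk 1
  · intro i j
    unfold Blk
    fin_cases i <;> fin_cases j <;> simp
  · intro i j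
    unfold Blk
    fin_cases i <;> fin_cases j <;> simp
  all_goals
    unfold Blk
    simp [Matrix.mul_apply, Fin.sum_univ_two]

/-- all unimodular pairs have the invariants -/
theorem inv_pair (s : ℕ) : ∀ (q₁ q₂ : ℕ) (p₁ p₂ : ℤ), q₁ + q₂ = s → 1 ≤ q₁ → 1 ≤ q₂ →
    p₂ * q₁ - p₁ * q₂ = 1 → 0 ≤ p₁ → p₂ ≤ q₂ → MInv (Pr (cw p₁ q₁) 0 q₁) (Pr (cw p₂ q₂) 0 q₂) := by
  induction s using Nat.strong_induction_on with
  | _ s ih =>
    intro q₁ q₂ p₁ p₂ hs h1 h2 hd hp1 hp2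
    have g1 : (1 : ℤ) ≤ q₁ := by exact_mod_cast h1
    have g2 : (1 : ℤ) ≤ q₂ := by exact_mod_cast h2
    have hp2pos : 1 ≤ p₂ := by
      by_contra hc
      push Not at hc
      nlinarith
    rcases lt_trichotomy q₁ q₂ with h | h | h
    · -- `q₁ < q₂`
      have h' : (q₁ : ℤ) < q₂ := by exact_mod_cast h
      obtain ⟨q', rfl⟩ : ∃ q', q₂ = q₁ + q' := ⟨q₂ - q₁, by omega⟩
      have hq' : 1 ≤ q' := by omega
      push_cast at hd hp2 h' g2
      have hd' : (p₂ - p₁) * q₁ - p₁ * q' = 1 := by linear_combination hd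
      have hle : p₂ - p₁ ≤ q' := by
        by_contra hc
        push Not at hc
        -- `r₁ = q₁ - p₁`, `r' = q' - (p₂ - p₁)`, `r₁ q' - r' q₁ = 1`
        have e : (q₁ - p₁) * (q' : ℤ) - (q' - (p₂ - p₁)) * q₁ = 1 := by linear_combination hd'
        have h5 : (q' - (p₂ - p₁) : ℤ) ≤ -1 := by omega
        have h6 : (q₁ : ℤ) - p₁ ≤ 0 := by
          by_contra hc2
          push Not at hc2
          nlinarith
        nlinarith
      have h7 := ih (q₁ + q') (by omega) q₁ q' p₁ (p₂ - p₁) rfl h1 hq' hd' hp1 hle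
      have h8 := Pr_fac h1 hq' hd'
      rw [show p₁ + (p₂ - p₁) = p₂ by ring] at h8
      rw [h8]
      exact h7.right
    · subst h
      have : ((p₂ - p₁) * q₁ : ℤ) = 1 := by linear_combination hd
      have h3 : (q₁ : ℤ) = 1 := by
        have h4 : (q₁ : ℤ) ∣ 1 := ⟨p₂ - p₁, by linarith⟩
        exact le_antisymm (Int.le_of_dvd one_pos h4) g1
      have h5 : q₁ = 1 := by exact_mod_cast h3
      subst h5
      rw [h3] at hd hp2
      have e2 : p₂ = 1 := by omega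
      have e1 : p₁ = 0 := by omega
      subst e1 e2
      have f1 : Pr (cw 0 ((1 : ℕ) : ℤ)) 0 1 = Blk 0 := by
        simp [Pr, cw]
      have f2 : Pr (cw 1 ((1 : ℕ) : ℤ)) 0 1 = Blk 1 := by
        simp [Pr, cw]
      rw [f1, f2]
      exact inv_base
    · have h' : (q₂ : ℤ) < q₁ := by exact_mod_cast h
      obtain ⟨q', rfl⟩ : ∃ q', q₁ = q' + q₂ := ⟨q₁ - q₂, by omega⟩
      have hq' : 1 ≤ q' := by omega
      push_cast at hd h' g1
      have hd' : p₂ * q' - (p₁ - p₂) * q₂ = 1 := by linear_combination hd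
      have hle : 0 ≤ p₁ - p₂ := by
        by_contra hc
        push Not at hc
        nlinarith
      have h7 := ih (q' + q₂) (by omega) q' q₂ (p₁ - p₂) p₂ rfl hq' h2 hd' hle hp2
      have h8 := Pr_fac hq' h2 hd'
      rw [show p₁ - p₂ + p₂ = p₁ by ring] at h8
      rw [h8]
      exact h7.left

/-- **Christoffel words give Markov numbers** -/
theorem markov_cw {q : ℕ} {p : ℤ} (hp : 0 < p) (hpq : p < q)
    (hcop : ∀ i : ℕ, (q : ℤ) ∣ i * p → q ∣ i) : IsMk ((Pr (cw p q) 0 q) 0 1) := by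
  have hq2 : 2 ≤ q := by
    have : (2 : ℤ) ≤ q := by omega
    exact_mod_cast this
  have hq0 : (0 : ℤ) < q := by omega
  have hg : Int.gcd p q = 1 := by
    set g := Int.gcd p q with hgd
    obtain ⟨p', hp'⟩ : (g : ℤ) ∣ p := Int.gcd_dvd_left ..
    obtain ⟨q', hq'⟩ : (g : ℤ) ∣ q := Int.gcd_dvd_right ..
    have hgpos : 0 < (g : ℤ) := by
      have : g ≠ 0 := by
        intro h0
        rw [h0] at hq'
        simp at hq'
        omega
      omega
    have hq'pos : 0 < q' := by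
      by_contra hc
      push Not at hc
      nlinarith
    have h1 := hcop q'.toNat (by
      rw [Int.toNat_of_nonneg hq'pos.le, hp', hq']
      exact ⟨p', by ring⟩)
    have h1' : (q : ℤ) ∣ (q'.toNat : ℤ) := by exact_mod_cast h1
    have h2 := Int.le_of_dvd (by omega) h1'
    rw [Int.toNat_of_nonneg hq'pos.le, hq'] at h2
    have h3 : (g : ℤ) ≤ 1 := by
      by_contra hc
      push Not at hc
      nlinarith
    omega
  obtain ⟨u, v, huv⟩ : ∃ u v : ℤ, u * p + v * q = 1 := by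
    have := Int.gcd_eq_gcd_ab p q
    rw [hg] at this
    refine ⟨Int.gcdA p q, Int.gcdB p q, ?_⟩
    push_cast at this
    linear_combination -this
  -- the inverse of `p`
  set q₁ := u % q with hq₁
  have b0 : 0 ≤ q₁ := Int.emod_nonneg _ hq0.ne'
  have b1 : q₁ < q := Int.emod_lt_of_pos _ hq0
  obtain ⟨p₁, hp₁⟩ : ∃ p₁, q₁ * p - 1 = p₁ * q := by
    have e := Int.emod_add_mul_ediv u q
    rw [← hq₁] at e
    refine ⟨-v - u / q * p, ?_⟩
    linear_combination p * e + huv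
  have hq1pos : 1 ≤ q₁ := by
    by_contra hc
    have h0 : q₁ = 0 := by omega
    rw [h0, zero_mul, zero_sub] at hp₁
    have h1 : (q : ℤ) ∣ 1 := ⟨-p₁, by linarith⟩
    have := Int.le_of_dvd one_pos h1
    omega
  have hp1 : 0 ≤ p₁ := by
    by_contra hc
    push Not at hc
    nlinarith
  have hp2 : p - p₁ ≤ q - q₁ := by
    by_contra hc
    push Not at hc
    have e : (q₁ - p₁) * q = (q - p) * q₁ + 1 := by linear_combination hp₁
    nlinarith
  obtain ⟨n₁, hn₁⟩ := Int.eq_ofNat_of_zero_le b0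
  obtain ⟨n₂, hn₂⟩ := Int.eq_ofNat_of_zero_le (show 0 ≤ q - q₁ by omega)
  have hsum : n₁ + n₂ = q := by
    have : ((n₁ + n₂ : ℕ) : ℤ) = q := by push_cast; linarith
    exact_mod_cast this
  have hn1 : 1 ≤ n₁ := by omega
  have hn2 : 1 ≤ n₂ := by omega
  have hd : (p - p₁) * n₁ - p₁ * n₂ = 1 := by
    rw [← hn₁, ← hn₂]
    linear_combination hp₁
  have h1 := inv_pair q n₁ n₂ p₁ (p - p₁) hsum hn1 hn2 hd hp1 (by rw [← hn₂]; exact hp2)
  have h2 := Pr_fac hn1 hn2 hd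
  rw [show p₁ + (p - p₁) = p by ring, hsum] at h2
  rw [h2]
  refine ⟨⟨_, _, h1.pX 0 1, h1.pY 0 1, pos_mul h1.pX h1.pY 0 1, h1.mrk⟩, ?_⟩
  set M := Pr (cw p₁ ↑n₁) 0 n₁ * Pr (cw (p - p₁) ↑n₂) 0 n₂ with hM
  have hdet : M.det = 1 := by rw [hM, Matrix.det_mul, det_Pr, det_Pr, one_mul]
  have htr := h1.tXY
  rw [← hM] at htr
  rw [Matrix.det_fin_two] at hdet
  exact ⟨M 0 0, 3 * M 0 0 - M 1 0, by linear_combination (M 0 0) * htr - hdet⟩

/-- the exceptional window of a skew word -/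
theorem skew_win {S ω : ℤ → ℤ} {α : ℝ} (hS : IsH S ω) (hB : Bal S) (hα : Slope S α)
    (hrat : ¬ Irrational α) (hnp : ¬ ∃ q : ℕ, 0 < q ∧ ∀ n, ω (n + q) = ω n) :
    ∃ (q : ℕ) (p m₀ : ℤ), 0 < q ∧ (∀ i : ℕ, (q : ℤ) ∣ i * p → q ∣ i) ∧
      (∀ (m : ℤ) (k : ℕ), |(q : ℤ) * (S (m + k) - S m) - k * p| ≤ q) ∧
      (S (m₀ + q) - S m₀ = p + 1 ∨ S (m₀ + q) - S m₀ = p - 1) ∧ EqAt ω (m₀ + q) ∧ EqAt ω m₀ := by
  unfold Irrational at hrat
  push Not at hrat
  obtain ⟨r, hr⟩ := hrat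
  set q : ℕ := r.den with hqd
  set p : ℤ := r.num with hpd
  have hq : 0 < q := r.den_pos
  have hq' : (0 : ℝ) < q := by exact_mod_cast hq
  have hαq : (q : ℝ) * α = p := by
    rw [← hr, hqd, hpd, Rat.cast_def]
    field_simp
  have hcop : ∀ p' : ℤ, p'.natAbs.Coprime q → ∀ i : ℕ, (q : ℤ) ∣ i * p' → q ∣ i := by
    intro p' hp' i h
    have h1 : (q : ℤ) ∣ (i : ℤ) := by
      apply IsCoprime.dvd_of_dvd_mul_right _ h
      rw [Int.isCoprime_iff_gcd_eq_one, Int.gcd, Int.natAbs_natCast]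
      exact hp'.symm
    exact_mod_cast h1
  have hE : ∀ (m : ℤ) (k : ℕ), |(q : ℤ) * (S (m + k) - S m) - k * p| ≤ q := by
    intro m k
    have h1 := hα m k
    have h2 : |(q : ℝ) * ((S (m + k) : ℝ) - S m) - k * p| ≤ q := by
      rw [← hαq]
      have e : (q : ℝ) * ((S (m + k) : ℝ) - S m) - k * (q * α) =
          q * (((S (m + k) : ℝ) - S m) - k * α) := by ring
      rw [e, abs_mul, Nat.abs_cast]
      calc (q : ℝ) * |((S (m + k) : ℝ) - S m) - k * α| ≤ q * 1 :=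
            mul_le_mul_of_nonneg_left h1 hq'.le
        _ = q := mul_one _
    exact_mod_cast h2
  have hex : ∃ m₀, S (m₀ + q) - S m₀ ≠ p := by
    by_contra hcon
    push Not at hcon
    apply hnp
    refine ⟨q, hq, fun n => ?_⟩
    have e1 := hcon n
    have e2 := hcon (n + 1)
    have e3 := hS n
    have e4 := hS (n + q)
    rw [show n + 1 + (q : ℤ) = n + q + 1 by ring] at e2
    linarith
  obtain ⟨m₀, hm₀⟩ := hex
  have h1 := hE m₀ q
  have h2 : (q : ℤ) * (S (m₀ + q) - S m₀) - q * p = q * ((S (m₀ + q) - S m₀) - p) := by ring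
  rw [h2, abs_mul, Nat.abs_cast] at h1
  have hqz : (0 : ℤ) < q := by exact_mod_cast hq
  have h3 : |(S (m₀ + q) - S m₀) - p| ≤ 1 := by
    by_contra hc
    push Not at hc
    nlinarith
  rw [abs_le] at h3
  refine ⟨q, p, m₀, hq, hcop p r.reduced, hE, by omega, ?_⟩
  rcases lt_or_gt_of_ne hm₀ with hlt | hgt
  · have h4 : S (m₀ + q) - S m₀ = p - 1 := by omega
    have h5 := skew_up (S := fun n => n - S n) (ω := fun n => 1 - ω n) (p := q - p) (q := q)
      (m₀ := m₀) (isH_compl hS) ?_ hq ?_ ?_ ?_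
    · have hc : ∀ N, EqAt (fun n => 1 - ω n) N → EqAt ω N := by
        intro N hN
        refine ⟨fun h => hN.1 ?_, fun i => ?_⟩
        · show 1 - ω (N - 1) = 1 - ω N
          rw [h]
        · have := hN.2 i
          simp only at this
          linarith
      exact ⟨hc _ h5.1, hc _ h5.2⟩
    · intro m n k
      show ((m + k) - S (m + k) - (m - S m)) - ((n + k) - S (n + k) - (n - S n)) ≤ 1
      have := hB n m k
      linarith
    · apply hcop
      have h6 : Int.gcd (q - p) q = 1 := by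
        have : Int.gcd p q = 1 := by
          rw [Int.gcd, Int.natAbs_natCast]
          exact r.reduced
        rw [Int.gcd_comm, Int.gcd_self_sub_right, Int.gcd_comm]
        exact this
      rw [Int.gcd, Int.natAbs_natCast] at h6
      exact h6
    · intro m k
      show |(q : ℤ) * ((m + k) - S (m + k) - (m - S m)) - k * (q - p)| ≤ q
      have e : (q : ℤ) * ((m + k) - S (m + k) - (m - S m)) - k * (q - p) =
          -((q : ℤ) * (S (m + k) - S m) - k * p) := by ring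
      rw [e, abs_neg]
      exact hE m k
    · show (m₀ + q) - S (m₀ + q) - (m₀ - S m₀) = q - p + 1
      linarith
  · have h4 : S (m₀ + q) - S m₀ = p + 1 := by omega
    have h5 := skew_up hS hB hq (hcop p r.reduced) hE h4
    exact ⟨h5.1, h5.2⟩

theorem Pr_three (f : ℤ → ℤ) (m : ℤ) (r : ℕ) :
    Pr f m (1 + r + 1) = Blk (f m) * Pr f (m + 1) r * Blk (f (m + 1 + r)) := by
  rw [Pr, Pr_add]
  simp only [Pr, Nat.cast_one, Nat.cast_zero, one_mul, add_zero]
  congr 2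
  push_cast
  ring_nf

/-- the lower right entry for a heavy window, the upper left entry for a light window -/
theorem window_markov {S ω : ℤ → ℤ} (hS : IsH S ω) (hW : IsW ω) {q : ℕ} (hq : 0 < q) {p m₀ : ℤ}
    (hcop : ∀ i : ℕ, (q : ℤ) ∣ i * p → q ∣ i)
    (hE : ∀ (m : ℤ) (k : ℕ), |(q : ℤ) * (S (m + k) - S m) - k * p| ≤ q) :
    (S (m₀ + q) - S m₀ = p + 1 → ω m₀ = 1 ∧ ω (m₀ + q - 1) = 1 ∧ IsMk ((Pr ω m₀ q) 1 1)) ∧
      (S (m₀ + q) - S m₀ = p - 1 → ω m₀ = 0 ∧ ω (m₀ + q - 1) = 0 ∧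
        IsMk ((Pr ω m₀ q) 0 0)) := by
  have hqz : (0 : ℤ) < q := by exact_mod_cast hq
  have h01 : ∀ i, 0 ≤ ω i ∧ ω i ≤ 1 := by
    intro i
    rcases hW i with h | h <;> omega
  -- heights of windows
  have hwin : ∀ (m : ℤ) (k : ℕ), 0 ≤ S (m + k) - S m ∧ S (m + k) - S m ≤ k := by
    intro m k
    induction k with
    | zero => simp
    | succ k ih =>
      have e := hS (m + k)
      have b := h01 (m + k)
      push_cast
      rw [← add_assoc]
      omega
  have hp0 : 0 ≤ p := by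
    by_contra hc
    push Not at hc
    have h1 := (abs_le.1 (hE 0 (q + 1))).2
    have h2 := (hwin 0 (q + 1)).1
    push_cast at h1 h2
    nlinarith
  have hpq : p ≤ q := by
    by_contra hc
    push Not at hc
    have h1 := (abs_le.1 (hE 0 (q + 1))).1
    have h2 := (hwin 0 (q + 1)).2
    push_cast at h1 h2
    nlinarith
  rcases Nat.lt_or_ge q 2 with hq2 | hq2
  · -- one letter
    have hq1 : q = 1 := by omega
    subst hq1
    have e := hS m₀
    have b := h01 m₀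
    push_cast at hpq ⊢
    rw [add_sub_cancel_right]
    constructor
    · intro h
      have h1 : ω m₀ = 1 := by omega
      refine ⟨h1, h1, ?_⟩
      have : (Pr ω m₀ 1) 1 1 = 1 := by
        simp [Pr, Blk]
      rw [this]
      exact ⟨⟨1, 1, by norm_num, by norm_num, by norm_num, by norm_num⟩, 0, by norm_num⟩
    · intro h
      have h1 : ω m₀ = 0 := by omega
      refine ⟨h1, h1, ?_⟩
      have : (Pr ω m₀ 1) 0 0 = 2 := by
        simp [Pr, Blk, h1]
      rw [this]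
      exact ⟨⟨1, 1, by norm_num, by norm_num, by norm_num, by norm_num⟩, 1, by norm_num⟩
  · -- at least two letters
    have hp1 : 0 < p := by
      rcases lt_or_eq_of_le hp0 with h | h
      · exact h
      · exfalso
        have := hcop 1 (by rw [← h]; simp)
        have := Nat.le_of_dvd one_pos this
        omega
    have hp2 : p < q := by
      rcases lt_or_eq_of_le hpq with h | h
      · exact h
      · exfalso
        have := hcop 1 (by rw [h]; simp)
        have := Nat.le_of_dvd one_pos this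
        omega
    obtain ⟨r, rfl⟩ : ∃ r, q = 1 + r + 1 := ⟨q - 2, by omega⟩
    have hmk := markov_cw hp1 hp2 hcop
    rw [Pr_three] at hmk
    have c0 : cw p ((1 + r + 1 : ℕ) : ℤ) 0 = 0 := by
      unfold cw
      rw [zero_add, one_mul, zero_mul, Int.zero_ediv, sub_zero]
      exact Int.ediv_eq_zero_of_lt hp0 hp2
    have hlast : ((1 + r : ℕ) : ℤ) * p / ((1 + r + 1 : ℕ) : ℤ) = p - 1 := by
      rw [Int.ediv_eq_iff_of_pos hqz]
      push_cast at hp2 ⊢
      constructor <;> nlinarith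
    have c1 : cw p ((1 + r + 1 : ℕ) : ℤ) (0 + 1 + r) = 1 := by
      unfold cw
      have e1 : (0 + 1 + (r : ℤ) + 1) * p / ((1 + r + 1 : ℕ) : ℤ) = p := by
        rw [Int.ediv_eq_iff_of_pos hqz]
        push_cast
        constructor <;> nlinarith
      have e2 : (0 + 1 + (r : ℤ)) * p / ((1 + r + 1 : ℕ) : ℤ) = p - 1 := by
        rw [← hlast]
        push_cast
        ring_nf
      rw [e1, e2]
      ring
    rw [c0, c1] at hmk
    -- the interior heights
    have hne : ∀ i : ℕ, 1 ≤ i → i ≤ r + 1 → ¬ ((1 + r + 1 : ℕ) : ℤ) ∣ i * p := by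
      intro i h1 h2 h3
      have := Nat.le_of_dvd (by omega) (hcop i h3)
      omega
    constructor
    · intro h
      have hint : ∀ i : ℕ, 1 ≤ i → i ≤ r + 1 →
          S (m₀ + i) - S m₀ = i * p / ((1 + r + 1 : ℕ) : ℤ) + 1 := by
        intro i h1 h2
        have b1 := (abs_le.1 (hE (m₀ + i) (1 + r + 1 - i))).2
        rw [show m₀ + (i : ℤ) + ((1 + r + 1 - i : ℕ) : ℤ) = m₀ + ((1 + r + 1 : ℕ) : ℤ) by
          push_cast [Nat.cast_sub (show i ≤ 1 + r + 1 by omega)]; ring] at b1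
        have b2 := (abs_le.1 (hE m₀ i)).2
        have e1 : ((1 + r + 1 - i : ℕ) : ℤ) = ((1 + r + 1 : ℕ) : ℤ) - i := by
          rw [Nat.cast_sub (show i ≤ 1 + r + 1 by omega)]
        rw [e1] at b1
        set Q : ℤ := ((1 + r + 1 : ℕ) : ℤ) with hQ
        have b3 : 0 ≤ Q * (S (m₀ + i) - S m₀) - i * p := by nlinarith
        have b4 : Q * (S (m₀ + i) - S m₀) - i * p ≠ 0 := by
          intro h0
          exact hne i h1 h2 ⟨S (m₀ + i) - S m₀, by linarith⟩
        have b5 : Q * (S (m₀ + i) - S m₀) - i * p ≠ Q := by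
          intro h0
          exact hne i h1 h2 ⟨S (m₀ + i) - S m₀ - 1, by linarith⟩
        have b6 : (i : ℤ) * p / Q = S (m₀ + i) - S m₀ - 1 := by
          rw [Int.ediv_eq_iff_of_pos hqz]
          constructor
          · have : Q * (S (m₀ + i) - S m₀) - i * p ≤ Q := b2
            nlinarith
          · have : 0 < Q * (S (m₀ + i) - S m₀) - i * p := lt_of_le_of_ne b3 (Ne.symm b4)
            nlinarith
        rw [b6]
        ring
      have w0 : ω m₀ = 1 := by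
        have e := hS m₀
        have e1 := hint 1 le_rfl (by omega)
        have e2 : ((1 : ℕ) : ℤ) * p / ((1 + r + 1 : ℕ) : ℤ) = 0 := by
          rw [Nat.cast_one, one_mul]
          exact Int.ediv_eq_zero_of_lt hp0 hp2
        rw [e2] at e1
        push_cast at e1
        linarith
      have wq : ω (m₀ + 1 + r) = 1 := by
        have e := hS (m₀ + 1 + r)
        have e1 := hint (r + 1) (by omega) le_rfl
        rw [show (r + 1 : ℕ) = 1 + r by ring, hlast] at e1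
        push_cast at e1 h
        rw [show m₀ + 1 + (r : ℤ) + 1 = m₀ + (1 + r + 1) by ring] at e
        rw [← add_assoc] at e1
        linarith
      have hmid : Pr ω (m₀ + 1) r = Pr (cw p ((1 + r + 1 : ℕ) : ℤ)) (0 + 1) r := by
        apply Pr_congr
        intro i hi
        have e := hS (m₀ + 1 + i)
        have e1 := hint (i + 1) (by omega) (by omega)
        have e2 := hint (i + 2) (by omega) (by omega)
        unfold cw
        push_cast at e1 e2 ⊢
        rw [show m₀ + ((i : ℤ) + 1) = m₀ + 1 + i by ring] at e1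
        rw [show m₀ + ((i : ℤ) + 2) = m₀ + 1 + i + 1 by ring] at e2
        rw [show (1 : ℤ) + i + 1 = i + 2 by ring, show (1 : ℤ) + i = i + 1 by ring]
        linarith
      refine ⟨w0, ?_, ?_⟩
      · have e5 : m₀ + ((1 + r + 1 : ℕ) : ℤ) - 1 = m₀ + 1 + r := by
          push_cast
          ring
        rw [e5]
        exact wq
      · rw [Pr_three, hmid, w0, wq]
        have : (Blk 1 * Pr (cw p ((1 + r + 1 : ℕ) : ℤ)) (0 + 1) r * Blk 1) 1 1 =
            (Blk 0 * Pr (cw p ((1 + r + 1 : ℕ) : ℤ)) (0 + 1) r * Blk 1) 0 1 := by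
          simp [Matrix.mul_apply, Fin.sum_univ_two, Blk]
        rw [this]
        exact hmk
    · intro h
      have hint : ∀ i : ℕ, 1 ≤ i → i ≤ r + 1 →
          S (m₀ + i) - S m₀ = i * p / ((1 + r + 1 : ℕ) : ℤ) := by
        intro i h1 h2
        have b1 := (abs_le.1 (hE (m₀ + i) (1 + r + 1 - i))).1
        rw [show m₀ + (i : ℤ) + ((1 + r + 1 - i : ℕ) : ℤ) = m₀ + ((1 + r + 1 : ℕ) : ℤ) by
          push_cast [Nat.cast_sub (show i ≤ 1 + r + 1 by omega)]; ring] at b1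
        have b2 := (abs_le.1 (hE m₀ i)).1
        have e1 : ((1 + r + 1 - i : ℕ) : ℤ) = ((1 + r + 1 : ℕ) : ℤ) - i := by
          rw [Nat.cast_sub (show i ≤ 1 + r + 1 by omega)]
        rw [e1] at b1
        set Q : ℤ := ((1 + r + 1 : ℕ) : ℤ) with hQ
        have b3 : Q * (S (m₀ + i) - S m₀) - i * p ≤ 0 := by nlinarith
        have b4 : Q * (S (m₀ + i) - S m₀) - i * p ≠ -Q := by
          intro h0
          exact hne i h1 h2 ⟨S (m₀ + i) - S m₀ + 1, by linarith⟩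
        symm
        rw [Int.ediv_eq_iff_of_pos hqz]
        constructor
        · nlinarith
        · have : -Q < Q * (S (m₀ + i) - S m₀) - i * p := lt_of_le_of_ne b2 (Ne.symm b4)
          nlinarith
      have w0 : ω m₀ = 0 := by
        have e := hS m₀
        have e1 := hint 1 le_rfl (by omega)
        have e2 : ((1 : ℕ) : ℤ) * p / ((1 + r + 1 : ℕ) : ℤ) = 0 := by
          rw [Nat.cast_one, one_mul]
          exact Int.ediv_eq_zero_of_lt hp0 hp2
        rw [e2] at e1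
        push_cast at e1
        linarith
      have wq : ω (m₀ + 1 + r) = 0 := by
        have e := hS (m₀ + 1 + r)
        have e1 := hint (r + 1) (by omega) le_rfl
        rw [show (r + 1 : ℕ) = 1 + r by ring, hlast] at e1
        push_cast at e1 h
        rw [show m₀ + 1 + (r : ℤ) + 1 = m₀ + (1 + r + 1) by ring] at e
        rw [← add_assoc] at e1
        linarith
      have hmid : Pr ω (m₀ + 1) r = Pr (cw p ((1 + r + 1 : ℕ) : ℤ)) (0 + 1) r := by
        apply Pr_congr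
        intro i hi
        have e := hS (m₀ + 1 + i)
        have e1 := hint (i + 1) (by omega) (by omega)
        have e2 := hint (i + 2) (by omega) (by omega)
        unfold cw
        push_cast at e1 e2 ⊢
        rw [show m₀ + ((i : ℤ) + 1) = m₀ + 1 + i by ring] at e1
        rw [show m₀ + ((i : ℤ) + 2) = m₀ + 1 + i + 1 by ring] at e2
        rw [show (1 : ℤ) + i + 1 = i + 2 by ring, show (1 : ℤ) + i = i + 1 by ring]
        linarith
      refine ⟨w0, ?_, ?_⟩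
      · have e5 : m₀ + ((1 + r + 1 : ℕ) : ℤ) - 1 = m₀ + 1 + r := by
          push_cast
          ring
        rw [e5]
        exact wq
      · rw [Pr_three, hmid, w0, wq]
        have : (Blk 0 * Pr (cw p ((1 + r + 1 : ℕ) : ℤ)) (0 + 1) r * Blk 0) 0 0 =
            (Blk 0 * Pr (cw p ((1 + r + 1 : ℕ) : ℤ)) (0 + 1) r * Blk 1) 0 1 := by
          simp [Matrix.mul_apply, Fin.sum_univ_two, Blk]
        rw [this]
        exact hmk

section
variable {x y : ℤ → ℝ} {a : ℤ → ℤ}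

/-- the frames over a window -/
theorem frames_Pr (h : Ch x y a) (hl : ∀ k, x k + 1 / y k ≤ 3) {k₀ : ℤ}
    (hk₀ : a (k₀ - 1) ≠ a k₀) {e : ℤ → ℤ × ℤ} (hf : Fr a e) (m : ℤ) (r : ℕ) :
    e (k₀ + 2 * (m + r)) = (Pr (wd a k₀) m r) 0 0 • e (k₀ + 2 * m) +
        (Pr (wd a k₀) m r) 1 0 • e (k₀ + 2 * m - 1) ∧
      e (k₀ + 2 * (m + r) - 1) = (Pr (wd a k₀) m r) 0 1 • e (k₀ + 2 * m) +
        (Pr (wd a k₀) m r) 1 1 • e (k₀ + 2 * m - 1) := by
  induction r with
  | zero => simp [Pr]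
  | succ r ih =>
    obtain ⟨i1, i2⟩ := ih
    set K := k₀ + 2 * (m + r) with hK
    have d0 : a K = 1 + wd a k₀ (m + r) := by unfold wd; ring
    have d1 : a (K + 1) = 1 + wd a k₀ (m + r) := by
      rw [hK, h.align hl hk₀ (m + r), ← hK, d0]
    have f1 := hf.hs K
    have f2 := hf.hs (K + 1)
    rw [add_sub_cancel_right, d1, f1, d0] at f2
    rw [d0] at f1
    have e1 : k₀ + 2 * (m + ((r + 1 : ℕ) : ℤ)) = K + 1 + 1 := by rw [hK]; push_cast; ring
    have e2 : K + 1 + 1 - 1 = K + 1 := by ring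
    rw [e1, e2, f2, f1, i1, i2]
    simp only [Pr]
    set P := Pr (wd a k₀) m r
    set t := wd a k₀ (m + r)
    have c00 : (P * Blk t) 0 0 = P 0 0 * ((1 + t) * (1 + t) + 1) + P 0 1 * (1 + t) := by
      simp [Matrix.mul_apply, Fin.sum_univ_two, Blk]
    have c10 : (P * Blk t) 1 0 = P 1 0 * ((1 + t) * (1 + t) + 1) + P 1 1 * (1 + t) := by
      simp [Matrix.mul_apply, Fin.sum_univ_two, Blk]
    have c01 : (P * Blk t) 0 1 = P 0 0 * (1 + t) + P 0 1 := by
      simp [Matrix.mul_apply, Fin.sum_univ_two, Blk]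
    have c11 : (P * Blk t) 1 1 = P 1 0 * (1 + t) + P 1 1 := by
      simp [Matrix.mul_apply, Fin.sum_univ_two, Blk]
    rw [c00, c10, c01, c11]
    constructor
    · module
    · module

/-- **the two minimal vectors of a skew leaf span a lattice whose index is a Markov number** -/
theorem skew_markov_sq (h : Ch x y a) (hl : ∀ k, x k + 1 / y k ≤ 3) {k₀ : ℤ}
    (hk₀ : a (k₀ - 1) ≠ a k₀) (hnp : ¬ Per (x 0) (-1 / y 0)) {S : ℤ → ℤ}
    (hS : IsH S (wd a k₀)) {α : ℝ} (hα : Slope S α) (hrat : ¬ Irrational α) :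
    ∃ v w : ℤ × ℤ, |Qf (x 0) (y 0) v| = 1 / 3 ∧ |Qf (x 0) (y 0) w| = 1 / 3 ∧
      IsMk |dt v w| := by
  obtain ⟨e, hf⟩ := exists_frames a
  have hW := h.wd_isW hl k₀
  have hB := bal_of_mp hW hS (h.wd_mp hl hk₀) (h.wd_mp' hl hk₀)
  have hper : ¬ ∃ q : ℕ, 0 < q ∧ ∀ n, wd a k₀ (n + q) = wd a k₀ n := by
    rintro ⟨q, hq, hq2⟩
    apply hnp
    refine h.per (r := 2 * q) (by omega) (fun k => ?_)
    have e1 := h.wd_digit hl hk₀ (k - k₀)
    have e2 := h.wd_digit hl hk₀ (k - k₀ + 2 * q)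
    rw [show k₀ + (k - k₀) = k by ring] at e1
    rw [show k₀ + (k - k₀ + 2 * (q : ℤ)) = k + ((2 * q : ℕ) : ℤ) by push_cast; ring,
      show (k - k₀ + 2 * (q : ℤ)) / 2 = (k - k₀) / 2 + q by omega, hq2] at e2
    rw [e1, e2]
  obtain ⟨q, p, m₀, hq, hcop, hE, hm₀, hN, hN'⟩ := skew_win hS hB hα hrat hper
  have hval : ∀ k, x k + 1 / y k = 3 → |Qf (x 0) (y 0) (e k)| = 1 / 3 := by
    intro k hk
    have h1 := h.Qe hf k
    rw [hk] at h1
    have h2 : Qf (x 0) (y 0) (e k) = dt (e k) (e (k - 1)) / 3 := by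
      field_simp
      linarith
    rw [h2]
    rcases hf.det_abs k with h3 | h3 <;> rw [h3] <;> norm_num
  obtain ⟨w1, w2⟩ := window_markov (m₀ := m₀) hS hW hq hcop hE
  obtain ⟨g1, g2⟩ := frames_Pr h hl hk₀ hf m₀ q
  have hpos : ∀ {z : ℤ}, IsMk z → 0 < z := fun hz => by
    obtain ⟨⟨_, _, _, _, hz, _⟩, -⟩ := hz
    exact hz
  rcases hm₀ with hm | hm
  · obtain ⟨o1, o2, o3⟩ := w1 hm
    have o4 : wd a k₀ (m₀ + q) = 0 := by
      have := hN.1
      rcases hW (m₀ + q) with h1 | h1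
      · exact h1
      · rw [o2, h1] at this
        exact absurd rfl this
    refine ⟨e (k₀ + 2 * m₀), e (k₀ + 2 * (m₀ + q) - 1), hval _ ((h.eqAt hl hk₀ hN').1 o1),
      hval _ ((h.eqAt hl hk₀ hN).2 o4), ?_⟩
    rw [g2]
    set P := Pr (wd a k₀) m₀ q
    have e3 : dt (e (k₀ + 2 * m₀)) (P 0 1 • e (k₀ + 2 * m₀) + P 1 1 • e (k₀ + 2 * m₀ - 1)) =
        P 1 1 * dt (e (k₀ + 2 * m₀)) (e (k₀ + 2 * m₀ - 1)) := by
      simp only [dt, Prod.fst_add, Prod.snd_add, Prod.smul_fst, Prod.smul_snd, smul_eq_mul]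
      ring
    have e4 : |dt (e (k₀ + 2 * m₀)) (e (k₀ + 2 * m₀ - 1))| = 1 := by
      rcases hf.det_abs (k₀ + 2 * m₀) with h3 | h3 <;> rw [h3] <;> norm_num
    rw [e3, abs_mul, e4, mul_one, abs_of_pos (hpos o3)]
    exact o3
  · obtain ⟨o1, o2, o3⟩ := w2 hm
    have o4 : wd a k₀ (m₀ + q) = 1 := by
      have := hN.1
      rcases hW (m₀ + q) with h1 | h1
      · rw [o2, h1] at this
        exact absurd rfl this
      · exact h1
    refine ⟨e (k₀ + 2 * m₀ - 1), e (k₀ + 2 * (m₀ + q)), hval _ ((h.eqAt hl hk₀ hN').2 o1),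
      hval _ ((h.eqAt hl hk₀ hN).1 o4), ?_⟩
    rw [g1]
    set P := Pr (wd a k₀) m₀ q
    have e3 : dt (e (k₀ + 2 * m₀ - 1)) (P 0 0 • e (k₀ + 2 * m₀) + P 1 0 • e (k₀ + 2 * m₀ - 1)) =
        -(P 0 0 * dt (e (k₀ + 2 * m₀)) (e (k₀ + 2 * m₀ - 1))) := by
      simp only [dt, Prod.fst_add, Prod.snd_add, Prod.smul_fst, Prod.smul_snd, smul_eq_mul]
      ring
    have e4 : |dt (e (k₀ + 2 * m₀)) (e (k₀ + 2 * m₀ - 1))| = 1 := by
      rcases hf.det_abs (k₀ + 2 * m₀) with h3 | h3 <;> rw [h3] <;> norm_num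
    rw [e3, abs_neg, abs_mul, e4, mul_one, abs_of_pos (hpos o3)]
    exact o3

/-- the same without the square root of `-1` -/
theorem skew_markov (h : Ch x y a) (hl : ∀ k, x k + 1 / y k ≤ 3) {k₀ : ℤ}
    (hk₀ : a (k₀ - 1) ≠ a k₀) (hnp : ¬ Per (x 0) (-1 / y 0)) {S : ℤ → ℤ}
    (hS : IsH S (wd a k₀)) {α : ℝ} (hα : Slope S α) (hrat : ¬ Irrational α) :
    ∃ v w : ℤ × ℤ, |Qf (x 0) (y 0) v| = 1 / 3 ∧ |Qf (x 0) (y 0) w| = 1 / 3 ∧
      IsMarkov |dt v w| := by
  obtain ⟨v, w, h1, h2, h3⟩ := skew_markov_sq h hl hk₀ hnp hS hα hrat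
  exact ⟨v, w, h1, h2, h3.1⟩

end

end Pool.Agent.L3
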