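import Pool.Agent.Work.MP_5e120e_nt.Lagr
import Pool.Agent.Work.MP_5e120e_nt.Markov
import Pool.Agent.Work.MP_5e120e_nt.Classes

/-! # Finitely many classes in a rational orbit and in a cubic field -/

namespace Pool.Agent.L3

/-- Möbius images of non-quadratic numbers are not quadratic -/
theorem not_quad_moeb {x : ℝ} (hx : Irrational x) (hq : ¬ Quad x) {a b c d : ℤ}
    (hd : a * d - b * c ≠ 0) : ¬ Quad ((a * x + b) / (c * x + d)) := by
  rintro ⟨A, B, C, hA, h⟩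
  obtain ⟨hcd, -⟩ := moeb_irr hx hd
  set y := (a * x + b) / (c * x + d) with hy
  have hy2 : y * (c * x + d) = a * x + b := by
    rw [hy]
    exact div_mul_cancel₀ _ hcd
  have h1 : (A : ℝ) * (a * x + b) ^ 2 + B * ((a * x + b) * (c * x + d)) + C * (c * x + d) ^ 2 = 0 := by
    rw [← hy2]
    linear_combination ((c * x + d : ℝ)) ^ 2 * h
  set A' : ℤ := A * a ^ 2 + B * a * c + C * c ^ 2 with hA'
  set B' : ℤ := 2 * A * a * b + B * (a * d + b * c) + 2 * C * c * d with hB'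
  set C' : ℤ := A * b ^ 2 + B * b * d + C * d ^ 2 with hC'
  have h2 : (A' : ℝ) * x ^ 2 + B' * x + C' = 0 := by
    rw [hA', hB', hC']
    push_cast
    linear_combination h1
  by_cases h3 : A' = 0
  · rw [h3] at h2
    have h4 : C' = 0 ∧ -B' = 0 := by
      by_contra hc
      apply no_root_of_irr hx hc
      push_cast at h2 ⊢
      linarith
    have h5 : (a * d - b * c) ^ 2 * A = A' * d ^ 2 - B' * (c * d) + C' * c ^ 2 := by
      rw [hA', hB', hC']
      ring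
    have h6 : B' = 0 := by linarith [h4.2]
    rw [h3, h6, h4.1] at h5
    have h7 : (a * d - b * c) ^ 2 * A = 0 := by rw [h5]; ring
    rcases mul_eq_zero.1 h7 with h8 | h8
    · exact hd (pow_eq_zero_iff (two_ne_zero) |>.1 h8)
    · exact hA h8
  · exact hq ⟨A', B', C', h3, h2⟩

/-- the hypothesis delivered by the main theorem -/
def MainH : Prop := ∀ x : ℝ, Irrational x → ¬ Quad x → lagrangeValue x ≤ ((3 : ℝ) : EReal) →
  ∃ M : ℤ, IsMarkov M ∧ ∀ a b c d : ℤ, (∀ e : ℤ, e ∣ a → e ∣ b → e ∣ c → e ∣ d → IsUnit e) →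
    a * d - b * c ≠ 0 → lagrangeValue ((a * x + b) / (c * x + d)) ≤ ((3 : ℝ) : EReal) →
      ∃ m : ℕ, (m : ℤ) ∣ M ∧ |a * d - b * c| = (m : ℤ) ^ 2

/-- content removed -/
theorem remove_content {a b c d : ℤ} (hd : a * d - b * c ≠ 0) : ∃ a' b' c' d' : ℤ,
    (∀ e : ℤ, e ∣ a' → e ∣ b' → e ∣ c' → e ∣ d' → IsUnit e) ∧ a' * d' - b' * c' ≠ 0 ∧
      ∀ x : ℝ, (a * x + b) / (c * x + d) = (a' * x + b') / (c' * x + d') := by
  have hne : ∃ i, (![(a : ℚ), b, c, d] : Fin 4 → ℚ) i ≠ 0 := by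
    by_contra hcon
    push Not at hcon
    have h0 := hcon 0
    have h1 := hcon 1
    simp only [Matrix.cons_val_zero, Matrix.cons_val_one, Int.cast_eq_zero] at h0 h1
    apply hd
    rw [h0, h1]
    ring
  obtain ⟨r, w, hr, hw, hc⟩ := content_one _ hne
  have e0 := hw 0
  have e1 := hw 1
  have e2 := hw 2
  have e3 := hw 3
  simp only [Matrix.cons_val_zero, Matrix.cons_val_one, Matrix.cons_val] at e0 e1 e2 e3
  refine ⟨w 0, w 1, w 2, w 3, ?_, ?_, ?_⟩
  · intro e h0 h1 h2 h3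
    apply hc
    intro i
    fin_cases i
    · exact h0
    · exact h1
    · exact h2
    · exact h3
  · intro h0
    apply hd
    have h1 : (a : ℚ) * d - b * c = 0 := by
      rw [e0, e1, e2, e3]
      have h2 : ((w 0 : ℚ)) * w 3 - w 1 * w 2 = 0 := by exact_mod_cast h0
      linear_combination r ^ 2 * h2
    exact_mod_cast h1
  · intro x
    have r0 : (a : ℝ) = r * w 0 := by exact_mod_cast e0
    have r1 : (b : ℝ) = r * w 1 := by exact_mod_cast e1
    have r2 : (c : ℝ) = r * w 2 := by exact_mod_cast e2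
    have r3 : (d : ℝ) = r * w 3 := by exact_mod_cast e3
    have hr' : (r : ℝ) ≠ 0 := by exact_mod_cast hr
    rw [r0, r1, r2, r3]
    rw [show (r : ℝ) * w 0 * x + r * w 1 = r * (w 0 * x + w 1) by ring,
      show (r : ℝ) * w 2 * x + r * w 3 = r * (w 2 * x + w 3) by ring, mul_div_mul_left _ _ hr']

/-- **finitely many classes in a rational orbit** -/
theorem orbit_finite (H : MainH) {x : ℝ} (hx : Irrational x) (hq : ¬ Quad x) : ∃ F : Finset ℝ,
    ∀ a b c d : ℤ, a * d - b * c ≠ 0 →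
      lagrangeValue ((a * x + b) / (c * x + d)) ≤ ((3 : ℝ) : EReal) → ∃ z ∈ F,
        ∃ p q r s : ℤ, p * s - q * r = 1 ∧ (a * x + b) / (c * x + d) = (p * z + q) / (r * z + s) := by
  by_cases hex : ∃ a b c d : ℤ, a * d - b * c ≠ 0 ∧
      lagrangeValue ((a * x + b) / (c * x + d)) ≤ ((3 : ℝ) : EReal)
  · obtain ⟨a₀, b₀, c₀, d₀, hd₀, hL₀⟩ := hex
    obtain ⟨hcd₀, hy₀⟩ := moeb_irr hx hd₀
    have hq₀ := not_quad_moeb hx hq hd₀
    set y := (a₀ * x + b₀) / (c₀ * x + d₀) with hy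
    obtain ⟨M, hM, hall⟩ := H y hy₀ hq₀ hL₀
    have hM0 : 0 < M := by
      obtain ⟨_, _, _, _, h, _⟩ := hM
      exact h
    obtain ⟨F, hF⟩ := finite_classes y (M.toNat ^ 2)
    refine ⟨F, fun a b c d hd hL => ?_⟩
    -- `g x = (g g₀^adj) y`
    have hdet : (a * d₀ - b * c₀) * (-(c * b₀) + d * a₀) - (-(a * b₀) + b * a₀) * (c * d₀ - d * c₀) ≠
        0 := by
      have : (a * d₀ - b * c₀) * (-(c * b₀) + d * a₀) - (-(a * b₀) + b * a₀) * (c * d₀ - d * c₀) =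
          (a * d - b * c) * (a₀ * d₀ - b₀ * c₀) := by ring
      rw [this]
      exact mul_ne_zero hd hd₀
    obtain ⟨hcd, -⟩ := moeb_irr hx hd
    have hgy : (a * x + b) / (c * x + d) =
        (((a * d₀ - b * c₀ : ℤ) : ℝ) * y + ((-(a * b₀) + b * a₀ : ℤ) : ℝ)) /
          (((c * d₀ - d * c₀ : ℤ) : ℝ) * y + ((-(c * b₀) + d * a₀ : ℤ) : ℝ)) := by
      have hy2 : y * (c₀ * x + d₀) = a₀ * x + b₀ := by
        rw [hy]
        exact div_mul_cancel₀ _ hcd₀
      have hdr : ((a₀ : ℝ) * d₀ - b₀ * c₀) ≠ 0 := by exact_mod_cast hd₀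
      have n1 : (((a * d₀ - b * c₀ : ℤ) : ℝ) * y + ((-(a * b₀) + b * a₀ : ℤ) : ℝ)) * (c₀ * x + d₀) =
          (a₀ * d₀ - b₀ * c₀) * (a * x + b) := by
        push_cast
        linear_combination ((a : ℝ) * d₀ - b * c₀) * hy2
      have n2 : (((c * d₀ - d * c₀ : ℤ) : ℝ) * y + ((-(c * b₀) + d * a₀ : ℤ) : ℝ)) * (c₀ * x + d₀) =
          (a₀ * d₀ - b₀ * c₀) * (c * x + d) := by
        push_cast
        linear_combination ((c : ℝ) * d₀ - d * c₀) * hy2
      rw [← mul_div_mul_right _ (((c * d₀ - d * c₀ : ℤ) : ℝ) * y + _) hcd₀, n1, n2,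
        mul_div_mul_left _ _ hdr]
    obtain ⟨a', b', c', d', hc', hd', heq⟩ := remove_content hdet
    rw [heq y] at hgy
    rw [hgy] at hL ⊢
    obtain ⟨m, hm, hdm⟩ := hall a' b' c' d' hc' hd' hL
    apply hF a' b' c' d' hd'
    rw [hdm]
    have h1 := Int.le_of_dvd hM0 hm
    push_cast
    rw [Int.toNat_of_nonneg hM0.le]
    exact pow_le_pow_left₀ (Int.natCast_nonneg m) h1 2
  · refine ⟨∅, fun a b c d hd hL => absurd ⟨a, b, c, d, hd, hL⟩ hex⟩

/-- **finitely many classes in a cubic field** -/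
theorem cubic_finite (H : MainH) (K : IntermediateField ℚ ℝ) (hK : Module.finrank ℚ K = 3) :
    ∃ F : Finset ℝ, ∀ y ∈ K, Irrational y → lagrangeValue y ≤ ((3 : ℝ) : EReal) → ∃ z ∈ F,
      ∃ p q r s : ℤ, p * s - q * r = 1 ∧ y = (p * z + q) / (r * z + s) := by
  by_cases hex : ∃ x ∈ K, Irrational x
  · obtain ⟨x, hxK, hx⟩ := hex
    obtain ⟨F, hF⟩ := orbit_finite H hx (cubic_not_quad K hK hxK hx)
    refine ⟨F, fun y hy hyi hL => ?_⟩
    obtain ⟨a, b, c, d, hd, -, hrel⟩ := cubic_rel K hK hxK hy hx hyi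
    rw [hrel] at hL ⊢
    exact hF a b c d hd hL
  · refine ⟨∅, fun y hy hyi _ => absurd ⟨y, hy, hyi⟩ hex⟩

end Pool.Agent.L3
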