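import Pool.Agent.Work.MP_5e120e_nt.Slope

/-! # Bi-infinite continued fraction chains -/

namespace Pool.Agent.L3

/-- a chain: `x k = a k + 1 / x (k + 1)`, `y (k + 1) = a k + 1 / y k`, everything `> 1` -/
structure Ch (x y : ℤ → ℝ) (a : ℤ → ℤ) : Prop where
  hx1 : ∀ k, 1 < x k
  hy1 : ∀ k, 1 < y k
  hx : ∀ k, x k = a k + 1 / x (k + 1)
  hy : ∀ k, y (k + 1) = a k + 1 / y k

/-- the frames -/
structure Fr (a : ℤ → ℤ) (e : ℤ → ℤ × ℤ) : Prop where
  h0 : e 0 = (1, 0)
  h1 : e (-1) = (0, 1)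
  hs : ∀ k, e (k + 1) = a k • e k + e (k - 1)

/-! ### existence -/

/-- pairs of irrationals `> 1` -/
def Pt : Type := {p : ℝ × ℝ // (1 < p.1 ∧ Irrational p.1) ∧ (1 < p.2 ∧ Irrational p.2)}

theorem fract_pos_of_irr {x : ℝ} (hx : Irrational x) : 0 < Int.fract x := by
  rcases lt_or_eq_of_le (Int.fract_nonneg x) with h | h
  · exact h
  · exfalso
    have h1 : x = ((⌊x⌋ : ℤ) : ℝ) := by
      have := Int.self_sub_floor x
      rw [← h] at this
      linarith
    rw [h1] at hx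
    exact (hx.ne_int _) rfl

theorem fract_irr {x : ℝ} (hx : Irrational x) : Irrational (Int.fract x) := by
  rw [← Int.self_sub_floor x]
  exact hx.sub_intCast _

/-- one step of the chain -/
noncomputable def stepP (p : Pt) : Pt :=
  ⟨(1 / Int.fract p.1.1, ⌊p.1.1⌋ + 1 / p.1.2), by
    obtain ⟨⟨x, y⟩, ⟨hx1, hx⟩, ⟨hy1, hy⟩⟩ := p
    refine ⟨⟨?_, ?_⟩, ⟨?_, ?_⟩⟩
    · show 1 < 1 / Int.fract x
      rw [lt_div_iff₀ (fract_pos_of_irr hx)]
      linarith [Int.fract_lt_one x]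
    · show Irrational (1 / Int.fract x)
      rw [one_div]
      exact (irrational_inv_iff).2 (fract_irr hx)
    · show 1 < (⌊x⌋ : ℝ) + 1 / y
      have h1 : (1 : ℤ) ≤ ⌊x⌋ := Int.le_floor.2 (by simpa using le_of_lt hx1)
      have h2 : (1 : ℝ) ≤ (⌊x⌋ : ℝ) := by exact_mod_cast h1
      have h3 : 0 < 1 / y := by
        have : (0 : ℝ) < y := lt_trans one_pos hy1
        positivity
      linarith
    · show Irrational ((⌊x⌋ : ℝ) + 1 / y)
      apply Irrational.intCast_add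
      rw [one_div]
      exact (irrational_inv_iff).2 hy⟩

/-- swap -/
def swapP (p : Pt) : Pt := ⟨(p.1.2, p.1.1), p.2.2, p.2.1⟩

theorem swap_swapP (p : Pt) : swapP (swapP p) = p := rfl

theorem stepP_left (p : Pt) : swapP (stepP (swapP (stepP p))) = p := by
  obtain ⟨⟨x, y⟩, ⟨hx1, hx⟩, ⟨hy1, hy⟩⟩ := p
  apply Subtype.ext
  have hy0 : (0 : ℝ) < y := lt_trans one_pos hy1
  have hfl : ⌊(⌊x⌋ : ℝ) + 1 / y⌋ = ⌊x⌋ := by
    rw [Int.floor_intCast_add]
    have : ⌊1 / y⌋ = 0 := by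
      rw [Int.floor_eq_zero_iff]
      refine ⟨by positivity, ?_⟩
      rw [div_lt_one hy0]
      exact hy1
    rw [this, add_zero]
  have hfr : Int.fract ((⌊x⌋ : ℝ) + 1 / y) = 1 / y := by
    rw [← Int.self_sub_floor, hfl]
    ring
  show ((⌊(⌊x⌋ : ℝ) + 1 / y⌋ : ℝ) + 1 / (1 / Int.fract x), 1 / Int.fract ((⌊x⌋ : ℝ) + 1 / y)) =
    (x, y)
  rw [hfl, hfr, one_div_one_div, one_div_one_div, Int.floor_add_fract]

/-- one step, as a permutation -/
noncomputable def permP : Equiv.Perm Pt where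
  toFun := stepP
  invFun p := swapP (stepP (swapP p))
  left_inv := stepP_left
  right_inv p := by
    have h := stepP_left (swapP p)
    exact congrArg swapP h

theorem exists_chain {x₀ y₀ : ℝ} (hx1 : 1 < x₀) (hx : Irrational x₀) (hy1 : 1 < y₀)
    (hy : Irrational y₀) : ∃ (x y : ℤ → ℝ) (a : ℤ → ℤ), Ch x y a ∧ x 0 = x₀ ∧ y 0 = y₀ := by
  set s₀ : Pt := ⟨(x₀, y₀), ⟨hx1, hx⟩, ⟨hy1, hy⟩⟩ with hs₀
  set s : ℤ → Pt := fun k => (permP ^ k) s₀ with hs
  have hstep : ∀ k, s (k + 1) = stepP (s k) := by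
    intro k
    simp only [hs]
    rw [add_comm, zpow_add, zpow_one]
    rfl
  refine ⟨fun k => (s k).1.1, fun k => (s k).1.2, fun k => ⌊(s k).1.1⌋, ⟨?_, ?_, ?_, ?_⟩, ?_, ?_⟩
  · exact fun k => (s k).2.1.1
  · exact fun k => (s k).2.2.1
  · intro k
    show (s k).1.1 = (⌊(s k).1.1⌋ : ℝ) + 1 / (s (k + 1)).1.1
    rw [hstep k]
    show (s k).1.1 = (⌊(s k).1.1⌋ : ℝ) + 1 / (1 / Int.fract (s k).1.1)
    rw [one_div_one_div, Int.floor_add_fract]
  · intro k
    show (s (k + 1)).1.2 = _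
    rw [hstep k]
    rfl
  · rfl
  · rfl

/-- the recursion of the frames, as a permutation -/
def stepE (a : ℤ → ℤ) : Equiv.Perm (ℤ × ((ℤ × ℤ) × (ℤ × ℤ))) where
  toFun s := (s.1 + 1, (a s.1 • s.2.1 + s.2.2, s.2.1))
  invFun s := (s.1 - 1, (s.2.2, s.2.1 - a (s.1 - 1) • s.2.2))
  left_inv s := by
    obtain ⟨k, u, v⟩ := s
    simp
  right_inv s := by
    obtain ⟨k, u, v⟩ := s
    simp

theorem exists_frames (a : ℤ → ℤ) : ∃ e : ℤ → ℤ × ℤ, Fr a e := by
  set s : ℤ → ℤ × ((ℤ × ℤ) × (ℤ × ℤ)) := fun k => (stepE a ^ k) (0, ((1, 0), (0, 1))) with hs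
  have hstep : ∀ k, s (k + 1) = ((s k).1 + 1, (a (s k).1 • (s k).2.1 + (s k).2.2, (s k).2.1)) := by
    intro k
    simp only [hs]
    rw [add_comm, zpow_add, zpow_one]
    rfl
  have hs0 : s 0 = (0, ((1, 0), (0, 1))) := rfl
  have hk : ∀ k, (s k).1 = k := by
    intro k
    induction k using Int.induction_on with
    | zero => rw [hs0]
    | succ k ih => rw [hstep, ih]
    | pred k ih =>
      have := hstep (-(k : ℤ) - 1)
      rw [sub_add_cancel] at this
      rw [this] at ih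
      simp only at ih
      linarith
  have h2 : ∀ k, (s k).2.2 = (s (k - 1)).2.1 := by
    intro k
    have := hstep (k - 1)
    rw [sub_add_cancel] at this
    rw [this]
  refine ⟨fun k => (s k).2.1, ?_, ?_, ?_⟩
  · show (s 0).2.1 = _
    rw [hs0]
  · show (s (-1)).2.1 = _
    have := h2 0
    rw [hs0] at this
    simpa using this.symm
  · intro k
    show (s (k + 1)).2.1 = a k • (s k).2.1 + (s (k - 1)).2.1
    rw [hstep k, hk k, ← h2 k]

/-! ### digits -/

section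
variable {x y : ℤ → ℝ} {a : ℤ → ℤ}

theorem Ch.inv_x (h : Ch x y a) (k : ℤ) : 0 < 1 / x k ∧ 1 / x k < 1 := by
  have h1 := h.hx1 k
  have h0 : 0 < x k := by linarith
  refine ⟨by positivity, ?_⟩
  rw [div_lt_one h0]
  exact h1

theorem Ch.inv_y (h : Ch x y a) (k : ℤ) : 0 < 1 / y k ∧ 1 / y k < 1 := by
  have h1 := h.hy1 k
  have h0 : 0 < y k := by linarith
  refine ⟨by positivity, ?_⟩
  rw [div_lt_one h0]
  exact h1

/-- reversal -/
theorem Ch.rev (h : Ch x y a) : Ch (fun k => y (-k)) (fun k => x (-k)) (fun k => a (-k - 1)) where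
  hx1 k := h.hy1 _
  hy1 k := h.hx1 _
  hx k := by
    have := h.hy (-k - 1)
    show y (-k) = a (-k - 1) + 1 / y (-(k + 1))
    rw [sub_add_cancel] at this
    rw [this, show -(k + 1) = -k - 1 by ring]
  hy k := by
    have := h.hx (-k - 1)
    show x (-(k + 1)) = a (-k - 1) + 1 / x (-k)
    rw [sub_add_cancel] at this
    rw [show -(k + 1) = -k - 1 by ring, this]

/-- the other form of the Markoff values -/
theorem Ch.lam (h : Ch x y a) (k : ℤ) : y (k + 1) + 1 / x (k + 1) = x k + 1 / y k := by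
  rw [h.hx k, h.hy k]
  ring

/-- comparison of two continued fractions -/
theorem cf_cmp {X Y : ℕ → ℝ} {c d : ℕ → ℤ} (hX1 : ∀ n, 1 < X n) (hY1 : ∀ n, 1 < Y n)
    (hX : ∀ n, X n = c n + 1 / X (n + 1)) (hY : ∀ n, Y n = d n + 1 / Y (n + 1))
    (h0 : X 0 ≤ Y 0) (n : ℕ) (hcd : ∀ i, i < n → c i = d i) :
    (Even n → X n ≤ Y n) ∧ (Odd n → Y n ≤ X n) := by
  induction n with
  | zero => exact ⟨fun _ => h0, fun h => absurd h (by decide)⟩
  | succ n ih =>
    have ih' := ih (fun i hi => hcd i (by omega))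
    have hc := hcd n (by omega)
    have e1 := hX n
    have e2 := hY n
    have p1 : 0 < X (n + 1) := by linarith [hX1 (n + 1)]
    have p2 : 0 < Y (n + 1) := by linarith [hY1 (n + 1)]
    rw [hc] at e1
    constructor
    · intro he
      have ho : Odd n := by
        rcases Nat.even_or_odd n with h | h
        · exact absurd he (by simpa using Nat.not_even_iff_odd.2 h.add_one)
        · exact h
      have h1 := ih'.2 ho
      have h2 : 1 / Y (n + 1) ≤ 1 / X (n + 1) := by linarith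
      exact (one_div_le_one_div p2 p1).1 h2
    · intro ho
      have he : Even n := by
        rcases Nat.even_or_odd n with h | h
        · exact h
        · exact absurd ho (by simpa using Nat.not_odd_iff_even.2 h.add_one)
      have h1 := ih'.1 he
      have h2 : 1 / X (n + 1) ≤ 1 / Y (n + 1) := by linarith
      exact (one_div_le_one_div p1 p2).1 h2

theorem cf_digit {X Y : ℕ → ℝ} {c d : ℕ → ℤ} (hX1 : ∀ n, 1 < X n) (hY1 : ∀ n, 1 < Y n)
    (hX : ∀ n, X n = c n + 1 / X (n + 1)) (hY : ∀ n, Y n = d n + 1 / Y (n + 1)) {m n : ℕ}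
    (h : X n ≤ Y m) : c n ≤ d m := by
  have p1 : 0 < X (n + 1) := by linarith [hX1 (n + 1)]
  have p2 : 0 < Y (m + 1) := by linarith [hY1 (m + 1)]
  have h1 : 0 < 1 / X (n + 1) := by positivity
  have h2 : 1 / Y (m + 1) < 1 := by
    rw [div_lt_one p2]
    exact hY1 _
  have h3 : (c n : ℝ) < d m + 1 := by
    rw [hX n, hY m] at h
    linarith
  have h4 : c n < d m + 1 := by exact_mod_cast h3
  omega

/-- equal digits, equal values -/
theorem cf_eq {X Y : ℕ → ℝ} {c d : ℕ → ℤ} (hX1 : ∀ n, 1 < X n) (hY1 : ∀ n, 1 < Y n)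
    (hX : ∀ n, X n = c n + 1 / X (n + 1)) (hY : ∀ n, Y n = d n + 1 / Y (n + 1))
    (hcd : ∀ i, c i = d i) : X 0 = Y 0 := by
  -- the differences grow: |X n - Y n| = |X (n+1) - Y (n+1)| / (X (n+1) Y (n+1))
  have hc1 : ∀ n, 1 ≤ c n := by
    intro n
    have h1 := hX n
    have h2 := hX1 n
    have p1 : 0 < X (n + 1) := by linarith [hX1 (n + 1)]
    have h3 : 1 / X (n + 1) < 1 := by
      rw [div_lt_one p1]
      exact hX1 _
    have h4 : (0 : ℝ) < c n := by linarith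
    have h5 : 0 < c n := by exact_mod_cast h4
    omega
  have hXX : ∀ n, X n * X (n + 1) = c n * X (n + 1) + 1 := by
    intro n
    have p1 : 0 < X (n + 1) := by linarith [hX1 (n + 1)]
    rw [hX n]
    field_simp
  have hYY : ∀ n, Y n * Y (n + 1) = c n * Y (n + 1) + 1 := by
    intro n
    have p1 : 0 < Y (n + 1) := by linarith [hY1 (n + 1)]
    rw [hY n, ← hcd n]
    field_simp
  have hdiff : ∀ n, |X n - Y n| = |X (n + 1) - Y (n + 1)| / (X (n + 1) * Y (n + 1)) := by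
    intro n
    have p1 : 0 < X (n + 1) := by linarith [hX1 (n + 1)]
    have p2 : 0 < Y (n + 1) := by linarith [hY1 (n + 1)]
    have h1 : X n - Y n = -((X (n + 1) - Y (n + 1)) / (X (n + 1) * Y (n + 1))) := by
      rw [hX n, hY n, hcd n]
      field_simp
      ring
    rw [h1, abs_neg, abs_div, abs_of_pos (mul_pos p1 p2)]
  -- two steps gain a factor 2
  have htwo : ∀ n, 2 * |X n - Y n| ≤ |X (n + 2) - Y (n + 2)| := by
    intro n
    have p1 : 1 < X (n + 1) := hX1 _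
    have p2 : 1 < Y (n + 1) := hY1 _
    have p3 : 1 < X (n + 2) := hX1 _
    have p4 : 1 < Y (n + 2) := hY1 _
    have q0 : (1 : ℝ) ≤ c (n + 1) := by exact_mod_cast hc1 (n + 1)
    have e1 := hdiff n
    have e2 := hdiff (n + 1)
    have e3 := hXX (n + 1)
    have e4 := hYY (n + 1)
    rw [e1, e2, div_div, mul_div_assoc']
    rw [div_le_iff₀ (by positivity)]
    have h2 : 2 ≤ X (n + 1) * X (n + 1 + 1) := by
      rw [e3]
      nlinarith
    have h3 : 2 ≤ Y (n + 1) * Y (n + 1 + 1) := by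
      rw [e4]
      nlinarith
    have h4 : 2 ≤ X (n + 1 + 1) * Y (n + 1 + 1) * (X (n + 1) * Y (n + 1)) := by
      have : X (n + 1 + 1) * Y (n + 1 + 1) * (X (n + 1) * Y (n + 1)) =
          (X (n + 1) * X (n + 1 + 1)) * (Y (n + 1) * Y (n + 1 + 1)) := by ring
      rw [this]
      nlinarith
    have h5 := abs_nonneg (X (n + 2) - Y (n + 2))
    have h6 : |X (n + 1 + 1) - Y (n + 1 + 1)| = |X (n + 2) - Y (n + 2)| := rfl
    rw [h6]
    nlinarith
  have hpow : ∀ n, 2 ^ n * |X 0 - Y 0| ≤ |X (2 * n) - Y (2 * n)| := by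
    intro n
    induction n with
    | zero => simp
    | succ n ih =>
      have := htwo (2 * n)
      rw [show 2 * (n + 1) = 2 * n + 2 by ring, pow_succ]
      linarith
  -- but the differences are bounded by 1 once the digits agree
  have hbd : ∀ n, |X n - Y n| ≤ 1 := by
    intro n
    have p1 : 0 < X (n + 1) := by linarith [hX1 (n + 1)]
    have p2 : 0 < Y (n + 1) := by linarith [hY1 (n + 1)]
    have h1 : 0 < 1 / X (n + 1) := by positivity
    have h2 : 0 < 1 / Y (n + 1) := by positivity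
    have h3 : 1 / X (n + 1) < 1 := by
      rw [div_lt_one p1]
      exact hX1 _
    have h4 : 1 / Y (n + 1) < 1 := by
      rw [div_lt_one p2]
      exact hY1 _
    rw [hX n, hY n, hcd n, abs_le]
    constructor <;> linarith
  by_contra hne
  have hpos : 0 < |X 0 - Y 0| := abs_pos.2 (sub_ne_zero.2 hne)
  obtain ⟨n, hn⟩ := pow_unbounded_of_one_lt (1 / |X 0 - Y 0|) (one_lt_two)
  rw [div_lt_iff₀ hpos] at hn
  linarith [hpow n, hbd (2 * n)]

/-- right tail -/
theorem Ch.right (h : Ch x y a) (k : ℤ) :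
    (∀ n : ℕ, 1 < x (k + n)) ∧
      ∀ n : ℕ, x (k + n) = (a (k + n) : ℝ) + 1 / x (k + (n + 1 : ℕ)) := by
  refine ⟨fun n => h.hx1 _, fun n => ?_⟩
  have := h.hx (k + n)
  push_cast
  rw [← add_assoc]
  exact this

/-- left tail -/
theorem Ch.left (h : Ch x y a) (k : ℤ) :
    (∀ n : ℕ, 1 < y (k - n)) ∧
      ∀ n : ℕ, y (k - n) = (a (k - 1 - n) : ℝ) + 1 / y (k - (n + 1 : ℕ)) := by
  refine ⟨fun n => h.hy1 _, fun n => ?_⟩
  have := h.hy (k - 1 - n)
  rw [show k - 1 - (n : ℤ) + 1 = k - n by ring] at this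
  push_cast
  rw [this, show k - ((n : ℤ) + 1) = k - 1 - n by ring]

end

end Pool.Agent.L3
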