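import Pool.Agent.Work.MP_5e120e_nt.Chain

/-! # Chains with Markoff values at most 3: digits, words, frames -/

namespace Pool.Agent.L3

section
variable {x y : ℤ → ℝ} {a : ℤ → ℤ}

theorem Ch.rev_le (h : Ch x y a) (hl : ∀ k, x k + 1 / y k ≤ 3) (k : ℤ) :
    y (-k) + 1 / x (-k) ≤ 3 := by
  have h1 := h.lam (-k - 1)
  rw [sub_add_cancel] at h1
  rw [h1]
  exact hl _

theorem Ch.digit (h : Ch x y a) (hl : ∀ k, x k + 1 / y k ≤ 3) (k : ℤ) : a k = 1 ∨ a k = 2 := by
  have h1 := h.hx k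
  have h2 := h.hx1 k
  have h3 := h.inv_x (k + 1)
  have h4 := h.inv_y k
  have h5 := hl k
  have h6 : (0 : ℝ) < a k := by linarith
  have h7 : (a k : ℝ) < 3 := by linarith
  have h8 : 0 < a k := by exact_mod_cast h6
  have h9 : a k < 3 := by exact_mod_cast h7
  omega

/-- the transition `1 | 2` -/
theorem Ch.trans12 (h : Ch x y a) (hl : ∀ k, x k + 1 / y k ≤ 3) {b : ℤ} (h1 : a (b - 1) = 1)
    (h2 : a b = 2) : a (b + 1) = 2 ∧ a (b - 2) = 1 ∧ x (b + 2) ≤ y (b - 2) ∧
      (x (b + 2) = y (b - 2) → x b + 1 / y b = 3) := by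
  have hxb := h.hx b
  have hyb := h.hy (b - 1)
  have hxb1 := h.hx (b + 1)
  have hyb1 := h.hy (b - 2)
  rw [sub_add_cancel] at hyb
  rw [show b - 2 + 1 = b - 1 by ring] at hyb1
  rw [show b + 1 + 1 = b + 2 by ring] at hxb1
  rw [h1] at hyb
  rw [h2] at hxb
  push_cast at hxb hyb
  have X1 := h.hx1 (b + 1)
  have Y1 := h.hy1 (b - 1)
  have X2 := h.hx1 (b + 2)
  have Y2 := h.hy1 (b - 2)
  have iX2 := h.inv_x (b + 2)
  have iY2 := h.inv_y (b - 2)
  set X := x (b + 1) with hX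
  set Y := y (b - 1) with hY
  have hY0 : 0 < Y := by linarith
  have hX0 : 0 < X := by linarith
  have hyb' : 1 / y b = 1 - 1 / (Y + 1) := by
    rw [hyb]
    field_simp
    ring
  have hlb := hl b
  rw [hxb, hyb'] at hlb
  have h3 : 1 / X ≤ 1 / (Y + 1) := by linarith
  have h4 : Y + 1 ≤ X := (one_div_le_one_div hX0 (by linarith)).1 h3
  have ha1 : a (b + 1) = 2 := by
    rcases h.digit hl (b + 1) with h5 | h5
    · exfalso
      rw [h5] at hxb1
      push_cast at hxb1
      linarith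
    · exact h5
  have ha2 : a (b - 2) = 1 := by
    rcases h.digit hl (b - 2) with h5 | h5
    · exact h5
    · exfalso
      rw [h5] at hyb1
      rw [ha1] at hxb1
      push_cast at hxb1 hyb1
      linarith
  rw [ha1] at hxb1
  rw [ha2] at hyb1
  push_cast at hxb1 hyb1
  refine ⟨ha1, ha2, ?_, ?_⟩
  · have h5 : 1 / y (b - 2) ≤ 1 / x (b + 2) := by linarith
    exact (one_div_le_one_div (by linarith) (by linarith)).1 h5
  · intro he
    rw [← he] at hyb1
    have h6 : X = Y + 1 := by linarith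
    rw [hxb, hyb', h6]
    ring

/-- the transition `2 | 1` -/
theorem Ch.trans21 (h : Ch x y a) (hl : ∀ k, x k + 1 / y k ≤ 3) {b : ℤ} (h1 : a (b - 1) = 2)
    (h2 : a b = 1) : a (b + 1) = 1 ∧ a (b - 2) = 2 ∧ y (b - 2) ≤ x (b + 2) ∧
      (x (b + 2) = y (b - 2) → x (b - 1) + 1 / y (b - 1) = 3) := by
  have h3 := h.rev.trans12 (h.rev_le hl) (b := -b)
    (by show a (-(-b - 1) - 1) = 1; rw [show -(-b - 1) - 1 = b by ring]; exact h2)
    (by show a (-(-b) - 1) = 2; rw [neg_neg]; exact h1)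
  obtain ⟨e1, e2, e3, e4⟩ := h3
  rw [show -(-b + 1) - 1 = b - 2 by ring] at e1
  rw [show -(-b - 2) - 1 = b + 1 by ring] at e2
  rw [show -(-b + 2) = b - 2 by ring, show -(-b - 2) = b + 2 by ring] at e3 e4
  refine ⟨e2, e1, e3, fun he => ?_⟩
  have h5 := e4 he.symm
  rw [neg_neg] at h5
  have h6 := h.lam (b - 1)
  rw [sub_add_cancel] at h6
  rw [← h6]
  exact h5

/-- boundaries -/
theorem Ch.odd_dist (h : Ch x y a) (hl : ∀ k, x k + 1 / y k ≤ 3) (e : ℕ) (he : Odd e) (b : ℤ)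
    (hb : a (b - 1) ≠ a b) (hbe : a (b + e - 1) ≠ a (b + e)) : False := by
  induction e using Nat.strong_induction_on generalizing b with
  | _ e ih =>
    have hd := h.digit hl
    -- constant on the run
    have hin : ∀ i : ℕ, 0 < i → i < e → a (b + i - 1) = a (b + i) := by
      intro i hi1 hi2
      by_contra hc
      rcases Nat.even_or_odd i with hi | hi
      · refine ih (e - i) (by omega) ?_ (b + i) hc ?_
        · exact Nat.Odd.sub_even (by omega) he hi
        · have e1 : b + (i : ℤ) + ((e - i : ℕ) : ℤ) = b + e := by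
            push_cast [Nat.cast_sub hi2.le]; ring
          rw [e1]
          exact hbe
      · exact ih i hi2 hi b hb hc
    have hrun : ∀ i : ℕ, i < e → a (b + i) = a b := by
      intro i
      induction i with
      | zero => intro _; simp
      | succ i ihi =>
        intro hi
        have e1 := hin (i + 1) (by omega) hi
        have e2 := ihi (by omega)
        push_cast at e1 ⊢
        rw [← e1, show b + ((i : ℤ) + 1) - 1 = b + i by ring, e2]
    have hpos : 0 < e := he.pos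
    have hend : a (b + e) ≠ a b := by
      intro hc
      apply hbe
      have e1 := hrun (e - 1) (by omega)
      have e2 : b + ((e - 1 : ℕ) : ℤ) = b + e - 1 := by
        push_cast [Nat.cast_sub hpos]; ring
      rw [e2] at e1
      rw [e1, hc]
    -- the comparison
    set u := a b with hu
    set u' := a (b - 1) with hu'
    have hkey : a (b + 1) = u ∧ a (b - 2) = u' ∧
        (∀ n : ℕ, (∀ i : ℕ, i < n → a (b - 3 - i) = a (b + 2 + i)) →
          (Even n → a (b + 2 + n) = u → a (b - 3 - n) = u) ∧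
          (Odd n → a (b + 2 + n) = u' → a (b - 3 - n) = u')) := by
      have hR := h.right (b + 2)
      have hL := h.left (b - 2)
      have hL2 : ∀ n : ℕ, y (b - 2 - n) = (a (b - 3 - n) : ℝ) + 1 / y (b - 2 - (n + 1 : ℕ)) := by
        intro n
        have := hL.2 n
        rw [show b - 2 - 1 - (n : ℤ) = b - 3 - n by ring] at this
        exact this
      rcases hd b with h2 | h2 <;> rcases hd (b - 1) with h1 | h1
      · exact absurd (h1.trans h2.symm) hb
      · -- u = 1, u' = 2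
        obtain ⟨t1, t2, t3, -⟩ := h.trans21 hl h1 h2
        refine ⟨t1.trans h2.symm, t2.trans h1.symm, fun n hn => ⟨fun hev hdn => ?_,
          fun hod hdn => ?_⟩⟩
        · have hc := (cf_cmp hL.1 hR.1 hL2 hR.2 (by simpa using t3) n hn).1 hev
          have hdig := cf_digit (m := n) (n := n) hL.1 hR.1 hL2 hR.2 hc
          have := hd (b - 3 - n)
          omega
        · have hc := (cf_cmp hL.1 hR.1 hL2 hR.2 (by simpa using t3) n hn).2 hod
          have hdig := cf_digit (m := n) (n := n) hR.1 hL.1 hR.2 hL2 hc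
          have := hd (b - 3 - n)
          omega
      · -- u = 2, u' = 1
        obtain ⟨t1, t2, t3, -⟩ := h.trans12 hl h1 h2
        refine ⟨t1.trans h2.symm, t2.trans h1.symm, fun n hn => ⟨fun hev hdn => ?_,
          fun hod hdn => ?_⟩⟩
        · have hc := (cf_cmp hR.1 hL.1 hR.2 hL2 (by simpa using t3) n
            (fun i hi => (hn i hi).symm)).1 hev
          have hdig := cf_digit (m := n) (n := n) hR.1 hL.1 hR.2 hL2 hc
          have := hd (b - 3 - n)
          omega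
        · have hc := (cf_cmp hR.1 hL.1 hR.2 hL2 (by simpa using t3) n
            (fun i hi => (hn i hi).symm)).2 hod
          have hdig := cf_digit (m := n) (n := n) hL.1 hR.1 hL2 hR.2 hc
          have := hd (b - 3 - n)
          omega
      · exact absurd (h1.trans h2.symm) hb
    obtain ⟨hk1, hk2, hk3⟩ := hkey
    have he3 : 3 ≤ e := by
      rcases Nat.lt_or_ge e 3 with hlt | hge
      · exfalso
        have : e = 1 := by
          obtain ⟨r, hr⟩ := he
          omega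
        rw [this] at hend
        exact hend (by push_cast; exact hk1)
      · exact hge
    have hdn : ∀ n : ℕ, n < e - 2 → a (b + 2 + n) = u := by
      intro n hn
      have := hrun (n + 2) (by omega)
      push_cast at this
      rw [show b + 2 + (n : ℤ) = b + (n + 2) by ring]
      exact this
    have hde : a (b + 2 + (e - 2 : ℕ)) = u' := by
      have e1 : b + 2 + ((e - 2 : ℕ) : ℤ) = b + e := by
        push_cast [Nat.cast_sub (show 2 ≤ e by omega)]; ring
      rw [e1]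
      have h4 := hd (b + e)
      have h5 := hd b
      have h6 := hd (b - 1)
      omega
    have hex : ∃ n : ℕ, n = e - 2 ∨ a (b - 3 - n) ≠ a (b + 2 + n) := ⟨e - 2, Or.inl rfl⟩
    classical
    set n₁ := Nat.find hex with hn₁
    have hspec := Nat.find_spec hex
    rw [← hn₁] at hspec
    have hagree : ∀ i : ℕ, i < n₁ → a (b - 3 - i) = a (b + 2 + i) := by
      intro i hi
      by_contra hc
      exact Nat.find_min hex hi (Or.inr hc)
    have hn₁le : n₁ ≤ e - 2 := Nat.find_min' hex (Or.inl rfl)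
    have hn₁0 : n₁ ≠ 0 := by
      intro h0
      rw [h0] at hspec
      rcases hspec with h4 | h4
      · omega
      · apply h4
        have h5 := (hk3 0 (fun i hi => absurd hi (by omega))).1 (by simp) (hdn 0 (by omega))
        rw [h5, hdn 0 (by omega)]
    have hodd : Odd n₁ ∧ a (b - 3 - n₁) = u' := by
      rcases Nat.lt_or_ge n₁ (e - 2) with hlt | hge
      · have h4 : a (b - 3 - n₁) ≠ a (b + 2 + n₁) := by
          rcases hspec with h5 | h5
          · omega
          · exact h5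
        rcases Nat.even_or_odd n₁ with hev | hod
        · exfalso
          apply h4
          rw [(hk3 n₁ hagree).1 hev (hdn n₁ hlt), hdn n₁ hlt]
        · refine ⟨hod, ?_⟩
          rw [hdn n₁ hlt] at h4
          have h5 := hd (b - 3 - n₁)
          have h6 := hd b
          have h7 := hd (b - 1)
          omega
      · have h4 : n₁ = e - 2 := le_antisymm hn₁le hge
        have hod : Odd n₁ := by
          rw [h4]
          obtain ⟨r, hr⟩ := he
          exact ⟨r - 1, by omega⟩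
        refine ⟨hod, ?_⟩
        apply (hk3 n₁ hagree).2 hod
        rw [h4]
        exact hde
    have hprev : a (b - 2 - n₁) = u := by
      have h4 := hagree (n₁ - 1) (by omega)
      have h5 := hdn (n₁ - 1) (by omega)
      rw [h5] at h4
      have e1 : b - 3 - ((n₁ - 1 : ℕ) : ℤ) = b - 2 - n₁ := by
        push_cast [Nat.cast_sub (show 1 ≤ n₁ by omega)]; ring
      rw [e1] at h4
      exact h4
    have h0' : a (b - 3) = u := by
      have h4 := hagree 0 (by omega)
      have h5 := hdn 0 (by omega)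
      rw [h5] at h4
      simpa using h4
    refine ih n₁ (by omega) hodd.1 (b - 2 - n₁) ?_ ?_
    · rw [hprev, show b - 2 - (n₁ : ℤ) - 1 = b - 3 - n₁ by ring, hodd.2]
      exact hb
    · rw [show b - 2 - (n₁ : ℤ) + n₁ - 1 = b - 3 by ring,
        show b - 2 - (n₁ : ℤ) + n₁ = b - 2 by ring, h0', hk2]
      exact hb.symm

/-- alignment at a boundary -/
theorem Ch.align (h : Ch x y a) (hl : ∀ k, x k + 1 / y k ≤ 3) {k₀ : ℤ}
    (hk₀ : a (k₀ - 1) ≠ a k₀) (j : ℤ) : a (k₀ + 2 * j + 1) = a (k₀ + 2 * j) := by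
  by_contra hc
  rcases le_or_gt 0 j with hj | hj
  · obtain ⟨i, rfl⟩ := Int.eq_ofNat_of_zero_le hj
    refine h.odd_dist hl (2 * i + 1) ⟨i, rfl⟩ k₀ hk₀ ?_
    push_cast
    rw [show k₀ + (2 * (i : ℤ) + 1) - 1 = k₀ + 2 * i by ring,
      show k₀ + (2 * (i : ℤ) + 1) = k₀ + 2 * i + 1 by ring]
    exact fun h' => hc h'.symm
  · obtain ⟨i, hi⟩ := Int.eq_ofNat_of_zero_le (show 0 ≤ -1 - j by omega)
    have hj' : j = -1 - (i : ℤ) := by omega
    subst hj'
    refine h.odd_dist hl (2 * i + 1) ⟨i, rfl⟩ (k₀ + 2 * (-1 - (i : ℤ)) + 1) ?_ ?_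
    · rw [add_sub_cancel_right]
      exact fun h' => hc h'.symm
    · push_cast
      rw [show k₀ + 2 * (-1 - (i : ℤ)) + 1 + (2 * i + 1) - 1 = k₀ - 1 by ring,
        show k₀ + 2 * (-1 - (i : ℤ)) + 1 + (2 * i + 1) = k₀ by ring]
      exact hk₀

/-- the word of a chain, aligned at `k₀` -/
def wd (a : ℤ → ℤ) (k₀ : ℤ) (j : ℤ) : ℤ := a (k₀ + 2 * j) - 1

theorem Ch.wd_isW (h : Ch x y a) (hl : ∀ k, x k + 1 / y k ≤ 3) (k₀ : ℤ) : IsW (wd a k₀) := by
  intro n
  unfold wd
  rcases h.digit hl (k₀ + 2 * n) with h1 | h1 <;> omega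

theorem Ch.wd_digit (h : Ch x y a) (hl : ∀ k, x k + 1 / y k ≤ 3) {k₀ : ℤ}
    (hk₀ : a (k₀ - 1) ≠ a k₀) (n : ℤ) : a (k₀ + n) = wd a k₀ (n / 2) + 1 := by
  unfold wd
  rcases Int.even_or_odd' n with ⟨i, hi | hi⟩
  · have : n / 2 = i := by omega
    rw [this, hi]
    ring
  · have : n / 2 = i := by omega
    rw [this, hi, ← add_assoc, h.align hl hk₀ i]
    ring

theorem Ch.wd_mp (h : Ch x y a) (hl : ∀ k, x k + 1 / y k ≤ 3) {k₀ : ℤ}
    (hk₀ : a (k₀ - 1) ≠ a k₀) : MP (wd a k₀) := by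
  intro K hK hK1 j hj
  have hd := h.wd_digit hl hk₀
  have h1 : a (k₀ + 2 * K + 2 - 1) = 1 := by
    have := hd (2 * K + 1)
    rw [show (2 * K + 1) / 2 = K by omega, hK] at this
    rw [show k₀ + 2 * K + 2 - 1 = k₀ + (2 * K + 1) by ring, this]
    norm_num
  have h2 : a (k₀ + 2 * K + 2) = 2 := by
    have := hd (2 * K + 2)
    rw [show (2 * K + 2) / 2 = K + 1 by omega, hK1] at this
    rw [show k₀ + 2 * K + 2 = k₀ + (2 * K + 2) by ring, this]
    norm_num
  obtain ⟨-, -, t3, -⟩ := h.trans12 hl h1 h2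
  have hR := h.right (k₀ + 2 * K + 2 + 2)
  have hL := h.left (k₀ + 2 * K + 2 - 2)
  have hc := (cf_cmp hR.1 hL.1 hR.2 hL.2 (by simpa using t3) (2 * j) (by
    intro i hi
    rw [show k₀ + 2 * K + 2 + 2 + (i : ℤ) = k₀ + (2 * K + 4 + i) by ring,
      show k₀ + 2 * K + 2 - 2 - 1 - (i : ℤ) = k₀ + (2 * K - 1 - i) by ring, hd, hd,
      show (2 * K + 4 + (i : ℤ)) / 2 = K + 2 + (i / 2 : ℕ) by omega,
      show (2 * K - 1 - (i : ℤ)) / 2 = K - 1 - (i / 2 : ℕ) by omega, hj (i / 2) (by omega)])).1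
    (by simp)
  have hdig := cf_digit (m := 2 * j) (n := 2 * j) hR.1 hL.1 hR.2 hL.2 hc
  push_cast at hdig
  rw [show k₀ + 2 * K + 2 + 2 + 2 * (j : ℤ) = k₀ + (2 * K + 4 + 2 * j) by ring,
    show k₀ + 2 * K + 2 - 2 - 1 - 2 * (j : ℤ) = k₀ + (2 * K - 1 - 2 * j) by ring, hd, hd,
    show (2 * K + 4 + 2 * (j : ℤ)) / 2 = K + 2 + j by omega,
    show (2 * K - 1 - 2 * (j : ℤ)) / 2 = K - 1 - j by omega] at hdig
  linarith

theorem Ch.wd_mp' (h : Ch x y a) (hl : ∀ k, x k + 1 / y k ≤ 3) {k₀ : ℤ}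
    (hk₀ : a (k₀ - 1) ≠ a k₀) : MP (fun n => 1 - wd a k₀ n) := by
  intro K hK hK1 j hj
  simp only at hK hK1 hj ⊢
  have hd := h.wd_digit hl hk₀
  have h1 : a (k₀ + 2 * K + 2 - 1) = 2 := by
    have := hd (2 * K + 1)
    rw [show (2 * K + 1) / 2 = K by omega] at this
    rw [show k₀ + 2 * K + 2 - 1 = k₀ + (2 * K + 1) by ring, this]
    linarith
  have h2 : a (k₀ + 2 * K + 2) = 1 := by
    have := hd (2 * K + 2)
    rw [show (2 * K + 2) / 2 = K + 1 by omega] at this
    rw [show k₀ + 2 * K + 2 = k₀ + (2 * K + 2) by ring, this]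
    linarith
  obtain ⟨-, -, t3, -⟩ := h.trans21 hl h1 h2
  have hR := h.right (k₀ + 2 * K + 2 + 2)
  have hL := h.left (k₀ + 2 * K + 2 - 2)
  have hc := (cf_cmp hL.1 hR.1 hL.2 hR.2 (by simpa using t3) (2 * j) (by
    intro i hi
    rw [show k₀ + 2 * K + 2 + 2 + (i : ℤ) = k₀ + (2 * K + 4 + i) by ring,
      show k₀ + 2 * K + 2 - 2 - 1 - (i : ℤ) = k₀ + (2 * K - 1 - i) by ring, hd, hd,
      show (2 * K + 4 + (i : ℤ)) / 2 = K + 2 + (i / 2 : ℕ) by omega,
      show (2 * K - 1 - (i : ℤ)) / 2 = K - 1 - (i / 2 : ℕ) by omega]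
    have := hj (i / 2) (by omega)
    linarith)).1 (by simp)
  have hdig := cf_digit (m := 2 * j) (n := 2 * j) hL.1 hR.1 hL.2 hR.2 hc
  push_cast at hdig
  rw [show k₀ + 2 * K + 2 + 2 + 2 * (j : ℤ) = k₀ + (2 * K + 4 + 2 * j) by ring,
    show k₀ + 2 * K + 2 - 2 - 1 - 2 * (j : ℤ) = k₀ + (2 * K - 1 - 2 * j) by ring, hd, hd,
    show (2 * K + 4 + 2 * (j : ℤ)) / 2 = K + 2 + j by omega,
    show (2 * K - 1 - 2 * (j : ℤ)) / 2 = K - 1 - j by omega] at hdig
  linarith

/-- mirror symmetry of the word gives the Markoff value `3` -/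
theorem Ch.eqAt (h : Ch x y a) (hl : ∀ k, x k + 1 / y k ≤ 3) {k₀ : ℤ}
    (hk₀ : a (k₀ - 1) ≠ a k₀) {N : ℤ} (hN : EqAt (wd a k₀) N) :
    (wd a k₀ N = 1 → x (k₀ + 2 * N) + 1 / y (k₀ + 2 * N) = 3) ∧
      (wd a k₀ N = 0 → x (k₀ + 2 * N - 1) + 1 / y (k₀ + 2 * N - 1) = 3) := by
  have hd := h.wd_digit hl hk₀
  have hW := h.wd_isW hl k₀
  have hR := h.right (k₀ + 2 * N + 2)
  have hL := h.left (k₀ + 2 * N - 2)
  have heq := cf_eq hR.1 hL.1 hR.2 hL.2 (by
    intro i
    rw [show k₀ + 2 * N + 2 + (i : ℤ) = k₀ + (2 * N + 2 + i) by ring,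
      show k₀ + 2 * N - 2 - 1 - (i : ℤ) = k₀ + (2 * N - 3 - i) by ring, hd, hd,
      show (2 * N + 2 + (i : ℤ)) / 2 = N + 1 + (i / 2 : ℕ) by omega,
      show (2 * N - 3 - (i : ℤ)) / 2 = N - 2 - (i / 2 : ℕ) by omega, hN.2 (i / 2)])
  simp only [Nat.cast_zero, add_zero, sub_zero] at heq
  have hp : a (k₀ + 2 * N - 1) = wd a k₀ (N - 1) + 1 := by
    have := hd (2 * N - 1)
    rw [show (2 * N - 1) / 2 = N - 1 by omega] at this
    rw [show k₀ + 2 * N - 1 = k₀ + (2 * N - 1) by ring, this]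
  have hq : a (k₀ + 2 * N) = wd a k₀ N + 1 := by
    have := hd (2 * N)
    rw [show (2 * N) / 2 = N by omega] at this
    exact this
  have hne := hN.1
  constructor
  · intro h1
    have h0 : wd a k₀ (N - 1) = 0 := by
      rcases hW (N - 1) with h2 | h2
      · exact h2
      · exact absurd (h2.trans h1.symm) hne
    exact (h.trans12 hl (by rw [hp, h0]; norm_num) (by rw [hq, h1]; norm_num)).2.2.2 heq
  · intro h1
    have h0 : wd a k₀ (N - 1) = 1 := by
      rcases hW (N - 1) with h2 | h2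
      · exact absurd (h2.trans h1.symm) hne
      · exact h2
    exact (h.trans21 hl (by rw [hp, h0]; norm_num) (by rw [hq, h1]; norm_num)).2.2.2 heq

/-! ### frames -/

/-- the determinant of two integer vectors -/
def dt (v w : ℤ × ℤ) : ℤ := v.1 * w.2 - w.1 * v.2

/-- the form with roots `x` and `-1/y` and discriminant `1` -/
noncomputable def Qf (x y : ℝ) (w : ℤ × ℤ) : ℝ := ((w.1 : ℝ) - x * w.2) * (y * w.1 + w.2) / (x * y + 1)

theorem Fr.det {e : ℤ → ℤ × ℤ} (hf : Fr a e) (k : ℤ) :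
    dt (e (k + 1)) (e k) = -dt (e k) (e (k - 1)) := by
  rw [hf.hs k]
  simp only [dt, Prod.fst_add, Prod.snd_add, Prod.smul_fst, Prod.smul_snd, smul_eq_mul]
  ring

theorem Fr.det_abs {e : ℤ → ℤ × ℤ} (hf : Fr a e) (k : ℤ) :
    dt (e k) (e (k - 1)) = 1 ∨ dt (e k) (e (k - 1)) = -1 := by
  induction k using Int.induction_on with
  | zero =>
    left
    rw [zero_sub, hf.h0, hf.h1]
    simp [dt]
  | succ k ih =>
    have := hf.det k
    rw [add_sub_cancel_right, this]
    rcases ih with h | h <;> rw [h] <;> simp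
  | pred k ih =>
    have := hf.det (-(k : ℤ) - 1)
    rw [sub_add_cancel] at this
    rw [this] at ih
    rcases ih with h | h <;> omega

theorem Ch.mu (h : Ch x y a) {e : ℤ → ℤ × ℤ} (hf : Fr a e) (k : ℤ) :
    ((e (k - 1)).1 : ℝ) - x 0 * (e (k - 1)).2 = -x k * ((e k).1 - x 0 * (e k).2) := by
  have hx0 : ∀ k, x k ≠ 0 := fun k => by linarith [h.hx1 k]
  induction k using Int.induction_on with
  | zero =>
    rw [zero_sub, hf.h0, hf.h1]
    simp
  | succ k ih =>
    rw [add_sub_cancel_right, hf.hs k]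
    simp only [Prod.fst_add, Prod.snd_add, Prod.smul_fst, Prod.smul_snd, smul_eq_mul]
    push_cast
    have h1 := h.hx k
    have h2 := hx0 (k + 1)
    have h3 : (a k : ℝ) = x k - 1 / x (k + 1) := by linarith
    rw [h3]
    have h4 : x (k + 1) * (1 / x (k + 1)) = 1 := by field_simp
    linear_combination (x (k + 1)) * ih - ((e (k : ℤ)).1 - x 0 * (e (k : ℤ)).2) * h4
  | pred k ih =>
    have hs := hf.hs (-(k : ℤ) - 1)
    rw [sub_add_cancel] at hs
    have h1 := h.hx (-(k : ℤ) - 1)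
    rw [sub_add_cancel] at h1
    rw [hs] at ih
    simp only [Prod.fst_add, Prod.snd_add, Prod.smul_fst, Prod.smul_snd, smul_eq_mul] at ih
    push_cast at ih
    have h2 := hx0 (-(k : ℤ))
    have h3 : (a (-(k : ℤ) - 1) : ℝ) = x (-(k : ℤ) - 1) - 1 / x (-(k : ℤ)) := by linarith
    rw [h3] at ih
    have h4 : x (-(k : ℤ)) * (1 / x (-(k : ℤ))) = 1 := by field_simp
    have h5 : x (-(k : ℤ)) * (((e (-(k : ℤ) - 1 - 1)).1 : ℝ) - x 0 * (e (-(k : ℤ) - 1 - 1)).2) =
        x (-(k : ℤ)) * (-x (-(k : ℤ) - 1) * ((e (-(k : ℤ) - 1)).1 - x 0 * (e (-(k : ℤ) - 1)).2)) := by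
      linear_combination (1 : ℝ) * ih +
        ((e (-(k : ℤ) - 1)).1 - x 0 * (e (-(k : ℤ) - 1)).2) * h4
    exact mul_left_cancel₀ h2 h5

theorem Ch.nu (h : Ch x y a) {e : ℤ → ℤ × ℤ} (hf : Fr a e) (k : ℤ) :
    y 0 * (e k).1 + (e k).2 = y k * (y 0 * (e (k - 1)).1 + (e (k - 1)).2) := by
  have hy0 : ∀ k, y k ≠ 0 := fun k => by linarith [h.hy1 k]
  induction k using Int.induction_on with
  | zero =>
    rw [zero_sub, hf.h0, hf.h1]
    simp
  | succ k ih =>
    rw [add_sub_cancel_right, hf.hs k, h.hy k]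
    simp only [Prod.fst_add, Prod.snd_add, Prod.smul_fst, Prod.smul_snd, smul_eq_mul]
    push_cast
    have h4 : y k * (1 / y k) = 1 := by
      have := hy0 k
      field_simp
    linear_combination (-1 / y k) * ih +
      (-(y 0 * (e ((k : ℤ) - 1)).1 + (e ((k : ℤ) - 1)).2)) * h4
  | pred k ih =>
    have hs := hf.hs (-(k : ℤ) - 1)
    rw [sub_add_cancel] at hs
    have h1 := h.hy (-(k : ℤ) - 1)
    rw [sub_add_cancel] at h1
    rw [hs, h1] at ih
    simp only [Prod.fst_add, Prod.snd_add, Prod.smul_fst, Prod.smul_snd, smul_eq_mul] at ih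
    push_cast at ih
    have h2 := hy0 (-(k : ℤ) - 1)
    have h4 : y (-(k : ℤ) - 1) * (1 / y (-(k : ℤ) - 1)) = 1 := by field_simp
    linear_combination (-y (-(k : ℤ) - 1)) * ih -
      (y 0 * (e (-(k : ℤ) - 1)).1 + (e (-(k : ℤ) - 1)).2) * h4

/-- value of the form at the frame vectors -/
theorem Ch.Qe (h : Ch x y a) {e : ℤ → ℤ × ℤ} (hf : Fr a e) (k : ℤ) :
    Qf (x 0) (y 0) (e k) * (x k + 1 / y k) = dt (e k) (e (k - 1)) := by
  have h1 := h.mu hf k
  have h2 := h.nu hf k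
  have hx0 : 0 < x 0 := by linarith [h.hx1 0]
  have hy0 : 0 < y 0 := by linarith [h.hy1 0]
  have hyk : y k ≠ 0 := by linarith [h.hy1 k]
  have h3 : x 0 * y 0 + 1 ≠ 0 := by positivity
  unfold Qf dt
  rw [div_mul_eq_mul_div, div_eq_iff h3]
  push_cast
  have h4 : y k * (1 / y k) = 1 := by field_simp
  set m := ((e k).1 : ℝ) - x 0 * (e k).2 with hm
  set n := y 0 * ((e (k - 1)).1 : ℝ) + (e (k - 1)).2 with hn
  rw [h2]
  have h5 : ((e k).1 : ℝ) * (e (k - 1)).2 - (e (k - 1)).1 * (e k).2 =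
      (m * n - (((e (k - 1)).1 : ℝ) - x 0 * (e (k - 1)).2) * (y 0 * (e k).1 + (e k).2)) /
        (x 0 * y 0 + 1) := by
    rw [eq_div_iff h3, hm, hn]
    ring
  rw [h5, h1, h2, div_mul_cancel₀ _ h3]
  linear_combination (m * n) * h4

theorem Ch.mu_anti (h : Ch x y a) {e : ℤ → ℤ × ℤ} (hf : Fr a e) :
    StrictAnti (fun k => |((e k).1 : ℝ) - x 0 * (e k).2|) := by
  have hne : ∀ k, ((e k).1 : ℝ) - x 0 * (e k).2 ≠ 0 := by
    intro k h0
    have h1 := h.Qe hf k
    unfold Qf at h1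
    rw [h0] at h1
    simp only [zero_mul, zero_div] at h1
    rcases hf.det_abs k with h2 | h2 <;> rw [h2] at h1 <;> norm_num at h1
  apply strictAnti_int_of_succ_lt
  intro k
  have h1 := h.mu hf (k + 1)
  rw [add_sub_cancel_right] at h1
  show |((e (k + 1)).1 : ℝ) - x 0 * (e (k + 1)).2| < |((e k).1 : ℝ) - x 0 * (e k).2|
  rw [h1, neg_mul, abs_neg, abs_mul, abs_of_pos (show 0 < x (k + 1) by linarith [h.hx1 (k + 1)])]
  have h2 := abs_pos.2 (hne (k + 1))
  have h3 := h.hx1 (k + 1)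
  nlinarith

theorem Ch.nu_mono (h : Ch x y a) {e : ℤ → ℤ × ℤ} (hf : Fr a e) :
    StrictMono (fun k => |y 0 * ((e k).1 : ℝ) + (e k).2|) := by
  have hne : ∀ k, y 0 * ((e k).1 : ℝ) + (e k).2 ≠ 0 := by
    intro k h0
    have h1 := h.Qe hf k
    unfold Qf at h1
    rw [h0] at h1
    simp only [mul_zero, zero_div, zero_mul] at h1
    rcases hf.det_abs k with h2 | h2 <;> rw [h2] at h1 <;> norm_num at h1
  apply strictMono_int_of_lt_succ
  intro k
  have h1 := h.nu hf (k + 1)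
  rw [add_sub_cancel_right] at h1
  show |y 0 * ((e k).1 : ℝ) + (e k).2| < |y 0 * ((e (k + 1)).1 : ℝ) + (e (k + 1)).2|
  rw [h1, abs_mul, abs_of_pos (show 0 < y (k + 1) by linarith [h.hy1 (k + 1)])]
  have h2 := abs_pos.2 (hne k)
  have h3 := h.hy1 (k + 1)
  nlinarith

/-- different frame vectors are independent -/
theorem Ch.det_ne (h : Ch x y a) {e : ℤ → ℤ × ℤ} (hf : Fr a e) {k l : ℤ} (hkl : k < l) :
    dt (e k) (e l) ≠ 0 := by
  intro h0
  have h1 := h.mu_anti hf hkl
  have h2 := h.nu_mono hf hkl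
  simp only at h1 h2
  have h3 : (((e k).1 : ℝ) - x 0 * (e k).2) * (y 0 * ((e l).1 : ℝ) + (e l).2) =
      (((e l).1 : ℝ) - x 0 * (e l).2) * (y 0 * ((e k).1 : ℝ) + (e k).2) := by
    have h4 : ((dt (e k) (e l) : ℤ) : ℝ) = 0 := by rw [h0]; simp
    unfold dt at h4
    push_cast at h4
    linear_combination (1 + x 0 * y 0) * h4
  have h5 := congrArg abs h3
  rw [abs_mul, abs_mul] at h5
  have a1 := abs_nonneg (((e l).1 : ℝ) - x 0 * (e l).2)
  have a2 := abs_nonneg (y 0 * ((e k).1 : ℝ) + (e k).2)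
  nlinarith

/-- both roots are roots of one integral quadratic polynomial -/
def Per (ξ η : ℝ) : Prop := ∃ A B C : ℤ, C ≠ 0 ∧ (C : ℝ) * ξ ^ 2 + B * ξ + A = 0 ∧
  (C : ℝ) * η ^ 2 + B * η + A = 0

theorem Ch.per (h : Ch x y a) {r : ℕ} (hr : 0 < r) (ha : ∀ k, a (k + r) = a k) :
    Per (x 0) (-1 / y 0) := by
  obtain ⟨e, hf⟩ := exists_frames a
  have hx : x r = x 0 := by
    have h1 := h.right r
    have h2 := h.right 0
    have := cf_eq h1.1 h2.1 h1.2 h2.2 (by
      intro i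
      rw [zero_add, show (r : ℤ) + i = i + r by ring]
      exact ha _)
    simpa using this
  have hy : y r = y 0 := by
    have h1 := h.left r
    have h2 := h.left 0
    have := cf_eq h1.1 h2.1 h1.2 h2.2 (by
      intro i
      rw [show (r : ℤ) - 1 - i = (0 - 1 - i) + r by ring]
      exact ha _)
    simpa using this
  have ha1 : ∀ k, 0 < a k := by
    intro k
    have h1 := h.hx k
    have h2 := h.hx1 k
    have h3 := h.inv_x (k + 1)
    have h6 : (0 : ℝ) < a k := by linarith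
    exact_mod_cast h6
  have hpos : ∀ k : ℕ, 0 ≤ (e k).2 ∧ 0 < (e (k + 1)).2 := by
    intro k
    induction k with
    | zero =>
      have := hf.hs 0
      rw [zero_sub, hf.h0, hf.h1] at this
      simp only [Nat.cast_zero, zero_add] at this ⊢
      rw [this, hf.h0]
      simp
    | succ k ih =>
      refine ⟨by push_cast; exact ih.2.le, ?_⟩
      have := hf.hs (k + 1)
      push_cast
      rw [this, add_sub_cancel_right]
      simp only [Prod.snd_add, Prod.smul_snd, smul_eq_mul]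
      have h1 := ha1 (k + 1)
      nlinarith [ih.1, ih.2, mul_pos h1 ih.2]
  have hC : 0 < (e r).2 := by
    obtain ⟨r', rfl⟩ := Nat.exists_eq_succ_of_ne_zero hr.ne'
    have := (hpos r').2
    push_cast
    exact this
  have h1 := h.mu hf r
  have h2 := h.nu hf r
  rw [hx] at h1
  rw [hy] at h2
  refine ⟨-(e ((r : ℤ) - 1)).1, (e ((r : ℤ) - 1)).2 - (e r).1, (e r).2, hC.ne', ?_, ?_⟩
  · push_cast
    linear_combination (-1 : ℝ) * h1
  · have hy0 : y 0 ≠ 0 := by linarith [h.hy1 0]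
    push_cast
    field_simp
    linear_combination h2

end

end Pool.Agent.L3
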