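import Pool.Agent.Work.MP_5e120e_nt.Lattice

/-! # The continued fraction frames of a real number -/

namespace Pool.Agent.L3

/-- the frame vectors (current, previous) -/
noncomputable def fr (x : ℝ) : ℕ → (ℤ × ℤ) × (ℤ × ℤ)
  | 0 => ((1, 0), (0, 1))
  | (k + 1) => (⌊etaS x k⌋ • (fr x k).1 + (fr x k).2, (fr x k).1)

/-- the ratio of the denominators -/
noncomputable def sg (x : ℝ) (k : ℕ) : ℝ := ((fr x k).2.2 : ℝ) / (fr x k).1.2

theorem fr_succ1 (x : ℝ) (k : ℕ) : (fr x (k + 1)).1.1 = ⌊etaS x k⌋ * (fr x k).1.1 + (fr x k).2.1 := by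
  show (⌊etaS x k⌋ • (fr x k).1 + (fr x k).2).1 = _
  simp

theorem fr_succ2 (x : ℝ) (k : ℕ) : (fr x (k + 1)).1.2 = ⌊etaS x k⌋ * (fr x k).1.2 + (fr x k).2.2 := by
  show (⌊etaS x k⌋ • (fr x k).1 + (fr x k).2).2 = _
  simp

theorem fr_succ3 (x : ℝ) (k : ℕ) : (fr x (k + 1)).2 = (fr x k).1 := rfl

theorem fl_pos {x : ℝ} (hx : Irrational x) (k : ℕ) : 1 ≤ ⌊etaS x (k + 1)⌋ :=
  Int.le_floor.2 (by simpa using (etaS_gt hx k).le)

theorem fr_det {x : ℝ} (k : ℕ) : |(fr x k).1.1 * (fr x k).2.2 - (fr x k).2.1 * (fr x k).1.2| = 1 := by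
  induction k with
  | zero => simp [fr]
  | succ k ih =>
    rw [fr_succ1, fr_succ2, fr_succ3]
    have : (⌊etaS x k⌋ * (fr x k).1.1 + (fr x k).2.1) * (fr x k).1.2 -
        (fr x k).1.1 * (⌊etaS x k⌋ * (fr x k).1.2 + (fr x k).2.2) =
        -((fr x k).1.1 * (fr x k).2.2 - (fr x k).2.1 * (fr x k).1.2) := by ring
    rw [this, abs_neg]
    exact ih

/-- denominators -/
theorem den_pos {x : ℝ} (hx : Irrational x) (k : ℕ) :
    0 < (fr x (k + 1)).1.2 ∧ 0 ≤ (fr x (k + 1)).2.2 ∧ (fr x (k + 1)).2.2 ≤ (fr x (k + 1)).1.2 ∧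
      (k : ℤ) ≤ (fr x (k + 1)).1.2 := by
  induction k with
  | zero =>
    rw [fr_succ2, fr_succ3]
    simp [fr]
  | succ k ih =>
    obtain ⟨i1, i2, i3, i4⟩ := ih
    have h1 := fl_pos hx k
    rw [fr_succ2 x (k + 1), fr_succ3 x (k + 1)]
    have h2 : (fr x (k + 1)).1.2 ≤ ⌊etaS x (k + 1)⌋ * (fr x (k + 1)).1.2 := by nlinarith
    refine ⟨by linarith, i1.le, by linarith, ?_⟩
    rcases Nat.eq_zero_or_pos k with h0 | h0
    · subst h0
      push_cast
      linarith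
    · have h3 : 0 < (fr x (k + 1)).2.2 := by
        obtain ⟨k', rfl⟩ := Nat.exists_eq_succ_of_ne_zero h0.ne'
        rw [fr_succ3]
        have h4 := fl_pos hx k'
        have : 0 < (fr x (k' + 1)).1.2 ∧ 0 ≤ (fr x (k' + 1)).2.2 := by
          clear i1 i2 i3 i4 h1 h2
          induction k' with
          | zero =>
            rw [fr_succ2, fr_succ3]
            simp [fr]
          | succ k' ih' =>
            have i5 := ih' (Nat.succ_pos _) (fl_pos hx k')
            have h1' := fl_pos hx k'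
            rw [fr_succ2 x (k' + 1), fr_succ3 x (k' + 1)]
            refine ⟨?_, i5.1.le⟩
            nlinarith [i5.1, i5.2]
        exact this.1
      push_cast
      linarith

theorem den_lt {x : ℝ} (hx : Irrational x) {k : ℕ} (hk : 2 ≤ k) :
    (fr x k).1.2 < (fr x (k + 1)).1.2 := by
  obtain ⟨k', rfl⟩ : ∃ k', k = k' + 2 := ⟨k - 2, by omega⟩
  have h1 := fl_pos hx (k' + 1)
  have h2 := den_pos hx k'
  have h3 := den_pos hx (k' + 1)
  rw [fr_succ2 x (k' + 2)]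
  have h4 : (fr x (k' + 2)).2.2 = (fr x (k' + 1)).1.2 := by rw [fr_succ3]
  rw [h4]
  have h5 : (fr x (k' + 2)).1.2 ≤ ⌊etaS x (k' + 2)⌋ * (fr x (k' + 2)).1.2 := by
    have := h3.1
    nlinarith
  linarith [h2.1]

theorem den_strict {x : ℝ} (hx : Irrational x) {k l : ℕ} (hk : 2 ≤ k) (hkl : k < l) :
    (fr x k).1.2 < (fr x l).1.2 := by
  induction l, hkl using Nat.le_induction with
  | base => exact den_lt hx hk
  | succ l hl ih => exact ih.trans (den_lt hx (by omega))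

theorem sg_mem {x : ℝ} (hx : Irrational x) (k : ℕ) : 0 ≤ sg x (k + 1) ∧ sg x (k + 1) ≤ 1 := by
  obtain ⟨h1, h2, h3, -⟩ := den_pos hx k
  have h1' : (0 : ℝ) < (fr x (k + 1)).1.2 := by exact_mod_cast h1
  have h2' : (0 : ℝ) ≤ (fr x (k + 1)).2.2 := by exact_mod_cast h2
  have h3' : ((fr x (k + 1)).2.2 : ℝ) ≤ (fr x (k + 1)).1.2 := by exact_mod_cast h3
  unfold sg
  exact ⟨div_nonneg h2' h1'.le, (div_le_one h1').2 h3'⟩

theorem sg_succ {x : ℝ} (hx : Irrational x) (k : ℕ) :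
    sg x (k + 2) = 1 / (⌊etaS x (k + 1)⌋ + sg x (k + 1)) := by
  obtain ⟨h1, h2, h3, -⟩ := den_pos hx k
  have h1' : (0 : ℝ) < (fr x (k + 1)).1.2 := by exact_mod_cast h1
  have h2' : (0 : ℝ) ≤ (fr x (k + 1)).2.2 := by exact_mod_cast h2
  have h4 : (1 : ℝ) ≤ ⌊etaS x (k + 1)⌋ := by exact_mod_cast fl_pos hx k
  unfold sg
  rw [fr_succ2 x (k + 1), fr_succ3 x (k + 1)]
  push_cast
  have h5 : (0 : ℝ) < ⌊etaS x (k + 1)⌋ * (fr x (k + 1)).1.2 + (fr x (k + 1)).2.2 := by nlinarith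
  field_simp

/-- `x` is the image of the complete quotient -/
theorem fr_rel {x : ℝ} (hx : Irrational x) (k : ℕ) :
    x * ((fr x k).1.2 * etaS x k + (fr x k).2.2) = (fr x k).1.1 * etaS x k + (fr x k).2.1 := by
  induction k with
  | zero =>
    show x * (((0 : ℤ) : ℝ) * x + ((1 : ℤ) : ℝ)) = ((1 : ℤ) : ℝ) * x + ((0 : ℤ) : ℝ)
    push_cast
    ring
  | succ k ih =>
    rw [fr_succ1, fr_succ2, fr_succ3]
    have h1 := etaS_eq hx k
    have h0 : etaS x (k + 1) ≠ 0 := (etaS_irr hx (k + 1)).ne_zero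
    have e1 : etaS x k * etaS x (k + 1) = ⌊etaS x k⌋ * etaS x (k + 1) + 1 := by
      conv_lhs => rw [h1]
      field_simp
    push_cast
    linear_combination etaS x (k + 1) * ih + (((fr x k).1.1 : ℝ) - x * (fr x k).1.2) * e1

/-- the form in the frame -/
theorem form_frame {x : ℝ} (hx : Irrational x) (k : ℕ) (w : ℤ × ℤ) :
    |(((fr x (k + 1)).1.2 * w.1 + (fr x (k + 1)).2.2 * w.2 : ℤ) : ℝ) *
      (((fr x (k + 1)).1.1 * w.1 + (fr x (k + 1)).2.1 * w.2 : ℤ) -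
        x * ((fr x (k + 1)).1.2 * w.1 + (fr x (k + 1)).2.2 * w.2 : ℤ))| =
      |Fm (etaS x (k + 1)) (-sg x (k + 1)) w| := by
  have hrel := fr_rel hx (k + 1)
  have hdet := fr_det (x := x) (k + 1)
  obtain ⟨h1, h2, -, -⟩ := den_pos hx k
  have hη := etaS_gt hx k
  set P := (fr x (k + 1)).1.1
  set Q := (fr x (k + 1)).1.2
  set P' := (fr x (k + 1)).2.1
  set Q' := (fr x (k + 1)).2.2 with hQ'
  set ξ := etaS x (k + 1)
  have h1' : (0 : ℝ) < Q := by exact_mod_cast h1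
  have h2' : (0 : ℝ) ≤ Q' := by exact_mod_cast h2
  have hs : sg x (k + 1) = (Q' : ℝ) / Q := rfl
  have hden : (0 : ℝ) < Q * ξ + Q' := by nlinarith
  have hd' : |((P * Q' - P' * Q : ℤ) : ℝ)| = 1 := by
    rw [← Int.cast_abs, hdet]
    simp
  have e1 : ((P * w.1 + P' * w.2 : ℤ) - x * (Q * w.1 + Q' * w.2 : ℤ)) * (Q * ξ + Q') =
      ((P * Q' - P' * Q : ℤ) : ℝ) * (w.1 - ξ * w.2) := by
    push_cast
    linear_combination (-((Q : ℝ) * w.1 + Q' * w.2)) * hrel
  have e2 : ((P * w.1 + P' * w.2 : ℤ) - x * (Q * w.1 + Q' * w.2 : ℤ)) =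
      ((P * Q' - P' * Q : ℤ) : ℝ) * (w.1 - ξ * w.2) / (Q * ξ + Q') := by
    rw [eq_div_iff hden.ne', e1]
  rw [e2]
  have e3 : (((Q * w.1 + Q' * w.2 : ℤ) : ℝ)) *
      (((P * Q' - P' * Q : ℤ) : ℝ) * (w.1 - ξ * w.2) / (Q * ξ + Q')) =
      ((P * Q' - P' * Q : ℤ) : ℝ) * Fm ξ (-sg x (k + 1)) w := by
    unfold Fm
    rw [hs]
    have h5 : ξ - -((Q' : ℝ) / Q) ≠ 0 := by
      have : 0 ≤ (Q' : ℝ) / Q := by positivity
      have : 0 < ξ := by linarith
      intro h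
      linarith
    have h6 : ξ - -((Q' : ℝ) / Q) = (Q * ξ + Q') / Q := by
      field_simp
      ring
    rw [h6]
    push_cast
    field_simp
    ring
  rw [e3, abs_mul, hd', one_mul]

/-- distance to the integers -/
theorem exists_gap {x : ℝ} (hx : Irrational x) (T : ℕ) : ∃ c : ℝ, 0 < c ∧ ∀ p q : ℤ,
    ¬ (p = 0 ∧ q = 0) → |q| < T → c ≤ |(p : ℝ) - x * q| := by
  induction T with
  | zero => exact ⟨1, one_pos, fun p q _ hq => absurd hq (by simp)⟩
  | succ T ih =>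
    obtain ⟨c, hc, h⟩ := ih
    have key : ∀ q : ℤ, ∃ c' : ℝ, 0 < c' ∧ ∀ p : ℤ, ¬ (p = 0 ∧ q = 0) → c' ≤ |(p : ℝ) - x * q| := by
      intro q
      by_cases hq : q = 0
      · refine ⟨1, one_pos, fun p hp => ?_⟩
        rw [hq]
        have hp0 : p ≠ 0 := fun h0 => hp ⟨h0, hq⟩
        have : (1 : ℤ) ≤ |p| := Int.one_le_abs hp0
        push_cast
        rw [mul_zero, sub_zero]
        exact_mod_cast this
      · refine ⟨|x * q - round (x * q)|, ?_, fun p _ => ?_⟩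
        · apply abs_pos.2
          intro h0
          apply no_root_of_irr hx (p := round (x * q)) (q := q) (fun h => hq h.2)
          linarith
        · rw [abs_sub_comm (p : ℝ)]
          exact round_le (x * q) p
    obtain ⟨c1, hc1, h1⟩ := key T
    obtain ⟨c2, hc2, h2⟩ := key (-T)
    refine ⟨min c (min c1 c2), by positivity, fun p q hpq hq => ?_⟩
    rcases lt_or_ge |q| T with h3 | h3
    · exact (min_le_left _ _).trans (h p q hpq h3)
    · have h4 : |q| = T := by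
        push_cast at hq
        omega
      rcases (abs_eq (by positivity)).1 h4 with h5 | h5
      · rw [h5] at hpq ⊢
        exact (min_le_right _ _).trans ((min_le_left _ _).trans (h1 p hpq))
      · rw [h5] at hpq ⊢
        exact (min_le_right _ _).trans ((min_le_right _ _).trans (h2 p hpq))

/-- fixed vectors have large denominators in late frames -/
theorem den_large {x : ℝ} (hx : Irrational x) {w : ℤ × ℤ} (hw : w ≠ 0) (T : ℕ) :
    ∃ K : ℕ, ∀ k, K ≤ k → (T : ℤ) ≤ |(fr x (k + 1)).1.2 * w.1 + (fr x (k + 1)).2.2 * w.2| := by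
  obtain ⟨c, hc, hgap⟩ := exists_gap hx T
  obtain ⟨K, hK⟩ := exists_nat_gt ((|(w.1 : ℝ)| + |(w.2 : ℝ)|) / c)
  refine ⟨K, fun k hk => ?_⟩
  by_contra hlt
  rw [not_le] at hlt
  have hrel := fr_rel hx (k + 1)
  have hdet := fr_det (x := x) (k + 1)
  obtain ⟨h1, h2, -, h4⟩ := den_pos hx k
  have hη := etaS_gt hx k
  have hne : ¬ ((fr x (k + 1)).1.1 * w.1 + (fr x (k + 1)).2.1 * w.2 = 0 ∧
      (fr x (k + 1)).1.2 * w.1 + (fr x (k + 1)).2.2 * w.2 = 0) := by
    rintro ⟨e1, e2⟩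
    have hd0 : (fr x (k + 1)).1.1 * (fr x (k + 1)).2.2 -
        (fr x (k + 1)).2.1 * (fr x (k + 1)).1.2 ≠ 0 := by
      intro h0
      rw [h0] at hdet
      simp at hdet
    exact act_ne hd0 hw (Prod.ext e1 e2)
  have hg := hgap _ _ hne hlt
  set P := (fr x (k + 1)).1.1
  set Q := (fr x (k + 1)).1.2
  set P' := (fr x (k + 1)).2.1
  set Q' := (fr x (k + 1)).2.2
  set ξ := etaS x (k + 1)
  have h1' : (0 : ℝ) < Q := by exact_mod_cast h1
  have h2' : (0 : ℝ) ≤ Q' := by exact_mod_cast h2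
  have h4' : (k : ℝ) ≤ Q := by exact_mod_cast h4
  have hden : (0 : ℝ) < Q * ξ + Q' := by nlinarith
  have hd' : |((P * Q' - P' * Q : ℤ) : ℝ)| = 1 := by
    rw [← Int.cast_abs, hdet]
    simp
  have e1 : (((P * w.1 + P' * w.2 : ℤ) : ℝ) - x * ((Q * w.1 + Q' * w.2 : ℤ) : ℝ)) *
      (Q * ξ + Q') = ((P * Q' - P' * Q : ℤ) : ℝ) * (w.1 - ξ * w.2) := by
    push_cast
    linear_combination (-((Q : ℝ) * w.1 + Q' * w.2)) * hrel
  have e2 := congrArg abs e1
  rw [abs_mul, abs_mul, hd', one_mul, abs_of_pos hden] at e2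
  have e3 : |(w.1 : ℝ) - ξ * w.2| ≤ ξ * (|(w.1 : ℝ)| + |(w.2 : ℝ)|) := by
    refine (abs_sub _ _).trans ?_
    rw [abs_mul, abs_of_pos (show 0 < ξ by linarith)]
    nlinarith [abs_nonneg (w.1 : ℝ)]
  have e4 : c * (Q * ξ) ≤ ξ * (|(w.1 : ℝ)| + |(w.2 : ℝ)|) := by
    calc c * (Q * ξ) ≤ c * (Q * ξ + Q') := by
          apply mul_le_mul_of_nonneg_left _ hc.le
          linarith
      _ ≤ |((P * w.1 + P' * w.2 : ℤ) : ℝ) - x * ((Q * w.1 + Q' * w.2 : ℤ) : ℝ)| *
          (Q * ξ + Q') := mul_le_mul_of_nonneg_right hg hden.le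
      _ = |(w.1 : ℝ) - ξ * w.2| := e2
      _ ≤ _ := e3
  have e5 : c * Q ≤ |(w.1 : ℝ)| + |(w.2 : ℝ)| := by
    have hξ : 0 < ξ := by linarith
    have : ξ * (c * Q) ≤ ξ * (|(w.1 : ℝ)| + |(w.2 : ℝ)|) := by linarith
    exact le_of_mul_le_mul_left this hξ
  rw [div_lt_iff₀ hc] at hK
  have hKk : (K : ℝ) ≤ k := by exact_mod_cast hk
  nlinarith

/-- real quadratic irrationality (or rationality) -/
def Quad (x : ℝ) : Prop := ∃ A B C : ℤ, A ≠ 0 ∧ (A : ℝ) * x ^ 2 + B * x + C = 0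

/-- **pairs**: late frames with almost the same past, the same residue class and different next
digits -/
theorem exists_pair {x : ℝ} (hx : Irrational x) (hq : ¬ Quad x) {n : ℕ} (hn : n ≠ 0)
    (a b c d : ℤ) (ε : ℝ) (hε : 0 < ε) (K : ℕ) : ∃ k l : ℕ, K ≤ k ∧ K ≤ l ∧
      |sg x (k + 1) - sg x (l + 1)| < ε ∧ ⌊etaS x (k + 1)⌋ ≠ ⌊etaS x (l + 1)⌋ ∧
      (∀ i : Fin 2, ∀ j : Fin 2,
        (((![![a, b], ![c, d]] i 0 * (![(fr x (k + 1)).1, (fr x (k + 1)).2] j).1 +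
          ![![a, b], ![c, d]] i 1 * (![(fr x (k + 1)).1, (fr x (k + 1)).2] j).2 : ℤ) : ZMod n) =
        ((![![a, b], ![c, d]] i 0 * (![(fr x (l + 1)).1, (fr x (l + 1)).2] j).1 +
          ![![a, b], ![c, d]] i 1 * (![(fr x (l + 1)).1, (fr x (l + 1)).2] j).2 : ℤ) :
            ZMod n))) := by
  have : NeZero n := ⟨hn⟩
  by_contra hcon
  push Not at hcon
  set G : ℕ → Fin 2 → Fin 2 → ZMod n := fun k i j =>
    ((![![a, b], ![c, d]] i 0 * (![(fr x (k + 1)).1, (fr x (k + 1)).2] j).1 +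
          ![![a, b], ![c, d]] i 1 * (![(fr x (k + 1)).1, (fr x (k + 1)).2] j).2 : ℤ) : ZMod n)
    with hG
  have hG1 : ∀ k i, G (k + 1) i 0 = (⌊etaS x (k + 1)⌋ : ZMod n) * G k i 0 + G k i 1 := by
    intro k i
    simp only [hG, Matrix.cons_val_zero, Matrix.cons_val_one]
    rw [fr_succ1 x (k + 1), fr_succ2 x (k + 1)]
    push_cast
    ring
  have hG2 : ∀ k i, G (k + 1) i 1 = G k i 0 := by
    intro k i
    simp only [hG, Matrix.cons_val_zero, Matrix.cons_val_one]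
    rw [fr_succ3 x (k + 1)]
  have hdet : ∀ k l, K ≤ k → K ≤ l → |sg x (k + 1) - sg x (l + 1)| < ε → G k = G l →
      ⌊etaS x (k + 1)⌋ = ⌊etaS x (l + 1)⌋ := by
    intro k l hk hl hs hGG
    by_contra hne
    obtain ⟨i, j, hij⟩ := hcon k l hk hl hs hne
    exact hij (congrFun (congrFun hGG i) j)
  -- pigeonhole
  obtain ⟨M, hM⟩ := exists_nat_gt (1 / ε)
  have hM0 : (0 : ℝ) < M := lt_trans (by positivity) hM
  have hpig : ∃ k l : ℕ, max K 2 ≤ k ∧ k < l ∧ |sg x (k + 1) - sg x (l + 1)| < ε ∧ G k = G l := by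
    let F : ℕ → Fin (M + 1) × (Fin 2 → Fin 2 → ZMod n) := fun k =>
      (⟨⌊sg x (max K 2 + k + 1) * M⌋₊, by
        have h1 := sg_mem hx (max K 2 + k)
        have h2 : sg x (max K 2 + k + 1) * M ≤ M := by nlinarith [h1.2]
        have h3 : ⌊sg x (max K 2 + k + 1) * M⌋₊ ≤ M := by
          apply Nat.floor_le_of_le
          exact h2
        omega⟩, G (max K 2 + k))
    obtain ⟨k, l, hkl, hF⟩ := Finite.exists_ne_map_eq_of_infinite F
    have hclose : |sg x (max K 2 + k + 1) - sg x (max K 2 + l + 1)| < ε := by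
      have h1 : ⌊sg x (max K 2 + k + 1) * M⌋₊ = ⌊sg x (max K 2 + l + 1) * M⌋₊ :=
        congrArg (fun z => z.1.1) hF
      have p1 := sg_mem hx (max K 2 + k)
      have p2 := sg_mem hx (max K 2 + l)
      have a1 := Nat.floor_le (show 0 ≤ sg x (max K 2 + k + 1) * M by
        exact mul_nonneg p1.1 hM0.le)
      have a2 := Nat.lt_floor_add_one (sg x (max K 2 + k + 1) * M)
      have a3 := Nat.floor_le (show 0 ≤ sg x (max K 2 + l + 1) * M by
        exact mul_nonneg p2.1 hM0.le)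
      have a4 := Nat.lt_floor_add_one (sg x (max K 2 + l + 1) * M)
      rw [h1] at a1 a2
      have h5 : |sg x (max K 2 + k + 1) - sg x (max K 2 + l + 1)| * M < 1 := by
        have e : |sg x (max K 2 + k + 1) - sg x (max K 2 + l + 1)| * M =
            |(sg x (max K 2 + k + 1) - sg x (max K 2 + l + 1)) * M| := by
          rw [abs_mul, abs_of_pos hM0]
        rw [e, sub_mul, abs_lt]
        constructor <;> linarith
      rw [div_lt_iff₀ hε] at hM
      by_contra hc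
      push Not at hc
      nlinarith
    have hGG : G (max K 2 + k) = G (max K 2 + l) := congrArg (fun z => z.2) hF
    rcases lt_or_gt_of_ne hkl with h | h
    · exact ⟨max K 2 + k, max K 2 + l, by omega, by omega, hclose, hGG⟩
    · refine ⟨max K 2 + l, max K 2 + k, by omega, by omega, ?_, hGG.symm⟩
      rw [abs_sub_comm]
      exact hclose
  obtain ⟨k, l, hk, hkl, hs, hGG⟩ := hpig
  have hK : K ≤ k := (le_max_left _ _).trans hk
  have hk2 : 2 ≤ k := (le_max_right _ _).trans hk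
  have hall : ∀ i : ℕ, |sg x (k + i + 1) - sg x (l + i + 1)| < ε ∧ G (k + i) = G (l + i) := by
    intro i
    induction i with
    | zero => exact ⟨hs, hGG⟩
    | succ i ih =>
      obtain ⟨i1, i2⟩ := ih
      have hd := hdet (k + i) (l + i) (by omega) (by omega) i1 i2
      constructor
      · show |sg x (k + i + 2) - sg x (l + i + 2)| < ε
        rw [sg_succ hx (k + i), sg_succ hx (l + i), hd]
        have h1 : (1 : ℝ) ≤ ⌊etaS x (l + i + 1)⌋ := by exact_mod_cast fl_pos hx (l + i)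
        have p1 := (sg_mem hx (k + i)).1
        have p2 := (sg_mem hx (l + i)).1
        set A : ℝ := ((⌊etaS x (l + i + 1)⌋ : ℤ) : ℝ)
        set s := sg x (k + i + 1)
        set t := sg x (l + i + 1)
        have h2 : 1 / (A + s) - 1 / (A + t) = (t - s) / ((A + s) * (A + t)) := by
          field_simp
          ring
        rw [h2, abs_div, abs_of_pos (show 0 < (A + s) * (A + t) by positivity)]
        refine lt_of_le_of_lt (div_le_self (abs_nonneg _) ?_) ?_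
        · nlinarith
        · rw [abs_sub_comm]
          exact i1
      · funext i' j
        have hd' : ((⌊etaS x (k + i + 1)⌋ : ℤ) : ZMod n) = ((⌊etaS x (l + i + 1)⌋ : ℤ) : ZMod n) := by
          rw [hd]
        fin_cases j
        · show G (k + i + 1) i' 0 = G (l + i + 1) i' 0
          rw [hG1, hG1, hd', i2]
        · show G (k + i + 1) i' 1 = G (l + i + 1) i' 1
          rw [hG2, hG2, i2]
  have hdig : ∀ i : ℕ, ⌊etaS x (k + i + 1)⌋ = ⌊etaS x (l + i + 1)⌋ := fun i =>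
    hdet _ _ (by omega) (by omega) (hall i).1 (hall i).2
  -- equal complete quotients
  have heq := cf_eq (X := fun i => etaS x (k + i + 1)) (Y := fun i => etaS x (l + i + 1))
    (c := fun i => ⌊etaS x (k + i + 1)⌋) (d := fun i => ⌊etaS x (l + i + 1)⌋)
    (fun i => etaS_gt hx (k + i)) (fun i => etaS_gt hx (l + i))
    (fun i => etaS_eq hx (k + i + 1)) (fun i => etaS_eq hx (l + i + 1)) hdig
  simp only [add_zero] at heq
  have r1 := fr_rel hx (k + 1)
  have r2 := fr_rel hx (l + 1)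
  rw [← heq] at r2
  apply hq
  refine ⟨(fr x (k + 1)).1.2 * (fr x (l + 1)).2.2 - (fr x (l + 1)).1.2 * (fr x (k + 1)).2.2,
    -((fr x (k + 1)).1.2 * (fr x (l + 1)).2.1 + (fr x (k + 1)).1.1 * (fr x (l + 1)).2.2 -
      (fr x (l + 1)).1.2 * (fr x (k + 1)).2.1 - (fr x (l + 1)).1.1 * (fr x (k + 1)).2.2),
    (fr x (k + 1)).1.1 * (fr x (l + 1)).2.1 - (fr x (l + 1)).1.1 * (fr x (k + 1)).2.1, ?_, ?_⟩
  · intro h0
    have d1 := fr_det (x := x) (k + 1)
    have d2 := fr_det (x := x) (l + 1)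
    have c1 : IsCoprime (fr x (k + 1)).1.2 (fr x (k + 1)).2.2 := by
      rcases (abs_eq zero_le_one).1 d1 with h | h
      · exact ⟨-(fr x (k + 1)).2.1, (fr x (k + 1)).1.1, by linarith⟩
      · exact ⟨(fr x (k + 1)).2.1, -(fr x (k + 1)).1.1, by linarith⟩
    have c2 : IsCoprime (fr x (l + 1)).1.2 (fr x (l + 1)).2.2 := by
      rcases (abs_eq zero_le_one).1 d2 with h | h
      · exact ⟨-(fr x (l + 1)).2.1, (fr x (l + 1)).1.1, by linarith⟩
      · exact ⟨(fr x (l + 1)).2.1, -(fr x (l + 1)).1.1, by linarith⟩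
    have h1 : (fr x (l + 1)).1.2 ∣ (fr x (k + 1)).1.2 := by
      apply c2.dvd_of_dvd_mul_right
      exact ⟨(fr x (k + 1)).2.2, by linarith⟩
    have h2 := den_strict hx (show 2 ≤ k + 1 by omega) (show k + 1 < l + 1 by omega)
    have h3 := (den_pos hx k).1
    exact absurd (Int.le_of_dvd h3 h1) (not_le.2 h2)
  · push_cast
    set ξ := etaS x (k + 1)
    have hξ : ξ ≠ 0 := (etaS_irr hx (k + 1)).ne_zero
    -- eliminate `ξ`
    have f1 : ξ * (x * (fr x (k + 1)).1.2 - (fr x (k + 1)).1.1) =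
        -(x * (fr x (k + 1)).2.2 - (fr x (k + 1)).2.1) := by linear_combination r1
    have f2 : ξ * (x * (fr x (l + 1)).1.2 - (fr x (l + 1)).1.1) =
        -(x * (fr x (l + 1)).2.2 - (fr x (l + 1)).2.1) := by linear_combination r2
    linear_combination (x * (fr x (k + 1)).1.2 - (fr x (k + 1)).1.1) * f2 -
      (x * (fr x (l + 1)).1.2 - (fr x (l + 1)).1.1) * f1

end Pool.Agent.L3
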