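import Pool.Agent.Work.MP_5e120e_nt.Lim

/-! # The states behind the special windows kill `(2, 1)` -/

namespace Pool.Agent.L3

open Filter Topology

section
variable {x y : ℤ → ℝ} {a : ℤ → ℤ} {x' y' : ℤ → ℝ} {a' : ℤ → ℤ}

/-- the irrational case, with the explicit vector -/
theorem core_irr_v (h : Ch x y a) (hl : ∀ k, x k + 1 / y k ≤ 3) (h' : Ch x' y' a')
    (hl' : ∀ k, x' k + 1 / y' k ≤ 3) {k₀ K : ℤ} (hk₀ : a (k₀ - 1) ≠ a k₀)
    (hk₀' : a' (k₀ - 1) ≠ a' k₀) (hK : 0 = k₀ + 2 * K) (hcom : ∀ k, k < 0 → a k = a' k)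
    {S S' : ℤ → ℤ} (hS : IsH S (wd a k₀))
    (hS' : IsH S' (wd a' k₀)) {α : ℝ} (hα : Slope S α) (hα' : Slope S' α)
    (hirr : Irrational α) (h0 : wd a k₀ K = 0) (h1 : wd a' k₀ K = 1) :
    Qf (x 0) (y 0) (2, 1) * 3 = 1 ∧ Qf (x' 0) (y' 0) (2, 1) * 3 = -1 := by
  obtain ⟨e, hf⟩ := exists_frames a
  obtain ⟨e', hf'⟩ := exists_frames a'
  have hw : ∀ n, n < K → wd a k₀ n = wd a' k₀ n := by
    intro n hn
    unfold wd
    rw [hcom _ (by omega)]
  obtain ⟨E1, E2, o1, o2⟩ := pair_irr hS hS' hα hα' hirr K hw h0 h1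
  have v1 := (h.eqAt hl hk₀ E1).1 o1
  have v2 := (h'.eqAt hl' hk₀' E2).2 o2
  rw [show k₀ + 2 * (K + 1) = 2 by linarith] at v1
  rw [show k₀ + 2 * (K + 1) - 1 = 1 by linarith] at v2
  have a1 : a 0 = 1 := by
    unfold wd at h0
    rw [← hK] at h0
    omega
  have a2 : a 1 = 1 := by
    have := h.align hl hk₀ K
    rw [← hK, zero_add] at this
    rw [this]
    exact a1
  have a3 : a' 0 = 2 := by
    unfold wd at h1
    rw [← hK] at h1
    omega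
  have f1 := hf.hs 0
  have f2 := hf.hs 1
  have f3 := hf'.hs 0
  rw [a1, zero_add, zero_sub, hf.h0, hf.h1] at f1
  rw [sub_self, a2, show (1 : ℤ) + 1 = 2 by norm_num, f1, hf.h0] at f2
  rw [a3, zero_add, zero_sub, hf'.h0, hf'.h1] at f3
  have g2 : e 2 = (2, 1) := by
    rw [f2]
    ext <;> simp
  have g1 : e 1 = (1, 1) := by
    rw [f1]
    ext <;> simp
  have g3 : e' 1 = (2, 1) := by
    rw [f3]
    ext <;> simp
  have Q1 := h.Qe hf 2
  have Q2 := h'.Qe hf' 1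
  rw [v1, show (2 : ℤ) - 1 = 1 by norm_num, g2, g1] at Q1
  rw [v2, sub_self, g3, hf'.h0] at Q2
  refine ⟨?_, ?_⟩
  · rw [Q1]
    unfold dt
    norm_num
  · rw [Q2]
    unfold dt
    norm_num

/-- digits of the limit chain behind a special window -/
theorem limit_digits {z : ℝ} (hz : Irrational z) {φ : ℕ → ℕ} (hφ : Tendsto φ atTop atTop)
    {f : ℤ → ℤ} (hpat : ∀ N : ℕ, ∀ᶠ j in atTop, ∃ k, φ j = k + 2 * N ∧
      pat (fun k => ⌊etaS z (k + 1)⌋) f (-N) (N + 2) k)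
    (h : Ch x y a) (hx0 : Irrational (x 0)) (hy0 : Irrational (y 0))
    (L1 : Tendsto (fun j => etaS z (φ j + 1)) atTop (𝓝 (x 0)))
    (L2 : Tendsto (fun j => sg z (φ j + 1)) atTop (𝓝 (1 / y 0))) :
    (∀ i : ℕ, a (-1 - i) = 1 + f (-1 - ((i / 2 : ℕ) : ℤ))) ∧
      a 0 = 1 + f 0 ∧ a 1 = 1 + f 0 ∧ a 2 = 1 + f 1 ∧ a 3 = 1 + f 1 := by
  have hfut : ∀ i : ℕ, ∀ᶠ j in atTop, ⌊etaS z (φ j + i + 1)⌋ = a i := by
    intro i
    filter_upwards [(etaS_lim hx0 L1 i).2] with j hj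
    rw [show φ j + i + 1 = φ j + 1 + i by ring, etaS_add, hj, ← h.etaS_eq, ← h.floor]
  have hu : Tendsto (fun j => 1 / sg z (φ j + 1)) atTop (𝓝 (y 0)) := by
    have h1 := L2.inv₀ (by
      have := h.hy1 0
      positivity)
    simpa using h1
  refine ⟨fun i => ?_, ?_⟩
  · have h1 := (etaS_lim hy0 hu i).2
    have h2 : a (-1 - i) = ⌊etaS (y 0) i⌋ := by
      have e1 := h.rev.floor i
      have e2 := h.rev.etaS_eq i
      simp only [neg_zero] at e2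
      rw [e2] at e1
      rw [← e1]
      congr 1
      ring
    obtain ⟨j, hj1, hj2, k, hk, hp⟩ :=
      (h1.and ((hφ.eventually_ge_atTop (i + 4)).and (hpat (i / 2 + 1)))).exists
    have h3 := (past_etaS hz i (φ j) hj2).2
    rw [h2, ← hj1, h3]
    have h4 := hp 0 (by omega)
    rw [Nat.mul_zero, Nat.cast_zero, add_zero, add_zero] at h4
    have e : (-(((i / 2 + 1 : ℕ) : ℤ)) : ℤ) = -1 - ((i / 2 : ℕ) : ℤ) := by push_cast; ring
    rw [e] at h4
    rcases Nat.even_or_odd' i with ⟨m, hm | hm⟩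
    · rw [← h4.2]
      congr 2
      omega
    · rw [← h4.1]
      congr 2
      omega
  · have hgood : ∀ i : ℕ, i < 4 → a i = 1 + f ((i / 2 : ℕ) : ℤ) := by
      intro i hi
      obtain ⟨j, hj1, k, hk, hp⟩ := ((hfut i).and (hpat 0)).exists
      have h4 := hp (i / 2) (by omega)
      rw [← hj1, hk]
      rw [Nat.cast_zero, neg_zero, zero_add] at h4
      rcases Nat.even_or_odd' i with ⟨m, hm | hm⟩
      · rw [← h4.1]
        congr 2
        omega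
      · rw [← h4.2]
        congr 2
        omega
    have e0 := hgood 0 (by norm_num)
    have e1 := hgood 1 (by norm_num)
    have e2 := hgood 2 (by norm_num)
    have e3 := hgood 3 (by norm_num)
    norm_num at e0 e1 e2 e3
    exact ⟨e0, e1, e2, e3⟩

end

theorem slope_om1 (α : ℝ) : IsH (fun n => ⌈(n : ℝ) * α⌉) (fun n => om1 α (n + 1)) ∧
    Slope (fun n => ⌈(n : ℝ) * α⌉) α := by
  constructor
  · intro n
    show ⌈((n + 1 : ℤ) : ℝ) * α⌉ = ⌈(n : ℝ) * α⌉ + om1 α (n + 1)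
    unfold om1
    push_cast
    rw [add_sub_cancel_right]
    ring
  · intro m k
    show |((⌈((m + k : ℤ) : ℝ) * α⌉ : ℝ) - ⌈(m : ℝ) * α⌉) - k * α| ≤ 1
    have a1 := Int.le_ceil (((m + k : ℤ) : ℝ) * α)
    have a2 := Int.ceil_lt_add_one (((m + k : ℤ) : ℝ) * α)
    have b1 := Int.le_ceil ((m : ℝ) * α)
    have b2 := Int.ceil_lt_add_one ((m : ℝ) * α)
    push_cast at a1 a2 ⊢
    rw [abs_le]
    constructor <;> linarith

/-- **the vector of the sublattice** -/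
theorem lattice_vec {n : ℕ} (hn : n ≠ 0) {A B C D : ℤ} (hd : |A * D - B * C| = n)
    {ξ₁ ξ₂ η : ℝ} (h1 : ξ₁ ≠ η) (h2 : ξ₂ ≠ η) (hne : ξ₁ ≠ ξ₂)
    (hQ1 : ∀ w : ℤ × ℤ, w ≠ 0 → 1 / 3 ≤ |Fm ξ₁ η w|)
    (hQ2 : ∀ w : ℤ × ℤ, w ≠ 0 → 1 / 3 ≤ |Fm ξ₂ η w|)
    (hL1 : ∀ w : ℤ × ℤ, w ≠ 0 → n / 3 ≤ |Fm ξ₁ η (act A B C D w)|)
    (hL2 : ∀ w : ℤ × ℤ, w ≠ 0 → n / 3 ≤ |Fm ξ₂ η (act A B C D w)|)
    (hnp : ¬ Per ξ₁ η) (hv1 : |Fm ξ₁ η (2, 1)| = 1 / 3)
    (hv2 : Fm ξ₂ η (2, 1) = -Fm ξ₁ η (2, 1)) :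
    ∃ t : ℤ, (n : ℤ) = t ^ 2 ∧ ∃ w, act A B C D w = (2 * t, t) := by
  obtain ⟨i1, i3⟩ := irr_of_form hQ1
  obtain ⟨i2, -⟩ := irr_of_form hQ2
  have hnpos : (0 : ℝ) < n := by exact_mod_cast Nat.pos_of_ne_zero hn
  have hd0 : A * D - B * C ≠ 0 := by
    intro h0
    rw [h0] at hd
    simp at hd
    exact hn (by exact_mod_cast hd.symm)
  have hd' : |((A * D - B * C : ℤ) : ℝ)| = n := by
    rw [← Int.cast_abs, hd]
    simp
  obtain ⟨ξ₁', r1⟩ := exists_rel hd0 i1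
  obtain ⟨ξ₂', r2⟩ := exists_rel hd0 i2
  obtain ⟨η', r3⟩ := exists_rel hd0 i3
  have n1 := Rel_ne hd0 r1 r3 h1
  have n2 := Rel_ne hd0 r2 r3 h2
  have n3 := Rel_ne hd0 r1 r2 hne
  have F1 := Fm_act r1 r3 n1 h1
  have F2 := Fm_act r2 r3 n2 h2
  have c2 := concl_gen (Rel_irr hd0 r1 i1) (Rel_irr hd0 r2 i2) (Rel_irr hd0 r3 i3) n1 n2 n3
    (fun w hw => by
      have := hL1 w hw
      rw [F1 w, abs_mul, hd'] at this
      have e : (n : ℝ) / 3 = n * (1 / 3) := by ring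
      rw [e] at this
      exact le_of_mul_le_mul_left this hnpos)
    (fun w hw => by
      have := hL2 w hw
      rw [F2 w, abs_mul, hd'] at this
      have e : (n : ℝ) / 3 = n * (1 / 3) := by ring
      rw [e] at this
      exact le_of_mul_le_mul_left this hnpos)
    (fun hp => hnp (Rel_per hd0 r1 r3 i1 hp))
  have hval : ∀ v, |Fm ξ₁' η' v| = 1 / 3 → |Fm ξ₁ η (act A B C D v)| = n / 3 := by
    intro v hv
    rw [F1 v, abs_mul, hd', hv]
    ring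
  -- a vector of the sublattice on the line of `(2, 1)`
  have hfin : ∀ v', |Fm ξ₁' η' v'| = 1 / 3 → dt (2, 1) (act A B C D v') = 0 →
      ∃ t : ℤ, (n : ℤ) = t ^ 2 ∧ ∃ w, act A B C D w = (2 * t, t) := by
    intro v' hv' hdt
    have hW := hval v' hv'
    set W := act A B C D v' with hWdef
    have hW1 : W.1 = 2 * W.2 := by
      unfold dt at hdt
      simp only at hdt
      linarith
    refine ⟨W.2, ?_, v', ?_⟩
    · have e : Fm ξ₁ η W = (W.2 : ℝ) ^ 2 * Fm ξ₁ η (2, 1) := by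
        unfold Fm
        rw [hW1]
        push_cast
        ring
      rw [e, abs_mul, hv1, abs_of_nonneg (sq_nonneg _)] at hW
      have h3 : (W.2 : ℝ) ^ 2 = n := by linarith
      have h4 : W.2 ^ 2 = (n : ℤ) := by exact_mod_cast h3
      exact h4.symm
    · rw [← hWdef]
      exact Prod.ext hW1 rfl
  have hr13 : ∃ r : ℚ, Fm ξ₁ η (2, 1) = r :=
    abs_rat (q := 1 / 3) (by rw [hv1]; push_cast; ring)
  have hrn3 : ∀ v, |Fm ξ₁ η v| = n / 3 → ∃ r : ℚ, Fm ξ₁ η v = r := by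
    intro v hv
    exact abs_rat (q := n / 3) (by rw [hv]; push_cast; ring)
  rcases c2 with ⟨v', v1', v2'⟩ | ⟨v', w', v0', v1', w1'⟩
  · refine hfin v' v1' ?_
    set W := act A B C D v' with hW
    have W1 := hval v' v1'
    rw [← hW] at W1
    have W2 : Fm ξ₂ η W = -Fm ξ₁ η W := by
      rw [hW, F1 v', F2 v', v2']
      ring
    have line : ∀ u : ℤ × ℤ, u ≠ 0 → Fm ξ₂ η u = -Fm ξ₁ η u →
        ((u.1 : ℝ) - η * u.2) * (1 / (ξ₁ - η) + 1 / (ξ₂ - η)) = 2 * u.2 := by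
      intro u hu hF
      have d1 : ξ₁ - η ≠ 0 := sub_ne_zero.2 h1
      have d2 : ξ₂ - η ≠ 0 := sub_ne_zero.2 h2
      have hs : (u.1 : ℝ) - η * u.2 ≠ 0 := by
        apply no_root_of_irr i3
        rintro ⟨e1, e2⟩
        exact hu (Prod.ext e1 e2)
      have g1 : Fm ξ₁ η u = ((u.1 : ℝ) - η * u.2) *
          (((u.1 : ℝ) - η * u.2) * (1 / (ξ₁ - η)) - u.2) := by
        unfold Fm
        field_simp
        ring
      have g2 : Fm ξ₂ η u = ((u.1 : ℝ) - η * u.2) *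
          (((u.1 : ℝ) - η * u.2) * (1 / (ξ₂ - η)) - u.2) := by
        unfold Fm
        field_simp
        ring
      rw [g1, g2] at hF
      have g3 : ((u.1 : ℝ) - η * u.2) * (((u.1 : ℝ) - η * u.2) *
          (1 / (ξ₁ - η) + 1 / (ξ₂ - η)) - 2 * u.2) = 0 := by linear_combination hF
      have g4 := (mul_eq_zero.1 g3).resolve_left hs
      linarith
    have hW0 : W ≠ 0 := by
      intro h0
      rw [h0] at W1
      unfold Fm at W1
      simp at W1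
      linarith
    have l1 := line (2, 1) (by simp) hv2
    have l2 := line W hW0 W2
    set T := 1 / (ξ₁ - η) + 1 / (ξ₂ - η) with hT
    by_cases hT0 : T = 0
    · rw [hT0, mul_zero] at l1
      norm_num at l1
    · have e1 : T * ((((2, 1) : ℤ × ℤ).1 - η * ((2, 1) : ℤ × ℤ).2) * W.2 -
          ((W.1 : ℝ) - η * W.2) * ((2, 1) : ℤ × ℤ).2) = 0 := by
        linear_combination (W.2 : ℝ) * l1 - (((2, 1) : ℤ × ℤ).2 : ℝ) * l2
      have e2 := (mul_eq_zero.1 e1).resolve_left hT0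
      have e3 : ((dt (2, 1) W : ℤ) : ℝ) = 0 := by
        unfold dt
        push_cast at e2 ⊢
        linarith
      exact_mod_cast e3
  · obtain ⟨q1, hq1⟩ := hr13
    obtain ⟨q2, hq2⟩ := hrn3 _ (hval v' v1')
    obtain ⟨q3, hq3⟩ := hrn3 _ (hval w' w1')
    by_cases e1 : dt (2, 1) (act A B C D v') = 0
    · exact hfin v' v1' e1
    · by_cases e2 : dt (2, 1) (act A B C D w') = 0
      · exact hfin w' w1' e2
      · exfalso
        refine three_rat i1 h1 e1 e2 ?_ hq1 hq2 hq3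
        rw [dt_act]
        exact mul_ne_zero hd0 v0'

end Pool.Agent.L3
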