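import Pool.Agent.Work.MP_5e120e_nt.Frames

/-! # Lagrange values and limits -/

namespace Pool.Agent.L3

open Filter Topology

/-- The Lagrange value of `x`: the supremum of the `c > 0` such that `|x - p/q| < 1/(c q^2)` has
infinitely many rational solutions `p/q` (in lowest terms). -/
noncomputable def lagrangeValue (x : ℝ) : EReal :=
  sSup {t : EReal | ∃ c : ℝ, 0 < c ∧
    {r : ℚ | |x - r| < 1 / (c * (r.den : ℝ) ^ 2)}.Infinite ∧ t = (c : EReal)}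

theorem low_of_lagr {x C : ℝ} (hx : Irrational x) (hC : 0 < C)
    (h : lagrangeValue x < (C : EReal)) :
    ∃ T : ℕ, ∀ p q : ℤ, (T : ℤ) ≤ |q| → 1 / C ≤ |(q : ℝ) * (p - x * q)| := by
  have hfin : {r : ℚ | |x - r| < 1 / (C * (r.den : ℝ) ^ 2)}.Finite := by
    by_contra hinf
    have h1 : (C : EReal) ≤ lagrangeValue x := le_sSup ⟨C, hC, hinf, rfl⟩
    exact absurd h (not_lt.2 h1)
  set R := {r : ℚ | |x - r| < 1 / (C * (r.den : ℝ) ^ 2)} with hR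
  have hmin : ∃ m : ℝ, 0 < m ∧ ∀ r ∈ R, m ≤ |x - r| := by
    rcases R.eq_empty_or_nonempty with h0 | h0
    · exact ⟨1, one_pos, fun r hr => by rw [h0] at hr; exact absurd hr (Set.notMem_empty r)⟩
    · obtain ⟨r₀, hr₀, hm⟩ := Set.exists_min_image R (fun r => |x - (r : ℝ)|) hfin h0
      refine ⟨|x - (r₀ : ℝ)|, ?_, hm⟩
      apply abs_pos.2
      intro h1
      exact hx ⟨r₀, by linarith⟩
  obtain ⟨m, hm, hmr⟩ := hmin
  obtain ⟨T, hT⟩ := exists_nat_gt (1 / (C * m))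
  refine ⟨T + 1, fun p q hq => ?_⟩
  have hq1 : (1 : ℤ) ≤ |q| := by
    push_cast at hq
    have : (0 : ℤ) ≤ T := Int.natCast_nonneg T
    linarith
  have hq0 : q ≠ 0 := by
    intro h0
    rw [h0] at hq1
    simp at hq1
  have hqr : (q : ℝ) ≠ 0 := by exact_mod_cast hq0
  have hqT : (T : ℝ) ≤ |(q : ℝ)| := by
    have : (T : ℤ) ≤ |q| := by push_cast at hq; linarith
    exact_mod_cast this
  have hq1r : (1 : ℝ) ≤ |(q : ℝ)| := by exact_mod_cast hq1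
  have hqq : |(q : ℝ)| ≤ (q : ℝ) ^ 2 := by
    rw [← sq_abs]
    nlinarith
  set r : ℚ := (p : ℚ) / q with hr
  have hrr : (r : ℝ) = (p : ℝ) / q := by rw [hr]; push_cast; rfl
  have e1 : (q : ℝ) * (p - x * q) = -((q : ℝ) ^ 2 * (x - r)) := by
    rw [hrr]
    field_simp
    ring
  rw [e1, abs_neg, abs_mul, abs_of_nonneg (sq_nonneg (q : ℝ))]
  have hq2 : 0 < (q : ℝ) ^ 2 := by positivity
  by_cases hrR : r ∈ R
  · have h1 := hmr r hrR
    rw [div_lt_iff₀ (by positivity)] at hT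
    rw [div_le_iff₀ hC]
    have h2 : (T : ℝ) * (C * m) ≤ (q : ℝ) ^ 2 * (C * m) :=
      mul_le_mul_of_nonneg_right (hqT.trans hqq) (by positivity)
    have h3 : (q : ℝ) ^ 2 * (C * m) ≤ (q : ℝ) ^ 2 * |x - r| * C := by
      have : (q : ℝ) ^ 2 * (C * m) = (q : ℝ) ^ 2 * m * C := by ring
      rw [this]
      apply mul_le_mul_of_nonneg_right _ hC.le
      exact mul_le_mul_of_nonneg_left h1 hq2.le
    linarith
  · have h1 : 1 / (C * (r.den : ℝ) ^ 2) ≤ |x - r| := by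
      rw [hR] at hrR
      exact not_lt.1 hrR
    have h2 : (r.den : ℤ) ∣ q := by
      have := Rat.den_dvd p q
      rw [Rat.divInt_eq_div] at this
      exact this
    have h3 : (r.den : ℤ) ≤ |q| := Int.le_of_dvd (by linarith) ((dvd_abs _ _).2 h2)
    have h4 : (r.den : ℝ) ≤ |(q : ℝ)| := by exact_mod_cast h3
    have h5 : (0 : ℝ) < r.den := by exact_mod_cast r.den_pos
    have h6 : (r.den : ℝ) ^ 2 ≤ (q : ℝ) ^ 2 := by
      rw [← sq_abs (q : ℝ)]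
      exact pow_le_pow_left₀ h5.le h4 2
    calc 1 / C = (q : ℝ) ^ 2 * (1 / (C * (q : ℝ) ^ 2)) := by field_simp
      _ ≤ (q : ℝ) ^ 2 * (1 / (C * (r.den : ℝ) ^ 2)) := by
          apply mul_le_mul_of_nonneg_left _ hq2.le
          apply one_div_le_one_div_of_le (by positivity)
          exact mul_le_mul_of_nonneg_left h6 hC.le
      _ ≤ (q : ℝ) ^ 2 * |x - r| := mul_le_mul_of_nonneg_left h1 hq2.le

theorem moeb_irr {x : ℝ} (hx : Irrational x) {a b c d : ℤ} (hd : a * d - b * c ≠ 0) :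
    (c : ℝ) * x + d ≠ 0 ∧ Irrational ((a * x + b) / (c * x + d)) := by
  have h1 : (c : ℝ) * x + d ≠ 0 := by
    have := no_root_of_irr hx (p := d) (q := -c) (by
      rintro ⟨e1, e2⟩
      apply hd
      have : c = 0 := by linarith
      rw [e1, this]
      ring)
    push_cast at this
    intro h0
    apply this
    linarith
  refine ⟨h1, irr_iff_no_root ?_⟩
  intro P Q hQ h0
  have h2 : ((P * d - b * Q : ℤ) : ℝ) - x * ((a * Q - P * c : ℤ) : ℝ) = 0 := by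
    have h3 : ((P : ℝ) - (a * x + b) / (c * x + d) * Q) * (c * x + d) = 0 := by rw [h0, zero_mul]
    have h4 : ((P : ℝ) - (a * x + b) / (c * x + d) * Q) * (c * x + d) =
        P * (c * x + d) - (a * x + b) * Q := by
      rw [sub_mul, mul_right_comm, div_mul_cancel₀ _ h1]
    rw [h4] at h3
    push_cast
    linarith
  refine no_root_of_irr hx ?_ h2
  rintro ⟨e1, e2⟩
  have h5 : (a * d - b * c) * Q = 0 := by linear_combination c * e1 + d * e2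
  exact hQ ((mul_eq_zero.1 h5).resolve_left hd)

/-- the condition on the sublattice -/
theorem low_of_lagr' {x C : ℝ} (hx : Irrational x) (hC : 1 ≤ C) {n : ℕ} (hn : n ≠ 0)
    {a b c d : ℤ} (hd : |a * d - b * c| = n)
    (h : lagrangeValue ((a * x + b) / (c * x + d)) < (C : EReal)) {ε : ℝ} (hε : 0 < ε) :
    ∃ T : ℕ, ∀ p q : ℤ, (T : ℤ) ≤ |q| → (n : ℤ) ∣ a * p + b * q → (n : ℤ) ∣ c * p + d * q →
      n / C - ε ≤ |(q : ℝ) * (p - x * q)| := by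
  have hn' : (0 : ℝ) < n := by exact_mod_cast Nat.pos_of_ne_zero hn
  have hd0 : a * d - b * c ≠ 0 := by
    intro h0
    rw [h0] at hd
    simp at hd
    exact hn (by exact_mod_cast hd.symm)
  have hd' : |(a : ℝ) * d - b * c| = n := by
    have : |((a * d - b * c : ℤ) : ℝ)| = n := by
      rw [← Int.cast_abs, hd]
      simp
    push_cast at this
    exact this
  obtain ⟨hcd, hy⟩ := moeb_irr hx hd0
  set y := (a * x + b) / (c * x + d) with hydef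
  have hC0 : 0 < C := by linarith
  obtain ⟨T₁, hT₁⟩ := low_of_lagr hy hC0 h
  set κ₁ := |(c : ℝ) * x + d| with hκ₁
  have hκ₁0 : 0 < κ₁ := abs_pos.2 hcd
  set κ₂ := |(c : ℝ)| with hκ₂
  have hκ₂0 : 0 ≤ κ₂ := abs_nonneg _
  obtain ⟨T₂, hT₂⟩ := exists_nat_gt ((n * T₁ + κ₂ * n) / κ₁ + κ₂ / κ₁ * n ^ 2 / ε + 1)
  refine ⟨T₂, fun p q hq h1 h2 => ?_⟩
  obtain ⟨P, hP⟩ := h1
  obtain ⟨Q, hQ⟩ := h2
  have hPr : (a : ℝ) * p + b * q = n * P := by exact_mod_cast hP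
  have hQr : (c : ℝ) * p + d * q = n * Q := by exact_mod_cast hQ
  have hqT : (T₂ : ℝ) ≤ |(q : ℝ)| := by exact_mod_cast hq
  have hA : 0 ≤ (n * T₁ + κ₂ * n) / κ₁ := by positivity
  have hB : 0 ≤ κ₂ / κ₁ * n ^ 2 / ε := by positivity
  have hq1 : 1 ≤ |(q : ℝ)| := by linarith
  have hq0 : 0 < |(q : ℝ)| := by linarith
  by_cases hbig : (n : ℝ) ≤ |(q : ℝ) * (p - x * q)|
  · have : (n : ℝ) / C ≤ n := div_le_self hn'.le hC
    linarith
  · push Not at hbig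
    rw [abs_mul] at hbig
    set t := |(p : ℝ) - x * q| with ht
    have ht0 : 0 ≤ t := abs_nonneg _
    have htn : t ≤ n := by nlinarith
    -- the second coordinate
    have e1 : (n : ℝ) * Q = (c * x + d) * q + c * (p - x * q) := by rw [← hQr]; ring
    have e2 : (n : ℝ) * |(Q : ℝ)| ≤ κ₁ * |(q : ℝ)| + κ₂ * t := by
      have : (n : ℝ) * |(Q : ℝ)| = |(n : ℝ) * Q| := by rw [abs_mul, abs_of_pos hn']
      rw [this, e1]
      refine (abs_add_le _ _).trans ?_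
      rw [abs_mul, abs_mul]
    have e3 : κ₁ * |(q : ℝ)| - κ₂ * t ≤ n * |(Q : ℝ)| := by
      have : (n : ℝ) * |(Q : ℝ)| = |(n : ℝ) * Q| := by rw [abs_mul, abs_of_pos hn']
      rw [this, e1]
      have h3 := abs_sub_abs_le_abs_sub (((c : ℝ) * x + d) * q) (-(c * (p - x * q)))
      rw [sub_neg_eq_add, abs_neg, abs_mul, abs_mul] at h3
      exact h3
    have hQT : (T₁ : ℤ) ≤ |Q| := by
      have h3 : (n * T₁ + κ₂ * n) / κ₁ ≤ |(q : ℝ)| := by linarith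
      rw [div_le_iff₀ hκ₁0] at h3
      have h4 : κ₂ * t ≤ κ₂ * n := mul_le_mul_of_nonneg_left htn hκ₂0
      have h5 : (n : ℝ) * T₁ ≤ n * |(Q : ℝ)| := by linarith
      have h6 : (T₁ : ℝ) ≤ |(Q : ℝ)| := le_of_mul_le_mul_left h5 hn'
      exact_mod_cast h6
    have h7 := hT₁ P Q hQT
    have e4 : (n : ℝ) * ((c * x + d) * (P - y * Q)) = (a * d - b * c) * (p - x * q) := by
      have h8 : y * (c * x + d) = a * x + b := by
        rw [hydef]
        exact div_mul_cancel₀ _ hcd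
      linear_combination (-(c * x + d : ℝ)) * hPr + (y * (c * x + d)) * hQr -
        ((c : ℝ) * p + d * q) * h8
    have e5 : κ₁ * |(P : ℝ) - y * Q| = t := by
      have h8 := congrArg abs e4
      rw [abs_mul, abs_mul, abs_mul, hd', abs_of_pos hn'] at h8
      exact mul_left_cancel₀ hn'.ne' h8
    have e6 : |(P : ℝ) - y * Q| = t / κ₁ := by
      rw [eq_div_iff hκ₁0.ne', mul_comm]
      exact e5
    rw [abs_mul, e6] at h7
    -- conclusion
    have h9 : (n : ℝ) / C ≤ (n * |(Q : ℝ)|) * (t / κ₁) := by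
      calc (n : ℝ) / C = n * (1 / C) := by ring
        _ ≤ n * (|(Q : ℝ)| * (t / κ₁)) := mul_le_mul_of_nonneg_left h7 hn'.le
        _ = _ := by ring
    have h10 : (n * |(Q : ℝ)|) * (t / κ₁) ≤ (κ₁ * |(q : ℝ)| + κ₂ * t) * (t / κ₁) :=
      mul_le_mul_of_nonneg_right e2 (by positivity)
    have h11 : (κ₁ * |(q : ℝ)| + κ₂ * t) * (t / κ₁) = |(q : ℝ)| * t + κ₂ / κ₁ * t ^ 2 := by
      field_simp
    have h12 : κ₂ / κ₁ * t ^ 2 ≤ ε := by
      have h13 : t * |(q : ℝ)| ≤ n := by linarith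
      have h14 : t ^ 2 * |(q : ℝ)| ≤ n ^ 2 := by nlinarith
      have h15 : κ₂ / κ₁ * n ^ 2 / ε ≤ |(q : ℝ)| := by linarith
      rw [div_le_iff₀ hε] at h15
      have h16 : κ₂ / κ₁ * t ^ 2 * |(q : ℝ)| ≤ κ₂ / κ₁ * n ^ 2 := by
        have : 0 ≤ κ₂ / κ₁ := by positivity
        nlinarith
      have h17 : κ₂ / κ₁ * t ^ 2 * |(q : ℝ)| ≤ ε * |(q : ℝ)| := by linarith
      exact le_of_mul_le_mul_right h17 hq0
    rw [abs_mul]
    linarith

/-- the finite amount of data used in the limit -/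
def Dat (n : ℕ) (ε : ℝ) (N : ℕ) (ξ s : ℝ) (α β γ δ : ℤ) : Prop :=
  ∀ w : ℤ × ℤ, w ≠ 0 → |w.1| ≤ N → |w.2| ≤ N → 1 / 3 - ε ≤ |Fm ξ (-s) w| ∧
    ((n : ℤ) ∣ α * w.1 + β * w.2 → (n : ℤ) ∣ γ * w.1 + δ * w.2 → n / 3 - ε ≤ |Fm ξ (-s) w|)

theorem exists_data {n : ℕ} (hn : n ≠ 0) {x : ℝ} (hx : Irrational x) (hq : ¬ Quad x)
    {a b c d : ℤ} (hd : |a * d - b * c| = n) {ε : ℝ} (hε : 0 < ε) (hε1 : ε ≤ 1 / 100) {N : ℕ}
    (hN : 1 ≤ N) (h1 : lagrangeValue x < ((3 + ε / n : ℝ) : EReal))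
    (h2 : lagrangeValue ((a * x + b) / (c * x + d)) < ((3 + ε / n : ℝ) : EReal)) :
    ∃ (ξ₁ ξ₂ s₁ s₂ : ℝ) (α β γ δ : ℤ), |α * δ - β * γ| = n ∧ (1 ≤ ξ₁ ∧ ξ₁ ≤ 4) ∧
      (1 ≤ ξ₂ ∧ ξ₂ ≤ 4) ∧ (0 ≤ s₁ ∧ s₁ ≤ 1) ∧ (0 ≤ s₂ ∧ s₂ ≤ 1) ∧ |s₁ - s₂| ≤ ε ∧
      1 / 4 ≤ |ξ₁ - ξ₂| ∧ Dat n ε N ξ₁ s₁ α β γ δ ∧ Dat n ε N ξ₂ s₂ α β γ δ := by
  have hn' : (0 : ℝ) < n := by exact_mod_cast Nat.pos_of_ne_zero hn
  have hn1 : (1 : ℝ) ≤ n := by exact_mod_cast Nat.one_le_iff_ne_zero.2 hn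
  set C : ℝ := 3 + ε / n with hC
  have hεn : 0 < ε / n := by positivity
  have hεn' : ε / n ≤ ε := div_le_self hε.le hn1
  have hC3 : 3 < C := by linarith
  obtain ⟨T₁, hT₁⟩ := low_of_lagr hx (by linarith) h1
  obtain ⟨T₂, hT₂⟩ := low_of_lagr' hx (by linarith) hn hd h2 (half_pos hε)
  have hb1 : 1 / 3 - ε ≤ 1 / C := by
    rw [le_div_iff₀ (by linarith)]
    nlinarith
  have hb2 : (n : ℝ) / 3 - ε ≤ n / C - ε / 2 := by
    have h3 : (n : ℝ) / 3 - n / C ≤ ε / 2 := by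
      have h4 : (n : ℝ) / 3 - n / C = ε / (3 * C) := by
        have hCne : C ≠ 0 := by linarith
        have h5 : C - 3 = ε / n := by rw [hC]; ring
        have h6 : (n : ℝ) / 3 - n / C = n * (C - 3) / (3 * C) := by
          field_simp
        rw [h6, h5]
        field_simp
      rw [h4, div_le_iff₀ (by linarith)]
      nlinarith
    linarith
  -- the late frames
  have hden : ∀ w : ℤ × ℤ, ∃ K : ℕ, w ≠ 0 → ∀ k, K ≤ k → ((max T₁ T₂ : ℕ) : ℤ) ≤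
      |(fr x (k + 1)).1.2 * w.1 + (fr x (k + 1)).2.2 * w.2| := by
    intro w
    by_cases hw : w = 0
    · exact ⟨0, fun h => absurd hw h⟩
    · obtain ⟨K, hK⟩ := den_large hx hw (max T₁ T₂)
      exact ⟨K, fun _ => hK⟩
  choose Kw hKw using hden
  set box : Finset (ℤ × ℤ) := Finset.Icc (-(N : ℤ)) N ×ˢ Finset.Icc (-(N : ℤ)) N with hbox
  set K := box.sup Kw with hK
  have hbase : ∀ k, K ≤ k → ∀ w : ℤ × ℤ, w ≠ 0 → |w.1| ≤ N → |w.2| ≤ N →
      1 / 3 - ε ≤ |Fm (etaS x (k + 1)) (-sg x (k + 1)) w| ∧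
      ((n : ℤ) ∣ (a * (fr x (k + 1)).1.1 + b * (fr x (k + 1)).1.2) * w.1 +
          (a * (fr x (k + 1)).2.1 + b * (fr x (k + 1)).2.2) * w.2 →
        (n : ℤ) ∣ (c * (fr x (k + 1)).1.1 + d * (fr x (k + 1)).1.2) * w.1 +
          (c * (fr x (k + 1)).2.1 + d * (fr x (k + 1)).2.2) * w.2 →
        n / 3 - ε ≤ |Fm (etaS x (k + 1)) (-sg x (k + 1)) w|) := by
    intro k hk w hw hw1 hw2
    have hmem : w ∈ box := by
      rw [hbox, Finset.mem_product, Finset.mem_Icc, Finset.mem_Icc]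
      exact ⟨abs_le.1 hw1, abs_le.1 hw2⟩
    have h3 := hKw w hw k ((Finset.le_sup hmem).trans hk)
    rw [← form_frame hx k w]
    have h4 : (T₁ : ℤ) ≤ ((max T₁ T₂ : ℕ) : ℤ) := by exact_mod_cast le_max_left _ _
    have h5 : (T₂ : ℤ) ≤ ((max T₁ T₂ : ℕ) : ℤ) := by exact_mod_cast le_max_right _ _
    refine ⟨hb1.trans (hT₁ _ _ (h4.trans h3)), fun d1 d2 => hb2.trans (hT₂ _ _ (h5.trans h3) ?_ ?_)⟩
    · have e : a * ((fr x (k + 1)).1.1 * w.1 + (fr x (k + 1)).2.1 * w.2) +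
          b * ((fr x (k + 1)).1.2 * w.1 + (fr x (k + 1)).2.2 * w.2) =
          (a * (fr x (k + 1)).1.1 + b * (fr x (k + 1)).1.2) * w.1 +
          (a * (fr x (k + 1)).2.1 + b * (fr x (k + 1)).2.2) * w.2 := by ring
      rw [e]
      exact d1
    · have e : c * ((fr x (k + 1)).1.1 * w.1 + (fr x (k + 1)).2.1 * w.2) +
          d * ((fr x (k + 1)).1.2 * w.1 + (fr x (k + 1)).2.2 * w.2) =
          (c * (fr x (k + 1)).1.1 + d * (fr x (k + 1)).1.2) * w.1 +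
          (c * (fr x (k + 1)).2.1 + d * (fr x (k + 1)).2.2) * w.2 := by ring
      rw [e]
      exact d2
  -- bounds for the complete quotients
  have hup : ∀ k, K ≤ k → etaS x (k + 1) ≤ 25 / 8 := by
    intro k hk
    have h3 := (hbase k hk (1, 0) (by simp) (by simpa using hN) (by simp)).1
    have h4 := etaS_gt hx k
    have h5 := sg_mem hx k
    unfold Fm at h3
    simp only [Int.cast_one, Int.cast_zero, mul_zero, sub_zero, mul_one, sub_neg_eq_add] at h3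
    have h6 : 0 < etaS x (k + 1) + sg x (k + 1) := by linarith [h5.1]
    rw [abs_of_pos (by positivity), le_div_iff₀ h6] at h3
    nlinarith [h5.1]
  obtain ⟨k, l, hk, hl, hs, hne, hG⟩ := exists_pair hx hq hn a b c d ε hε K
  have hG00 := hG 0 0
  have hG01 := hG 0 1
  have hG10 := hG 1 0
  have hG11 := hG 1 1
  simp only [Matrix.cons_val_zero, Matrix.cons_val_one] at hG00 hG01 hG10 hG11
  rw [ZMod.intCast_eq_intCast_iff_dvd_sub] at hG00 hG01 hG10 hG11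
  have hdet := fr_det (x := x) (k + 1)
  have hfrac : ∀ k, K ≤ k → 8 / 25 ≤ 1 / etaS x (k + 2) ∧ 1 / etaS x (k + 2) ≤ 25 / 33 := by
    intro k hk
    have h3 := hup (k + 1) (by omega)
    have h4 := hup (k + 2) (by omega)
    have h5 := etaS_gt hx (k + 1)
    have h6 := etaS_gt hx (k + 2)
    have h7 := etaS_eq hx (k + 2)
    have h8 : (1 : ℝ) ≤ ⌊etaS x (k + 2)⌋ := by exact_mod_cast fl_pos hx (k + 1)
    have h9 : 8 / 25 ≤ 1 / etaS x (k + 3) := by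
      rw [le_div_iff₀ (by linarith)]
      linarith
    have h10 : 33 / 25 ≤ etaS x (k + 2) := by
      rw [h7]
      have : etaS x (k + 2 + 1) = etaS x (k + 3) := rfl
      rw [this]
      linarith
    constructor
    · rw [le_div_iff₀ (by linarith)]
      have : etaS x (k + 2) = etaS x (k + 1 + 1) := rfl
      linarith
    · rw [div_le_iff₀ (by linarith)]
      linarith
  refine ⟨etaS x (k + 1), etaS x (l + 1), sg x (k + 1), sg x (l + 1),
    a * (fr x (k + 1)).1.1 + b * (fr x (k + 1)).1.2, a * (fr x (k + 1)).2.1 +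
    b * (fr x (k + 1)).2.2, c * (fr x (k + 1)).1.1 + d * (fr x (k + 1)).1.2,
    c * (fr x (k + 1)).2.1 + d * (fr x (k + 1)).2.2, ?_, ⟨(etaS_gt hx k).le, ?_⟩,
    ⟨(etaS_gt hx l).le, ?_⟩, sg_mem hx k, sg_mem hx l, hs.le, ?_, hbase k hk, ?_⟩
  · have e : (a * (fr x (k + 1)).1.1 + b * (fr x (k + 1)).1.2) *
        (c * (fr x (k + 1)).2.1 + d * (fr x (k + 1)).2.2) -
        (a * (fr x (k + 1)).2.1 + b * (fr x (k + 1)).2.2) *
        (c * (fr x (k + 1)).1.1 + d * (fr x (k + 1)).1.2) =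
        (a * d - b * c) * ((fr x (k + 1)).1.1 * (fr x (k + 1)).2.2 -
          (fr x (k + 1)).2.1 * (fr x (k + 1)).1.2) := by ring
    rw [e, abs_mul, hd, hdet, mul_one]
  · linarith [hup k hk]
  · linarith [hup l hl]
  · have e1 := etaS_eq hx (k + 1)
    have e2 := etaS_eq hx (l + 1)
    have f1 := hfrac k hk
    have f2 := hfrac l hl
    have g1 : (1 : ℝ) ≤ |((⌊etaS x (k + 1)⌋ - ⌊etaS x (l + 1)⌋ : ℤ) : ℝ)| := by
      have : (1 : ℤ) ≤ |⌊etaS x (k + 1)⌋ - ⌊etaS x (l + 1)⌋| := Int.one_le_abs (sub_ne_zero.2 hne)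
      exact_mod_cast this
    have g2 : ((⌊etaS x (k + 1)⌋ - ⌊etaS x (l + 1)⌋ : ℤ) : ℝ) =
        (etaS x (k + 1) - etaS x (l + 1)) - (1 / etaS x (k + 2) - 1 / etaS x (l + 2)) := by
      push_cast
      have : etaS x (k + 1 + 1) = etaS x (k + 2) := rfl
      have : etaS x (l + 1 + 1) = etaS x (l + 2) := rfl
      linarith
    rw [g2] at g1
    have g3 := abs_sub (etaS x (k + 1) - etaS x (l + 1)) (1 / etaS x (k + 2) - 1 / etaS x (l + 2))
    have g4 : |1 / etaS x (k + 2) - 1 / etaS x (l + 2)| ≤ 1 / 2 := by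
      rw [abs_le]
      constructor <;> linarith [f1.1, f1.2, f2.1, f2.2]
    linarith
  · intro w hw hw1 hw2
    obtain ⟨b1, b2⟩ := hbase l hl w hw hw1 hw2
    refine ⟨b1, fun d1 d2 => b2 ?_ ?_⟩
    · have e : (a * (fr x (l + 1)).1.1 + b * (fr x (l + 1)).1.2) * w.1 +
          (a * (fr x (l + 1)).2.1 + b * (fr x (l + 1)).2.2) * w.2 =
          ((a * (fr x (k + 1)).1.1 + b * (fr x (k + 1)).1.2) * w.1 +
          (a * (fr x (k + 1)).2.1 + b * (fr x (k + 1)).2.2) * w.2) +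
          (a * (fr x (l + 1)).1.1 + b * (fr x (l + 1)).1.2 -
            (a * (fr x (k + 1)).1.1 + b * (fr x (k + 1)).1.2)) * w.1 +
          (a * (fr x (l + 1)).2.1 + b * (fr x (l + 1)).2.2 -
            (a * (fr x (k + 1)).2.1 + b * (fr x (k + 1)).2.2)) * w.2 := by ring
      rw [e]
      exact dvd_add (dvd_add d1 (Dvd.dvd.mul_right hG00 _)) (Dvd.dvd.mul_right hG01 _)
    · have e : (c * (fr x (l + 1)).1.1 + d * (fr x (l + 1)).1.2) * w.1 +
          (c * (fr x (l + 1)).2.1 + d * (fr x (l + 1)).2.2) * w.2 =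
          ((c * (fr x (k + 1)).1.1 + d * (fr x (k + 1)).1.2) * w.1 +
          (c * (fr x (k + 1)).2.1 + d * (fr x (k + 1)).2.2) * w.2) +
          (c * (fr x (l + 1)).1.1 + d * (fr x (l + 1)).1.2 -
            (c * (fr x (k + 1)).1.1 + d * (fr x (k + 1)).1.2)) * w.1 +
          (c * (fr x (l + 1)).2.1 + d * (fr x (l + 1)).2.2 -
            (c * (fr x (k + 1)).2.1 + d * (fr x (k + 1)).2.2)) * w.2 := by ring
      rw [e]
      exact dvd_add (dvd_add d2 (Dvd.dvd.mul_right hG10 _)) (Dvd.dvd.mul_right hG11 _)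

/-- the limit -/
theorem data_contra {n : ℕ} (hn : ¬ IsSquare n)
    (h : ∀ j : ℕ, ∃ (ξ₁ ξ₂ s₁ s₂ : ℝ) (α β γ δ : ℤ), |α * δ - β * γ| = n ∧ (1 ≤ ξ₁ ∧ ξ₁ ≤ 4) ∧
      (1 ≤ ξ₂ ∧ ξ₂ ≤ 4) ∧ (0 ≤ s₁ ∧ s₁ ≤ 1) ∧ (0 ≤ s₂ ∧ s₂ ≤ 1) ∧ |s₁ - s₂| ≤ 1 / (j + 100) ∧
      1 / 4 ≤ |ξ₁ - ξ₂| ∧ Dat n (1 / (j + 100)) (j + 1) ξ₁ s₁ α β γ δ ∧
      Dat n (1 / (j + 100)) (j + 1) ξ₂ s₂ α β γ δ) : False := by
  have hn0 : n ≠ 0 := by
    rintro rfl
    exact hn ⟨0, rfl⟩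
  have : NeZero n := ⟨hn0⟩
  choose ξ₁ ξ₂ s₁ s₂ α β γ δ hdet hξ₁ hξ₂ hs₁ hs₂ hss hξξ hD₁ hD₂ using h
  -- constant residues
  let ρ : ℕ → ZMod n × ZMod n × ZMod n × ZMod n := fun j => (α j, β j, γ j, δ j)
  obtain ⟨r, hr⟩ := Finite.exists_infinite_fiber ρ
  have hr' : {j | ρ j = r}.Infinite := Set.infinite_coe_iff.1 hr
  obtain ⟨φ, hφ, hφr⟩ := extraction_of_frequently_atTop
    (Nat.frequently_atTop_iff_infinite.2 hr')
  -- compactness
  set Kc : Set (ℝ × ℝ × ℝ × ℝ) :=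
    Set.Icc 1 4 ×ˢ (Set.Icc 1 4 ×ˢ (Set.Icc 0 1 ×ˢ Set.Icc 0 1)) with hKc
  have hcomp : IsCompact Kc := isCompact_Icc.prod (isCompact_Icc.prod
    (isCompact_Icc.prod isCompact_Icc))
  obtain ⟨⟨X₁, X₂, Y₁, Y₂⟩, hmem, ψ, hψ, hlim⟩ := hcomp.tendsto_subseq
    (x := fun j => (ξ₁ (φ j), ξ₂ (φ j), s₁ (φ j), s₂ (φ j)))
    (fun j => ⟨hξ₁ _, hξ₂ _, hs₁ _, hs₂ _⟩)
  obtain ⟨m1, m2, m3, m4⟩ := hmem
  simp only [Set.mem_Icc] at m1 m2 m3 m4
  set θ : ℕ → ℕ := fun j => φ (ψ j) with hθ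
  have hθm : StrictMono θ := hφ.comp hψ
  have hθge : ∀ j, j ≤ θ j := fun j => hθm.le_apply
  have L1 : Tendsto (fun j => ξ₁ (θ j)) atTop (𝓝 X₁) :=
    (continuous_fst.tendsto _).comp hlim
  have L2 : Tendsto (fun j => ξ₂ (θ j)) atTop (𝓝 X₂) :=
    ((continuous_fst.comp continuous_snd).tendsto _).comp hlim
  have L3 : Tendsto (fun j => s₁ (θ j)) atTop (𝓝 Y₁) :=
    ((continuous_fst.comp (continuous_snd.comp continuous_snd)).tendsto _).comp hlim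
  have L4 : Tendsto (fun j => s₂ (θ j)) atTop (𝓝 Y₂) :=
    ((continuous_snd.comp (continuous_snd.comp continuous_snd)).tendsto _).comp hlim
  have Lε : Tendsto (fun j : ℕ => (1 : ℝ) / ((θ j : ℝ) + 100)) atTop (𝓝 0) := by
    have h1 : Tendsto (fun j : ℕ => (θ j : ℝ) + 100) atTop atTop :=
      tendsto_atTop_add_const_right _ _ (tendsto_natCast_atTop_atTop.comp hθm.tendsto_atTop)
    exact tendsto_const_nhds.div_atTop h1
  -- the common root
  have hY : Y₁ = Y₂ := by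
    have h1 : Tendsto (fun j => |s₁ (θ j) - s₂ (θ j)|) atTop (𝓝 |Y₁ - Y₂|) := (L3.sub L4).abs
    have h2 : |Y₁ - Y₂| ≤ 0 := le_of_tendsto_of_tendsto' h1 Lε (fun j => hss (θ j))
    have h3 : |Y₁ - Y₂| = 0 := le_antisymm h2 (abs_nonneg _)
    linarith [abs_eq_zero.1 h3]
  subst hY
  have hXX : X₁ ≠ X₂ := by
    intro h0
    have h1 : Tendsto (fun j => |ξ₁ (θ j) - ξ₂ (θ j)|) atTop (𝓝 |X₁ - X₂|) := (L1.sub L2).abs
    have h2 : 1 / 4 ≤ |X₁ - X₂| := ge_of_tendsto' h1 (fun j => hξξ (θ j))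
    rw [h0, sub_self, abs_zero] at h2
    linarith
  have hF : ∀ {ξ s : ℕ → ℝ} {X Y : ℝ}, Tendsto (fun j => ξ (θ j)) atTop (𝓝 X) →
      Tendsto (fun j => s (θ j)) atTop (𝓝 Y) → 1 ≤ X → 0 ≤ Y → ∀ w : ℤ × ℤ,
      Tendsto (fun j => |Fm (ξ (θ j)) (-s (θ j)) w|) atTop (𝓝 |Fm X (-Y) w|) := by
    intro ξ s X Y h1 h2 h3 h4 w
    apply Tendsto.abs
    unfold Fm
    apply Tendsto.div
    · exact (tendsto_const_nhds.sub (h1.mul_const _)).mul
        (tendsto_const_nhds.sub (h2.neg.mul_const _))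
    · exact h1.sub h2.neg
    · intro h0
      linarith
  have hres : ∀ j, ρ (θ j) = ρ (θ 0) := fun j => (hφr _).trans (hφr _).symm
  have hbound : ∀ {ξ s : ℕ → ℝ} {X Y : ℝ}, Tendsto (fun j => ξ (θ j)) atTop (𝓝 X) →
      Tendsto (fun j => s (θ j)) atTop (𝓝 Y) → 1 ≤ X → 0 ≤ Y →
      (∀ j : ℕ, Dat n (1 / ((j : ℝ) + 100)) (j + 1) (ξ j) (s j) (α j) (β j) (γ j) (δ j)) →
      (∀ w : ℤ × ℤ, w ≠ 0 → 1 / 3 ≤ |Fm X (-Y) w|) ∧
      (∀ w : ℤ × ℤ, w ≠ 0 → n / 3 ≤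
        |Fm X (-Y) (act (δ (θ 0)) (-β (θ 0)) (-γ (θ 0)) (α (θ 0)) w)|) := by
    intro ξ s X Y h1 h2 h3 h4 hD
    have hlarge : ∀ w : ℤ × ℤ, ∀ᶠ j in atTop, |w.1| ≤ ((θ j + 1 : ℕ) : ℤ) ∧
        |w.2| ≤ ((θ j + 1 : ℕ) : ℤ) := by
      intro w
      filter_upwards [eventually_ge_atTop (w.1.natAbs + w.2.natAbs)] with j hj
      have := hθge j
      constructor
      · rw [Int.abs_eq_natAbs]
        exact_mod_cast (by omega : w.1.natAbs ≤ θ j + 1)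
      · rw [Int.abs_eq_natAbs]
        exact_mod_cast (by omega : w.2.natAbs ≤ θ j + 1)
    constructor
    · intro w hw
      have h5 := hF h1 h2 h3 h4 w
      have h6 : Tendsto (fun j : ℕ => (1 : ℝ) / 3 - 1 / ((θ j : ℝ) + 100)) atTop
          (𝓝 (1 / 3 - 0)) := tendsto_const_nhds.sub Lε
      rw [sub_zero] at h6
      refine le_of_tendsto_of_tendsto h6 h5 ?_
      filter_upwards [hlarge w] with j hj
      exact (hD (θ j) w hw hj.1 hj.2).1
    · intro w hw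
      have hd0 : δ (θ 0) * α (θ 0) - -β (θ 0) * -γ (θ 0) ≠ 0 := by
        intro h0
        have h7 := hdet (θ 0)
        have h8 : α (θ 0) * δ (θ 0) - β (θ 0) * γ (θ 0) = 0 := by linarith
        rw [h8] at h7
        simp at h7
        exact hn0 (by exact_mod_cast h7.symm)
      have hW := act_ne hd0 hw
      set W := act (δ (θ 0)) (-β (θ 0)) (-γ (θ 0)) (α (θ 0)) w with hWdef
      have h5 := hF h1 h2 h3 h4 W
      have h6 : Tendsto (fun j : ℕ => (n : ℝ) / 3 - 1 / ((θ j : ℝ) + 100)) atTop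
          (𝓝 (n / 3 - 0)) := tendsto_const_nhds.sub Lε
      rw [sub_zero] at h6
      refine le_of_tendsto_of_tendsto h6 h5 ?_
      filter_upwards [hlarge W] with j hj
      have hndet : (n : ℤ) ∣ α (θ 0) * δ (θ 0) - β (θ 0) * γ (θ 0) := by
        rw [← dvd_abs, hdet (θ 0)]
      have e := hres j
      simp only [ρ, Prod.mk.injEq] at e
      obtain ⟨ea, eb, ec, ed⟩ := e
      have ea' := (ZMod.intCast_eq_intCast_iff_dvd_sub _ _ n).1 ea.symm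
      have eb' := (ZMod.intCast_eq_intCast_iff_dvd_sub _ _ n).1 eb.symm
      have ec' := (ZMod.intCast_eq_intCast_iff_dvd_sub _ _ n).1 ec.symm
      have ed' := (ZMod.intCast_eq_intCast_iff_dvd_sub _ _ n).1 ed.symm
      refine (hD (θ j) W hW hj.1 hj.2).2 ?_ ?_
      · have e1 : α (θ j) * W.1 + β (θ j) * W.2 =
            (α (θ 0) * δ (θ 0) - β (θ 0) * γ (θ 0)) * w.1 + (α (θ j) - α (θ 0)) * W.1 +
              (β (θ j) - β (θ 0)) * W.2 := by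
          rw [hWdef]
          simp only [act]
          ring
        rw [e1]
        exact dvd_add (dvd_add (Dvd.dvd.mul_right hndet _) (Dvd.dvd.mul_right ea' _))
          (Dvd.dvd.mul_right eb' _)
      · have e1 : γ (θ j) * W.1 + δ (θ j) * W.2 =
            (α (θ 0) * δ (θ 0) - β (θ 0) * γ (θ 0)) * w.2 + (γ (θ j) - γ (θ 0)) * W.1 +
              (δ (θ j) - δ (θ 0)) * W.2 := by
          rw [hWdef]
          simp only [act]
          ring
        rw [e1]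
        exact dvd_add (dvd_add (Dvd.dvd.mul_right hndet _) (Dvd.dvd.mul_right ec' _))
          (Dvd.dvd.mul_right ed' _)
  obtain ⟨q1, l1⟩ := hbound L1 L3 m1.1 m3.1 hD₁
  obtain ⟨q2, l2⟩ := hbound L2 L4 m2.1 m3.1 hD₂
  refine limit_contra hn (A := δ (θ 0)) (B := -β (θ 0)) (C := -γ (θ 0)) (D := α (θ 0)) ?_ ?_ ?_
    hXX q1 q2 l1 l2
  · rw [← hdet (θ 0)]
    congr 1
    ring
  · intro h0
    linarith [m1.1, m3.1]
  · intro h0
    linarith [m2.1, m3.1]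

/-- **Main theorem.** -/
theorem main (n : ℕ) (hn : ¬ IsSquare n) : ∃ δ : ℝ, 0 < δ ∧ ∀ x : ℝ, Irrational x → ¬ Quad x →
    ∀ a b c d : ℤ, |a * d - b * c| = n →
      ((3 + δ : ℝ) : EReal) ≤ max (lagrangeValue x) (lagrangeValue ((a * x + b) / (c * x + d))) := by
  have hn0 : n ≠ 0 := by
    rintro rfl
    exact hn ⟨0, rfl⟩
  by_contra hcon
  push Not at hcon
  have hn' : (0 : ℝ) < n := by exact_mod_cast Nat.pos_of_ne_zero hn0
  apply data_contra hn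
  intro j
  have hε : (0 : ℝ) < 1 / (j + 100) := by positivity
  have hε1 : (1 : ℝ) / (j + 100) ≤ 1 / 100 := by
    apply one_div_le_one_div_of_le (by norm_num)
    have : (0 : ℝ) ≤ j := Nat.cast_nonneg j
    linarith
  obtain ⟨x, hx, hq, a, b, c, d, hd, hlt⟩ := hcon (1 / (j + 100) / n) (by positivity)
  rw [max_lt_iff] at hlt
  exact exists_data hn0 hx hq hd hε hε1 (by omega) hlt.1 hlt.2

end Pool.Agent.L3
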