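import Pool.Agent.Work.MP_5e120e_nt.Reduce

/-! # No asymptotic pair is extremal for two lattices of nonsquare index -/

namespace Pool.Agent.L3

theorem three_rat {ξ η : ℝ} (hξ : Irrational ξ) (hne : ξ ≠ η) {u₁ u₂ u₃ : ℤ × ℤ} {r₁ r₂ r₃ : ℚ}
    (h12 : dt u₁ u₂ ≠ 0) (h13 : dt u₁ u₃ ≠ 0) (h23 : dt u₂ u₃ ≠ 0) (e1 : Fm ξ η u₁ = r₁)
    (e2 : Fm ξ η u₂ = r₂) (e3 : Fm ξ η u₃ = r₃) : False := by
  have hd : ξ - η ≠ 0 := sub_ne_zero.2 hne
  have hrat : ∀ w : ℤ × ℤ, ∃ r : ℚ, Fm ξ η w = r := by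
    intro w
    refine ⟨(r₁ * dt w u₂ * dt w u₃ * dt u₂ u₃ - r₂ * dt w u₁ * dt w u₃ * dt u₁ u₃ +
      r₃ * dt w u₁ * dt w u₂ * dt u₁ u₂) / (dt u₁ u₂ * dt u₁ u₃ * dt u₂ u₃), ?_⟩
    have n12 : ((dt u₁ u₂ : ℤ) : ℝ) ≠ 0 := by exact_mod_cast h12
    have n13 : ((dt u₁ u₃ : ℤ) : ℝ) ≠ 0 := by exact_mod_cast h13
    have n23 : ((dt u₂ u₃ : ℤ) : ℝ) ≠ 0 := by exact_mod_cast h23
    push_cast
    rw [← e1, ← e2, ← e3, eq_div_iff (mul_ne_zero (mul_ne_zero n12 n13) n23)]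
    unfold Fm dt
    push_cast
    field_simp
    ring
  obtain ⟨a, ha⟩ := hrat (1, 0)
  obtain ⟨c, hc⟩ := hrat (0, 1)
  obtain ⟨s, hs⟩ := hrat (1, 1)
  unfold Fm at ha hc hs
  simp only [Int.cast_one, Int.cast_zero, mul_zero, sub_zero, mul_one, zero_sub] at ha hc hs
  have ha0 : (a : ℝ) ≠ 0 := by
    rw [← ha]
    exact div_ne_zero one_ne_zero hd
  have f1 : ξ - η = 1 / a := by
    rw [← ha]
    field_simp
  have f2 : ξ * η = c * (ξ - η) := by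
    rw [div_eq_iff hd] at hc
    linarith
  have f3 : (1 - ξ) * (1 - η) = s * (ξ - η) := by
    rw [div_eq_iff hd] at hs
    exact hs
  apply hξ
  refine ⟨(1 + c / a - s / a + 1 / a) / 2, ?_⟩
  push_cast
  have f4 : ξ + η = 1 + c * (ξ - η) - s * (ξ - η) := by
    rw [← f2, ← f3]
    ring
  rw [f1] at f4
  have f5 : ξ = ((ξ + η) + (ξ - η)) / 2 := by ring
  rw [f4, f1] at f5
  rw [f5]
  ring

theorem square_of_prop {n : ℕ} {ξ η : ℝ} {v w : ℤ × ℤ} (hdt : dt v w = 0)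
    (hv : |Fm ξ η v| = 1 / 3) (hw : |Fm ξ η w| = n / 3) : IsSquare n := by
  have hv0 : v ≠ 0 := by
    intro h0
    rw [h0] at hv
    unfold Fm at hv
    simp at hv
  have key : ∀ s t : ℤ, s ≠ 0 → s * w.1 = t * v.1 → s * w.2 = t * v.2 → IsSquare n := by
    intro s t hs h1 h2
    have h1' : (s : ℝ) * w.1 = t * v.1 := by exact_mod_cast h1
    have h2' : (s : ℝ) * w.2 = t * v.2 := by exact_mod_cast h2
    have h3 : (s : ℝ) ^ 2 * Fm ξ η w = t ^ 2 * Fm ξ η v := by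
      unfold Fm
      rw [mul_div_assoc', mul_div_assoc']
      congr 1
      have e1 : (s : ℝ) * (w.1 - ξ * w.2) = t * (v.1 - ξ * v.2) := by
        linear_combination h1' - ξ * h2'
      have e2 : (s : ℝ) * (w.1 - η * w.2) = t * (v.1 - η * v.2) := by
        linear_combination h1' - η * h2'
      linear_combination (s : ℝ) * (w.1 - η * w.2) * e1 + t * (v.1 - ξ * v.2) * e2
    have h4 := congrArg abs h3
    rw [abs_mul, abs_mul, hv, hw, abs_of_nonneg (sq_nonneg (s : ℝ)),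
      abs_of_nonneg (sq_nonneg (t : ℝ))] at h4
    have h5 : (s : ℝ) ^ 2 * n = t ^ 2 := by linarith
    have h6 : s ^ 2 * (n : ℤ) = t ^ 2 := by exact_mod_cast h5
    have h7 : s ∣ t := by
      have : s ^ 2 ∣ t ^ 2 := ⟨n, h6.symm⟩
      exact (Int.pow_dvd_pow_iff two_ne_zero).1 this
    obtain ⟨m, rfl⟩ := h7
    have h8 : (n : ℤ) = m ^ 2 := by
      have h9 : s ^ 2 * (n : ℤ) = s ^ 2 * m ^ 2 := by rw [h6]; ring
      exact mul_left_cancel₀ (pow_ne_zero 2 hs) h9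
    have h10 : n = m.natAbs * m.natAbs := by
      have : ((m.natAbs * m.natAbs : ℕ) : ℤ) = m ^ 2 := by
        push_cast
        rw [← sq, sq_abs]
      exact_mod_cast h8.trans this.symm
    exact ⟨m.natAbs, h10⟩
  unfold dt at hdt
  by_cases h1 : v.1 = 0
  · by_cases h2 : v.2 = 0
    · exact absurd (Prod.ext h1 h2) hv0
    · exact key v.2 w.2 h2 (by linarith) (by ring)
  · exact key v.1 w.1 h1 (by ring) (by linarith)

theorem per_unique {ξ₁ ξ₂ η : ℝ} (hη : Irrational η) (h1 : ξ₁ ≠ η) (h2 : ξ₂ ≠ η)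
    (p1 : Per ξ₁ η) (p2 : Per ξ₂ η) : ξ₁ = ξ₂ := by
  obtain ⟨A, B, C, hC, e1, e2⟩ := p1
  obtain ⟨A', B', C', hC', e3, e4⟩ := p2
  have hCr : (C : ℝ) ≠ 0 := by exact_mod_cast hC
  have hCr' : (C' : ℝ) ≠ 0 := by exact_mod_cast hC'
  have h3 : C' * A - C * A' = 0 ∧ C * B' - C' * B = 0 := by
    by_contra hc
    apply no_root_of_irr hη hc
    push_cast
    linear_combination (C' : ℝ) * e2 - (C : ℝ) * e4
  have h4 : (C : ℝ) * B' = C' * B := by
    have : C * B' = C' * B := by linarith [h3.2]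
    exact_mod_cast this
  have h5 : (C : ℝ) * (ξ₁ + η) + B = 0 := by
    have h6 : (ξ₁ - η) * ((C : ℝ) * (ξ₁ + η) + B) = 0 := by linear_combination e1 - e2
    exact (mul_eq_zero.1 h6).resolve_left (sub_ne_zero.2 h1)
  have h7 : (C' : ℝ) * (ξ₂ + η) + B' = 0 := by
    have h6 : (ξ₂ - η) * ((C' : ℝ) * (ξ₂ + η) + B') = 0 := by linear_combination e3 - e4
    exact (mul_eq_zero.1 h6).resolve_left (sub_ne_zero.2 h2)
  have h8 : (C : ℝ) * C' * (ξ₁ - ξ₂) = 0 := by linear_combination C' * h5 - C * h7 + h4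
  have h9 := (mul_eq_zero.1 h8).resolve_left (mul_ne_zero hCr hCr')
  linarith

theorem irr_of_form {ξ η : ℝ} (hQ : ∀ w : ℤ × ℤ, w ≠ 0 → 1 / 3 ≤ |Fm ξ η w|) :
    Irrational ξ ∧ Irrational η := by
  have key : ∀ p q : ℤ, q ≠ 0 → ((p : ℝ) - ξ * q) * (p - η * q) ≠ 0 := by
    intro p q hq h0
    have h1 := hQ (p, q) (fun h => hq (congrArg Prod.snd h))
    unfold Fm at h1
    simp only at h1
    rw [h0] at h1
    norm_num at h1
  exact ⟨irr_iff_no_root fun p q hq => left_ne_zero_of_mul (key p q hq),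
    irr_iff_no_root fun p q hq => right_ne_zero_of_mul (key p q hq)⟩

theorem exists_rel {A B C D : ℤ} (hd : A * D - B * C ≠ 0) {z : ℝ} (hz : Irrational z) :
    ∃ z', Rel A B C D z z' := by
  have h1 : (A : ℝ) - z * C ≠ 0 := by
    apply no_root_of_irr hz
    rintro ⟨h1, h2⟩
    apply hd
    rw [h1, h2]
    ring
  have hd' : (A : ℝ) * D - B * C ≠ 0 := by exact_mod_cast hd
  set t : ℝ := (D * z - B) / (A - z * C) with ht
  have h2 : t * (A - z * C) = D * z - B := by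
    rw [ht]
    exact div_mul_cancel₀ _ h1
  refine ⟨t, ?_, ?_⟩
  · intro h0
    apply hd'
    linear_combination (-(C : ℝ)) * h2 + (A - z * C) * h0
  · linear_combination (-1 : ℝ) * h2

theorem abs_rat {t : ℝ} {q : ℚ} (h : |t| = q) : ∃ r : ℚ, t = r := by
  rcases abs_choice t with h1 | h1
  · exact ⟨q, by rw [← h, h1]⟩
  · exact ⟨-q, by push_cast; rw [← h, h1]; ring⟩

theorem limit_core {n : ℕ} (hn : ¬ IsSquare n) {A B C D : ℤ} (hd : |A * D - B * C| = n)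
    {ξ₁ ξ₂ η : ℝ} (h1 : ξ₁ ≠ η) (h2 : ξ₂ ≠ η) (hne : ξ₁ ≠ ξ₂)
    (hQ1 : ∀ w : ℤ × ℤ, w ≠ 0 → 1 / 3 ≤ |Fm ξ₁ η w|)
    (hQ2 : ∀ w : ℤ × ℤ, w ≠ 0 → 1 / 3 ≤ |Fm ξ₂ η w|)
    (hL1 : ∀ w : ℤ × ℤ, w ≠ 0 → n / 3 ≤ |Fm ξ₁ η (act A B C D w)|)
    (hL2 : ∀ w : ℤ × ℤ, w ≠ 0 → n / 3 ≤ |Fm ξ₂ η (act A B C D w)|)
    (hnp : ¬ Per ξ₁ η) : False := by
  obtain ⟨i1, i3⟩ := irr_of_form hQ1
  obtain ⟨i2, -⟩ := irr_of_form hQ2
  have hn0 : n ≠ 0 := by
    rintro rfl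
    exact hn ⟨0, rfl⟩
  have hnpos : (0 : ℝ) < n := by exact_mod_cast Nat.pos_of_ne_zero hn0
  have hd0 : A * D - B * C ≠ 0 := by
    intro h0
    rw [h0] at hd
    simp at hd
    exact hn0 (by exact_mod_cast hd.symm)
  have hd' : |((A * D - B * C : ℤ) : ℝ)| = n := by
    rw [← Int.cast_abs, hd]
    simp
  obtain ⟨ξ₁', r1⟩ := exists_rel hd0 i1
  obtain ⟨ξ₂', r2⟩ := exists_rel hd0 i2
  obtain ⟨η', r3⟩ := exists_rel hd0 i3
  have n1 := Rel_ne hd0 r1 r3 h1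
  have n2 := Rel_ne hd0 r2 r3 h2
  have n3 := Rel_ne hd0 r1 r2 hne
  have F1 := Fm_act r1 r3 n1 h1
  have F2 := Fm_act r2 r3 n2 h2
  have c1 := concl_gen i1 i2 i3 h1 h2 hne hQ1 hQ2 hnp
  have c2 := concl_gen (Rel_irr hd0 r1 i1) (Rel_irr hd0 r2 i2) (Rel_irr hd0 r3 i3) n1 n2 n3
    (fun w hw => by
      have := hL1 w hw
      rw [F1 w, abs_mul, hd'] at this
      have e : (n : ℝ) / 3 = n * (1 / 3) := by ring
      rw [e] at this
      exact le_of_mul_le_mul_left this hnpos)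
    (fun w hw => by
      have := hL2 w hw
      rw [F2 w, abs_mul, hd'] at this
      have e : (n : ℝ) / 3 = n * (1 / 3) := by ring
      rw [e] at this
      exact le_of_mul_le_mul_left this hnpos)
    (fun hp => hnp (Rel_per hd0 r1 r3 i1 hp))
  -- values on the sublattice
  have hval : ∀ v, |Fm ξ₁' η' v| = 1 / 3 → |Fm ξ₁ η (act A B C D v)| = n / 3 := by
    intro v hv
    rw [F1 v, abs_mul, hd', hv]
    ring
  have hsq : ∀ v w, |Fm ξ₁ η v| = 1 / 3 → |Fm ξ₁ η w| = n / 3 → dt v w ≠ 0 := by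
    intro v w hv hw h0
    exact hn (square_of_prop h0 hv hw)
  have hr13 : ∀ v, |Fm ξ₁ η v| = 1 / 3 → ∃ r : ℚ, Fm ξ₁ η v = r := by
    intro v hv
    exact abs_rat (q := 1 / 3) (by rw [hv]; push_cast; ring)
  have hrn3 : ∀ v, |Fm ξ₁ η v| = n / 3 → ∃ r : ℚ, Fm ξ₁ η v = r := by
    intro v hv
    exact abs_rat (q := n / 3) (by rw [hv]; push_cast; ring)
  rcases c1 with ⟨v, v1, v2⟩ | ⟨v, w, v0, v1, w1⟩
  · rcases c2 with ⟨v', v1', v2'⟩ | ⟨v', w', v0', v1', w1'⟩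
    · -- both on the line where the two forms are opposite
      set W := act A B C D v' with hW
      have W1 := hval v' v1'
      rw [← hW] at W1
      have W2 : Fm ξ₂ η W = -Fm ξ₁ η W := by
        rw [hW, F1 v', F2 v', v2']
        ring
      apply hsq v W v1 W1
      -- the common line
      have line : ∀ u : ℤ × ℤ, u ≠ 0 → Fm ξ₂ η u = -Fm ξ₁ η u →
          ((u.1 : ℝ) - η * u.2) * (1 / (ξ₁ - η) + 1 / (ξ₂ - η)) = 2 * u.2 := by
        intro u hu hF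
        have d1 : ξ₁ - η ≠ 0 := sub_ne_zero.2 h1
        have d2 : ξ₂ - η ≠ 0 := sub_ne_zero.2 h2
        have hs : (u.1 : ℝ) - η * u.2 ≠ 0 := by
          apply no_root_of_irr i3
          rintro ⟨e1, e2⟩
          exact hu (Prod.ext e1 e2)
        have g1 : Fm ξ₁ η u = ((u.1 : ℝ) - η * u.2) *
            (((u.1 : ℝ) - η * u.2) * (1 / (ξ₁ - η)) - u.2) := by
          unfold Fm
          field_simp
          ring
        have g2 : Fm ξ₂ η u = ((u.1 : ℝ) - η * u.2) *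
            (((u.1 : ℝ) - η * u.2) * (1 / (ξ₂ - η)) - u.2) := by
          unfold Fm
          field_simp
          ring
        rw [g1, g2] at hF
        have g3 : ((u.1 : ℝ) - η * u.2) * (((u.1 : ℝ) - η * u.2) *
            (1 / (ξ₁ - η) + 1 / (ξ₂ - η)) - 2 * u.2) = 0 := by linear_combination hF
        have g4 := (mul_eq_zero.1 g3).resolve_left hs
        linarith
      have hv0 : v ≠ 0 := by
        intro h0
        rw [h0] at v1
        unfold Fm at v1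
        simp at v1
      have hW0 : W ≠ 0 := by
        intro h0
        rw [h0] at W1
        unfold Fm at W1
        simp at W1
        exact hn0 (by linarith [W1] |> fun h => h)
      have l1 := line v hv0 v2
      have l2 := line W hW0 W2
      set T := 1 / (ξ₁ - η) + 1 / (ξ₂ - η) with hT
      by_cases hT0 : T = 0
      · rw [hT0, mul_zero] at l1 l2
        have e1 : v.2 = 0 := by
          have : (v.2 : ℝ) = 0 := by linarith
          exact_mod_cast this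
        have e2 : W.2 = 0 := by
          have : (W.2 : ℝ) = 0 := by linarith
          exact_mod_cast this
        unfold dt
        rw [e1, e2]
        ring
      · have e1 : T * (((v.1 : ℝ) - η * v.2) * W.2 - ((W.1 : ℝ) - η * W.2) * v.2) = 0 := by
          linear_combination (W.2 : ℝ) * l1 - (v.2 : ℝ) * l2
        have e2 := (mul_eq_zero.1 e1).resolve_left hT0
        have e3 : ((dt v W : ℤ) : ℝ) = 0 := by
          unfold dt
          push_cast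
          linarith
        exact_mod_cast e3
    · obtain ⟨q1, hq1⟩ := hr13 v v1
      obtain ⟨q2, hq2⟩ := hrn3 _ (hval v' v1')
      obtain ⟨q3, hq3⟩ := hrn3 _ (hval w' w1')
      refine three_rat i1 h1 (hsq _ _ v1 (hval v' v1')) (hsq _ _ v1 (hval w' w1')) ?_ hq1 hq2 hq3
      rw [dt_act]
      exact mul_ne_zero hd0 v0'
  · have hex : ∃ W, |Fm ξ₁ η W| = n / 3 := by
      rcases c2 with ⟨v', v1', -⟩ | ⟨v', w', v0', v1', w1'⟩
      · exact ⟨_, hval v' v1'⟩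
      · exact ⟨_, hval v' v1'⟩
    obtain ⟨W, hW⟩ := hex
    obtain ⟨q1, hq1⟩ := hr13 v v1
    obtain ⟨q2, hq2⟩ := hr13 w w1
    obtain ⟨q3, hq3⟩ := hrn3 W hW
    exact three_rat i1 h1 v0 (hsq _ _ v1 hW) (hsq _ _ w1 hW) hq1 hq2 hq3

/-- **No asymptotic pair is extremal for `ℤ²` and for a sublattice of nonsquare index.** -/
theorem limit_contra {n : ℕ} (hn : ¬ IsSquare n) {A B C D : ℤ} (hd : |A * D - B * C| = n)
    {ξ₁ ξ₂ η : ℝ} (h1 : ξ₁ ≠ η) (h2 : ξ₂ ≠ η) (hne : ξ₁ ≠ ξ₂)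
    (hQ1 : ∀ w : ℤ × ℤ, w ≠ 0 → 1 / 3 ≤ |Fm ξ₁ η w|)
    (hQ2 : ∀ w : ℤ × ℤ, w ≠ 0 → 1 / 3 ≤ |Fm ξ₂ η w|)
    (hL1 : ∀ w : ℤ × ℤ, w ≠ 0 → n / 3 ≤ |Fm ξ₁ η (act A B C D w)|)
    (hL2 : ∀ w : ℤ × ℤ, w ≠ 0 → n / 3 ≤ |Fm ξ₂ η (act A B C D w)|) : False := by
  by_cases hp : Per ξ₁ η
  · refine limit_core hn hd h2 h1 hne.symm hQ2 hQ1 hL2 hL1 (fun hp2 => hne ?_)
    exact per_unique (irr_of_form hQ1).2 h1 h2 hp hp2
  · exact limit_core hn hd h1 h2 hne hQ1 hQ2 hL1 hL2 hp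

end Pool.Agent.L3
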