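import Pool.Agent.Work.MP_5e120e_nt.Occ

/-! # Limits of the frames with constant residues -/

namespace Pool.Agent.L3

open Filter Topology

/-- the frame of `x` seen through the integral matrix `(a b; c d)` -/
noncomputable def FM (a b c d : ℤ) (x : ℝ) (k : ℕ) : Matrix (Fin 2) (Fin 2) ℤ :=
  !![a, b; c, d] * !![(fr x (k + 1)).1.1, (fr x (k + 1)).2.1; (fr x (k + 1)).1.2, (fr x (k + 1)).2.2]

theorem FM_succ (a b c d : ℤ) (x : ℝ) (k : ℕ) :
    FM a b c d x (k + 1) = FM a b c d x k * El ⌊etaS x (k + 1)⌋ := by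
  unfold FM
  rw [Matrix.mul_assoc]
  congr 1
  rw [fr_succ1 x (k + 1), fr_succ2 x (k + 1), fr_succ3 x (k + 1)]
  unfold El
  ext i j
  fin_cases i <;> fin_cases j <;> simp [Matrix.mul_apply, Fin.sum_univ_two] <;> ring

theorem FM_det (a b c d : ℤ) (x : ℝ) (k : ℕ) : |(FM a b c d x k).det| = |a * d - b * c| := by
  unfold FM
  rw [Matrix.det_mul, abs_mul, Matrix.det_fin_two_of, Matrix.det_fin_two_of, fr_det, mul_one]

/-- late frames: the bounds for a fixed vector -/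
theorem base_bound {n : ℕ} (hn : n ≠ 0) {x : ℝ} (hx : Irrational x) {a b c d : ℤ}
    (hd : |a * d - b * c| = n) (h1 : lagrangeValue x ≤ ((3 : ℝ) : EReal))
    (h2 : lagrangeValue ((a * x + b) / (c * x + d)) ≤ ((3 : ℝ) : EReal)) {ε : ℝ} (hε : 0 < ε)
    {w : ℤ × ℤ} (hw : w ≠ 0) : ∀ᶠ k in atTop,
      1 / 3 - ε ≤ |Fm (etaS x (k + 1)) (-sg x (k + 1)) w| ∧
      ((n : ℤ) ∣ (FM a b c d x k) 0 0 * w.1 + (FM a b c d x k) 0 1 * w.2 →
        (n : ℤ) ∣ (FM a b c d x k) 1 0 * w.1 + (FM a b c d x k) 1 1 * w.2 →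
        n / 3 - ε ≤ |Fm (etaS x (k + 1)) (-sg x (k + 1)) w|) := by
  have hn' : (0 : ℝ) < n := by exact_mod_cast Nat.pos_of_ne_zero hn
  have hn1 : (1 : ℝ) ≤ n := by exact_mod_cast Nat.one_le_iff_ne_zero.2 hn
  set C : ℝ := 3 + ε / n with hC
  have hεn : 0 < ε / n := by positivity
  have hεn' : ε / n ≤ ε := div_le_self hε.le hn1
  have hC3 : 3 < C := by linarith
  have hlt : ((3 : ℝ) : EReal) < (C : EReal) := by exact_mod_cast hC3
  obtain ⟨T₁, hT₁⟩ := low_of_lagr hx (by linarith) (h1.trans_lt hlt)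
  obtain ⟨T₂, hT₂⟩ := low_of_lagr' hx (by linarith) hn hd (h2.trans_lt hlt) (half_pos hε)
  have hCne : C ≠ 0 := by linarith
  have hb0 : (1 : ℝ) / 3 - 1 / C = ε / n / (3 * C) := by
    have h5 : C - 3 = ε / n := by rw [hC]; ring
    rw [← h5]
    field_simp
  have hb1 : 1 / 3 - ε ≤ 1 / C := by
    have : ε / n / (3 * C) ≤ ε := by
      rw [div_le_iff₀ (by linarith)]
      nlinarith
    linarith
  have hb2 : (n : ℝ) / 3 - ε ≤ n / C - ε / 2 := by
    have h3 : (n : ℝ) / 3 - n / C = n * (1 / 3 - 1 / C) := by ring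
    have h4 : (n : ℝ) * (ε / n / (3 * C)) = ε / (3 * C) := by field_simp
    have h5 : ε / (3 * C) ≤ ε / 2 := by
      rw [div_le_div_iff₀ (by linarith) (by norm_num)]
      nlinarith
    rw [hb0, h4] at h3
    linarith
  obtain ⟨K, hK⟩ := den_large hx hw (max T₁ T₂)
  filter_upwards [eventually_ge_atTop K] with k hk
  have h3 := hK k hk
  rw [← form_frame hx k w]
  have h4 : (T₁ : ℤ) ≤ ((max T₁ T₂ : ℕ) : ℤ) := by exact_mod_cast le_max_left _ _
  have h5 : (T₂ : ℤ) ≤ ((max T₁ T₂ : ℕ) : ℤ) := by exact_mod_cast le_max_right _ _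
  refine ⟨hb1.trans (hT₁ _ _ (h4.trans h3)), fun d1 d2 => hb2.trans (hT₂ _ _ (h5.trans h3) ?_ ?_)⟩
  · have e : a * ((fr x (k + 1)).1.1 * w.1 + (fr x (k + 1)).2.1 * w.2) +
        b * ((fr x (k + 1)).1.2 * w.1 + (fr x (k + 1)).2.2 * w.2) =
        (FM a b c d x k) 0 0 * w.1 + (FM a b c d x k) 0 1 * w.2 := by
      unfold FM
      simp [Matrix.mul_apply, Fin.sum_univ_two]
      ring
    rw [e]
    exact d1
  · have e : c * ((fr x (k + 1)).1.1 * w.1 + (fr x (k + 1)).2.1 * w.2) +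
        d * ((fr x (k + 1)).1.2 * w.1 + (fr x (k + 1)).2.2 * w.2) =
        (FM a b c d x k) 1 0 * w.1 + (FM a b c d x k) 1 1 * w.2 := by
      unfold FM
      simp [Matrix.mul_apply, Fin.sum_univ_two]
      ring
    rw [e]
    exact d2

/-- **limits with constant residues** -/
theorem lim_bounds {n : ℕ} (hn : n ≠ 0) {x : ℝ} (hx : Irrational x) {a b c d : ℤ}
    (hd : |a * d - b * c| = n) (h1 : lagrangeValue x ≤ ((3 : ℝ) : EReal))
    (h2 : lagrangeValue ((a * x + b) / (c * x + d)) ≤ ((3 : ℝ) : EReal)) {α β γ δ : ℤ}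
    (hdet : |α * δ - β * γ| = n) {φ : ℕ → ℕ} (hφ : Tendsto φ atTop atTop)
    (hres : ∀ j, rd n (FM a b c d x (φ j)) = rd n !![α, β; γ, δ]) {ξ s : ℝ}
    (L1 : Tendsto (fun j => etaS x (φ j + 1)) atTop (𝓝 ξ))
    (L2 : Tendsto (fun j => sg x (φ j + 1)) atTop (𝓝 s)) (hξ : 1 ≤ ξ) (hs : 0 ≤ s) :
    (∀ w : ℤ × ℤ, w ≠ 0 → 1 / 3 ≤ |Fm ξ (-s) w|) ∧
      (∀ w : ℤ × ℤ, w ≠ 0 → n / 3 ≤ |Fm ξ (-s) (act δ (-β) (-γ) α w)|) := by
  have hF : ∀ w : ℤ × ℤ, Tendsto (fun j => |Fm (etaS x (φ j + 1)) (-sg x (φ j + 1)) w|) atTop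
      (𝓝 |Fm ξ (-s) w|) := by
    intro w
    apply Tendsto.abs
    unfold Fm
    apply Tendsto.div
    · exact (tendsto_const_nhds.sub (L1.mul_const _)).mul
        (tendsto_const_nhds.sub (L2.neg.mul_const _))
    · exact L1.sub L2.neg
    · intro h0
      linarith
  constructor
  · intro w hw
    apply le_of_forall_pos_sub_le
    intro ε hε
    refine ge_of_tendsto (hF w) ?_
    filter_upwards [hφ.eventually (base_bound hn hx hd h1 h2 hε hw)] with j hj
    exact hj.1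
  · intro w hw
    have hd0 : δ * α - -β * -γ ≠ 0 := by
      intro h0
      have h8 : α * δ - β * γ = 0 := by linarith
      rw [h8] at hdet
      simp at hdet
      exact hn (by exact_mod_cast hdet.symm)
    have hW := act_ne hd0 hw
    set W := act δ (-β) (-γ) α w with hWdef
    apply le_of_forall_pos_sub_le
    intro ε hε
    refine ge_of_tendsto (hF W) ?_
    filter_upwards [hφ.eventually (base_bound hn hx hd h1 h2 hε hW)] with j hj
    have hndet : (n : ℤ) ∣ α * δ - β * γ := by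
      rw [← dvd_abs, hdet]
    have e := hres j
    have e00 := congrFun (congrFun e 0) 0
    have e01 := congrFun (congrFun e 0) 1
    have e10 := congrFun (congrFun e 1) 0
    have e11 := congrFun (congrFun e 1) 1
    simp only [rd, Matrix.map_apply, Matrix.of_apply, Matrix.cons_val', Matrix.cons_val_zero,
      Matrix.cons_val_one] at e00 e01 e10 e11
    have ea := (ZMod.intCast_eq_intCast_iff_dvd_sub _ _ n).1 e00.symm
    have eb := (ZMod.intCast_eq_intCast_iff_dvd_sub _ _ n).1 e01.symm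
    have ec := (ZMod.intCast_eq_intCast_iff_dvd_sub _ _ n).1 e10.symm
    have ed := (ZMod.intCast_eq_intCast_iff_dvd_sub _ _ n).1 e11.symm
    refine hj.2 ?_ ?_
    · have e1 : FM a b c d x (φ j) 0 0 * W.1 + FM a b c d x (φ j) 0 1 * W.2 =
          (α * δ - β * γ) * w.1 + (FM a b c d x (φ j) 0 0 - α) * W.1 +
            (FM a b c d x (φ j) 0 1 - β) * W.2 := by
        rw [hWdef]
        simp only [act]
        ring
      rw [e1]
      exact dvd_add (dvd_add (Dvd.dvd.mul_right hndet _) (Dvd.dvd.mul_right ea _))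
        (Dvd.dvd.mul_right eb _)
    · have e1 : FM a b c d x (φ j) 1 0 * W.1 + FM a b c d x (φ j) 1 1 * W.2 =
          (α * δ - β * γ) * w.2 + (FM a b c d x (φ j) 1 0 - γ) * W.1 +
            (FM a b c d x (φ j) 1 1 - δ) * W.2 := by
        rw [hWdef]
        simp only [act]
        ring
      rw [e1]
      exact dvd_add (dvd_add (Dvd.dvd.mul_right hndet _) (Dvd.dvd.mul_right ec _))
        (Dvd.dvd.mul_right ed _)

/-- a bound for the complete quotients -/
theorem etaS_bdd {x : ℝ} (hx : Irrational x) (h1 : lagrangeValue x ≤ ((3 : ℝ) : EReal)) :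
    ∀ᶠ k in atTop, 1 ≤ etaS x (k + 1) ∧ etaS x (k + 1) ≤ 4 := by
  have h2 : lagrangeValue ((((1 : ℤ) : ℝ) * x + ((0 : ℤ) : ℝ)) / (((0 : ℤ) : ℝ) * x + ((1 : ℤ) : ℝ))) ≤
      ((3 : ℝ) : EReal) := by
    push_cast
    rw [one_mul, add_zero, zero_mul, zero_add, div_one]
    exact h1
  have h3 := base_bound (n := 1) one_ne_zero hx (a := 1) (b := 0) (c := 0) (d := 1) (by norm_num)
    h1 h2 (ε := 1 / 20) (by norm_num) (w := (1, 0)) (by simp)
  filter_upwards [h3] with k hk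
  have h4 := etaS_gt hx k
  have h5 := sg_mem hx k
  have h6 := hk.1
  unfold Fm at h6
  simp only [Int.cast_one, Int.cast_zero, mul_zero, sub_zero, mul_one, sub_neg_eq_add] at h6
  have h7 : 0 < etaS x (k + 1) + sg x (k + 1) := by linarith [h5.1]
  rw [abs_of_pos (by positivity), le_div_iff₀ h7] at h6
  exact ⟨h4.le, by nlinarith [h5.1]⟩

/-- the past digits -/
theorem sg_pos {x : ℝ} (hx : Irrational x) (k : ℕ) : 0 < sg x (k + 2) := by
  rw [sg_succ hx k]
  have h1 := (sg_mem hx k).1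
  have h2 : (1 : ℝ) ≤ ⌊etaS x (k + 1)⌋ := by exact_mod_cast fl_pos hx k
  positivity

theorem sg_lt {x : ℝ} (hx : Irrational x) (k : ℕ) : sg x (k + 3) < 1 := by
  rw [show k + 3 = k + 1 + 2 by ring, sg_succ hx (k + 1)]
  have h1 := sg_pos hx k
  have h2 : (1 : ℝ) ≤ ⌊etaS x (k + 1 + 1)⌋ := by exact_mod_cast fl_pos hx (k + 1)
  rw [show k + 1 + 1 = k + 2 by ring] at h2 ⊢
  rw [div_lt_one (by positivity)]
  linarith

theorem past_etaS {x : ℝ} (hx : Irrational x) (i : ℕ) : ∀ k, i + 4 ≤ k →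
    etaS (1 / sg x (k + 1)) i = 1 / sg x (k + 1 - i) ∧
      ⌊etaS (1 / sg x (k + 1)) i⌋ = ⌊etaS x (k - i)⌋ := by
  have hfl : ∀ k, 4 ≤ k → 1 / sg x k = ⌊etaS x (k - 1)⌋ + sg x (k - 1) ∧
      ⌊1 / sg x k⌋ = ⌊etaS x (k - 1)⌋ := by
    intro k hk
    obtain ⟨k', rfl⟩ : ∃ k', k = k' + 4 := ⟨k - 4, by omega⟩
    have h1 := sg_succ hx (k' + 2)
    rw [show k' + 2 + 2 = k' + 4 by ring, show k' + 2 + 1 = k' + 4 - 1 by omega] at h1
    have h2 := sg_lt hx k'
    have h3 := (sg_mem hx (k' + 2)).1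
    rw [show k' + 2 + 1 = k' + 4 - 1 by omega] at h3
    rw [show k' + 3 = k' + 4 - 1 by omega] at h2
    have h4 : 1 / sg x (k' + 4) = ⌊etaS x (k' + 4 - 1)⌋ + sg x (k' + 4 - 1) := by
      rw [h1, one_div_one_div]
    refine ⟨h4, ?_⟩
    rw [h4, Int.floor_intCast_add]
    have : ⌊sg x (k' + 4 - 1)⌋ = 0 := by
      rw [Int.floor_eq_zero_iff]
      exact ⟨h3, h2⟩
    rw [this, add_zero]
  induction i with
  | zero =>
    intro k hk
    refine ⟨rfl, ?_⟩
    have := (hfl (k + 1) (by omega)).2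
    rw [Nat.add_sub_cancel] at this
    exact this
  | succ i ih =>
    intro k hk
    obtain ⟨h1, h2⟩ := ih k (by omega)
    have h3 : etaS (1 / sg x (k + 1)) (i + 1) = 1 / sg x (k + 1 - (i + 1)) := by
      show 1 / Int.fract (etaS (1 / sg x (k + 1)) i) = _
      rw [← Int.self_sub_floor, h2, h1, (hfl (k + 1 - i) (by omega)).1,
        show k + 1 - i - 1 = k - i by omega, show k + 1 - (i + 1) = k - i by omega,
        add_sub_cancel_left]
    refine ⟨h3, ?_⟩
    rw [h3, (hfl (k + 1 - (i + 1)) (by omega)).2]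
    congr 2
    omega

end Pool.Agent.L3
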