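import Pool.Agent.Work.MP_5e120e_nt.Markov

/-! # Divisors of Markov numbers -/

namespace Pool.Agent.L3

/-- the descent step for `x² + y² + z² = k x y z`, `k ≥ 4` -/
theorem hurwitz_step {k x y z : ℤ} (hk : 4 ≤ k) (hx : 0 < x) (hxy : x ≤ y) (hyz : y ≤ z)
    (h : x ^ 2 + y ^ 2 + z ^ 2 = k * x * y * z) :
    0 < k * x * y - z ∧ k * x * y - z < z ∧
      x ^ 2 + y ^ 2 + (k * x * y - z) ^ 2 = k * x * y * (k * x * y - z) := by
  have hy : 0 < y := by linarith
  have hz : 0 < z := by linarith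
  set z' := k * x * y - z with hz'
  have hprod : z * z' = x ^ 2 + y ^ 2 := by rw [hz']; linarith
  have h1 : 0 < z' := by
    by_contra hc
    push Not at hc
    nlinarith
  have hf : (y - z) * (y - z') < 0 := by
    have e : (y - z) * (y - z') = 2 * y ^ 2 + x ^ 2 - k * x * y * y := by
      rw [hz']
      linear_combination (-1 : ℤ) * h
    rw [e]
    have h2 : x ^ 2 ≤ y ^ 2 := by nlinarith
    have h3 : 4 * y ^ 2 ≤ k * x * y * y := by
      have h4 : 4 ≤ k * x := by nlinarith
      have h5 : 0 < y * y := by positivity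
      nlinarith
    have h6 : 0 < y ^ 2 := by positivity
    linarith
  have h2 : z' < y := by
    by_contra hc
    push Not at hc
    nlinarith
  refine ⟨h1, by linarith, ?_⟩
  rw [hz']
  linear_combination h

/-- **Hurwitz**: no solutions for `k ≥ 4` -/
theorem hurwitz {k : ℤ} (hk : 4 ≤ k) (s : ℕ) : ∀ x y z : ℤ, 0 < x → 0 < y → 0 < z →
    x + y + z = s → x ^ 2 + y ^ 2 + z ^ 2 = k * x * y * z → False := by
  induction s using Nat.strong_induction_on with
  | _ s ih =>
    -- sorted triples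
    have key : ∀ x y z : ℤ, 0 < x → x ≤ y → y ≤ z → x + y + z = s →
        x ^ 2 + y ^ 2 + z ^ 2 = k * x * y * z → False := by
      intro x y z hx hxy hyz hs h
      obtain ⟨h1, h2, h3⟩ := hurwitz_step hk hx hxy hyz h
      refine ih (x + y + (k * x * y - z)).toNat ?_ x y (k * x * y - z) hx (by linarith) h1 ?_ h3
      · omega
      · rw [Int.toNat_of_nonneg (by linarith)]
    intro x y z hx hy hz hs h
    rcases le_total x y with h1 | h1 <;> rcases le_total y z with h2 | h2 <;>
      rcases le_total x z with h3 | h3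
    · exact key x y z hx h1 h2 hs h
    · exact key x y z hx h1 h2 hs h
    · exact key x z y hx h3 h2 (by linarith) (by linarith)
    · exact key z x y hz h3 h1 (by linarith) (by linarith)
    · exact key y x z hy h1 h3 (by linarith) (by linarith)
    · exact key y z x hy h2 h3 (by linarith) (by linarith)
    · exact key z y x hz h2 h1 (by linarith) (by linarith)
    · exact key z y x hz h2 h1 (by linarith) (by linarith)

/-- `-1` is a square modulo every Markov number -/
theorem IsMarkov.sq_neg_one {m : ℤ} (hm : IsMarkov m) : ∃ t : ℤ, m ∣ t ^ 2 + 1 := by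
  obtain ⟨a, b, ha, hb, hm0, h⟩ := hm
  have hcop : IsCoprime b m := by
    rw [Int.isCoprime_iff_gcd_eq_one]
    by_contra hne
    obtain ⟨p, hp, hpd⟩ := Nat.exists_prime_and_dvd hne
    have hpb : (p : ℤ) ∣ b := (Int.natCast_dvd_natCast.2 hpd).trans (Int.gcd_dvd_left ..)
    have hpm : (p : ℤ) ∣ m := (Int.natCast_dvd_natCast.2 hpd).trans (Int.gcd_dvd_right ..)
    have hpa : (p : ℤ) ∣ a := by
      have h1 : (p : ℤ) ∣ a ^ 2 := by
        have e : a ^ 2 = 3 * a * b * m - b ^ 2 - m ^ 2 := by linarith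
        rw [e]
        exact dvd_sub (dvd_sub (Dvd.dvd.mul_left hpm _) (Dvd.dvd.pow hpb two_ne_zero))
          (Dvd.dvd.pow hpm two_ne_zero)
      exact (Nat.prime_iff_prime_int.1 hp).dvd_of_dvd_pow h1
    obtain ⟨a', rfl⟩ := hpa
    obtain ⟨b', rfl⟩ := hpb
    obtain ⟨m', rfl⟩ := hpm
    have hp2 : (2 : ℤ) ≤ p := by exact_mod_cast hp.two_le
    have hp0 : (0 : ℤ) < p := by linarith
    have ha' : 0 < a' := by
      by_contra hc
      push Not at hc
      nlinarith
    have hb' : 0 < b' := by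
      by_contra hc
      push Not at hc
      nlinarith
    have hm' : 0 < m' := by
      by_contra hc
      push Not at hc
      nlinarith
    refine hurwitz (k := 3 * p) (by linarith) (a' + b' + m').toNat a' b' m' ha' hb' hm' ?_ ?_
    · rw [Int.toNat_of_nonneg (by linarith)]
    · have hpp : (p : ℤ) ^ 2 ≠ 0 := by positivity
      apply mul_left_cancel₀ hpp
      linear_combination h
  obtain ⟨u, v, huv⟩ := hcop
  refine ⟨a * u, 3 * a * b * u ^ 2 - m * u ^ 2 + 2 * v - m * v ^ 2, ?_⟩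
  linear_combination u ^ 2 * h - (u * b - m * v + 1) * huv

/-- prime divisors of Markov numbers -/
theorem IsMarkov.prime_mod_four {m : ℤ} (hm : IsMarkov m) {p : ℕ} (hp : p.Prime)
    (hpm : (p : ℤ) ∣ m) : p % 4 ≠ 3 := by
  obtain ⟨t, ht⟩ := hm.sq_neg_one
  have : Fact p.Prime := ⟨hp⟩
  have h1 : ((t ^ 2 + 1 : ℤ) : ZMod p) = 0 :=
    (ZMod.intCast_zmod_eq_zero_iff_dvd _ _).2 (hpm.trans ht)
  apply ZMod.mod_four_ne_three_of_sq_eq_neg_one (p := p) (y := (t : ZMod p))
  push_cast at h1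
  exact eq_neg_of_add_eq_zero_left h1

theorem IsMarkov.not_four_dvd {m : ℤ} (hm : IsMarkov m) : ¬ (4 : ℤ) ∣ m := by
  intro h4
  obtain ⟨t, ht⟩ := hm.sq_neg_one
  have h1 : (4 : ℤ) ∣ t ^ 2 + 1 := h4.trans ht
  have h2 : t % 4 = 0 ∨ t % 4 = 1 ∨ t % 4 = 2 ∨ t % 4 = 3 := by omega
  have h3 : (t ^ 2 + 1) % 4 = 0 := Int.emod_eq_zero_of_dvd h1
  rcases h2 with h | h | h | h <;> simp [Int.add_emod, pow_two, Int.mul_emod, h] at h3

end Pool.Agent.L3
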