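import Pool.Agent.Work.MP_5e120e_nt.States

/-! # The states modulo a prime: contradiction for irrational slope -/

namespace Pool.Agent.L3

open Filter

/-- all windows of `f` are windows of rotation words of slope `α` -/
def Wd (α : ℝ) (f : ℤ → ℤ) : Prop :=
  ∀ (m : ℤ) (L : ℕ), ∃ θ : ℝ, ∀ i : ℕ, i < L → f (m + i) = rot α θ i

theorem wd_om2 (α : ℝ) : Wd α (om2 α) := by
  intro m L
  refine ⟨-α + m * α, fun i _ => ?_⟩
  rw [om2_eq_rot, rot_shift]

theorem wd_om1 {α : ℝ} (hα : Irrational α) : Wd α (om1 α) := by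
  intro m L
  obtain ⟨δ, hδ, hd⟩ := exists_dist hα (m.natAbs + L + 1)
  set t : ℝ := min δ (1 / 2) with ht
  have ht0 : 0 < t := lt_min hδ (by norm_num)
  have ht1 : t ≤ δ := min_le_left _ _
  have ht2 : t ≤ 1 / 2 := min_le_right _ _
  have key : ∀ j : ℤ, j.natAbs ≤ m.natAbs + L + 1 → ⌊(j : ℝ) * α - t⌋ = ⌈(j : ℝ) * α⌉ - 1 := by
    intro j hj
    rcases eq_or_ne j 0 with h0 | h0
    · subst h0
      rw [Int.floor_eq_iff]
      simp
      constructor <;> linarith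
    · rw [ceil_irr hα h0, add_sub_cancel_right, Int.floor_eq_iff]
      have c1 := Int.floor_le ((j : ℝ) * α)
      have c2 := Int.lt_floor_add_one ((j : ℝ) * α)
      have c3 : δ < |(j : ℝ) * α - ⌊(j : ℝ) * α⌋| := by
        rcases Int.natAbs_eq j with h | h
        · have := hd j.natAbs (by omega) hj ⌊(j : ℝ) * α⌋
          have e : ((j.natAbs : ℕ) : ℝ) = (j : ℝ) := by
            rw [h]; simp
          rw [e] at this
          exact this
        · have := hd j.natAbs (by omega) hj (-⌊(j : ℝ) * α⌋)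
          have e : ((j.natAbs : ℕ) : ℝ) = -(j : ℝ) := by
            have : (j : ℝ) = ((-(j.natAbs : ℤ) : ℤ) : ℝ) := by rw [← h]
            rw [this]
            push_cast
            simp
          rw [e] at this
          have e2 : -(j : ℝ) * α - ((-⌊(j : ℝ) * α⌋ : ℤ) : ℝ) =
              -((j : ℝ) * α - ⌊(j : ℝ) * α⌋) := by push_cast; ring
          rw [e2, abs_neg] at this
          exact this
      rw [abs_of_nonneg (by linarith)] at c3
      constructor <;> linarith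
  refine ⟨-α - t + m * α, fun i hi => ?_⟩
  rw [← rot_shift]
  have e1 := key (m + i) (by omega)
  have e2 := key (m + i - 1) (by omega)
  unfold om1 rot
  push_cast at e1 e2 ⊢
  rw [show ((m : ℝ) + i + 1) * α + (-α - t) = (m + i) * α - t by ring,
    show ((m : ℝ) + i) * α + (-α - t) = (m + i - 1) * α - t by ring, e1, e2]
  ring

theorem om1_mem {α : ℝ} (h0 : 0 < α) (h1 : α < 1) (n : ℤ) : om1 α n = 0 ∨ om1 α n = 1 := by
  have a1 := Int.le_ceil ((n : ℝ) * α)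
  have a2 := Int.ceil_lt_add_one ((n : ℝ) * α)
  have b1 := Int.le_ceil (((n : ℝ) - 1) * α)
  have b2 := Int.ceil_lt_add_one (((n : ℝ) - 1) * α)
  have c1 : (⌈(n : ℝ) * α⌉ : ℝ) - ⌈((n : ℝ) - 1) * α⌉ < 2 := by linarith
  have c2 : (-1 : ℝ) < ⌈(n : ℝ) * α⌉ - ⌈((n : ℝ) - 1) * α⌉ := by linarith
  have d1 : ⌈(n : ℝ) * α⌉ - ⌈((n : ℝ) - 1) * α⌉ < 2 := by exact_mod_cast c1
  have d2 : -1 < ⌈(n : ℝ) * α⌉ - ⌈((n : ℝ) - 1) * α⌉ := by exact_mod_cast c2
  unfold om1
  omega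

theorem rd_two_cube : (rd 2 (Blk 0)) ^ 3 = 1 := by
  unfold rd Blk
  decide

theorem rd_two_ne : ¬ (((rd 2 (Blk 0)) 0 0 - 2 * (rd 2 (Blk 0)) 1 0) * 2 +
    ((rd 2 (Blk 0)) 0 1 - 2 * (rd 2 (Blk 0)) 1 1) = 0) := by
  unfold rd Blk
  decide

theorem rd_two_Pr {α : ℝ} (h0 : 0 < α) (h1 : α < 1) (r : ℕ) : ∃ z : ℕ,
    rd 2 (Pr (om1 α) 0 r) = (rd 2 (Blk 0)) ^ z ∧ (z : ℤ) = r - ⌈((r : ℝ) - 1) * α⌉ := by
  induction r with
  | zero =>
    refine ⟨0, ?_, ?_⟩
    · rw [Pr, rd_one, pow_zero]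
    · have : (((0 : ℕ) : ℝ) - 1) * α = -α := by push_cast; ring
      rw [this, ceil_neg_self h0 h1]
      simp
  | succ r ih =>
    obtain ⟨z, hz1, hz2⟩ := ih
    have e : ⌈(((r + 1 : ℕ) : ℝ) - 1) * α⌉ = ⌈((r : ℝ) - 1) * α⌉ + om1 α r := by
      unfold om1
      push_cast
      rw [add_sub_cancel_right]
      ring
    rw [Pr, zero_add, rd_mul, hz1, e]
    rcases om1_mem h0 h1 r with h | h
    · rw [h]
      refine ⟨z + 1, (pow_succ _ _).symm, ?_⟩
      push_cast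
      rw [hz2]
      ring
    · rw [h]
      refine ⟨z, ?_, ?_⟩
      · have : rd 2 (Blk 1) = 1 := by
          unfold rd Blk
          decide
        rw [this, mul_one]
      · push_cast
        rw [hz2]
        ring

section
variable {n : ℕ} [NeZero n] {d : ℕ → ℤ} {St : ℕ → Matrix (Fin 2) (Fin 2) (ZMod n)}
  (hSt : ∀ k, St (k + 1) = St k * rd n (El (d k))) {α : ℝ}

theorem Wd.occ {f : ℤ → ℤ} (hf : Wd α f) (hocc : ∀ θ N, ∃ᶠ k in atTop, pat d (rot α θ) 0 N k)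
    (m : ℤ) (N : ℕ) : ∃ᶠ k in atTop, pat d f m N k := by
  obtain ⟨θ, hθ⟩ := hf m N
  refine (hocc θ N).mono fun k hk => ?_
  exact (pat_congr (fun i hi => by rw [hθ i hi, zero_add])).2 hk

include hSt

/-- windows which are prolonged to the right -/
theorem ES_right_eq {D N₁ : ℕ} (hD : ∀ (f : ℤ → ℤ) (m : ℤ) (N : ℕ)
    (θ : ℝ), N₁ ≤ N → (∀ i : ℕ, i < N → f (m + i) = rot α θ i) → (ES d St f m N).ncard = D)
    {f : ℤ → ℤ} (hf : Wd α f) (m : ℤ) {N : ℕ} (hN : N₁ ≤ N) (r : ℕ) :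
    ES d St f m (N + r) = (fun τ => τ * rd n (Pr f (m + N) r)) '' ES d St f m N := by
  refine Set.eq_of_subset_of_ncard_le (ES_right hSt f m N r) ?_ (Set.toFinite _)
  obtain ⟨θ, hθ⟩ := hf m (N + r)
  rw [hD f m (N + r) θ (by omega) hθ]
  refine (Set.ncard_image_le (Set.toFinite _)).trans ?_
  rw [hD f m N θ hN (fun i hi => hθ i (by omega))]

omit hSt in
/-- windows which are prolonged to the left -/
theorem ES_suffix_eq {D N₁ : ℕ} (hD : ∀ (f : ℤ → ℤ) (m : ℤ) (N : ℕ)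
    (θ : ℝ), N₁ ≤ N → (∀ i : ℕ, i < N → f (m + i) = rot α θ i) → (ES d St f m N).ncard = D)
    {f : ℤ → ℤ} (hf : Wd α f) (m : ℤ) {N : ℕ} (hN : N₁ ≤ N) (j : ℕ) :
    ES d St f m (j + N) = ES d St f (m + j) N := by
  refine Set.eq_of_subset_of_ncard_le (ES_suffix f m j N) ?_ (Set.toFinite _)
  obtain ⟨θ, hθ⟩ := hf m (j + N)
  obtain ⟨θ', hθ'⟩ := hf (m + j) N
  rw [hD f m (j + N) θ (by omega) hθ, hD f (m + j) N θ' hN hθ']

/-- returns act on the states -/
theorem ES_return {D N₁ : ℕ} (hD : ∀ (f : ℤ → ℤ) (m : ℤ) (N : ℕ)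
    (θ : ℝ), N₁ ≤ N → (∀ i : ℕ, i < N → f (m + i) = rot α θ i) → (ES d St f m N).ncard = D)
    {f : ℤ → ℤ} (hf : Wd α f) {N : ℕ} (hN : N₁ ≤ N) {q : ℕ}
    (hq : ∀ i : ℕ, 1 ≤ i → i ≤ N → f (q - i) = f (-i))
    {G : Matrix (Fin 2) (Fin 2) (ZMod n)} (hG : G ∈ ES d St f (-N) N) :
    G * rd n (Pr f 0 q) ∈ ES d St f (-N) N := by
  have e1 := ES_right_eq hSt hD hf (-N) hN q
  have e2 := ES_suffix_eq (d := d) (St := St) hD hf (-N) hN q
  rw [neg_add_cancel] at e1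
  rw [add_comm q N, e1] at e2
  have e3 : ES d St f (-N + q) N = ES d St f (-N) N := ES_congr (fun i hi => by
    have := hq (N - i) (by omega) (by omega)
    rw [show -(N : ℤ) + q + i = q - ((N - i : ℕ) : ℤ) by push_cast [Nat.cast_sub hi.le]; ring,
      this]
    congr 1
    push_cast [Nat.cast_sub hi.le]
    ring)
  rw [← e3, ← e2]
  exact ⟨G, hG, rfl⟩

/-- the states behind a long special window continue with both letters -/
theorem ES_both {D N₁ : ℕ} (hD : ∀ (f : ℤ → ℤ) (m : ℤ) (N : ℕ)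
    (θ : ℝ), N₁ ≤ N → (∀ i : ℕ, i < N → f (m + i) = rot α θ i) → (ES d St f m N).ncard = D)
    {f : ℤ → ℤ} (hf : Wd α f) (m : ℤ) {N : ℕ} (hN : N₁ ≤ N) (r : ℕ)
    {G : Matrix (Fin 2) (Fin 2) (ZMod n)} (hG : G ∈ ES d St f m N) :
    ∃ᶠ k in atTop, pat d f m (N + r) k ∧ St (k + 2 * N) = G := by
  have h1 : G * rd n (Pr f (m + N) r) ∈ ES d St f m (N + r) := by
    rw [ES_right_eq hSt hD hf m hN r]
    exact ⟨G, hG, rfl⟩
  refine Frequently.mono h1 ?_
  rintro k ⟨h2, h3⟩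
  refine ⟨h2, ?_⟩
  have h4 := St_run hSt (pat_suffix h2)
  rw [show k + 2 * N + 2 * r = k + 2 * (N + r) by ring, h3] at h4
  exact (mul_Pr_inj f (m + N) r h4).symm

end

/-- matrices over a field which kill `(2, 1)` -/
theorem ker_row {p : ℕ} [Fact p.Prime] {G R : Matrix (Fin 2) (Fin 2) (ZMod p)} (hG : G ≠ 0)
    (h1 : ∀ i, G i 0 * 2 + G i 1 = 0) (h2 : ∀ i, (G * R) i 0 * 2 + (G * R) i 1 = 0) :
    (R 0 0 - 2 * R 1 0) * 2 + (R 0 1 - 2 * R 1 1) = 0 := by
  have hex : ∃ i, G i 0 ≠ 0 := by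
    by_contra hcon
    push Not at hcon
    apply hG
    ext i j
    have h3 := hcon i
    have h4 := h1 i
    rw [h3, zero_mul, zero_add] at h4
    fin_cases j
    · exact h3
    · exact h4
  obtain ⟨i, hi⟩ := hex
  have h3 := h1 i
  have h4 := h2 i
  simp only [Matrix.mul_apply, Fin.sum_univ_two] at h4
  have h5 : G i 1 = -2 * G i 0 := by linear_combination h3
  rw [h5] at h4
  have h6 : G i 0 * ((R 0 0 - 2 * R 1 0) * 2 + (R 0 1 - 2 * R 1 1)) = 0 := by
    linear_combination h4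
  exact (mul_eq_zero.1 h6).resolve_left hi

/-- **contradiction modulo `p`** -/
theorem mod_contra {n p : ℕ} [NeZero n] [Fact p.Prime] (hpn : p ∣ n) {d : ℕ → ℤ}
    {St : ℕ → Matrix (Fin 2) (Fin 2) (ZMod n)}
    (hSt : ∀ k, St (k + 1) = St k * rd n (El (d k))) {α : ℝ} (hα : Irrational α) (h0 : 0 < α)
    (h1 : α < 1) (hocc : ∀ θ N, ∃ᶠ k in atTop, pat d (rot α θ) 0 N k)
    (hne : ∀ k, (St k).map (ZMod.castHom hpn (ZMod p)) ≠ 0)
    (hker : ∃ N₀ : ℕ, ∀ N, N₀ ≤ N → ∀ G : Matrix (Fin 2) (Fin 2) (ZMod n),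
      (∃ᶠ k in atTop, pat d (om1 α) (-N) (N + 2) k ∧ St (k + 2 * N) = G) →
      (∃ᶠ k in atTop, pat d (om2 α) (-N) (N + 2) k ∧ St (k + 2 * N) = G) →
      ∀ i, ZMod.castHom hpn (ZMod p) (G i 0) * 2 + ZMod.castHom hpn (ZMod p) (G i 1) = 0) :
    False := by
  obtain ⟨D, N₁, hD⟩ := ES_const (d := d) hSt hα
  obtain ⟨N₀, hN₀⟩ := hker
  set N := max N₀ N₁ with hN
  have hNN₀ : N₀ ≤ N := le_max_left _ _
  have hNN₁ : N₁ ≤ N := le_max_right _ _
  set χ := ZMod.castHom hpn (ZMod p) with hχ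
  have hw1 := wd_om1 hα
  have hw2 := wd_om2 α
  have hE : ES d St (om1 α) (-N) N = ES d St (om2 α) (-N) N := ES_congr (fun i hi =>
    om_eq hα (by omega) (by omega))
  obtain ⟨G, hG⟩ := ES_nonempty (St := St) (hw1.occ (d := d) hocc (-N) N)
  -- the kernel condition
  have hk : ∀ G ∈ ES d St (om1 α) (-N) N, ∀ i, χ (G i 0) * 2 + χ (G i 1) = 0 := by
    intro G hG
    have b1 := ES_both hSt hD hw1 (-N) hNN₁ 2 hG
    rw [hE] at hG
    exact hN₀ N hNN₀ G b1 (ES_both hSt hD hw2 (-N) hNN₁ 2 hG)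
  have hnz : ∀ G ∈ ES d St (om1 α) (-N) N, G.map χ ≠ 0 := by
    intro G hG
    obtain ⟨k, -, hk⟩ := Frequently.exists hG
    rw [← hk]
    exact hne _
  have hmap : ∀ (G : Matrix (Fin 2) (Fin 2) (ZMod n)) (P : Matrix (Fin 2) (Fin 2) ℤ),
      (G * rd n P).map χ = G.map χ * rd p P := by
    intro G P
    rw [Matrix.map_mul (f := χ)]
    congr 1
    unfold rd
    ext i j
    simp only [Matrix.map_apply]
    exact map_intCast χ _
  have hrow : ∀ P : Matrix (Fin 2) (Fin 2) ℤ, G * rd n P ∈ ES d St (om1 α) (-N) N →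
      ((rd p P) 0 0 - 2 * (rd p P) 1 0) * 2 + ((rd p P) 0 1 - 2 * (rd p P) 1 1) = 0 := by
    intro P hP
    refine ker_row (G := G.map χ) (hnz G hG) (hk G hG) ?_
    intro i
    rw [← hmap]
    exact hk _ hP i
  by_cases hp2 : p = 2
  · subst hp2
    obtain ⟨q, hq, hq1, z, hz⟩ := exists_return_three hα h0 h1 N
    have hr := hrow _ (ES_return hSt hD hw1 hNN₁ hq1 hG)
    obtain ⟨z', hz1, hz2⟩ := rd_two_Pr h0 h1 q
    rw [hz] at hz2
    have hz3 : z' = 3 * z.toNat + 1 := by omega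
    rw [hz1, hz3, pow_add, pow_mul, rd_two_cube, one_pow, one_mul, pow_one] at hr
    exact rd_two_ne hr
  · obtain ⟨q₀, q₁, hq₀, hq₁, r1, r2, r3, r4⟩ := exists_returns hα h0 h1 N
    set R₀ := Pr (om1 α) 0 q₀ with hR₀
    set R₁ := Pr (om2 α) 0 q₁ with hR₁
    have m0 := ES_return hSt hD hw1 hNN₁ r1 hG
    have m1 : G * rd n R₁ ∈ ES d St (om1 α) (-N) N := by
      rw [hE] at hG ⊢
      exact ES_return hSt hD hw2 hNN₁ r2 hG
    have k0 := hrow _ m0
    have k1 := hrow _ m1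
    -- the two products
    have p01 : Pr (om1 α) 0 (q₀ + q₁) = R₀ * R₁ := by
      rw [Pr_add, hR₁, Pr_congr (f := om1 α) (g := om2 α) (m := 0 + (q₀ : ℤ)) (m' := 0)]
      intro i hi
      rw [zero_add, zero_add]
      exact r3 i hi
    have p10 : Pr (om2 α) 0 (q₁ + q₀) = R₁ * R₀ := by
      rw [Pr_add, hR₀, Pr_congr (f := om2 α) (g := om1 α) (m := 0 + (q₁ : ℤ)) (m' := 0)]
      intro i hi
      rw [zero_add, zero_add]
      exact r4 i hi
    obtain ⟨s, hs⟩ : ∃ s, q₀ + q₁ = 2 + s := ⟨q₀ + q₁ - 2, by omega⟩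
    have t01 : Pr (om1 α) 0 (q₀ + q₁) = Blk 0 * Blk 1 * Pr (om2 α) 2 s := by
      rw [hs, Pr_add]
      congr 1
      · simp only [Pr, one_mul]
        norm_num
        rw [om1_zero h0 h1, om1_one h0 h1]
      · apply Pr_congr
        intro i hi
        push_cast
        try rw [zero_add]
        exact om_eq hα (by omega) (by omega)
    have t10 : Pr (om2 α) 0 (q₁ + q₀) = Blk 1 * Blk 0 * Pr (om2 α) 2 s := by
      rw [add_comm q₁ q₀, hs, Pr_add]
      congr 1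
      simp only [Pr, one_mul]
      norm_num
      rw [om2_zero h0 h1, om2_one h0 h1]
    set T := Pr (om2 α) 2 s with hT
    have hTdet := det_Pr (om2 α) 2 s
    rw [← hT] at hTdet
    have e01 : R₀ * R₁ * T.adjugate = Blk 0 * Blk 1 := by
      rw [← p01, t01, Matrix.mul_assoc, Matrix.mul_adjugate, hTdet, one_smul, Matrix.mul_one]
    have e10 : R₁ * R₀ * T.adjugate = Blk 1 * Blk 0 := by
      rw [← p10, t10, Matrix.mul_assoc, Matrix.mul_adjugate, hTdet, one_smul, Matrix.mul_one]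
    have f01 := congrArg (rd p) e01
    have f10 := congrArg (rd p) e10
    rw [rd_mul, rd_mul, rd_mul] at f01 f10
    set X := rd p R₀ with hX
    set Y := rd p R₁ with hY
    set Z := rd p T.adjugate with hZ
    have hB0 : rd p (Blk 0) = !![2, 1; 1, 1] := by
      unfold rd Blk
      ext i j
      fin_cases i <;> fin_cases j <;> simp
    have hB1 : rd p (Blk 1) = !![5, 2; 2, 1] := by
      unfold rd Blk
      ext i j
      fin_cases i <;> fin_cases j <;> simp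
    rw [hB0, hB1] at f01 f10
    -- the covector `(1, -2)`
    have c1 : ∀ j, (X * Y) 0 j - 2 * (X * Y) 1 j = (Y * X) 0 j - 2 * (Y * X) 1 j := by
      intro j
      simp only [Matrix.mul_apply, Fin.sum_univ_two]
      fin_cases j
      · simp only [Fin.mk_zero]
        linear_combination (Y 1 0) * k0 - (X 1 0) * k1
      · simp only [Fin.mk_one]
        linear_combination (Y 1 1 - (Y 0 0 - 2 * Y 1 0)) * k0 +
          ((X 0 0 - 2 * X 1 0) - X 1 1) * k1
    have c2 : ∀ j, (X * Y * Z) 0 j - 2 * (X * Y * Z) 1 j =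
        (Y * X * Z) 0 j - 2 * (Y * X * Z) 1 j := by
      intro j
      have a0 := c1 0
      have a1 := c1 1
      rw [Matrix.mul_apply (M := X * Y), Matrix.mul_apply (M := X * Y),
        Matrix.mul_apply (M := Y * X), Matrix.mul_apply (M := Y * X)]
      simp only [Fin.sum_univ_two]
      linear_combination (Z 0 j) * a0 + (Z 1 j) * a1
    have c3 := c2 1
    rw [f01, f10] at c3
    simp only [Matrix.mul_apply, Fin.sum_univ_two, Matrix.of_apply, Matrix.cons_val', Matrix.cons_val_zero,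
      Matrix.cons_val_one] at c3
    have c4 : (2 : ZMod p) = 0 := by linear_combination (-1 : ZMod p) * c3
    have c5 : ((2 : ℕ) : ZMod p) = 0 := by exact_mod_cast c4
    rw [ZMod.natCast_eq_zero_iff] at c5
    exact hp2 ((Nat.prime_dvd_prime_iff_eq (Fact.out) Nat.prime_two).1 c5)

end Pool.Agent.L3
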