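import Pool.Agent.Work.MP_5e120e_nt.Mod
import Pool.Agent.Work.MP_5e120e_nt.Lagr

/-! # Windows of a limit leaf occur infinitely often in the digits -/

namespace Pool.Agent.L3

open Filter Topology

theorem etaS_add (x : ℝ) (k i : ℕ) : etaS x (k + i) = etaS (etaS x k) i := by
  induction i with
  | zero => rfl
  | succ i ih =>
    show 1 / Int.fract (etaS x (k + i)) = 1 / Int.fract (etaS (etaS x k) i)
    rw [ih]

/-- the complete quotients and the digits depend continuously on an irrational number -/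
theorem etaS_lim {u : ℕ → ℝ} {ξ : ℝ} (hξ : Irrational ξ) (hu : Tendsto u atTop (𝓝 ξ)) (i : ℕ) :
    Tendsto (fun j => etaS (u j) i) atTop (𝓝 (etaS ξ i)) ∧
      ∀ᶠ j in atTop, ⌊etaS (u j) i⌋ = ⌊etaS ξ i⌋ := by
  have hfl : ∀ {v : ℕ → ℝ} {z : ℝ}, Irrational z → Tendsto v atTop (𝓝 z) →
      ∀ᶠ j in atTop, ⌊v j⌋ = ⌊z⌋ := by
    intro v z hz hv
    have h1 : (⌊z⌋ : ℝ) < z := by
      have := fract_pos_of_irr hz
      have := Int.self_sub_floor z
      linarith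
    have h2 : z < ⌊z⌋ + 1 := Int.lt_floor_add_one z
    filter_upwards [hv.eventually (Ioo_mem_nhds h1 h2)] with j hj
    rw [Int.floor_eq_iff]
    exact ⟨hj.1.le, hj.2⟩
  induction i with
  | zero => exact ⟨hu, hfl hξ hu⟩
  | succ i ih =>
    have h1 : Tendsto (fun j => etaS (u j) (i + 1)) atTop (𝓝 (etaS ξ (i + 1))) := by
      have h2 : Tendsto (fun j => 1 / (etaS (u j) i - ⌊etaS ξ i⌋)) atTop
          (𝓝 (1 / (etaS ξ i - ⌊etaS ξ i⌋))) := by
        apply Tendsto.div tendsto_const_nhds (ih.1.sub tendsto_const_nhds)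
        rw [Int.self_sub_floor]
        exact (fract_pos_of_irr (etaS_irr hξ i)).ne'
      have h3 : etaS ξ (i + 1) = 1 / (etaS ξ i - ⌊etaS ξ i⌋) := by
        rw [Int.self_sub_floor]
        rfl
      rw [h3]
      refine h2.congr' ?_
      filter_upwards [ih.2] with j hj
      rw [← hj, Int.self_sub_floor]
      rfl
    exact ⟨h1, hfl (etaS_irr hξ (i + 1)) h1⟩

section
variable {xx yy : ℤ → ℝ} {a : ℤ → ℤ}

theorem Ch.floor (h : Ch xx yy a) (k : ℤ) : a k = ⌊xx k⌋ := by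
  symm
  rw [Int.floor_eq_iff]
  have h1 := h.hx k
  have h2 := h.inv_x (k + 1)
  constructor <;> linarith

/-- the right half of a chain -/
theorem Ch.etaS_eq (h : Ch xx yy a) (i : ℕ) : xx i = etaS (xx 0) i := by
  induction i with
  | zero => simp [etaS]
  | succ i ih =>
    show xx ((i + 1 : ℕ) : ℤ) = 1 / Int.fract (etaS (xx 0) i)
    rw [← ih, ← Int.self_sub_floor, ← h.floor]
    have h1 := h.hx i
    push_cast
    rw [h1, add_sub_cancel_left, one_div_one_div]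

/-- **occurrences** -/
theorem occ_of_limit {x : ℝ} {φ : ℕ → ℕ} (hφ : Tendsto φ atTop atTop)
    (hirr0 : Irrational (xx 0))
    (hlim : Tendsto (fun j => etaS x (φ j + 1)) atTop (𝓝 (xx 0))) (h : Ch xx yy a)
    (hl : ∀ k, xx k + 1 / yy k ≤ 3) {k₀ : ℤ} (hk₀ : a (k₀ - 1) ≠ a k₀) {S : ℤ → ℤ}
    (hS : IsH S (wd a k₀)) {α : ℝ} (hα : Slope S α) (hirr : Irrational α) (θ' : ℝ) (N : ℕ) :
    ∃ᶠ k in atTop, pat (fun k => ⌊etaS x (k + 1)⌋) (rot α θ') 0 N k := by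
  obtain ⟨θ, n₀, hrot⟩ := rot_of_slope hS hα hirr
  obtain ⟨M, hM⟩ := rot_rec hirr θ' N
  set n₁ : ℤ := max n₀ (k₀.natAbs : ℤ) with hn₁
  obtain ⟨j, -, hj⟩ := hM (θ + n₁ * α)
  have hw : ∀ i : ℕ, i < N → wd a k₀ (n₁ + j + i) = rot α θ' i := by
    intro i hi
    rw [hrot _ (by omega), ← hj i hi, ← rot_shift]
    congr 1
    ring
  obtain ⟨m, hm⟩ : ∃ m : ℕ, (m : ℤ) = k₀ + 2 * (n₁ + j) :=
    ⟨(k₀ + 2 * (n₁ + j)).toNat, by omega⟩
  have hdig : ∀ i : ℕ, i < N → a ((m + 2 * i : ℕ) : ℤ) = 1 + rot α θ' i ∧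
      a ((m + 2 * i + 1 : ℕ) : ℤ) = 1 + rot α θ' i := by
    intro i hi
    have h1 := hw i hi
    have h2 := h.align hl hk₀ (n₁ + j + i)
    unfold wd at h1
    push_cast
    rw [hm]
    rw [show k₀ + 2 * (n₁ + j) + 2 * (i : ℤ) = k₀ + 2 * (n₁ + j + i) by ring]
    constructor
    · omega
    · rw [h2]
      omega
  have hev : ∀ i : ℕ, ∀ᶠ l in atTop, ⌊etaS x (φ l + 1 + i)⌋ = a i := by
    intro i
    have h1 := (etaS_lim hirr0 hlim i).2
    filter_upwards [h1] with l hl'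
    rw [etaS_add, hl', ← h.etaS_eq, ← h.floor]
  have hall : ∀ᶠ l in atTop, ∀ i ∈ Finset.range (m + 2 * N), ⌊etaS x (φ l + 1 + i)⌋ = a i :=
    (Finset.eventually_all _).2 fun i _ => hev i
  rw [frequently_atTop]
  intro b
  obtain ⟨l, h1, h2⟩ := (hall.and (hφ.eventually_ge_atTop b)).exists
  refine ⟨φ l + m, by omega, fun i hi => ?_⟩
  have e1 := h1 (m + 2 * i) (Finset.mem_range.2 (by omega))
  have e2 := h1 (m + 2 * i + 1) (Finset.mem_range.2 (by omega))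
  obtain ⟨d1, d2⟩ := hdig i hi
  rw [zero_add]
  constructor
  · show ⌊etaS x (φ l + m + 2 * i + 1)⌋ = _
    rw [show φ l + m + 2 * i + 1 = φ l + 1 + (m + 2 * i) by ring, e1, d1]
  · show ⌊etaS x (φ l + m + 2 * i + 1 + 1)⌋ = _
    rw [show φ l + m + 2 * i + 1 + 1 = φ l + 1 + (m + 2 * i + 1) by ring, e2, d2]

end

end Pool.Agent.L3
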