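import Pool.Agent.Work.MP_5e120e_nt.Pairs

/-! # Reduction: arbitrary real numbers -/

namespace Pool.Agent.L3

/-- the form with roots `ξ`, `η` and discriminant `1` -/
noncomputable def Fm (ξ η : ℝ) (w : ℤ × ℤ) : ℝ :=
  ((w.1 : ℝ) - ξ * w.2) * (w.1 - η * w.2) / (ξ - η)

/-- the action of an integral matrix on integral vectors -/
def act (A B C D : ℤ) (w : ℤ × ℤ) : ℤ × ℤ := (A * w.1 + B * w.2, C * w.1 + D * w.2)

/-- `z` is the image of `z'` under the integral matrix -/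
def Rel (A B C D : ℤ) (z z' : ℝ) : Prop := (C : ℝ) * z' + D ≠ 0 ∧ z * (C * z' + D) = A * z' + B

theorem Fm_act {A B C D : ℤ} {ξ ξ' η η' : ℝ} (h1 : Rel A B C D ξ ξ') (h2 : Rel A B C D η η')
    (hne : ξ' ≠ η') (hne' : ξ ≠ η) (w : ℤ × ℤ) :
    Fm ξ η (act A B C D w) = ((A * D - B * C : ℤ) : ℝ) * Fm ξ' η' w := by
  obtain ⟨n1, e1⟩ := h1
  obtain ⟨n2, e2⟩ := h2
  have f1 : ξ - η ≠ 0 := sub_ne_zero.2 hne'
  have f2 : ξ' - η' ≠ 0 := sub_ne_zero.2 hne
  unfold Fm act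
  push_cast
  rw [div_eq_iff f1, mul_div_assoc', div_mul_eq_mul_div, eq_div_iff f2]
  have g1 : ((A : ℝ) * w.1 + B * w.2 - ξ * (C * w.1 + D * w.2)) * (C * ξ' + D) =
      (A * D - B * C) * (w.1 - ξ' * w.2) := by
    linear_combination (-((C : ℝ) * w.1 + D * w.2)) * e1
  have g2 : ((A : ℝ) * w.1 + B * w.2 - η * (C * w.1 + D * w.2)) * (C * η' + D) =
      (A * D - B * C) * (w.1 - η' * w.2) := by
    linear_combination (-((C : ℝ) * w.1 + D * w.2)) * e2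
  have g3 : (ξ - η) * ((C * ξ' + D) * (C * η' + D)) = (A * D - B * C) * (ξ' - η') := by
    linear_combination (C * η' + D) * e1 - (C * ξ' + D) * e2
  have n3 : ((C : ℝ) * ξ' + D) * (C * η' + D) ≠ 0 := mul_ne_zero n1 n2
  apply mul_right_cancel₀ n3
  have : ((A : ℝ) * w.1 + B * w.2 - ξ * (C * w.1 + D * w.2)) *
      (A * w.1 + B * w.2 - η * (C * w.1 + D * w.2)) * (ξ' - η') *
      ((C * ξ' + D) * (C * η' + D)) =
      (((A : ℝ) * w.1 + B * w.2 - ξ * (C * w.1 + D * w.2)) * (C * ξ' + D)) *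
      ((A * w.1 + B * w.2 - η * (C * w.1 + D * w.2)) * (C * η' + D)) * (ξ' - η') := by ring
  rw [this, g1, g2]
  linear_combination (-((A : ℝ) * D - B * C) * ((w.1 - ξ' * w.2) * (w.1 - η' * w.2))) * g3

theorem dt_act (A B C D : ℤ) (v w : ℤ × ℤ) :
    dt (act A B C D v) (act A B C D w) = (A * D - B * C) * dt v w := by
  unfold dt act
  ring

theorem act_ne {A B C D : ℤ} (hd : A * D - B * C ≠ 0) {w : ℤ × ℤ} (hw : w ≠ 0) :
    act A B C D w ≠ 0 := by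
  intro h0
  apply hw
  have h1 : A * w.1 + B * w.2 = 0 := congrArg Prod.fst h0
  have h2 : C * w.1 + D * w.2 = 0 := congrArg Prod.snd h0
  have h3 : (A * D - B * C) * w.1 = 0 := by linear_combination D * h1 - B * h2
  have h4 : (A * D - B * C) * w.2 = 0 := by linear_combination A * h2 - C * h1
  have h5 : w.1 = 0 := (mul_eq_zero.1 h3).resolve_left hd
  have h6 : w.2 = 0 := (mul_eq_zero.1 h4).resolve_left hd
  exact Prod.ext h5 h6

theorem irr_iff_no_root {z : ℝ} (h : ∀ p q : ℤ, q ≠ 0 → (p : ℝ) - z * q ≠ 0) : Irrational z := by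
  rintro ⟨r, hr⟩
  apply h r.num r.den (by exact_mod_cast r.den_pos.ne')
  rw [← hr]
  have h1 : (r : ℝ) * r.den = r.num := by exact_mod_cast Rat.mul_den_eq_num r
  push_cast
  linarith

theorem no_root_of_irr {z : ℝ} (h : Irrational z) {p q : ℤ} (hpq : ¬ (p = 0 ∧ q = 0)) :
    (p : ℝ) - z * q ≠ 0 := by
  intro h0
  by_cases hq : q = 0
  · rw [hq] at h0
    simp at h0
    exact hpq ⟨h0, hq⟩
  · apply h
    refine ⟨(p : ℚ) / q, ?_⟩
    have hq' : (q : ℝ) ≠ 0 := by exact_mod_cast hq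
    push_cast
    field_simp
    linarith

theorem Rel_ne {A B C D : ℤ} (_ : A * D - B * C ≠ 0) {z z' w w' : ℝ}
    (h1 : Rel A B C D z z') (h2 : Rel A B C D w w') (h : z ≠ w) : z' ≠ w' := by
  intro he
  subst he
  apply h
  have h3 := h1.2
  rw [← h2.2] at h3
  exact mul_right_cancel₀ h1.1 h3

theorem Rel_ne' {A B C D : ℤ} (hd : A * D - B * C ≠ 0) {z z' w w' : ℝ}
    (h1 : Rel A B C D z z') (h2 : Rel A B C D w w') (h : z' ≠ w') : z ≠ w := by
  intro he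
  subst he
  apply h
  have e1 := h1.2
  have e2 := h2.2
  have hd' : (A : ℝ) * D - B * C ≠ 0 := by exact_mod_cast hd
  have h3 : ((A : ℝ) * D - B * C) * z' = ((A : ℝ) * D - B * C) * w' := by
    linear_combination (C * z' + D) * e2 - (C * w' + D) * e1
  exact mul_left_cancel₀ hd' h3

theorem Rel_irr {A B C D : ℤ} (hd : A * D - B * C ≠ 0) {z z' : ℝ} (h : Rel A B C D z z')
    (hz : Irrational z) : Irrational z' := by
  apply irr_iff_no_root
  intro p q hq h0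
  have hd' : (A : ℝ) * D - B * C ≠ 0 := by exact_mod_cast hd
  have h1 : ((A * p + B * q : ℤ) : ℝ) - z * ((C * p + D * q : ℤ) : ℝ) = 0 := by
    have h2 : (((A * p + B * q : ℤ) : ℝ) - z * ((C * p + D * q : ℤ) : ℝ)) * (C * z' + D) = 0 := by
      push_cast
      linear_combination (-((C : ℝ) * p + D * q)) * h.2 + ((A : ℝ) * D - B * C) * h0
    exact (mul_eq_zero.1 h2).resolve_right h.1
  refine no_root_of_irr hz ?_ h1
  rintro ⟨e1, e2⟩
  have h3 : (A * D - B * C) * q = 0 := by linear_combination A * e2 - C * e1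
  exact hq ((mul_eq_zero.1 h3).resolve_left hd)

theorem Rel_per {A B C D : ℤ} (hd : A * D - B * C ≠ 0) {ξ ξ' η η' : ℝ}
    (h1 : Rel A B C D ξ ξ') (h2 : Rel A B C D η η') (hirr : Irrational ξ) (hp : Per ξ' η') :
    Per ξ η := by
  obtain ⟨c', b', a', ha', e1, e2⟩ := hp
  have hd' : (A : ℝ) * D - B * C ≠ 0 := by exact_mod_cast hd
  set na : ℤ := a' * D ^ 2 - b' * D * C + c' * C ^ 2 with hna
  set nb : ℤ := -2 * a' * B * D + b' * (A * D + B * C) - 2 * c' * A * C with hnb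
  set nc : ℤ := a' * B ^ 2 - b' * A * B + c' * A ^ 2 with hnc
  have key : ∀ {z z' : ℝ}, Rel A B C D z z' → (a' : ℝ) * z' ^ 2 + b' * z' + c' = 0 →
      (na : ℝ) * z ^ 2 + nb * z + nc = 0 := by
    intro z z' hr hz
    have h3 := hr.2
    have h4 : ((na : ℝ) * z ^ 2 + nb * z + nc) * (C * z' + D) ^ 2 = 0 := by
      have h5 : ((na : ℝ) * z ^ 2 + nb * z + nc) * (C * z' + D) ^ 2 =
          na * (z * (C * z' + D)) ^ 2 + nb * (z * (C * z' + D)) * (C * z' + D) +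
            nc * (C * z' + D) ^ 2 := by ring
      rw [h5, h3, hna, hnb, hnc]
      push_cast
      linear_combination ((A : ℝ) * D - B * C) ^ 2 * hz
    exact (mul_eq_zero.1 h4).resolve_right (pow_ne_zero 2 hr.1)
  have k1 := key h1 e1
  have k2 := key h2 e2
  have hinv : (A * D - B * C) ^ 2 * a' = na * A ^ 2 + nb * A * C + nc * C ^ 2 := by
    rw [hna, hnb, hnc]; ring
  refine ⟨nc, nb, na, ?_, k1, k2⟩
  intro h0
  rw [h0] at k1
  have hb0 : nb = 0 ∧ nc = 0 := by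
    by_contra hc
    have := no_root_of_irr hirr (p := nc) (q := -nb) (by
      rintro ⟨r1, r2⟩
      exact hc ⟨by omega, r1⟩)
    apply this
    push_cast at k1 ⊢
    linarith
  rw [h0, hb0.1, hb0.2] at hinv
  simp only [zero_mul, add_zero] at hinv
  rcases mul_eq_zero.1 hinv with h5 | h5
  · exact hd (pow_eq_zero_iff (two_ne_zero) |>.1 h5)
  · exact ha' h5

/-- the conclusion of Theorem M -/
def Concl (ξ₁ ξ₂ η : ℝ) : Prop :=
  (∃ v : ℤ × ℤ, |Fm ξ₁ η v| = 1 / 3 ∧ Fm ξ₂ η v = -Fm ξ₁ η v) ∨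
    ∃ v w : ℤ × ℤ, dt v w ≠ 0 ∧ |Fm ξ₁ η v| = 1 / 3 ∧ |Fm ξ₁ η w| = 1 / 3

theorem Qf_eq {x y : ℝ} (hx : 1 < x) (hy : 1 < y) (w : ℤ × ℤ) : Qf x y w = Fm x (-1 / y) w := by
  unfold Qf Fm
  have h0 : y ≠ 0 := by linarith
  have h1 : x * y + 1 ≠ 0 := by positivity
  have h2 : x - -1 / y ≠ 0 := by
    have : 0 < 1 / y := by positivity
    have e : -1 / y = -(1 / y) := by ring
    rw [e]
    linarith
  rw [div_eq_div_iff h1 h2]
  field_simp
  ring

/-- Theorem M for reduced triples -/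
theorem concl_red {ξ₁ ξ₂ η : ℝ} (h1 : 1 < ξ₁) (h2 : 1 < ξ₂) (h3 : -1 < η) (h4 : η < 0)
    (i1 : Irrational ξ₁) (i2 : Irrational ξ₂) (i3 : Irrational η) (hne : ξ₁ ≠ ξ₂)
    (hQ1 : ∀ w : ℤ × ℤ, w ≠ 0 → 1 / 3 ≤ |Fm ξ₁ η w|)
    (hQ2 : ∀ w : ℤ × ℤ, w ≠ 0 → 1 / 3 ≤ |Fm ξ₂ η w|) (hnp : ¬ Per ξ₁ η) : Concl ξ₁ ξ₂ η := by
  set y₀ : ℝ := -1 / η with hy₀
  have hy1 : 1 < y₀ := by
    rw [hy₀, lt_div_iff_of_neg h4]
    linarith
  have hyi : Irrational y₀ := by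
    have : y₀ = -(η⁻¹) := by rw [hy₀]; ring
    rw [this]
    exact ((irrational_inv_iff).2 i3).neg
  have hη : -1 / y₀ = η := by
    rw [hy₀]
    have : η ≠ 0 := h4.ne
    field_simp
  obtain ⟨x, y, a, h, hx0, hy0⟩ := exists_chain h1 i1 hy1 hyi
  obtain ⟨x', y', a', h', hx0', hy0'⟩ := exists_chain h2 i2 hy1 hyi
  have hle : ∀ {x y : ℤ → ℝ} {a : ℤ → ℤ}, Ch x y a →
      (∀ w : ℤ × ℤ, w ≠ 0 → 1 / 3 ≤ |Qf (x 0) (y 0) w|) → ∀ k, x k + 1 / y k ≤ 3 := by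
    intro x y a h hQ k
    obtain ⟨e, hf⟩ := exists_frames a
    have h5 := h.Qe hf k
    have h6 : e k ≠ 0 := by
      intro h0
      rcases hf.det_abs k with h7 | h7 <;> rw [h0] at h7 <;> simp [dt] at h7
    have h7 := hQ _ h6
    have h8 : |Qf (x 0) (y 0) (e k)| * |x k + 1 / y k| = 1 := by
      rw [← abs_mul, h5]
      rcases hf.det_abs k with h9 | h9 <;> rw [h9] <;> norm_num
    have h9 : 0 < x k + 1 / y k := by
      have := h.hx1 k
      have := (h.inv_y k).1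
      linarith
    rw [abs_of_pos h9] at h8
    nlinarith
  have hl := hle h (fun w hw => by
    rw [hx0, hy0, Qf_eq h1 hy1, hη]
    exact hQ1 w hw)
  have hl' := hle h' (fun w hw => by
    rw [hx0', hy0', Qf_eq h2 hy1, hη]
    exact hQ2 w hw)
  have hmain := pair_red h hl h' hl' (by rw [hy0, hy0']) (by rw [hx0, hx0']; exact hne)
    (by rw [hx0, hy0, hη]; exact hnp)
  rw [hx0, hy0, hx0'] at hmain
  rw [hy0'] at hmain
  simp only [Qf_eq h1 hy1, Qf_eq h2 hy1, hη] at hmain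
  exact hmain

/-- the iteration -/
noncomputable def etaS (η : ℝ) : ℕ → ℝ
  | 0 => η
  | (k + 1) => 1 / Int.fract (etaS η k)

noncomputable def zS (η ξ : ℝ) : ℕ → ℝ
  | 0 => ξ
  | (k + 1) => 1 / (zS η ξ k - ⌊etaS η k⌋)

theorem etaS_irr {η : ℝ} (h : Irrational η) (k : ℕ) : Irrational (etaS η k) := by
  induction k with
  | zero => exact h
  | succ k ih =>
    show Irrational (1 / Int.fract (etaS η k))
    rw [one_div]
    exact (irrational_inv_iff).2 (fract_irr ih)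

theorem zS_irr {η ξ : ℝ} (h : Irrational ξ) (k : ℕ) : Irrational (zS η ξ k) := by
  induction k with
  | zero => exact h
  | succ k ih =>
    show Irrational (1 / (zS η ξ k - ⌊etaS η k⌋))
    rw [one_div]
    exact (irrational_inv_iff).2 (ih.sub_intCast _)

theorem etaS_gt {η : ℝ} (h : Irrational η) (k : ℕ) : 1 < etaS η (k + 1) := by
  show 1 < 1 / Int.fract (etaS η k)
  rw [lt_div_iff₀ (fract_pos_of_irr (etaS_irr h k))]
  linarith [Int.fract_lt_one (etaS η k)]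

theorem etaS_eq {η : ℝ} (h : Irrational η) (k : ℕ) :
    etaS η k = ⌊etaS η k⌋ + 1 / etaS η (k + 1) := by
  show etaS η k = ⌊etaS η k⌋ + 1 / (1 / Int.fract (etaS η k))
  rw [one_div_one_div, Int.floor_add_fract]

theorem zS_eq {η ξ : ℝ} (k : ℕ) :
    zS η ξ k = ⌊etaS η k⌋ + 1 / zS η ξ (k + 1) := by
  show zS η ξ k = ⌊etaS η k⌋ + 1 / (1 / (zS η ξ k - ⌊etaS η k⌋))
  rw [one_div_one_div]
  ring

/-- the iterates of the other root eventually lie in `(-1, 0)` -/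
theorem enter {η ξ : ℝ} (hη : Irrational η) (hξ : Irrational ξ) (hne : ξ ≠ η) :
    ∃ K : ℕ, ∀ k, K ≤ k → -1 < zS η ξ k ∧ zS η ξ k < 0 := by
  have hfl : ∀ k, (1 : ℝ) ≤ (⌊etaS η (k + 1)⌋ : ℝ) := by
    intro k
    have h1 : (1 : ℤ) ≤ ⌊etaS η (k + 1)⌋ := Int.le_floor.2 (by simpa using (etaS_gt hη k).le)
    exact_mod_cast h1
  have hne0 : ∀ k, zS η ξ k ≠ 0 := fun k => (zS_irr hξ k).ne_zero
  -- from a negative value
  have hneg : ∀ k, zS η ξ (k + 1) < 0 → -1 < zS η ξ (k + 2) ∧ zS η ξ (k + 2) < 0 := by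
    intro k hk
    have h1 := hfl k
    have h2 : zS η ξ (k + 1) - ⌊etaS η (k + 1)⌋ < -1 := by linarith
    have h3 : zS η ξ (k + 2) = 1 / (zS η ξ (k + 1) - ⌊etaS η (k + 1)⌋) := rfl
    rw [h3]
    constructor
    · rw [lt_div_iff_of_neg (by linarith)]
      linarith
    · exact div_neg_of_pos_of_neg one_pos (by linarith)
  have hstay : ∀ k, zS η ξ (k + 1) < 0 → ∀ j, zS η ξ (k + 1 + j) < 0 := by
    intro k hk j
    induction j with
    | zero => exact hk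
    | succ j ih => exact (hneg (k + j) (by rw [show k + j + 1 = k + 1 + j by ring]; exact ih)).2 |>
        fun h => by rw [show k + 1 + (j + 1) = k + j + 2 by ring]; exact h
  by_cases hA : ∃ k, zS η ξ (k + 1) < 0
  · obtain ⟨k, hk⟩ := hA
    refine ⟨k + 2, fun j hj => ?_⟩
    obtain ⟨i, rfl⟩ : ∃ i, j = k + i + 2 := ⟨j - (k + 2), by omega⟩
    refine hneg (k + i) ?_
    rw [show k + i + 1 = k + 1 + i by ring]
    exact hstay k hk i
  · exfalso
    push Not at hA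
    have hpos : ∀ k, 0 < zS η ξ (k + 1) := fun k => lt_of_le_of_ne (hA k) (hne0 (k + 1)).symm
    have hgt : ∀ k, 1 < zS η ξ (k + 1) := by
      intro k
      by_contra hc
      push Not at hc
      have h1 := hfl k
      have h2 : zS η ξ (k + 1) ≠ 1 := (zS_irr hξ (k + 1)).ne_one
      have h3 : zS η ξ (k + 1) < 1 := lt_of_le_of_ne hc h2
      have h4 : zS η ξ (k + 2) = 1 / (zS η ξ (k + 1) - ⌊etaS η (k + 1)⌋) := rfl
      have h5 : zS η ξ (k + 2) < 0 := by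
        rw [h4]
        exact div_neg_of_pos_of_neg one_pos (by linarith)
      exact absurd (hpos (k + 1)) (not_lt.2 h5.le)
    have h1 := cf_eq (X := fun k => zS η ξ (k + 1)) (Y := fun k => etaS η (k + 1))
      (c := fun k => ⌊etaS η (k + 1)⌋) (d := fun k => ⌊etaS η (k + 1)⌋) hgt (etaS_gt hη)
      (fun n => zS_eq (n + 1)) (fun n => etaS_eq hη (n + 1)) (fun _ => rfl)
    simp only [zero_add] at h1
    have h2 := zS_eq (η := η) (ξ := ξ) 0
    have h3 := etaS_eq hη 0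
    rw [zero_add, h1] at h2
    rw [zero_add] at h3
    apply hne
    have h4 : zS η ξ 0 = etaS η 0 := by rw [h2]; exact h3.symm
    exact h4

/-- the iterates are unimodular images -/
theorem rel_iter {η : ℝ} (hη : Irrational η) (k : ℕ) : ∃ A B C D : ℤ, |A * D - B * C| = 1 ∧
    Rel A B C D η (etaS η k) ∧ ∀ ξ, Irrational ξ → Rel A B C D ξ (zS η ξ k) := by
  induction k with
  | zero =>
    refine ⟨1, 0, 0, 1, by simp, ⟨by simp, ?_⟩, fun ξ hξ => ⟨by simp, ?_⟩⟩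
    · show η * _ = _ * η + _
      push_cast
      ring
    · show ξ * _ = _ * ξ + _
      push_cast
      ring
  | succ k ih =>
    obtain ⟨A, B, C, D, hd, h1, h2⟩ := ih
    have step : ∀ {z z' z'' : ℝ} {c : ℤ}, Rel A B C D z z' → z' = c + 1 / z'' → z'' ≠ 0 →
        Rel (A * c + B) A (C * c + D) C z z'' := by
      intro z z' z'' c hr hz h0
      have e1 : z' * z'' = c * z'' + 1 := by
        rw [hz]
        field_simp
      have e2 : (((C * c + D : ℤ) : ℝ)) * z'' + C = z'' * (C * z' + D) := by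
        push_cast
        linear_combination (-(C : ℝ)) * e1
      refine ⟨?_, ?_⟩
      · rw [e2]
        exact mul_ne_zero h0 hr.1
      · rw [e2]
        push_cast
        linear_combination z'' * hr.2 + (A : ℝ) * e1
    refine ⟨A * ⌊etaS η k⌋ + B, A, C * ⌊etaS η k⌋ + D, C, ?_, ?_, ?_⟩
    · have : (A * ⌊etaS η k⌋ + B) * C - A * (C * ⌊etaS η k⌋ + D) = -(A * D - B * C) := by ring
      rw [this, abs_neg]
      exact hd
    · exact step h1 (etaS_eq hη k) (etaS_irr hη (k + 1)).ne_zero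
    · intro ξ hξ
      exact step (h2 ξ hξ) (zS_eq k) (zS_irr hξ (k + 1)).ne_zero

/-- **reduction** -/
theorem reduce {ξ₁ ξ₂ η : ℝ} (i1 : Irrational ξ₁) (i2 : Irrational ξ₂) (i3 : Irrational η)
    (h1 : ξ₁ ≠ η) (h2 : ξ₂ ≠ η) : ∃ (A B C D : ℤ) (ξ₁' ξ₂' η' : ℝ), |A * D - B * C| = 1 ∧
      Rel A B C D ξ₁ ξ₁' ∧ Rel A B C D ξ₂ ξ₂' ∧ Rel A B C D η η' ∧ 1 < ξ₁' ∧ 1 < ξ₂' ∧
      -1 < η' ∧ η' < 0 := by
  obtain ⟨K₁, hK₁⟩ := enter i3 i1 h1
  obtain ⟨K₂, hK₂⟩ := enter i3 i2 h2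
  set k := max K₁ K₂ + 1 with hk
  obtain ⟨A, B, C, D, hd, r1, r2⟩ := rel_iter i3 k
  have b1 := hK₁ k (by rw [hk]; exact (le_max_left _ _).trans (Nat.le_succ _))
  have b2 := hK₂ k (by rw [hk]; exact (le_max_right _ _).trans (Nat.le_succ _))
  have b3 := etaS_gt i3 (max K₁ K₂)
  rw [← hk] at b3
  have step : ∀ {z z' : ℝ}, Rel A B C D z z' → z' ≠ 0 → Rel B (-A) D (-C) z (-1 / z') := by
    intro z z' hr h0
    have e1 : z' * (-1 / z') = -1 := by field_simp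
    have e2 : (D : ℝ) * (-1 / z') + ((-C : ℤ) : ℝ) = (-1 / z') * (C * z' + D) := by
      push_cast
      linear_combination (-(C : ℝ)) * e1
    refine ⟨?_, ?_⟩
    · rw [e2]
      exact mul_ne_zero (div_ne_zero (by norm_num) h0) hr.1
    · rw [e2]
      push_cast
      linear_combination (-1 / z') * hr.2 + (A : ℝ) * e1
  refine ⟨B, -A, D, -C, -1 / zS η ξ₁ k, -1 / zS η ξ₂ k, -1 / etaS η k, ?_,
    step (r2 ξ₁ i1) (zS_irr i1 k).ne_zero, step (r2 ξ₂ i2) (zS_irr i2 k).ne_zero,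
    step r1 (etaS_irr i3 k).ne_zero, ?_, ?_, ?_, ?_⟩
  · have : B * -C - -A * D = A * D - B * C := by ring
    rw [this]
    exact hd
  · rw [lt_div_iff_of_neg b1.2]
    linarith [b1.1]
  · rw [lt_div_iff_of_neg b2.2]
    linarith [b2.1]
  · rw [lt_div_iff₀ (by linarith)]
    linarith
  · exact div_neg_of_neg_of_pos (by norm_num) (by linarith)

/-- **Theorem M** -/
theorem concl_gen {ξ₁ ξ₂ η : ℝ} (i1 : Irrational ξ₁) (i2 : Irrational ξ₂) (i3 : Irrational η)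
    (h1 : ξ₁ ≠ η) (h2 : ξ₂ ≠ η) (hne : ξ₁ ≠ ξ₂)
    (hQ1 : ∀ w : ℤ × ℤ, w ≠ 0 → 1 / 3 ≤ |Fm ξ₁ η w|)
    (hQ2 : ∀ w : ℤ × ℤ, w ≠ 0 → 1 / 3 ≤ |Fm ξ₂ η w|) (hnp : ¬ Per ξ₁ η) : Concl ξ₁ ξ₂ η := by
  obtain ⟨A, B, C, D, ξ₁', ξ₂', η', hd, r1, r2, r3, b1, b2, b3, b4⟩ := reduce i1 i2 i3 h1 h2
  have hd0 : A * D - B * C ≠ 0 := by
    intro h0
    rw [h0] at hd
    simp at hd
  have hd' : |((A * D - B * C : ℤ) : ℝ)| = 1 := by
    rw [← Int.cast_abs, hd]
    simp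
  have n1 := Rel_ne hd0 r1 r3 h1
  have n2 := Rel_ne hd0 r2 r3 h2
  have n3 := Rel_ne hd0 r1 r2 hne
  have F1 := Fm_act r1 r3 n1 h1
  have F2 := Fm_act r2 r3 n2 h2
  have hc := concl_red b1 b2 b3 b4 (Rel_irr hd0 r1 i1) (Rel_irr hd0 r2 i2) (Rel_irr hd0 r3 i3) n3
    (fun w hw => by
      have := hQ1 _ (act_ne hd0 hw)
      rw [F1 w, abs_mul, hd', one_mul] at this
      exact this)
    (fun w hw => by
      have := hQ2 _ (act_ne hd0 hw)
      rw [F2 w, abs_mul, hd', one_mul] at this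
      exact this)
    (fun hp => hnp (Rel_per hd0 r1 r3 i1 hp))
  rcases hc with ⟨v, v1, v2⟩ | ⟨v, w, v0, v1, v2⟩
  · left
    refine ⟨act A B C D v, ?_, ?_⟩
    · rw [F1 v, abs_mul, hd', one_mul, v1]
    · rw [F1 v, F2 v, v2]
      ring
  · right
    refine ⟨act A B C D v, act A B C D w, ?_, ?_, ?_⟩
    · rw [dt_act]
      exact mul_ne_zero hd0 v0
    · rw [F1 v, abs_mul, hd', one_mul, v1]
    · rw [F1 w, abs_mul, hd', one_mul, v2]

end Pool.Agent.L3
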