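import Pool.Agent.Work.MP_5e120e_nt.Rot

/-! # The two special words and their return words -/

namespace Pool.Agent.L3

/-- the special word with letters `0 1` at the places `0, 1` -/
noncomputable def om1 (α : ℝ) (n : ℤ) : ℤ := ⌈(n : ℝ) * α⌉ - ⌈((n : ℝ) - 1) * α⌉

/-- the special word with letters `1 0` at the places `0, 1` -/
noncomputable def om2 (α : ℝ) (n : ℤ) : ℤ := ⌊(n : ℝ) * α⌋ - ⌊((n : ℝ) - 1) * α⌋

theorem om2_eq_rot (α : ℝ) (n : ℤ) : om2 α n = rot α (-α) n := by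
  unfold om2 rot
  congr 2
  · ring
  · ring

theorem mul_irr {α : ℝ} (hα : Irrational α) {n : ℤ} (hn : n ≠ 0) (z : ℤ) : (n : ℝ) * α ≠ z := by
  intro h
  have := hα.intCast_mul hn
  rw [h] at this
  exact this.ne_int _ rfl

theorem ceil_irr {α : ℝ} (hα : Irrational α) {n : ℤ} (hn : n ≠ 0) :
    ⌈(n : ℝ) * α⌉ = ⌊(n : ℝ) * α⌋ + 1 := by
  rw [Int.ceil_eq_iff]
  push_cast
  refine ⟨?_, (Int.lt_floor_add_one _).le⟩
  rw [add_sub_cancel_right]
  exact lt_of_le_of_ne (Int.floor_le _) (mul_irr hα hn _).symm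

theorem om_eq {α : ℝ} (hα : Irrational α) {n : ℤ} (h0 : n ≠ 0) (h1 : n ≠ 1) :
    om1 α n = om2 α n := by
  unfold om1 om2
  have e1 := ceil_irr hα h0
  have e2 := ceil_irr hα (n := n - 1) (by omega)
  push_cast at e2
  rw [e1, e2]
  ring

section
variable {α : ℝ} (hα : Irrational α) (h0 : 0 < α) (h1 : α < 1)
include h0 h1

theorem ceil_neg_self : ⌈-α⌉ = 0 := by
  rw [Int.ceil_eq_iff]
  push_cast
  constructor <;> linarith

theorem floor_neg_self : ⌊-α⌋ = -1 := by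
  rw [Int.floor_eq_iff]
  push_cast
  constructor <;> linarith

theorem om1_zero : om1 α 0 = 0 := by
  unfold om1
  push_cast
  rw [zero_mul, zero_sub, neg_one_mul, ceil_neg_self h0 h1]
  simp

theorem om2_zero : om2 α 0 = 1 := by
  unfold om2
  push_cast
  rw [zero_mul, zero_sub, neg_one_mul, floor_neg_self h0 h1]
  simp

theorem om1_one : om1 α 1 = 1 := by
  unfold om1
  push_cast
  rw [one_mul, sub_self, zero_mul, Int.ceil_zero, sub_zero, Int.ceil_eq_iff]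
  push_cast
  constructor <;> linarith

theorem om2_one : om2 α 1 = 0 := by
  unfold om2
  push_cast
  rw [one_mul, sub_self, zero_mul, Int.floor_zero, sub_zero, Int.floor_eq_iff]
  push_cast
  constructor <;> linarith

omit h0 h1 in
include hα in
/-- a positive distance of the first multiples to the integers -/
theorem exists_dist (N : ℕ) : ∃ δ : ℝ, 0 < δ ∧ ∀ i : ℕ, 1 ≤ i → i ≤ N → ∀ z : ℤ,
    δ < |(i : ℝ) * α - z| := by
  induction N with
  | zero => exact ⟨1, one_pos, fun i h1 h2 => absurd h1 (by omega)⟩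
  | succ N ih =>
    obtain ⟨δ, hδ, h⟩ := ih
    set x : ℝ := ((N + 1 : ℕ) : ℝ) * α with hx
    have hpos : 0 < |x - round x| := by
      apply abs_pos.2
      intro hc
      have : ((N + 1 : ℕ) : ℝ) * α = ((round x : ℤ) : ℝ) := by rw [← hx]; linarith
      have h2 := mul_irr hα (n := ((N + 1 : ℕ) : ℤ)) (by omega) (round x)
      apply h2
      rw [← this]
      push_cast
      rfl
    refine ⟨min δ (|x - round x| / 2), lt_min hδ (by linarith), fun i hi1 hi2 z => ?_⟩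
    rcases Nat.le_succ_iff.1 hi2 with h3 | h3
    · exact (min_le_left _ _).trans_lt (h i hi1 h3 z)
    · subst h3
      have h4 := round_le x z
      exact (min_le_right _ _).trans_lt (by rw [← hx]; linarith)

include hα in
/-- **return words** -/
theorem exists_returns (N : ℕ) : ∃ q₀ q₁ : ℕ, 1 ≤ q₀ ∧ 1 ≤ q₁ ∧
    (∀ i : ℕ, 1 ≤ i → i ≤ N → om1 α (q₀ - i) = om1 α (-i)) ∧
    (∀ i : ℕ, 1 ≤ i → i ≤ N → om2 α (q₁ - i) = om2 α (-i)) ∧
    (∀ i : ℕ, i < q₁ → om1 α (q₀ + i) = om2 α i) ∧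
    (∀ i : ℕ, i < q₀ → om2 α (q₁ + i) = om1 α i) := by
  obtain ⟨δ, hδ, hd⟩ := exists_dist hα (N + 1)
  have hδα : δ < α := by
    have := hd 1 le_rfl (by omega) 0
    rw [Nat.cast_one, one_mul, Int.cast_zero, sub_zero, abs_of_pos h0] at this
    exact this
  have hδα' : δ < 1 - α := by
    have := hd 1 le_rfl (by omega) 1
    rw [Nat.cast_one, one_mul, Int.cast_one, abs_of_neg (by linarith)] at this
    linarith
  -- the first returns
  have hex0 : ∃ q : ℕ, 1 ≤ q ∧ Int.fract ((q : ℝ) * α) < δ := by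
    obtain ⟨M, hM⟩ := exists_hit hα hδ
    obtain ⟨j, m, -, b1, b2⟩ := hM α
    refine ⟨j + 1, by omega, ?_⟩
    have e : ((j + 1 : ℕ) : ℝ) * α = (α + j * α - m) + m := by push_cast; ring
    rw [e, Int.fract_add_intCast]
    refine lt_of_le_of_lt ?_ b2
    have := Int.self_sub_floor (α + j * α - m)
    have h3 : (0 : ℝ) ≤ ⌊α + j * α - m⌋ := by exact_mod_cast Int.floor_nonneg.2 b1.le
    linarith
  have hex1 : ∃ q : ℕ, 1 ≤ q ∧ 1 - δ < Int.fract ((q : ℝ) * α) := by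
    obtain ⟨M, hM⟩ := exists_hit hα (show -δ < 0 by linarith)
    obtain ⟨j, m, -, b1, b2⟩ := hM α
    refine ⟨j + 1, by omega, ?_⟩
    have e : ((j + 1 : ℕ) : ℝ) * α = (α + j * α - m) + m := by push_cast; ring
    rw [e, Int.fract_add_intCast]
    have := Int.self_sub_floor (α + j * α - m)
    have h3 : ⌊α + j * α - m⌋ ≤ -1 := by
      have : ⌊α + j * α - m⌋ < 0 := Int.floor_lt.2 (by push_cast; exact b2)
      omega
    have h4 : (⌊α + j * α - m⌋ : ℝ) ≤ -1 := by exact_mod_cast h3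
    linarith
  classical
  obtain ⟨hq₀, hf₀⟩ := Nat.find_spec hex0
  obtain ⟨hq₁, hf₁⟩ := Nat.find_spec hex1
  have hmin0 : ∀ i : ℕ, 1 ≤ i → i < Nat.find hex0 → δ ≤ Int.fract ((i : ℝ) * α) := by
    intro i hi1 hi2
    by_contra hc
    exact Nat.find_min hex0 hi2 ⟨hi1, not_le.1 hc⟩
  have hmin1 : ∀ i : ℕ, 1 ≤ i → i < Nat.find hex1 → Int.fract ((i : ℝ) * α) ≤ 1 - δ := by
    intro i hi1 hi2
    by_contra hc
    exact Nat.find_min hex1 hi2 ⟨hi1, not_le.1 hc⟩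
  set q₀ := Nat.find hex0
  set q₁ := Nat.find hex1
  set m₀ : ℤ := ⌊(q₀ : ℝ) * α⌋ with hm₀
  set τ₀ : ℝ := Int.fract ((q₀ : ℝ) * α) with hτ₀
  have hq0 : (q₀ : ℝ) * α = m₀ + τ₀ := (Int.floor_add_fract _).symm
  have hτ₀0 : 0 < τ₀ := by
    rcases lt_or_eq_of_le (Int.fract_nonneg ((q₀ : ℝ) * α)) with h | h
    · exact h
    · exfalso
      have h2 := mul_irr hα (n := (q₀ : ℤ)) (by omega) m₀
      apply h2
      push_cast
      rw [hq0, hτ₀, ← h, add_zero]
  set m₁ : ℤ := ⌊(q₁ : ℝ) * α⌋ + 1 with hm₁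
  set τ₁ : ℝ := 1 - Int.fract ((q₁ : ℝ) * α) with hτ₁
  have hq1 : (q₁ : ℝ) * α = m₁ - τ₁ := by
    have := Int.floor_add_fract ((q₁ : ℝ) * α)
    rw [hm₁, hτ₁]
    push_cast
    linarith
  have hτ₁0 : 0 < τ₁ := by linarith [Int.fract_lt_one ((q₁ : ℝ) * α)]
  have hτ₁δ : τ₁ < δ := by linarith
  -- distances in floor form
  have hdf : ∀ i : ℕ, 1 ≤ i → i ≤ N + 1 →
      (⌊-((i : ℝ) * α)⌋ : ℝ) + δ < -((i : ℝ) * α) ∧
        -((i : ℝ) * α) < ⌊-((i : ℝ) * α)⌋ + 1 - δ := by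
    intro i hi1 hi2
    have b1 := hd i hi1 hi2 (-⌊-((i : ℝ) * α)⌋)
    have b2 := hd i hi1 hi2 (-⌊-((i : ℝ) * α)⌋ - 1)
    have c1 := Int.floor_le (-((i : ℝ) * α))
    have c2 := Int.lt_floor_add_one (-((i : ℝ) * α))
    push_cast at b1 b2
    rw [abs_of_nonpos (by linarith)] at b1
    rw [abs_of_nonneg (by linarith)] at b2
    constructor <;> linarith
  have hcl : ∀ i : ℕ, 1 ≤ i → i ≤ N + 1 → ⌈((q₀ : ℝ) - i) * α⌉ = m₀ + ⌈-((i : ℝ) * α)⌉ := by
    intro i hi1 hi2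
    obtain ⟨b1, b2⟩ := hdf i hi1 hi2
    have e1 : ((q₀ : ℝ) - i) * α = m₀ + (τ₀ - i * α) := by
      rw [sub_mul, hq0]; ring
    have e2 : ⌈-((i : ℝ) * α)⌉ = ⌊-((i : ℝ) * α)⌋ + 1 := by
      rw [Int.ceil_eq_iff]
      push_cast
      constructor <;> linarith
    rw [e1, Int.ceil_intCast_add, e2]
    congr 1
    rw [Int.ceil_eq_iff]
    push_cast
    constructor <;> linarith
  have hcf : ∀ i : ℕ, 1 ≤ i → i ≤ N + 1 → ⌊((q₁ : ℝ) - i) * α⌋ = m₁ + ⌊-((i : ℝ) * α)⌋ := by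
    intro i hi1 hi2
    obtain ⟨b1, b2⟩ := hdf i hi1 hi2
    have e1 : ((q₁ : ℝ) - i) * α = m₁ + (-τ₁ - i * α) := by
      rw [sub_mul, hq1]; ring
    rw [e1, Int.floor_intCast_add]
    congr 1
    rw [Int.floor_eq_iff]
    constructor <;> linarith
  have hcl' : ∀ i : ℤ, -1 ≤ i → i < q₁ → ⌈((q₀ : ℝ) + i) * α⌉ = m₀ + (⌊(i : ℝ) * α⌋ + 1) := by
    intro i hi1 hi2
    have e1 : ((q₀ : ℝ) + i) * α = m₀ + (τ₀ + i * α) := by
      rw [add_mul, hq0]; ring
    rw [e1, Int.ceil_intCast_add]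
    congr 1
    rw [Int.ceil_eq_iff]
    push_cast
    have c1 := Int.floor_le ((i : ℝ) * α)
    refine ⟨by linarith, ?_⟩
    rcases lt_trichotomy i 0 with h | h | h
    · have : i = -1 := by omega
      subst this
      push_cast
      rw [neg_one_mul, floor_neg_self h0 h1]
      push_cast
      linarith
    · subst h
      simp
      linarith
    · obtain ⟨i', rfl⟩ := Int.eq_ofNat_of_zero_le h.le
      have h3 := hmin1 i' (by omega) (by omega)
      have h4 := Int.self_sub_floor ((i' : ℝ) * α)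
      push_cast
      linarith
  have hcf' : ∀ i : ℤ, -1 ≤ i → i < q₀ → ⌊((q₁ : ℝ) + i) * α⌋ = m₁ + (⌈(i : ℝ) * α⌉ - 1) := by
    intro i hi1 hi2
    have e1 : ((q₁ : ℝ) + i) * α = m₁ + (-τ₁ + i * α) := by
      rw [add_mul, hq1]; ring
    rw [e1, Int.floor_intCast_add]
    congr 1
    rw [Int.floor_eq_iff]
    push_cast
    have c1 := Int.le_ceil ((i : ℝ) * α)
    refine ⟨?_, by linarith⟩
    rcases lt_trichotomy i 0 with h | h | h
    · have : i = -1 := by omega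
      subst this
      push_cast
      rw [neg_one_mul, ceil_neg_self h0 h1]
      push_cast
      linarith
    · subst h
      simp
      linarith
    · obtain ⟨i', rfl⟩ := Int.eq_ofNat_of_zero_le h.le
      have h3 := hmin0 i' (by omega) (by omega)
      have h4 := Int.self_sub_floor ((i' : ℝ) * α)
      have h5 := ceil_irr hα (n := (i' : ℤ)) h.ne'
      rw [h5]
      push_cast
      linarith
  refine ⟨q₀, q₁, hq₀, hq₁, ?_, ?_, ?_, ?_⟩
  · intro i hi1 hi2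
    have e1 := hcl i hi1 (by omega)
    have e2 := hcl (i + 1) (by omega) (by omega)
    unfold om1
    push_cast at e1 e2 ⊢
    rw [show (q₀ : ℝ) - i - 1 = q₀ - (i + 1) by ring, e1, e2,
      show (-(i : ℝ) - 1) * α = -((i + 1) * α) by ring, neg_mul]
    ring
  · intro i hi1 hi2
    have e1 := hcf i hi1 (by omega)
    have e2 := hcf (i + 1) (by omega) (by omega)
    unfold om2
    push_cast at e1 e2 ⊢
    rw [show (q₁ : ℝ) - i - 1 = q₁ - (i + 1) by ring, e1, e2,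
      show (-(i : ℝ) - 1) * α = -((i + 1) * α) by ring, neg_mul]
    ring
  · intro i hi
    have e1 := hcl' i (by omega) (by omega)
    have e2 := hcl' (i - 1) (by omega) (by omega)
    unfold om1 om2
    push_cast at e1 e2 ⊢
    rw [show (q₀ : ℝ) + i - 1 = q₀ + (i - 1) by ring, e1, e2]
    ring
  · intro i hi
    have e1 := hcf' i (by omega) (by omega)
    have e2 := hcf' (i - 1) (by omega) (by omega)
    unfold om1 om2
    push_cast at e1 e2 ⊢
    rw [show (q₁ : ℝ) + i - 1 = q₁ + (i - 1) by ring, e1, e2]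
    ring

include hα in
/-- a return with `1` modulo `3` letters `0` -/
theorem exists_return_three (N : ℕ) : ∃ q : ℕ, 1 ≤ q ∧
    (∀ i : ℕ, 1 ≤ i → i ≤ N → om1 α (q - i) = om1 α (-i)) ∧
    ∃ z : ℤ, (q : ℤ) - ⌈((q : ℝ) - 1) * α⌉ = 3 * z + 1 := by
  obtain ⟨δ, hδ, hd⟩ := exists_dist hα (N + 1)
  have hδα : δ < α := by
    have := hd 1 le_rfl (by omega) 0
    rw [Nat.cast_one, one_mul, Int.cast_zero, sub_zero, abs_of_pos h0] at this
    exact this
  have hβ : Irrational ((1 - α) / 3) := by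
    have : Irrational (1 - α) := by
      have := hα.intCast_sub 1
      push_cast at this
      exact this
    have h2 := this.div_natCast (m := 3) (by norm_num)
    exact_mod_cast h2
  obtain ⟨M, hM⟩ := exists_hit hβ (show (1 : ℝ) / 3 - δ / 3 < 1 / 3 by linarith)
  obtain ⟨j, z, -, b1, b2⟩ := hM ((1 - α) / 3)
  set q : ℕ := j + 1 with hq
  have hqr : (q : ℝ) = j + 1 := by rw [hq]; push_cast; rfl
  set m₀ : ℤ := q - 3 * z - 1 with hm₀
  set τ₀ : ℝ := (q : ℝ) * α - m₀ with hτ₀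
  have hq0 : (q : ℝ) * α = m₀ + τ₀ := by rw [hτ₀]; ring
  have hm₀r : (m₀ : ℝ) = q - 3 * z - 1 := by rw [hm₀]; push_cast; rfl
  have e0 : (1 - α) / 3 + j * ((1 - α) / 3) - z = ((q : ℝ) * (1 - α)) / 3 - z := by
    rw [hqr]; ring
  rw [e0] at b1 b2
  have hτ₀0 : 0 < τ₀ := by rw [hτ₀, hm₀r]; linarith
  have hτ₀δ : τ₀ < δ := by rw [hτ₀, hm₀r]; linarith
  have hdf : ∀ i : ℕ, 1 ≤ i → i ≤ N + 1 →
      (⌊-((i : ℝ) * α)⌋ : ℝ) + δ < -((i : ℝ) * α) ∧
        -((i : ℝ) * α) < ⌊-((i : ℝ) * α)⌋ + 1 - δ := by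
    intro i hi1 hi2
    have b1 := hd i hi1 hi2 (-⌊-((i : ℝ) * α)⌋)
    have b2 := hd i hi1 hi2 (-⌊-((i : ℝ) * α)⌋ - 1)
    have c1 := Int.floor_le (-((i : ℝ) * α))
    have c2 := Int.lt_floor_add_one (-((i : ℝ) * α))
    push_cast at b1 b2
    rw [abs_of_nonpos (by linarith)] at b1
    rw [abs_of_nonneg (by linarith)] at b2
    constructor <;> linarith
  have hcl : ∀ i : ℕ, 1 ≤ i → i ≤ N + 1 → ⌈((q : ℝ) - i) * α⌉ = m₀ + ⌈-((i : ℝ) * α)⌉ := by
    intro i hi1 hi2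
    obtain ⟨b1, b2⟩ := hdf i hi1 hi2
    have e1 : ((q : ℝ) - i) * α = m₀ + (τ₀ - i * α) := by
      rw [sub_mul, hq0]; ring
    have e2 : ⌈-((i : ℝ) * α)⌉ = ⌊-((i : ℝ) * α)⌋ + 1 := by
      rw [Int.ceil_eq_iff]
      push_cast
      constructor <;> linarith
    rw [e1, Int.ceil_intCast_add, e2]
    congr 1
    rw [Int.ceil_eq_iff]
    push_cast
    constructor <;> linarith
  refine ⟨q, by omega, ?_, z, ?_⟩
  · intro i hi1 hi2
    have e1 := hcl i hi1 (by omega)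
    have e2 := hcl (i + 1) (by omega) (by omega)
    unfold om1
    push_cast at e1 e2 ⊢
    rw [show (q : ℝ) - i - 1 = q - (i + 1) by ring, e1, e2,
      show (-(i : ℝ) - 1) * α = -((i + 1) * α) by ring, neg_mul]
    ring
  · have e1 := hcl 1 le_rfl (by omega)
    rw [Nat.cast_one, one_mul, ceil_neg_self h0 h1, add_zero] at e1
    rw [e1, hm₀]
    ring

end

end Pool.Agent.L3
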