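import Pool.Agent.Work.MP_5e120e_nt.Slope

/-! # Rotation words of irrational slope -/

namespace Pool.Agent.L3

/-- the rotation word of slope `α` and intercept `θ` -/
noncomputable def rot (α θ : ℝ) (i : ℤ) : ℤ := ⌊((i : ℝ) + 1) * α + θ⌋ - ⌊(i : ℝ) * α + θ⌋

theorem rot_shift (α θ : ℝ) (j i : ℤ) : rot α θ (j + i) = rot α (θ + j * α) i := by
  unfold rot
  push_cast
  congr 2 <;> ring

theorem rot_int (α θ : ℝ) (m i : ℤ) : rot α (θ + m) i = rot α θ i := by
  unfold rot
  rw [← add_assoc, ← add_assoc, Int.floor_add_intCast, Int.floor_add_intCast]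
  ring

/-- small multiples of an irrational number modulo one, of both signs -/
theorem exists_small {α : ℝ} (hα : Irrational α) {ε : ℝ} (hε : 0 < ε) :
    ∃ (k : ℕ) (p : ℤ), 0 < k ∧ 0 < |(k : ℝ) * α - p| ∧ |(k : ℝ) * α - p| < ε := by
  obtain ⟨n, hn⟩ := exists_nat_gt (1 / ε)
  obtain ⟨k, hk0, -, hk⟩ := Real.exists_nat_abs_mul_sub_round_le α (n := n + 1) (by omega)
  refine ⟨k, round ((k : ℝ) * α), hk0, ?_, ?_⟩
  · apply abs_pos.2
    intro h0
    have h1 : (k : ℝ) * α = round ((k : ℝ) * α) := by linarith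
    have h2 : Irrational ((k : ℝ) * α) := hα.natCast_mul (by omega)
    rw [h1] at h2
    exact (h2.ne_int _) rfl
  · refine lt_of_le_of_lt hk ?_
    rw [div_lt_iff₀ (by positivity)]
    rw [div_lt_iff₀ hε] at hn
    push_cast
    nlinarith

/-- the multiples of an irrational number come back to every interval, with bounded gaps -/
theorem exists_hit {α : ℝ} (hα : Irrational α) {u v : ℝ} (huv : u < v) :
    ∃ M : ℕ, ∀ t : ℝ, ∃ (j : ℕ) (m : ℤ), j < M ∧ u < t + j * α - m ∧ t + j * α - m < v := by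
  obtain ⟨k, p, hk, hs0, hs⟩ := exists_small hα (show 0 < v - u by linarith)
  set s : ℝ := (k : ℝ) * α - p with hsd
  obtain ⟨R, hR⟩ := exists_nat_gt (1 / |s|)
  rw [div_lt_iff₀ hs0] at hR
  refine ⟨(R + 2) * k + 1, fun t => ?_⟩
  rcases lt_or_gt_of_ne (abs_pos.1 hs0) with hneg | hpos
  · -- negative step: start above `v`, go down
    have hsa : |s| = -s := abs_of_neg hneg
    rw [hsa] at hR hs
    -- `y = t - m ∈ [v, v + 1)`
    obtain ⟨y, m, hy1, hy2, hy3⟩ : ∃ (y : ℝ) (m : ℤ), y = t - m ∧ v ≤ y ∧ y < v + 1 :=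
      ⟨t - ⌊t - v⌋, ⌊t - v⌋, rfl, by linarith [Int.floor_le (t - v)],
        by linarith [Int.lt_floor_add_one (t - v)]⟩
    -- first index with `y + i s < v`
    have hex : ∃ i : ℕ, y + i * s < v := ⟨R, by nlinarith⟩
    classical
    have hspec := Nat.find_spec hex
    set i := Nat.find hex with hi
    have hi0 : i ≠ 0 := by
      intro h0
      rw [h0] at hspec
      simp at hspec
      linarith
    have hprev : v ≤ y + ((i - 1 : ℕ) : ℝ) * s := by
      by_contra hc
      push Not at hc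
      exact Nat.find_min hex (m := i - 1) (by omega) hc
    have hile : i ≤ R := Nat.find_min' hex (by nlinarith)
    refine ⟨i * k, m + i * p, by nlinarith, ?_, ?_⟩
    · have e : t + ((i * k : ℕ) : ℝ) * α - ((m + i * p : ℤ) : ℝ) = y + i * s := by
        rw [hy1, hsd]; push_cast; ring
      rw [e]
      push_cast [Nat.cast_sub (Nat.one_le_iff_ne_zero.2 hi0)] at hprev
      nlinarith
    · have e : t + ((i * k : ℕ) : ℝ) * α - ((m + i * p : ℤ) : ℝ) = y + i * s := by
        rw [hy1, hsd]; push_cast; ring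
      rw [e]
      exact hspec
  · have hsa : |s| = s := abs_of_pos hpos
    rw [hsa] at hR hs
    obtain ⟨y, m, hy1, hy2, hy3⟩ : ∃ (y : ℝ) (m : ℤ), y = t - m ∧ u - 1 ≤ y ∧ y < u :=
      ⟨t - (⌊t - u⌋ + 1 : ℤ), ⌊t - u⌋ + 1, rfl, by
        push_cast; linarith [Int.floor_le (t - u)],
        by push_cast; linarith [Int.lt_floor_add_one (t - u)]⟩
    have hex : ∃ i : ℕ, u < y + i * s := ⟨R, by nlinarith⟩
    classical
    have hspec := Nat.find_spec hex
    set i := Nat.find hex with hi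
    have hi0 : i ≠ 0 := by
      intro h0
      rw [h0] at hspec
      simp at hspec
      linarith
    have hprev : y + ((i - 1 : ℕ) : ℝ) * s ≤ u := by
      by_contra hc
      push Not at hc
      exact Nat.find_min hex (m := i - 1) (by omega) hc
    have hile : i ≤ R := Nat.find_min' hex (by nlinarith)
    refine ⟨i * k, m + i * p, by nlinarith, ?_, ?_⟩
    · have e : t + ((i * k : ℕ) : ℝ) * α - ((m + i * p : ℤ) : ℝ) = y + i * s := by
        rw [hy1, hsd]; push_cast; ring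
      rw [e]
      exact hspec
    · have e : t + ((i * k : ℕ) : ℝ) * α - ((m + i * p : ℤ) : ℝ) = y + i * s := by
        rw [hy1, hsd]; push_cast; ring
      rw [e]
      push_cast [Nat.cast_sub (Nat.one_le_iff_ne_zero.2 hi0)] at hprev
      nlinarith

/-- right continuity of the windows -/
theorem rot_right (α θ : ℝ) (N : ℕ) : ∃ ε : ℝ, 0 < ε ∧ ∀ t : ℝ, 0 ≤ t → t < ε →
    ∀ i : ℕ, i < N → rot α (θ + t) i = rot α θ i := by
  have key : ∀ N : ℕ, ∃ ε : ℝ, 0 < ε ∧ ∀ t : ℝ, 0 ≤ t → t < ε →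
      ∀ i : ℕ, i < N → ⌊(i : ℝ) * α + (θ + t)⌋ = ⌊(i : ℝ) * α + θ⌋ := by
    intro N
    induction N with
    | zero => exact ⟨1, one_pos, fun t _ _ i hi => absurd hi (by omega)⟩
    | succ N ih =>
      obtain ⟨ε, hε, h⟩ := ih
      refine ⟨min ε (1 - Int.fract ((N : ℝ) * α + θ)),
        lt_min hε (by linarith [Int.fract_lt_one ((N : ℝ) * α + θ)]), fun t ht0 ht i hi => ?_⟩
      rcases Nat.lt_succ_iff_lt_or_eq.1 hi with h1 | h1
      · exact h t ht0 (ht.trans_le (min_le_left _ _)) i h1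
      · subst h1
        have ht' := ht.trans_le (min_le_right _ _)
        rw [Int.floor_eq_iff]
        have e := Int.floor_add_fract ((i : ℝ) * α + θ)
        have e0 := Int.fract_nonneg ((i : ℝ) * α + θ)
        constructor <;> linarith
  obtain ⟨ε, hε, h⟩ := key (N + 1)
  refine ⟨ε, hε, fun t ht0 ht i hi => ?_⟩
  unfold rot
  have h1 := h t ht0 ht (i + 1) (by omega)
  have h2 := h t ht0 ht i (by omega)
  push_cast at h1 h2 ⊢
  rw [h1, h2]

/-- **uniform recurrence** -/
theorem rot_rec {α : ℝ} (hα : Irrational α) (θ' : ℝ) (N : ℕ) : ∃ M : ℕ, ∀ θ : ℝ, ∃ j : ℕ, j < M ∧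
    ∀ i : ℕ, i < N → rot α θ ((j : ℤ) + i) = rot α θ' i := by
  obtain ⟨ε, hε, h⟩ := rot_right α θ' N
  obtain ⟨M, hM⟩ := exists_hit hα hε
  refine ⟨M, fun θ => ?_⟩
  obtain ⟨j, m, hj, h1, h2⟩ := hM (θ - θ')
  refine ⟨j, hj, fun i hi => ?_⟩
  rw [rot_shift, ← h _ h1.le h2 i hi, ← rot_int α (θ + ((j : ℤ) : ℝ) * α) (-m)]
  congr 1
  push_cast
  ring

/-- a balanced word of irrational slope is eventually a rotation word -/
theorem rot_of_slope {S ω : ℤ → ℤ} {α : ℝ} (hS : IsH S ω) (hα : Slope S α)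
    (hirr : Irrational α) : ∃ (θ : ℝ) (n₀ : ℤ), ∀ n, n₀ ≤ n → ω n = rot α θ n := by
  have hD : ∀ m n : ℤ, |((S m : ℝ) - m * α) - (S n - n * α)| ≤ 1 := by
    intro m n
    rcases le_total n m with h | h
    · obtain ⟨k, hk⟩ := Int.eq_ofNat_of_zero_le (sub_nonneg.2 h)
      have h1 := hα n k
      have e : n + (k : ℤ) = m := by omega
      rw [e] at h1
      have e2 : (k : ℝ) = m - n := by rw [← e]; push_cast; ring
      rw [e2] at h1
      have : ((S m : ℝ) - m * α) - (S n - n * α) = ((S m : ℝ) - S n) - (m - n) * α := by ring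
      rw [this]
      exact h1
    · obtain ⟨k, hk⟩ := Int.eq_ofNat_of_zero_le (sub_nonneg.2 h)
      have h1 := hα m k
      have e : m + (k : ℤ) = n := by omega
      rw [e] at h1
      have e2 : (k : ℝ) = n - m := by rw [← e]; push_cast; ring
      rw [e2] at h1
      have : ((S m : ℝ) - m * α) - (S n - n * α) = -(((S n : ℝ) - S m) - (n - m) * α) := by ring
      rw [this, abs_neg]
      exact h1
  set X : Set ℝ := Set.range fun n : ℤ => (S n : ℝ) - n * α with hX
  have hne : X.Nonempty := ⟨_, 0, rfl⟩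
  have hbdd : BddAbove X := by
    refine ⟨((S 0 : ℝ) - (0 : ℤ) * α) + 1, ?_⟩
    rintro _ ⟨n, rfl⟩
    have := (abs_le.1 (hD n 0)).2
    show (S n : ℝ) - n * α ≤ _
    linarith
  set θ := sSup X with hθ
  have hup : ∀ n : ℤ, (S n : ℝ) ≤ n * α + θ := by
    intro n
    have := le_csSup hbdd ⟨n, rfl⟩
    have h2 : (S n : ℝ) - n * α ≤ θ := this
    linarith
  have hlo : ∀ n : ℤ, n * α + θ - 1 ≤ (S n : ℝ) := by
    intro n
    have h1 : θ ≤ (S n : ℝ) - n * α + 1 := by
      apply csSup_le hne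
      rintro _ ⟨m, rfl⟩
      have := (abs_le.1 (hD m n)).2
      show (S m : ℝ) - m * α ≤ _
      linarith
    linarith
  have hfl : ∀ n : ℤ, (∀ z : ℤ, (n : ℝ) * α + θ ≠ z) → S n = ⌊(n : ℝ) * α + θ⌋ := by
    intro n hn
    symm
    rw [Int.floor_eq_iff]
    refine ⟨hup n, ?_⟩
    have h1 := hlo n
    have h2 : (n : ℝ) * α + θ ≠ (S n : ℝ) + 1 := by
      have := hn (S n + 1)
      push_cast at this
      exact this
    exact lt_of_le_of_ne (by linarith) h2
  by_cases hex : ∃ n z : ℤ, (n : ℝ) * α + θ = z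
  · obtain ⟨n₁, z₁, h1⟩ := hex
    have hother : ∀ n : ℤ, n₁ < n → S n = ⌊(n : ℝ) * α + θ⌋ := by
      intro n hn
      apply hfl
      intro z hz
      have h2 : ((n - n₁ : ℤ) : ℝ) * α = ((z - z₁ : ℤ) : ℝ) := by
        push_cast
        linarith
      have h3 : Irrational (((n - n₁ : ℤ) : ℝ) * α) := hirr.intCast_mul (by omega)
      rw [h2] at h3
      exact h3.ne_int _ rfl
    refine ⟨θ, n₁ + 1, fun n hn => ?_⟩
    have e1 := hother n (by omega)
    have e2 := hother (n + 1) (by omega)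
    have e3 := hS n
    unfold rot
    push_cast at e2
    rw [← e1, ← e2]
    omega
  · push Not at hex
    refine ⟨θ, 0, fun n _ => ?_⟩
    have e1 := hfl n (hex n)
    have e2 := hfl (n + 1) (hex (n + 1))
    have e3 := hS n
    unfold rot
    push_cast at e2
    rw [← e1, ← e2]
    omega

end Pool.Agent.L3
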