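import Pool.Agent.Work.MP_5e120e_nt.Words

/-! # Slopes of balanced words, asymptotic pairs, skew words -/

namespace Pool.Agent.L3

/-- `α` is the slope of `S` -/
def Slope (S : ℤ → ℤ) (α : ℝ) : Prop :=
  ∀ (m : ℤ) (k : ℕ), |((S (m + k) : ℝ) - S m) - k * α| ≤ 1

/-- mirror symmetry at the cut `N` (before the letter `ω N`) -/
def EqAt (ω : ℤ → ℤ) (N : ℤ) : Prop :=
  ω (N - 1) ≠ ω N ∧ ∀ i : ℕ, ω (N + 1 + i) = ω (N - 2 - i)

theorem exists_slope {S : ℤ → ℤ} (hB : Bal S) : ∃ α : ℝ, Slope S α := by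
  -- iterated windows
  have hlow : ∀ (m : ℤ) (k : ℕ) (m₀ : ℤ) (l : ℕ),
      (l : ℤ) * (S (m + k) - S m - 1) ≤ S (m₀ + (k * l : ℕ)) - S m₀ := by
    intro m k m₀ l
    induction l with
    | zero => simp
    | succ l ih =>
      have h1 := hB m (m₀ + (k * l : ℕ)) k
      have h2 : m₀ + ((k * l : ℕ) : ℤ) + k = m₀ + ((k * (l + 1) : ℕ) : ℤ) := by
        push_cast; ring
      rw [h2] at h1
      push_cast at ih h1 ⊢
      nlinarith
  have hupp : ∀ (m : ℤ) (k : ℕ) (m₀ : ℤ) (l : ℕ),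
      S (m₀ + (k * l : ℕ)) - S m₀ ≤ (l : ℤ) * (S (m + k) - S m + 1) := by
    intro m k m₀ l
    induction l with
    | zero => simp
    | succ l ih =>
      have h1 := hB (m₀ + (k * l : ℕ)) m k
      have h2 : m₀ + ((k * l : ℕ) : ℤ) + k = m₀ + ((k * (l + 1) : ℕ) : ℤ) := by
        push_cast; ring
      rw [h2] at h1
      push_cast at ih h1 ⊢
      nlinarith
  have hcomp : ∀ (m : ℤ) (k : ℕ) (m' : ℤ) (l : ℕ), 1 ≤ k → 1 ≤ l →
      ((S (m + k) : ℝ) - S m - 1) / k ≤ ((S (m' + l) : ℝ) - S m' + 1) / l := by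
    intro m k m' l hk hl
    have hk' : (0 : ℝ) < k := by exact_mod_cast hk
    have hl' : (0 : ℝ) < l := by exact_mod_cast hl
    rw [div_le_div_iff₀ hk' hl']
    have h1 := hlow m k 0 l
    have h2 := hupp m' l 0 k
    rw [mul_comm l k] at h2
    have h3 := h1.trans h2
    have h4 : ((l : ℤ) * (S (m + k) - S m - 1) : ℝ) ≤ (k : ℤ) * (S (m' + l) - S m' + 1) := by
      exact_mod_cast h3
    push_cast at h4
    linarith
  set A : Set ℝ := {r | ∃ (m : ℤ) (k : ℕ), 1 ≤ k ∧ r = ((S (m + k) : ℝ) - S m - 1) / k} with hA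
  have hbdd : BddAbove A := by
    refine ⟨((S (0 + (1 : ℕ)) : ℝ) - S 0 + 1) / (1 : ℕ), ?_⟩
    rintro r ⟨m, k, hk, rfl⟩
    exact hcomp m k 0 1 hk le_rfl
  have hne : A.Nonempty := ⟨_, 0, 1, le_rfl, rfl⟩
  refine ⟨sSup A, fun m k => ?_⟩
  rcases Nat.eq_zero_or_pos k with h0 | h0
  · subst h0
    simp
  · have hk' : (0 : ℝ) < k := by exact_mod_cast h0
    have h1 : ((S (m + k) : ℝ) - S m - 1) / k ≤ sSup A := le_csSup hbdd ⟨m, k, h0, rfl⟩
    have h2 : sSup A ≤ ((S (m + k) : ℝ) - S m + 1) / k := by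
      apply csSup_le hne
      rintro r ⟨m', k', hk', rfl⟩
      exact hcomp m' k' m k hk' h0
    rw [div_le_iff₀ hk'] at h1
    rw [le_div_iff₀ hk'] at h2
    rw [abs_le]
    constructor <;> linarith

theorem slope_const {S ω : ℤ → ℤ} {α : ℝ} (hS : IsH S ω) (hα : Slope S α) {n₀ c : ℤ}
    (hc : ∀ n, n < n₀ → ω n = c) : α = c := by
  have h1 : ∀ k : ℕ, S n₀ - S (n₀ - k) = k * c := by
    intro k
    induction k with
    | zero => simp
    | succ k ih =>
      have h2 := hS (n₀ - (k + 1))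
      rw [show n₀ - ((k : ℤ) + 1) + 1 = n₀ - k by ring, hc (n₀ - (k + 1)) (by omega)] at h2
      push_cast
      rw [h2] at ih
      linarith
  by_contra hne
  have hpos : 0 < |(c : ℝ) - α| := abs_pos.2 (fun h => hne (by linarith))
  obtain ⟨k, hk⟩ := exists_nat_gt (1 / |(c : ℝ) - α|)
  have h2 := hα (n₀ - k) k
  rw [sub_add_cancel] at h2
  have h3 : ((S n₀ : ℝ) - S (n₀ - k)) = k * c := by exact_mod_cast h1 k
  rw [h3, ← mul_sub, abs_mul, Nat.abs_cast] at h2
  rw [div_lt_iff₀ hpos] at hk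
  linarith

theorem slope_unique {S₁ S₂ ω₁ ω₂ : ℤ → ℤ} {α₁ α₂ : ℝ} (h₁ : IsH S₁ ω₁) (h₂ : IsH S₂ ω₂)
    (hα₁ : Slope S₁ α₁) (hα₂ : Slope S₂ α₂) {n₀ : ℤ} (hc : ∀ n, n < n₀ → ω₁ n = ω₂ n) :
    α₁ = α₂ := by
  have h1 : ∀ k : ℕ, S₁ n₀ - S₁ (n₀ - k) = S₂ n₀ - S₂ (n₀ - k) := by
    intro k
    induction k with
    | zero => simp
    | succ k ih =>
      have e1 := h₁ (n₀ - (k + 1))
      have e2 := h₂ (n₀ - (k + 1))
      rw [show n₀ - ((k : ℤ) + 1) + 1 = n₀ - k by ring, hc (n₀ - (k + 1)) (by omega)] at e1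
      rw [show n₀ - ((k : ℤ) + 1) + 1 = n₀ - k by ring] at e2
      push_cast
      linarith
  by_contra hne
  have hpos : 0 < |α₁ - α₂| := abs_pos.2 (fun h => hne (by linarith))
  obtain ⟨k, hk⟩ := exists_nat_gt (2 / |α₁ - α₂|)
  have e1 := hα₁ (n₀ - k) k
  have e2 := hα₂ (n₀ - k) k
  rw [sub_add_cancel] at e1 e2
  have h3 : ((S₁ n₀ : ℝ) - S₁ (n₀ - k)) = (S₂ n₀ : ℝ) - S₂ (n₀ - k) := by exact_mod_cast h1 k
  rw [h3] at e1
  rw [div_lt_iff₀ hpos] at hk
  have h4 : (k : ℝ) * |α₁ - α₂| ≤ 2 := by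
    rw [← Nat.abs_cast k, ← abs_mul]
    have h5 : (k : ℝ) * (α₁ - α₂) = ((S₂ n₀ : ℝ) - S₂ (n₀ - k) - k * α₂) -
        ((S₂ n₀ : ℝ) - S₂ (n₀ - k) - k * α₁) := by ring
    rw [h5]
    refine (abs_sub _ _).trans ?_
    linarith
  linarith

/-- the symmetric sums at the cut `1`, for irrational slope -/
theorem pair_half {S : ℤ → ℤ} {α : ℝ} (hα : Slope S α) (hirr : Irrational α)
    (hlow : ∀ l : ℕ, -α ≤ (S (-l) : ℝ) + l * α) (hupp : ∀ l : ℕ, (S (-l) : ℝ) + l * α ≤ 1 - α)
    (j : ℕ) (hj : 1 ≤ j) : S (1 + j) + S (1 - j) = 1 := by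
  -- density
  have hdens : ∀ ε : ℝ, 0 < ε → ∃ l l' : ℕ, (S (-l) : ℝ) + l * α ≤ -α + ε ∧
      1 - α - ε ≤ (S (-l') : ℝ) + l' * α := by
    intro ε hε
    obtain ⟨n, hn⟩ := exists_nat_gt (1 / ε)
    obtain ⟨k, hk0, -, hk⟩ := Real.exists_nat_abs_mul_sub_round_le α (n := n + 1) (by omega)
    set p : ℤ := round ((k : ℝ) * α) with hp
    set s : ℝ := (k : ℝ) * α - p with hs
    have hsε : |s| < ε := by
      refine lt_of_le_of_lt hk ?_
      rw [div_lt_iff₀ (by positivity)]
      rw [div_lt_iff₀ hε] at hn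
      push_cast
      nlinarith
    have hs0 : s ≠ 0 := by
      intro h0
      have h1 : (k : ℝ) * α = p := by linarith
      have h2 : Irrational ((k : ℝ) * α) := hirr.natCast_mul (by omega)
      rw [h1] at h2
      exact (h2.ne_int p) rfl
    set u : ℕ → ℝ := fun j => (S (-((j * k : ℕ) : ℤ)) : ℝ) + ((j * k : ℕ) : ℝ) * α with hu
    have hexj : ∃ j : ℕ, |u (j + 1) - u j| ≥ 1 - ε := by
      by_contra hcon
      push Not at hcon
      have hstep : ∀ j : ℕ, u (j + 1) - u j = s := by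
        intro j
        have h1 := hcon j
        have h2 : u (j + 1) - u j = s + ((p - (S (-((j * k : ℕ) : ℤ)) -
            S (-(((j + 1) * k : ℕ) : ℤ))) : ℤ) : ℝ) := by
          simp only [hu, hs]
          push_cast
          ring
        set c : ℤ := p - (S (-((j * k : ℕ) : ℤ)) - S (-(((j + 1) * k : ℕ) : ℤ))) with hc
        rw [h2]
        by_cases hc0 : c = 0
        · rw [hc0]; simp
        · exfalso
          have h3 : (1 : ℝ) ≤ |(c : ℝ)| := by
            have : (1 : ℤ) ≤ |c| := Int.one_le_abs hc0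
            exact_mod_cast this
          have h4 : |(c : ℝ)| ≤ |s + c| + |s| := by
            have : (c : ℝ) = (s + c) - s := by ring
            calc |(c : ℝ)| = |(s + c) - s| := by rw [← this]
              _ ≤ |s + c| + |s| := abs_sub _ _
          rw [h2] at h1
          linarith
      have hall : ∀ j : ℕ, u j = u 0 + j * s := by
        intro j
        induction j with
        | zero => simp
        | succ j ih =>
          have := hstep j
          push_cast
          linarith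
      have hpos : 0 < |s| := abs_pos.2 hs0
      obtain ⟨j, hj⟩ := exists_nat_gt (1 / |s|)
      rw [div_lt_iff₀ hpos] at hj
      have e1 := hall j
      have b1 := hlow (j * k)
      have b2 := hupp (j * k)
      have b3 := hlow (0 * k)
      have b4 := hupp (0 * k)
      have e2 : |u j - u 0| ≤ 1 := by
        simp only [hu]
        rw [abs_le]
        constructor <;> linarith
      have e3 : |u j - u 0| = j * |s| := by
        rw [e1, add_sub_cancel_left, abs_mul, Nat.abs_cast]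
      rw [e3] at e2
      linarith
    obtain ⟨j, hj⟩ := hexj
    have b1 := hlow (j * k)
    have b2 := hupp (j * k)
    have b3 := hlow ((j + 1) * k)
    have b4 := hupp ((j + 1) * k)
    rcases le_total 0 (u (j + 1) - u j) with h | h
    · rw [abs_of_nonneg h] at hj
      simp only [hu] at hj
      exact ⟨j * k, (j + 1) * k, by linarith, by linarith⟩
    · rw [abs_of_nonpos h] at hj
      simp only [hu] at hj
      exact ⟨(j + 1) * k, j * k, by linarith, by linarith⟩
  -- bounds to the right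
  have hright : ∀ n : ℕ, -α ≤ (S n : ℝ) - n * α ∧ (S n : ℝ) - n * α ≤ 1 - α := by
    intro n
    have hd : ∀ l : ℕ, |((S n : ℝ) - S (-l)) - ((n : ℝ) + l) * α| ≤ 1 := by
      intro l
      have h1 := hα (-l) (n + l)
      have h2 : (-(l : ℤ)) + ((n + l : ℕ) : ℤ) = n := by push_cast; ring
      rw [h2] at h1
      push_cast at h1
      exact h1
    constructor
    · by_contra hcon
      push Not at hcon
      obtain ⟨l, l', h1, h2⟩ := hdens ((-α - ((S n : ℝ) - n * α)) / 2) (by linarith)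
      have h3 := (abs_le.1 (hd l')).1
      linarith
    · by_contra hcon
      push Not at hcon
      obtain ⟨l, l', h1, h2⟩ := hdens ((((S n : ℝ) - n * α) - (1 - α)) / 2) (by linarith)
      have h3 := (abs_le.1 (hd l)).2
      linarith
  obtain ⟨i, rfl⟩ : ∃ i, j = i + 1 := ⟨j - 1, by omega⟩
  have hr := hright (1 + (i + 1))
  have hl1 := hlow i
  have hl2 := hupp i
  have e1 : (1 : ℤ) - ((i + 1 : ℕ) : ℤ) = -(i : ℤ) := by push_cast; ring
  have e2 : (1 : ℤ) + ((i + 1 : ℕ) : ℤ) = ((1 + (i + 1) : ℕ) : ℤ) := by push_cast; ring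
  rw [e1, e2]
  set X : ℤ := S ((1 + (i + 1) : ℕ) : ℤ) + S (-(i : ℤ)) with hX
  have hXr : (X : ℝ) = (S ((1 + (i + 1) : ℕ) : ℤ) : ℝ) + S (-(i : ℤ)) := by
    rw [hX]; push_cast; rfl
  push_cast at hr
  have hX0 : (0 : ℝ) ≤ X := by rw [hXr]; push_cast; linarith [hr.1]
  have hX2 : (X : ℝ) ≤ 2 := by rw [hXr]; push_cast; linarith [hr.2]
  have hX0' : 0 ≤ X := by exact_mod_cast hX0
  have hX2' : X ≤ 2 := by exact_mod_cast hX2
  have hirr' : Irrational (((i + 1 : ℕ) : ℝ) * α) := hirr.natCast_mul (by omega)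
  have hne0 : X ≠ 0 := by
    intro h0
    have h1 : (X : ℝ) = 0 := by rw [h0]; simp
    rw [hXr] at h1
    push_cast at h1
    have h2 : ((i + 1 : ℕ) : ℝ) * α = ((-S (-(i : ℤ)) : ℤ) : ℝ) := by
      push_cast
      have := hr.1
      linarith
    rw [h2] at hirr'
    exact hirr'.ne_int _ rfl
  have hne2 : X ≠ 2 := by
    intro h0
    have h1 : (X : ℝ) = 2 := by rw [h0]; simp
    rw [hXr] at h1
    push_cast at h1
    have h2 : ((i + 1 : ℕ) : ℝ) * α = ((1 - S (-(i : ℤ)) : ℤ) : ℝ) := by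
      push_cast
      have := hr.2
      linarith
    rw [h2] at hirr'
    exact hirr'.ne_int _ rfl
  omega

theorem pair_zero {S₁ S₂ ω₁ ω₂ : ℤ → ℤ} {α : ℝ} (h₁ : IsH S₁ ω₁) (h₂ : IsH S₂ ω₂)
    (hα₁ : Slope S₁ α) (hα₂ : Slope S₂ α) (hirr : Irrational α)
    (hc : ∀ n, n < 0 → ω₁ n = ω₂ n) (h10 : S₁ 0 = 0) (h20 : S₂ 0 = 0) (ho1 : ω₁ 0 = 0)
    (ho2 : ω₂ 0 = 1) : EqAt ω₁ 1 ∧ EqAt ω₂ 1 ∧ ω₁ 1 = 1 ∧ ω₂ 1 = 0 := by
  have hSS : ∀ l : ℕ, S₁ (-l) = S₂ (-l) := by
    intro l
    induction l with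
    | zero => simp [h10, h20]
    | succ l ih =>
      have e1 := h₁ (-(l + 1))
      have e2 := h₂ (-(l + 1))
      rw [show -((l : ℤ) + 1) + 1 = -l by ring, hc (-(l + 1)) (by omega)] at e1
      rw [show -((l : ℤ) + 1) + 1 = -l by ring] at e2
      push_cast
      linarith
  have h11 : S₁ 1 = 0 := by
    have := h₁ 0
    rw [zero_add, h10, ho1] at this
    simpa using this
  have h21 : S₂ 1 = 1 := by
    have := h₂ 0
    rw [zero_add, h20, ho2] at this
    simpa using this
  have hlow : ∀ l : ℕ, -α ≤ (S₁ (-l) : ℝ) + l * α := by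
    intro l
    have h := hα₂ (-l) (l + 1)
    have e : (-(l : ℤ)) + ((l + 1 : ℕ) : ℤ) = 1 := by push_cast; ring
    rw [e, h21, ← hSS l] at h
    push_cast at h
    have := (abs_le.1 h).2
    linarith
  have hupp : ∀ l : ℕ, (S₁ (-l) : ℝ) + l * α ≤ 1 - α := by
    intro l
    have h := hα₁ (-l) (l + 1)
    have e : (-(l : ℤ)) + ((l + 1 : ℕ) : ℤ) = 1 := by push_cast; ring
    rw [e, h11] at h
    push_cast at h
    have := (abs_le.1 h).1
    linarith
  have hx1 := pair_half hα₁ hirr hlow hupp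
  have hx2 := pair_half hα₂ hirr (fun l => by rw [← hSS l]; exact hlow l)
    (fun l => by rw [← hSS l]; exact hupp l)
  have key : ∀ {S ω : ℤ → ℤ}, IsH S ω → (∀ j : ℕ, 1 ≤ j → S (1 + j) + S (1 - j) = 1) →
      ∀ i : ℕ, ω (1 + 1 + i) = ω (1 - 2 - i) := by
    intro S ω hS hx i
    have e1 := hS (1 + 1 + i)
    have e2 := hS (1 - 2 - i)
    have e3 := hx (i + 1) (by omega)
    have e4 := hx (i + 2) (by omega)
    push_cast at e3 e4
    rw [show (1 : ℤ) + ((i : ℤ) + 1) = 1 + 1 + i by ring,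
      show (1 : ℤ) - ((i : ℤ) + 1) = 1 - 2 - i + 1 by ring] at e3
    rw [show (1 : ℤ) + ((i : ℤ) + 2) = 1 + 1 + i + 1 by ring,
      show (1 : ℤ) - ((i : ℤ) + 2) = 1 - 2 - i by ring] at e4
    linarith
  have e1 := hx1 1 le_rfl
  have e2 := hx2 1 le_rfl
  have e3 := h₁ 1
  have e4 := h₂ 1
  norm_num at e1 e2 e3 e4
  have ha : ω₁ 1 = 1 := by rw [h10] at e1; linarith
  have hb : ω₂ 1 = 0 := by rw [h20] at e2; linarith
  refine ⟨⟨?_, key h₁ hx1⟩, ⟨?_, key h₂ hx2⟩, ha, hb⟩
  · norm_num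
    rw [ho1, ha]
    norm_num
  · norm_num
    rw [ho2, hb]
    norm_num

/-- **asymptotic pairs** of irrational slope -/
theorem pair_irr {S₁ S₂ ω₁ ω₂ : ℤ → ℤ} {α : ℝ} (h₁ : IsH S₁ ω₁) (h₂ : IsH S₂ ω₂)
    (hα₁ : Slope S₁ α) (hα₂ : Slope S₂ α) (hirr : Irrational α) (K : ℤ)
    (hc : ∀ n, n < K → ω₁ n = ω₂ n) (ho1 : ω₁ K = 0) (ho2 : ω₂ K = 1) :
    EqAt ω₁ (K + 1) ∧ EqAt ω₂ (K + 1) ∧ ω₁ (K + 1) = 1 ∧ ω₂ (K + 1) = 0 := by
  have hS : ∀ {S ω : ℤ → ℤ}, IsH S ω → IsH (fun n => S (K + n) - S K) (fun n => ω (K + n)) := by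
    intro S ω h n
    show S (K + (n + 1)) - S K = S (K + n) - S K + ω (K + n)
    rw [← add_assoc, h (K + n)]
    ring
  have hSl : ∀ {S : ℤ → ℤ}, Slope S α → Slope (fun n => S (K + n) - S K) α := by
    intro S h m k
    have := h (K + m) k
    show |(((S (K + (m + k)) - S K : ℤ) : ℝ) - ((S (K + m) - S K : ℤ) : ℝ)) - k * α| ≤ 1
    push_cast
    rw [← add_assoc]
    have e : (S (K + m + ↑k) : ℝ) - S K - (S (K + m) - S K) - k * α =
      (S (K + m + ↑k) : ℝ) - S (K + m) - k * α := by ring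
    rw [e]
    exact this
  have h := pair_zero (hS h₁) (hS h₂) (hSl hα₁) (hSl hα₂) hirr
    (fun n hn => hc (K + n) (by omega)) (by simp) (by simp) (by simpa using ho1)
    (by simpa using ho2)
  have hE : ∀ {ω : ℤ → ℤ}, EqAt (fun n => ω (K + n)) 1 → EqAt ω (K + 1) := by
    intro ω hE
    refine ⟨?_, fun i => ?_⟩
    · have := hE.1
      simp only at this
      rw [show K + (1 - 1) = K + 1 - 1 by ring] at this
      exact this
    · have := hE.2 i
      simp only at this
      rw [show K + (1 + 1 + (i : ℤ)) = K + 1 + 1 + i by ring,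
        show K + (1 - 2 - (i : ℤ)) = K + 1 - 2 - i by ring] at this
      exact this
  exact ⟨hE h.1, hE h.2.1, h.2.2.1, h.2.2.2⟩

/-- skew words, one step up -/
theorem skew_up {S ω : ℤ → ℤ} (hS : IsH S ω) (hB : Bal S) {p : ℤ} {q : ℕ} (hq : 0 < q)
    (hcop : ∀ i : ℕ, (q : ℤ) ∣ i * p → q ∣ i)
    (hE : ∀ (m : ℤ) (k : ℕ), |(q : ℤ) * (S (m + k) - S m) - k * p| ≤ q) {m₀ : ℤ}
    (hm₀ : S (m₀ + q) - S m₀ = p + 1) : EqAt ω (m₀ + q) ∧ EqAt ω m₀ := by
  have hq' : (0 : ℤ) < q := by exact_mod_cast hq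
  set E : ℤ → ℤ := fun n => q * S n - n * p with hEd
  have hEE : ∀ a b : ℤ, |E a - E b| ≤ q := by
    intro a b
    rcases le_total b a with h | h
    · obtain ⟨k, hk⟩ := Int.eq_ofNat_of_zero_le (sub_nonneg.2 h)
      have h1 := hE b k
      rw [← hk, show b + (a - b) = a by ring] at h1
      have h2 : E a - E b = q * (S a - S b) - (a - b) * p := by simp only [hEd]; ring
      rw [h2]
      exact h1
    · obtain ⟨k, hk⟩ := Int.eq_ofNat_of_zero_le (sub_nonneg.2 h)
      have h1 := hE a k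
      rw [← hk, show a + (b - a) = b by ring] at h1
      have h2 : E a - E b = -(q * (S b - S a) - (b - a) * p) := by simp only [hEd]; ring
      rw [h2, abs_neg]
      exact h1
  set N : ℤ := m₀ + q with hN
  have hNN : E N - E m₀ = q := by
    simp only [hEd, hN]
    have : S (m₀ + q) = S m₀ + p + 1 := by linarith
    rw [this]
    ring
  have hmax : ∀ a, E a ≤ E N := by
    intro a
    have := (abs_le.1 (hEE a m₀)).2
    linarith
  have hminE : ∀ a, E m₀ ≤ E a := by
    intro a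
    have := (abs_le.1 (hEE N a)).2
    linarith
  have hp : ∀ n, p ≤ S (n + q) - S n := by
    intro n
    have := hB m₀ n q
    linarith
  have hEq : ∀ n, E n ≤ E (n + q) := by
    intro n
    have h := hp n
    simp only [hEd]
    nlinarith
  have hup : ∀ l : ℕ, E (N + q * l) = E N := by
    intro l
    apply le_antisymm (hmax _)
    induction l with
    | zero => simp
    | succ l ih =>
      have h := hEq (N + q * l)
      rw [show N + (q : ℤ) * l + q = N + q * ((l + 1 : ℕ) : ℤ) by push_cast; ring] at h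
      exact ih.trans h
  have hdown : ∀ l : ℕ, E (m₀ - q * l) = E m₀ := by
    intro l
    apply le_antisymm _ (hminE _)
    induction l with
    | zero => simp
    | succ l ih =>
      have h := hEq (m₀ - q * ((l + 1 : ℕ) : ℤ))
      rw [show m₀ - (q : ℤ) * ((l + 1 : ℕ) : ℤ) + q = m₀ - q * l by push_cast; ring] at h
      exact h.trans ih
  -- values E a = E b mod q force q | a - b
  have hdiv : ∀ (a : ℤ) (i : ℕ), (q : ℤ) ∣ E (a + i) - E a → q ∣ i := by
    intro a i h
    apply hcop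
    have h1 : E (a + i) - E a = q * (S (a + i) - S a) - i * p := by simp only [hEd]; ring
    rw [h1] at h
    have h2 : (i : ℤ) * p = q * (S (a + i) - S a) - (q * (S (a + i) - S a) - i * p) := by ring
    rw [h2]
    exact dvd_sub (dvd_mul_right _ _) h
  have hXN : ∀ i : ℕ, 1 ≤ i → S (N + i) + S (N - i) = 2 * S N - 1 := by
    intro i hi
    have e1 : E (N + i) + E (N - i) - 2 * E N = q * (S (N + i) + S (N - i) - 2 * S N) := by
      simp only [hEd]; ring
    have b1 := hmax (N + i)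
    have b2 := hmax (N - i)
    have b3 := hminE (N + i)
    have b4 := hminE (N - i)
    set X := S (N + i) + S (N - i) - 2 * S N with hX
    have hX1 : X ≤ 0 := by
      by_contra hc
      push Not at hc
      nlinarith
    have hX2 : -2 ≤ X := by
      by_contra hc
      push Not at hc
      nlinarith
    have hX0 : X ≠ 0 := by
      intro h0
      rw [h0, mul_zero] at e1
      have h1 : E (N - i) = E N := by linarith
      have h2 : q ∣ i := by
        apply hdiv (N - i) i
        rw [sub_add_cancel, h1, sub_self]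
        exact dvd_zero _
      obtain ⟨l, hl⟩ := h2
      have hl1 : 1 ≤ l := by
        by_contra hc
        have : l = 0 := by omega
        rw [this] at hl
        omega
      have h3 := hdown (l - 1)
      rw [show m₀ - (q : ℤ) * ((l - 1 : ℕ) : ℤ) = N - i by
        rw [hN, hl]; push_cast [Nat.cast_sub hl1]; ring] at h3
      linarith
    have hX2' : X ≠ -2 := by
      intro h0
      rw [h0] at e1
      have h1 : E (N + i) = E N - q := by linarith
      have h2 : q ∣ i := by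
        apply hdiv N i
        rw [h1]
        exact ⟨-1, by ring⟩
      obtain ⟨l, hl⟩ := h2
      have h3 := hup l
      rw [show N + (q : ℤ) * (l : ℤ) = N + i by rw [hl]; push_cast; ring] at h3
      linarith
    omega
  have hXm : ∀ i : ℕ, 1 ≤ i → S (m₀ + i) + S (m₀ - i) = 2 * S m₀ + 1 := by
    intro i hi
    have e1 : E (m₀ + i) + E (m₀ - i) - 2 * E m₀ =
        q * (S (m₀ + i) + S (m₀ - i) - 2 * S m₀) := by
      simp only [hEd]; ring
    have b1 := hmax (m₀ + i)
    have b2 := hmax (m₀ - i)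
    have b3 := hminE (m₀ + i)
    have b4 := hminE (m₀ - i)
    set X := S (m₀ + i) + S (m₀ - i) - 2 * S m₀ with hX
    have hX1 : 0 ≤ X := by
      by_contra hc
      push Not at hc
      nlinarith
    have hX2 : X ≤ 2 := by
      by_contra hc
      push Not at hc
      nlinarith
    have hX0 : X ≠ 0 := by
      intro h0
      rw [h0, mul_zero] at e1
      have h1 : E (m₀ + i) = E m₀ := by linarith
      have h2 : q ∣ i := by
        apply hdiv m₀ i
        rw [h1, sub_self]
        exact dvd_zero _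
      obtain ⟨l, hl⟩ := h2
      have hl1 : 1 ≤ l := by
        by_contra hc
        have : l = 0 := by omega
        rw [this] at hl
        omega
      have h3 := hup (l - 1)
      rw [show N + (q : ℤ) * ((l - 1 : ℕ) : ℤ) = m₀ + i by
        rw [hN, hl]; push_cast [Nat.cast_sub hl1]; ring] at h3
      linarith
    have hX2' : X ≠ 2 := by
      intro h0
      rw [h0] at e1
      have h1 : E (m₀ - i) = E m₀ + q := by linarith
      have h2 : q ∣ i := by
        apply hdiv (m₀ - i) i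
        rw [sub_add_cancel, h1]
        exact ⟨-1, by ring⟩
      obtain ⟨l, hl⟩ := h2
      have h3 := hdown l
      rw [show m₀ - (q : ℤ) * (l : ℤ) = m₀ - i by rw [hl]; push_cast; ring] at h3
      linarith
    omega
  constructor
  · refine ⟨?_, fun i => ?_⟩
    · have e1 := hXN 1 le_rfl
      have e2 := hS N
      have e3 := hS (N - 1)
      rw [sub_add_cancel] at e3
      push_cast at e1
      intro h
      omega
    · have e1 := hXN (i + 1) (by omega)
      have e2 := hXN (i + 2) (by omega)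
      have e3 := hS (N + 1 + i)
      have e4 := hS (N - 2 - i)
      push_cast at e1 e2
      rw [show N + ((i : ℤ) + 1) = N + 1 + i by ring,
        show N - ((i : ℤ) + 1) = N - 2 - i + 1 by ring] at e1
      rw [show N + ((i : ℤ) + 2) = N + 1 + i + 1 by ring,
        show N - ((i : ℤ) + 2) = N - 2 - i by ring] at e2
      linarith
  · refine ⟨?_, fun i => ?_⟩
    · have e1 := hXm 1 le_rfl
      have e2 := hS m₀
      have e3 := hS (m₀ - 1)
      rw [sub_add_cancel] at e3
      push_cast at e1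
      intro h
      omega
    · have e1 := hXm (i + 1) (by omega)
      have e2 := hXm (i + 2) (by omega)
      have e3 := hS (m₀ + 1 + i)
      have e4 := hS (m₀ - 2 - i)
      push_cast at e1 e2
      rw [show m₀ + ((i : ℤ) + 1) = m₀ + 1 + i by ring,
        show m₀ - ((i : ℤ) + 1) = m₀ - 2 - i + 1 by ring] at e1
      rw [show m₀ + ((i : ℤ) + 2) = m₀ + 1 + i + 1 by ring,
        show m₀ - ((i : ℤ) + 2) = m₀ - 2 - i by ring] at e2
      linarith

/-- **skew words**: rational slope, not periodic -/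
theorem skew {S ω : ℤ → ℤ} {α : ℝ} (hS : IsH S ω) (hB : Bal S) (hα : Slope S α)
    (hrat : ¬ Irrational α) (hnp : ¬ ∃ q : ℕ, 0 < q ∧ ∀ n, ω (n + q) = ω n) :
    ∃ N N' : ℤ, N ≠ N' ∧ EqAt ω N ∧ EqAt ω N' := by
  unfold Irrational at hrat
  push Not at hrat
  obtain ⟨r, hr⟩ := hrat
  set q : ℕ := r.den with hqd
  set p : ℤ := r.num with hpd
  have hq : 0 < q := r.den_pos
  have hq' : (0 : ℝ) < q := by exact_mod_cast hq
  have hαq : (q : ℝ) * α = p := by
    rw [← hr, hqd, hpd, Rat.cast_def]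
    field_simp
  have hcop : ∀ p' : ℤ, p'.natAbs.Coprime q → ∀ i : ℕ, (q : ℤ) ∣ i * p' → q ∣ i := by
    intro p' hp' i h
    have h1 : (q : ℤ) ∣ (i : ℤ) := by
      apply IsCoprime.dvd_of_dvd_mul_right _ h
      rw [Int.isCoprime_iff_gcd_eq_one, Int.gcd, Int.natAbs_natCast]
      exact hp'.symm
    exact_mod_cast h1
  have hE : ∀ (m : ℤ) (k : ℕ), |(q : ℤ) * (S (m + k) - S m) - k * p| ≤ q := by
    intro m k
    have h1 := hα m k
    have h2 : |(q : ℝ) * ((S (m + k) : ℝ) - S m) - k * p| ≤ q := by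
      rw [← hαq]
      have e : (q : ℝ) * ((S (m + k) : ℝ) - S m) - k * (q * α) =
          q * (((S (m + k) : ℝ) - S m) - k * α) := by ring
      rw [e, abs_mul, Nat.abs_cast]
      calc (q : ℝ) * |((S (m + k) : ℝ) - S m) - k * α| ≤ q * 1 :=
            mul_le_mul_of_nonneg_left h1 hq'.le
        _ = q := mul_one _
    exact_mod_cast h2
  have hex : ∃ m₀, S (m₀ + q) - S m₀ ≠ p := by
    by_contra hcon
    push Not at hcon
    apply hnp
    refine ⟨q, hq, fun n => ?_⟩
    have e1 := hcon n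
    have e2 := hcon (n + 1)
    have e3 := hS n
    have e4 := hS (n + q)
    rw [show n + 1 + (q : ℤ) = n + q + 1 by ring] at e2
    linarith
  obtain ⟨m₀, hm₀⟩ := hex
  have h1 := hE m₀ q
  have h2 : (q : ℤ) * (S (m₀ + q) - S m₀) - q * p = q * ((S (m₀ + q) - S m₀) - p) := by ring
  rw [h2, abs_mul, Nat.abs_cast] at h1
  have hqz : (0 : ℤ) < q := by exact_mod_cast hq
  have h3 : |(S (m₀ + q) - S m₀) - p| ≤ 1 := by
    by_contra hc
    push Not at hc
    nlinarith
  rw [abs_le] at h3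
  rcases lt_or_gt_of_ne hm₀ with hlt | hgt
  · -- step down: complement
    have h4 : S (m₀ + q) - S m₀ = p - 1 := by omega
    have h5 := skew_up (S := fun n => n - S n) (ω := fun n => 1 - ω n) (p := q - p) (q := q)
      (m₀ := m₀) (isH_compl hS) ?_ hq ?_ ?_ ?_
    · have hc : ∀ N, EqAt (fun n => 1 - ω n) N → EqAt ω N := by
        intro N hN
        refine ⟨fun h => hN.1 ?_, fun i => ?_⟩
        · show 1 - ω (N - 1) = 1 - ω N
          rw [h]
        · have := hN.2 i
          simp only at this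
          linarith
      exact ⟨m₀ + q, m₀, by omega, hc _ h5.1, hc _ h5.2⟩
    · intro m n k
      show ((m + k) - S (m + k) - (m - S m)) - ((n + k) - S (n + k) - (n - S n)) ≤ 1
      have := hB n m k
      linarith
    · apply hcop
      have h6 : Int.gcd (q - p) q = 1 := by
        have : Int.gcd p q = 1 := by
          rw [Int.gcd, Int.natAbs_natCast]
          exact r.reduced
        rw [Int.gcd_comm, Int.gcd_self_sub_right, Int.gcd_comm]
        exact this
      rw [Int.gcd, Int.natAbs_natCast] at h6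
      exact h6
    · intro m k
      show |(q : ℤ) * ((m + k) - S (m + k) - (m - S m)) - k * (q - p)| ≤ q
      have e : (q : ℤ) * ((m + k) - S (m + k) - (m - S m)) - k * (q - p) =
          -((q : ℤ) * (S (m + k) - S m) - k * p) := by ring
      rw [e, abs_neg]
      exact hE m k
    · show (m₀ + q) - S (m₀ + q) - (m₀ - S m₀) = q - p + 1
      linarith
  · have h4 : S (m₀ + q) - S m₀ = p + 1 := by omega
    have h5 := skew_up hS hB hq (hcop p r.reduced) hE h4
    exact ⟨m₀ + q, m₀, by omega, h5.1, h5.2⟩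

end Pool.Agent.L3
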