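import Pool.Agent.Work.MP_5e120e_nt.Lagr

/-! # Lagrange value 3 occurs in at most one square class of each `GL₂(ℚ)`-orbit -/

namespace Pool.Agent.Results.MP_5e120e_nt.SquareClasses

/-- The Lagrange value of `x`: the supremum (in `[-∞, ∞]`) of the real numbers `c > 0` such that
`|x - p/q| < 1/(c q^2)` has infinitely many rational solutions `p/q` (written in lowest terms). -/
noncomputable def lagrangeValue (x : ℝ) : EReal :=
  sSup {t : EReal | ∃ c : ℝ, 0 < c ∧
    {r : ℚ | |x - r| < 1 / (c * (r.den : ℝ) ^ 2)}.Infinite ∧ t = (c : EReal)}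

/-- `x` is a root of a quadratic polynomial with integral coefficients. -/
def IsQuadratic (x : ℝ) : Prop :=
  ∃ A B C : ℤ, A ≠ 0 ∧ (A : ℝ) * x ^ 2 + B * x + C = 0

/-- For every natural number `n` which is not a perfect square there is `δ > 0` such that for every
irrational number `x` which is not quadratic, and every integral matrix of determinant `± n`, one of
`x` and its image under the matrix has Lagrange value at least `3 + δ`. -/
theorem result (n : ℕ) (hn : ¬ IsSquare n) : ∃ δ : ℝ, 0 < δ ∧
    ∀ x : ℝ, Irrational x → ¬ IsQuadratic x → ∀ a b c d : ℤ, |a * d - b * c| = n →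
      ((3 + δ : ℝ) : EReal) ≤
        max (lagrangeValue x) (lagrangeValue ((a * x + b) / (c * x + d))) :=
  Pool.Agent.L3.main n hn

end Pool.Agent.Results.MP_5e120e_nt.SquareClasses
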