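import Pool.Agent.Work.MP_5e120e_nt.Ret

/-! # States behind the windows of a word -/

namespace Pool.Agent.L3

open Filter

/-- the block matrices -/
def Blk (a : ℤ) : Matrix (Fin 2) (Fin 2) ℤ := !![(1 + a) * (1 + a) + 1, 1 + a; 1 + a, 1]

/-- products of block matrices -/
def Pr (f : ℤ → ℤ) (m : ℤ) : ℕ → Matrix (Fin 2) (Fin 2) ℤ
  | 0 => 1
  | (r + 1) => Pr f m r * Blk (f (m + r))

theorem det_Blk (a : ℤ) : (Blk a).det = 1 := by
  rw [Blk, Matrix.det_fin_two_of]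
  ring

theorem det_Pr (f : ℤ → ℤ) (m : ℤ) (r : ℕ) : (Pr f m r).det = 1 := by
  induction r with
  | zero => simp [Pr]
  | succ r ih => rw [Pr, Matrix.det_mul, ih, det_Blk, one_mul]

theorem Pr_add (f : ℤ → ℤ) (m : ℤ) (r s : ℕ) : Pr f m (r + s) = Pr f m r * Pr f (m + r) s := by
  induction s with
  | zero => simp [Pr]
  | succ s ih =>
    rw [← add_assoc, Pr, ih, Pr, Matrix.mul_assoc]
    congr 3
    push_cast
    ring_nf

theorem Pr_congr {f g : ℤ → ℤ} {m m' : ℤ} {r : ℕ} (h : ∀ i : ℕ, i < r → f (m + i) = g (m' + i)) :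
    Pr f m r = Pr g m' r := by
  induction r with
  | zero => rfl
  | succ r ih => rw [Pr, Pr, ih (fun i hi => h i (by omega)), h r (by omega)]

/-- the window of `f` at `m` of length `N` is read by the digits `d` at the place `k` -/
def pat (d : ℕ → ℤ) (f : ℤ → ℤ) (m : ℤ) (N k : ℕ) : Prop :=
  ∀ i : ℕ, i < N → d (k + 2 * i) = 1 + f (m + i) ∧ d (k + 2 * i + 1) = 1 + f (m + i)

/-- the elementary matrices -/
def El (a : ℤ) : Matrix (Fin 2) (Fin 2) ℤ := !![a, 1; 1, 0]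

theorem El_mul (a : ℤ) : El (1 + a) * El (1 + a) = Blk a := by
  rw [El, Blk]
  ext i j
  fin_cases i <;> fin_cases j <;> simp [Matrix.mul_apply, Fin.sum_univ_two]

/-- a matrix modulo `n` -/
def rd (n : ℕ) (P : Matrix (Fin 2) (Fin 2) ℤ) : Matrix (Fin 2) (Fin 2) (ZMod n) :=
  P.map (fun z : ℤ => (z : ZMod n))

theorem rd_mul (n : ℕ) (P Q : Matrix (Fin 2) (Fin 2) ℤ) : rd n (P * Q) = rd n P * rd n Q := by
  unfold rd
  exact Matrix.map_mul (f := Int.castRingHom (ZMod n))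

theorem rd_one (n : ℕ) : rd n 1 = 1 := by
  unfold rd
  ext i j
  fin_cases i <;> fin_cases j <;> simp

section
variable {n : ℕ} {d : ℕ → ℤ} {St : ℕ → Matrix (Fin 2) (Fin 2) (ZMod n)}

/-- the set of states which occur infinitely often behind a window -/
def ES (d : ℕ → ℤ) (St : ℕ → Matrix (Fin 2) (Fin 2) (ZMod n)) (f : ℤ → ℤ) (m : ℤ) (N : ℕ) :
    Set (Matrix (Fin 2) (Fin 2) (ZMod n)) :=
  {σ | ∃ᶠ k in atTop, pat d f m N k ∧ St (k + 2 * N) = σ}

theorem pat_congr {f g : ℤ → ℤ} {m m' : ℤ} {N k : ℕ}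
    (h : ∀ i : ℕ, i < N → f (m + i) = g (m' + i)) : pat d f m N k ↔ pat d g m' N k := by
  unfold pat
  constructor
  · intro h1 i hi
    rw [← h i hi]
    exact h1 i hi
  · intro h1 i hi
    rw [h i hi]
    exact h1 i hi

theorem ES_congr {f g : ℤ → ℤ} {m m' : ℤ} {N : ℕ}
    (h : ∀ i : ℕ, i < N → f (m + i) = g (m' + i)) : ES d St f m N = ES d St g m' N := by
  ext σ
  unfold ES
  simp only [Set.mem_ofPred_eq, pat_congr (d := d) h]

theorem freq_shift {p q : ℕ → Prop} (c : ℕ) (h : ∃ᶠ k in atTop, p k)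
    (hpq : ∀ k, p k → q (k + c)) : ∃ᶠ k in atTop, q k := by
  rw [frequently_atTop] at h ⊢
  intro a
  obtain ⟨b, hb, hp⟩ := h a
  exact ⟨b + c, by omega, hpq b hp⟩

theorem pat_suffix {f : ℤ → ℤ} {m : ℤ} {j N k : ℕ} (h : pat d f m (j + N) k) :
    pat d f (m + j) N (k + 2 * j) := by
  intro i hi
  have := h (j + i) (by omega)
  rw [show k + 2 * (j + i) = k + 2 * j + 2 * i by ring] at this
  push_cast at this
  rw [add_assoc m]
  exact this

theorem pat_prefix {f : ℤ → ℤ} {m : ℤ} {N r k : ℕ} (h : pat d f m (N + r) k) :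
    pat d f m N k := fun i hi => h i (by omega)

theorem ES_suffix (f : ℤ → ℤ) (m : ℤ) (j N : ℕ) :
    ES d St f m (j + N) ⊆ ES d St f (m + j) N := by
  intro σ hσ
  refine freq_shift (2 * j) hσ ?_
  rintro k ⟨h1, h2⟩
  refine ⟨pat_suffix h1, ?_⟩
  rw [← h2]
  congr 1
  ring

variable (hSt : ∀ k, St (k + 1) = St k * rd n (El (d k)))
include hSt

theorem St_run {f : ℤ → ℤ} {m : ℤ} {r k : ℕ} (h : pat d f m r k) :
    St (k + 2 * r) = St k * rd n (Pr f m r) := by
  induction r with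
  | zero => simp [Pr, rd_one]
  | succ r ih =>
    have h1 := ih (pat_prefix h)
    have h2 := h r (by omega)
    have e1 := hSt (k + 2 * r)
    have e2 := hSt (k + 2 * r + 1)
    rw [h2.1] at e1
    rw [h2.2] at e2
    rw [show k + 2 * (r + 1) = k + 2 * r + 1 + 1 by ring, e2, e1, h1, Pr, rd_mul, ← El_mul,
      rd_mul]
    simp only [Matrix.mul_assoc]

theorem ES_right (f : ℤ → ℤ) (m : ℤ) (N r : ℕ) :
    ES d St f m (N + r) ⊆ (fun τ => τ * rd n (Pr f (m + N) r)) '' ES d St f m N := by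
  intro σ hσ
  set P := Pr f (m + N) r with hP
  have hinv : P * P.adjugate = 1 := by
    rw [Matrix.mul_adjugate, det_Pr, one_smul]
  have hinv' : rd n P * rd n P.adjugate = 1 := by rw [← rd_mul, hinv, rd_one]
  have hinv2 : rd n P.adjugate * rd n P = 1 := by
    rw [← rd_mul, Matrix.adjugate_mul, det_Pr, one_smul, rd_one]
  refine ⟨σ * rd n P.adjugate, ?_, ?_⟩
  · refine Frequently.mono hσ ?_
    rintro k ⟨h1, h2⟩
    refine ⟨pat_prefix h1, ?_⟩
    have h3 := St_run hSt (pat_suffix h1)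
    rw [show k + 2 * N + 2 * r = k + 2 * (N + r) by ring, h2, ← hP] at h3
    rw [h3, Matrix.mul_assoc, hinv', Matrix.mul_one]
  · show σ * rd n P.adjugate * rd n P = σ
    rw [Matrix.mul_assoc, hinv2, Matrix.mul_one]

omit hSt in
theorem mul_Pr_inj (f : ℤ → ℤ) (m : ℤ) (r : ℕ) :
    Function.Injective fun τ : Matrix (Fin 2) (Fin 2) (ZMod n) => τ * rd n (Pr f m r) := by
  intro a b hab
  have h1 : rd n (Pr f m r) * rd n (Pr f m r).adjugate = 1 := by
    rw [← rd_mul, Matrix.mul_adjugate, det_Pr, one_smul, rd_one]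
  have h2 := congrArg (fun τ => τ * rd n (Pr f m r).adjugate) hab
  simp only [Matrix.mul_assoc, h1, Matrix.mul_one] at h2
  exact h2

variable [NeZero n]

theorem ES_card_right (f : ℤ → ℤ) (m : ℤ) (N r : ℕ) :
    (ES d St f m (N + r)).ncard ≤ (ES d St f m N).ncard :=
  (Set.ncard_le_ncard (ES_right hSt f m N r) (Set.toFinite _)).trans
    (Set.ncard_image_le (Set.toFinite _))

omit hSt in
theorem ES_card_suffix (f : ℤ → ℤ) (m : ℤ) (j N : ℕ) :
    (ES d St f m (j + N)).ncard ≤ (ES d St f (m + j) N).ncard :=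
  Set.ncard_le_ncard (ES_suffix f m j N) (Set.toFinite _)

omit hSt in
theorem ES_nonempty {f : ℤ → ℤ} {m : ℤ} {N : ℕ} (h : ∃ᶠ k in atTop, pat d f m N k) :
    (ES d St f m N).Nonempty := by
  by_contra hcon
  rw [Set.not_nonempty_iff_eq_empty] at hcon
  have h1 : ∀ σ, ∀ᶠ k in atTop, ¬ (pat d f m N k ∧ St (k + 2 * N) = σ) := by
    intro σ
    have : σ ∉ ES d St f m N := by rw [hcon]; exact Set.notMem_empty σ
    exact not_frequently.1 this
  have h2 := (eventually_all (l := atTop)).2 h1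
  obtain ⟨k, h3, h4⟩ := (h.and_eventually h2).exists
  exact h4 (St (k + 2 * N)) ⟨h3, rfl⟩

/-- **constant cardinality** -/
theorem ES_const {α : ℝ} (hα : Irrational α) : ∃ (D N₁ : ℕ), ∀ (f : ℤ → ℤ) (m : ℤ) (N : ℕ)
    (θ : ℝ), N₁ ≤ N → (∀ i : ℕ, i < N → f (m + i) = rot α θ i) → (ES d St f m N).ncard = D := by
  classical
  have hex : ∃ D : ℕ, ∃ (θ : ℝ) (N : ℕ), (ES d St (rot α θ) 0 N).ncard = D := ⟨_, 0, 0, rfl⟩
  obtain ⟨θ', N', h'⟩ := Nat.find_spec hex
  obtain ⟨M, hM⟩ := rot_rec hα θ' N'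
  refine ⟨Nat.find hex, M + N', fun f m N θ hN hf => ?_⟩
  have e0 : ES d St f m N = ES d St (rot α θ) 0 N := ES_congr (fun i hi => by
    rw [hf i hi, zero_add])
  rw [e0]
  apply le_antisymm
  · obtain ⟨j, hj, hw⟩ := hM θ
    have h1 : ES d St (rot α θ) (0 + j) N' = ES d St (rot α θ') 0 N' := ES_congr (fun i hi => by
      rw [zero_add, zero_add, hw i hi])
    have h2 := ES_card_suffix (d := d) (St := St) (rot α θ) 0 j N'
    rw [h1, h'] at h2
    have h3 := ES_card_right hSt (rot α θ) 0 (j + N') (N - (j + N'))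
    rw [show j + N' + (N - (j + N')) = N by omega] at h3
    exact h3.trans h2
  · exact Nat.find_min' hex ⟨θ, N, rfl⟩

end

end Pool.Agent.L3
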