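import Mathlib

/-! # Bi-infinite words with the Markoff property

A word is `ω : ℤ → ℤ` with values in `{0, 1}`; `S : ℤ → ℤ` with `S (n + 1) = S n + ω n` is its
height function. -/

namespace Pool.Agent.L3

/-- Markoff property at the transitions `0 1` -/
def MP (ω : ℤ → ℤ) : Prop := ∀ K : ℤ, ω K = 0 → ω (K + 1) = 1 → ∀ j : ℕ,
  (∀ i : ℕ, i < j → ω (K + 2 + i) = ω (K - 1 - i)) → ω (K + 2 + j) ≤ ω (K - 1 - j)

/-- a word with values in `{0, 1}` -/
def IsW (ω : ℤ → ℤ) : Prop := ∀ n, ω n = 0 ∨ ω n = 1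

/-- `S` is the height function of `ω` -/
def IsH (S ω : ℤ → ℤ) : Prop := ∀ n, S (n + 1) = S n + ω n

/-- balanced -/
def Bal (S : ℤ → ℤ) : Prop := ∀ (m n : ℤ) (k : ℕ), (S (m + k) - S m) - (S (n + k) - S n) ≤ 1

theorem exists_height (ω : ℤ → ℤ) : ∃ S : ℤ → ℤ, IsH S ω ∧ S 0 = 0 := by
  refine ⟨fun n => ∑ i ∈ Finset.Ico 0 n, ω i - ∑ i ∈ Finset.Ico n 0, ω i, ?_, by simp⟩
  intro n
  show ∑ i ∈ Finset.Ico 0 (n + 1), ω i - ∑ i ∈ Finset.Ico (n + 1) 0, ω i =
    (∑ i ∈ Finset.Ico 0 n, ω i - ∑ i ∈ Finset.Ico n 0, ω i) + ω n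
  rcases le_or_gt 0 n with h | h
  · have h1 : Finset.Ico (0 : ℤ) (n + 1) = insert n (Finset.Ico 0 n) := by
      ext x
      simp only [Finset.mem_Ico, Finset.mem_insert]
      omega
    have h2 : Finset.Ico (n + 1) (0 : ℤ) = ∅ := by
      ext x
      simp only [Finset.mem_Ico, Finset.notMem_empty, iff_false]
      omega
    have h3 : Finset.Ico n (0 : ℤ) = ∅ := by
      ext x
      simp only [Finset.mem_Ico, Finset.notMem_empty, iff_false]
      omega
    rw [h1, h2, h3, Finset.sum_insert (by simp)]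
    simp
    ring
  · have h1 : Finset.Ico n (0 : ℤ) = insert n (Finset.Ico (n + 1) 0) := by
      ext x
      simp only [Finset.mem_Ico, Finset.mem_insert]
      omega
    have h2 : Finset.Ico (0 : ℤ) (n + 1) = ∅ := by
      ext x
      simp only [Finset.mem_Ico, Finset.notMem_empty, iff_false]
      omega
    have h3 : Finset.Ico (0 : ℤ) n = ∅ := by
      ext x
      simp only [Finset.mem_Ico, Finset.notMem_empty, iff_false]
      omega
    rw [h1, h2, h3, Finset.sum_insert (by simp)]
    simp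

/-- the mirror argument: the case of a light window to the left of a heavy one -/
theorem mirror {ω S : ℤ → ℤ} (hW : IsW ω) (hS : IsH S ω) (hM : MP ω) {k : ℕ} (hk : 1 ≤ k)
    (hmin : ∀ k' : ℕ, k' < k → ∀ m n : ℤ, (S (m + k') - S m) - (S (n + k') - S n) ≤ 1)
    {m n : ℤ} (hmn : (S (m + k) - S m) - (S (n + k) - S n) ≥ 2) (hlt : n < m)
    (hclose : ∀ m' n' : ℤ, (S (m' + k) - S m') - (S (n' + k) - S n') ≥ 2 →
      (m - n).natAbs ≤ (m' - n').natAbs) : False := by
  have h01 : ∀ i, 0 ≤ ω i ∧ ω i ≤ 1 := by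
    intro i
    rcases hW i with h | h <;> omega
  -- the height of the window at `i`
  set h : ℤ → ℤ := fun i => S (i + k) - S i with hh
  have hstep : ∀ i, h (i + 1) - h i = ω (i + k) - ω i := by
    intro i
    have h1 := hS i
    have h2 := hS (i + k)
    simp only [hh]
    rw [show i + 1 + (k : ℤ) = i + k + 1 by ring, h2, h1]
    ring
  -- difference at most 2
  have hle2 : ∀ a b, h a - h b ≤ 2 := by
    intro a b
    have h1 := hmin (k - 1) (by omega) a b
    have h2 := hS (a + (k - 1 : ℕ))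
    have h3 := hS (b + (k - 1 : ℕ))
    have h4 := h01 (a + (k - 1 : ℕ))
    have h5 := h01 (b + (k - 1 : ℕ))
    have h6 : a + (k - 1 : ℕ) + 1 = a + k := by push_cast [Nat.cast_sub hk]; ring
    have h7 : b + (k - 1 : ℕ) + 1 = b + k := by push_cast [Nat.cast_sub hk]; ring
    rw [h6] at h2
    rw [h7] at h3
    simp only [hh]
    omega
  have hmn2 : h m - h n = 2 := le_antisymm (hle2 m n) hmn
  have hmid : ∀ i, n < i → i < m → h i = h n + 1 := by
    intro i hi1 hi2
    have h1 : ¬ (h i - h n ≥ 2) := by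
      intro hc
      have := hclose i n hc
      omega
    have h2 : ¬ (h m - h i ≥ 2) := by
      intro hc
      have := hclose m i hc
      omega
    omega
  have hm2 : n + 2 ≤ m := by
    by_contra hc
    have : m = n + 1 := by omega
    have h1 := hstep n
    rw [← this] at h1
    have h2 := h01 n
    have h3 := h01 (n + k)
    omega
  -- letters at the ends
  have hn0 : ω n = 0 ∧ ω (n + k) = 1 := by
    have h1 := hstep n
    have h4 := h01 n
    have h5 := h01 (n + k)
    rcases eq_or_lt_of_le hm2 with he | hl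
    · have h2 := hmid (n + 1) (by omega) (by omega)
      omega
    · have h2 := hmid (n + 1) (by omega) (by omega)
      omega
  have hm1 : ω (m - 1) = 0 ∧ ω (m - 1 + k) = 1 := by
    have h1 := hstep (m - 1)
    rw [sub_add_cancel] at h1
    have h4 := h01 (m - 1)
    have h5 := h01 (m - 1 + k)
    have h2 := hmid (m - 1) (by omega) (by omega)
    omega
  have hper : ∀ i, n < i → i < m - 1 → ω (i + k) = ω i := by
    intro i hi1 hi2
    have h1 := hstep i
    have h2 := hmid i hi1 (by omega)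
    have h3 := hmid (i + 1) (by omega) (by omega)
    omega
  -- the prefix heights
  set b : ℕ → ℤ := fun j => S (n + j) - S n with hb
  set a : ℕ → ℤ := fun j => S (m + j) - S m with ha
  have hb0 : b 0 = 0 := by simp [hb]
  have hbk : b k = h n := rfl
  have hak : a k = h m := rfl
  have hab : ∀ j : ℕ, 1 ≤ j → j < k → a j = b j + 1 := by
    intro j hj1 hj2
    have h1 := hmin j hj2 m n
    have h2 := hmin (k - j) (by omega) (m + j) (n + j)
    rw [show m + (j : ℤ) + (k - j : ℕ) = m + k by push_cast [Nat.cast_sub hj2.le]; ring,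
      show n + (j : ℤ) + (k - j : ℕ) = n + k by push_cast [Nat.cast_sub hj2.le]; ring] at h2
    simp only [ha, hb]
    simp only [hh] at hmn2
    omega
  have hpal : ∀ j : ℕ, j ≤ k → b j + b (k - j) = h n := by
    intro j hj
    rcases Nat.eq_zero_or_pos j with h0 | h0
    · subst h0
      rw [Nat.sub_zero, hb0, hbk, zero_add]
    · rcases eq_or_lt_of_le hj with h1 | h1
      · subst h1
        rw [Nat.sub_self, hb0, hbk, add_zero]
      · have e1 := hmin j h1 m (n + (k - j : ℕ))
        have e2 := hmin j h1 (m + (k - j : ℕ)) n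
        rw [show n + ((k - j : ℕ) : ℤ) + (j : ℤ) = n + k by
          push_cast [Nat.cast_sub hj]; ring] at e1
        rw [show m + ((k - j : ℕ) : ℤ) + (j : ℤ) = m + k by
          push_cast [Nat.cast_sub hj]; ring] at e2
        have e3 := hab j h0 h1
        have e4 := hab (k - j) (by omega) (by omega)
        simp only [ha, hb] at e3 e4 ⊢
        simp only [hh] at hmn2 ⊢
        omega
  have hwb : ∀ j : ℕ, ω (n + j) = b (j + 1) - b j := by
    intro j
    have h1 := hS (n + j)
    simp only [hb]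
    push_cast
    rw [← add_assoc, h1]
    ring
  have hpalw : ∀ j : ℕ, j < k → ω (n + j) = ω (n + (k - 1 - j : ℕ)) := by
    intro j hj
    rw [hwb, hwb]
    have e1 := hpal j hj.le
    have e2 := hpal (j + 1) hj
    rw [show k - 1 - j + 1 = k - j by omega]
    rw [show k - (j + 1) = k - 1 - j by omega] at e2
    omega
  have hnk : ω (n + k - 1) = 0 := by
    have h1 := hpalw 0 (by omega)
    rw [Nat.cast_zero, add_zero, hn0.1, Nat.sub_zero] at h1
    rw [h1]
    congr 1
    push_cast [Nat.cast_sub hk]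
    ring
  -- the transition at `K = n + k - 1`
  set K : ℤ := n + k - 1 with hK
  have hK1 : ω (K + 1) = 1 := by
    rw [hK, sub_add_cancel]
    exact hn0.2
  have hMK := hM K hnk hK1
  obtain ⟨J, hJ⟩ : ∃ J : ℕ, (J : ℤ) = m - n - 2 := ⟨(m - n - 2).toNat, by omega⟩
  have hR : ∀ j : ℕ, j < J → ω (K + 2 + j) = ω (n + 1 + j) := by
    intro j hj
    have h1 := hper (n + 1 + j) (by omega) (by omega)
    rw [← h1, hK]
    congr 1
    ring
  have hRJ : ω (K + 2 + J) = 1 := by
    rw [← hm1.2, hK]
    congr 1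
    omega
  have hL : ∀ j : ℕ, j + 2 ≤ k → ω (K - 1 - j) = ω (n + 1 + j) := by
    intro j hj
    have h1 := hpalw (j + 1) (by omega)
    rw [show n + 1 + (j : ℤ) = n + ((j + 1 : ℕ) : ℤ) by push_cast; ring, h1, hK]
    congr 1
    rw [show k - 1 - (j + 1) = k - (j + 2) by omega]
    push_cast [Nat.cast_sub hj]
    ring
  by_cases hJk : J + 2 ≤ k
  · -- case A
    have h1 := hMK J (fun i hi => by rw [hR i hi, hL i (by omega)])
    rw [hRJ, hL J hJk, show n + 1 + (J : ℤ) = m - 1 by omega, hm1.1] at h1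
    omega
  · -- case B
    have hex : ∃ j : ℕ, j = J ∨ ω (K + 2 + j) ≠ ω (K - 1 - j) := ⟨J, Or.inl rfl⟩
    classical
    set j₁ := Nat.find hex with hj₁
    have hspec := Nat.find_spec hex
    rw [← hj₁] at hspec
    have hagree : ∀ i : ℕ, i < j₁ → ω (K + 2 + i) = ω (K - 1 - i) := by
      intro i hi
      by_contra hc
      exact Nat.find_min hex hi (Or.inr hc)
    have hj₁J : j₁ ≤ J := Nat.find_min' hex (Or.inl rfl)
    have hj₁k : k ≤ j₁ + 1 := by
      by_contra hc
      rcases hspec with h1 | h1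
      · omega
      · apply h1
        rw [hR j₁ (by omega), hL j₁ (by omega)]
    have hle := hMK j₁ hagree
    -- the two sums
    have hTU : ∀ j : ℕ, j ≤ j₁ → S (K + 2 + j) - S (K + 2) = S K - S (K - j) := by
      intro j
      induction j with
      | zero => intro _; simp
      | succ j ih =>
        intro hj
        have e1 := ih (by omega)
        have e2 := hS (K + 2 + j)
        have e3 := hS (K - 1 - j)
        have e4 := hagree j (by omega)
        rw [show K - 1 - (j : ℤ) + 1 = K - j by ring] at e3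
        push_cast
        rw [show K + 2 + ((j : ℤ) + 1) = K + 2 + j + 1 by ring,
          show K - ((j : ℤ) + 1) = K - 1 - j by ring]
        omega
    have hT1 : S (K + 2 + j₁ + 1) = S (K + 2 + j₁) + ω (K + 2 + j₁) := hS _
    have hU1 : S (K - j₁) = S (K - 1 - j₁) + ω (K - 1 - j₁) := by
      have := hS (K - 1 - j₁)
      rw [show K - 1 - (j₁ : ℤ) + 1 = K - j₁ by ring] at this
      exact this
    have e0 := hTU j₁ le_rfl
    have e1 := hTU (j₁ + 1 - k) (by omega)
    have e2 : K + 2 + ((j₁ + 1 - k : ℕ) : ℤ) = n + 2 + j₁ := by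
      push_cast [Nat.cast_sub hj₁k]
      rw [hK]
      ring
    have e3 : K - ((j₁ + 1 - k : ℕ) : ℤ) = K - 1 - j₁ + k := by
      push_cast [Nat.cast_sub hj₁k]
      ring
    rw [e2, e3] at e1
    have e4 : K + 2 + (j₁ : ℤ) + 1 = n + 2 + j₁ + k := by rw [hK]; ring
    rw [e4] at hT1
    -- heights of the two windows
    have hw : h (K - 1 - j₁) = h (n + 2 + j₁) + (ω (K - 1 - j₁) - ω (K + 2 + j₁)) := by
      simp only [hh]
      omega
    have hbig : h (K - 1 - j₁) - h n ≥ 2 := by
      rcases eq_or_lt_of_le hj₁J with h1 | h1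
      · have h2 : n + 2 + (j₁ : ℤ) = m := by omega
        rw [h2] at hw
        omega
      · have h2 := hmid (n + 2 + j₁) (by omega) (by omega)
        have h3 : ω (K + 2 + j₁) ≠ ω (K - 1 - j₁) := by
          rcases hspec with h4 | h4
          · omega
          · exact h4
        have h4 := h01 (K + 2 + j₁)
        have h5 := h01 (K - 1 - j₁)
        omega
    have hfin := hclose (K - 1 - j₁) n hbig
    rw [hK] at hfin
    omega

/-- complement -/
theorem isW_compl {ω : ℤ → ℤ} (h : IsW ω) : IsW (fun n => 1 - ω n) := by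
  intro n
  show 1 - ω n = 0 ∨ 1 - ω n = 1
  rcases h n with h | h <;> omega

theorem isH_compl {S ω : ℤ → ℤ} (h : IsH S ω) : IsH (fun n => n - S n) (fun n => 1 - ω n) := by
  intro n
  show n + 1 - S (n + 1) = n - S n + (1 - ω n)
  rw [h n]
  ring

/-- **Markoff property implies balanced** -/
theorem bal_of_mp {ω S : ℤ → ℤ} (hW : IsW ω) (hS : IsH S ω) (hM : MP ω)
    (hM' : MP (fun n => 1 - ω n)) : Bal S := by
  classical
  by_contra hcon
  unfold Bal at hcon
  push Not at hcon
  have hex : ∃ k : ℕ, ∃ m n : ℤ, (S (m + k) - S m) - (S (n + k) - S n) ≥ 2 := by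
    obtain ⟨m, n, k, h⟩ := hcon
    exact ⟨k, m, n, by omega⟩
  set k := Nat.find hex with hk
  obtain ⟨m₀, n₀, hmn₀⟩ := Nat.find_spec hex
  rw [← hk] at hmn₀
  have hmin : ∀ k' : ℕ, k' < k → ∀ m n : ℤ, (S (m + k') - S m) - (S (n + k') - S n) ≤ 1 := by
    intro k' hk' m n
    by_contra hc
    exact Nat.find_min hex hk' ⟨m, n, by omega⟩
  have hk1 : 1 ≤ k := by
    by_contra hc
    have h0 : k = 0 := by omega
    rw [h0] at hmn₀
    simp at hmn₀
  have hex2 : ∃ d : ℕ, ∃ m n : ℤ, (S (m + k) - S m) - (S (n + k) - S n) ≥ 2 ∧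
      (m - n).natAbs = d := ⟨_, m₀, n₀, hmn₀, rfl⟩
  obtain ⟨m, n, hmn, hd⟩ := Nat.find_spec hex2
  have hclose : ∀ m' n' : ℤ, (S (m' + k) - S m') - (S (n' + k) - S n') ≥ 2 →
      (m - n).natAbs ≤ (m' - n').natAbs := by
    intro m' n' h'
    rw [hd]
    exact Nat.find_min' hex2 ⟨m', n', h', rfl⟩
  rcases lt_trichotomy n m with h | h | h
  · exact mirror hW hS hM hk1 hmin hmn h hclose
  · subst h
    omega
  · refine mirror (m := n) (n := m) (isW_compl hW) (isH_compl hS) hM' hk1 ?_ ?_ h ?_
    · intro k' hk' a b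
      have := hmin k' hk' b a
      show (a + k' - S (a + k') - (a - S a)) - (b + k' - S (b + k') - (b - S b)) ≤ 1
      omega
    · show (n + k - S (n + k) - (n - S n)) - (m + k - S (m + k) - (m - S m)) ≥ 2
      omega
    · intro a b hab
      have h1 : (S (b + k) - S b) - (S (a + k) - S a) ≥ 2 := by
        have : (a + k - S (a + k) - (a - S a)) - (b + k - S (b + k) - (b - S b)) ≥ 2 := hab
        omega
      have h2 := hclose b a h1
      omega

end Pool.Agent.L3
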